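import Pool.Agent.P.MP_5fda20_pr.W.Vis

/-! Bounds for the Green function, Harnack chains and barriers. -/

namespace Pool.Agent.P.MP_5fda20_pr.W

open Finset U Real

variable {D A T : Finset V} {a b c m x : V} {f g : V → ℝ}

/-- sup distance -/
def dn (a b : V) : ℤ := max (max (a.1 - b.1) (b.1 - a.1)) (max (a.2 - b.2) (b.2 - a.2))

/-- closed square -/
noncomputable def Sb (c : V) (r : ℤ) : Finset V := Icc (c.1 - r) (c.1 + r) ×ˢ Icc (c.2 - r) (c.2 + r)

lemma mem_Sb {r : ℤ} : x ∈ Sb c r ↔ dn x c ≤ r := by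
  simp only [Sb, dn, mem_product, mem_Icc]; omega

lemma dn_nb (h : a ∈ nb b) (c : V) : dn a c ≤ dn b c + 1 ∧ dn b c ≤ dn a c + 1 := by
  rw [mem_nb] at h; unfold dn; omega

lemma sq2_le {r : ℤ} (h : dn x m ≤ r) : sq2 x m ≤ 2 * r ^ 2 := by
  unfold dn at h
  have h1 := sq_le_sq' (show -r ≤ x.1 - m.1 by omega) (show x.1 - m.1 ≤ r by omega)
  have h2 := sq_le_sq' (show -r ≤ x.2 - m.2 by omega) (show x.2 - m.2 ≤ r by omega)
  unfold sq2; linarith

lemma le_sq2 (x m : V) : dn x m ^ 2 ≤ sq2 x m := by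
  unfold sq2
  rcases (by unfold dn; omega : dn x m = x.1 - m.1 ∨ dn x m = -(x.1 - m.1) ∨ dn x m = x.2 - m.2 ∨
    dn x m = -(x.2 - m.2)) with h | h | h | h <;> rw [h] <;> nlinarith

lemma sq2_nn (x m : V) : (0 : ℝ) ≤ sq2 x m := by unfold sq2; positivity

lemma log_sub (x m : V) : 4 * log ((sq2 x m : ℝ) + 1) + 2 * dl x m ≤
    ∑ z ∈ nb x, log ((sq2 z m : ℝ) + 1) := by
  rw [sum_nb]
  by_cases h : x = m
  · subst h
    simp only [sq2, dl_self]
    norm_num
    linarith [log_two_gt_d9]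
  rw [dl_ne h, mul_zero, add_zero, ← log_mul, ← log_mul, ← log_mul,
    show (4 : ℝ) = (4 : ℕ) by norm_num, ← log_pow]
  · refine log_le_log (by have := sq2_nn x m; positivity) ?_
    simp only [sq2]
    push_cast
    obtain ⟨a, ha⟩ : ∃ a : ℝ, a = x.1 - m.1 := ⟨_, rfl⟩
    obtain ⟨b, hb⟩ : ∃ b : ℝ, b = x.2 - m.2 := ⟨_, rfl⟩
    rw [show (x.1 : ℝ) + 1 - m.1 = a + 1 by linarith, show (x.1 : ℝ) - 1 - m.1 = a - 1 by linarith,
      show (x.2 : ℝ) + 1 - m.2 = b + 1 by linarith, show (x.2 : ℝ) - 1 - m.2 = b - 1 by linarith,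
      ← ha, ← hb]
    nlinarith [sq_nonneg (a * b), sq_nonneg a, sq_nonneg b, sq_nonneg (a ^ 2 + b ^ 2)]
  all_goals simp only [sq2]; positivity

lemma G_up {R : ℤ} (h : ∀ v ∈ D, dn v m < R) (hx : dn x m ≤ R) :
    G1 D x m ≤ (log (2 * R ^ 2 + 1) - log ((sq2 x m : ℝ) + 1)) / 2 := by
  have k : ∀ z, dn z m ≤ R → 0 ≤ (log (2 * R ^ 2 + 1) - log ((sq2 z m : ℝ) + 1)) / 2 := by
    intro z hz
    have : (sq2 z m : ℝ) ≤ 2 * R ^ 2 := by exact_mod_cast sq2_le hz
    linarith [log_le_log (by linarith [sq2_nn z m]) (add_le_add_left this 1)]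
  by_cases hx' : x ∈ D
  swap
  · exact (G_off hx' m).trans_le (k x hx)
  have := maxp' D (fun z => G1 D z m - (log (2 * R ^ 2 + 1) - log ((sq2 z m : ℝ) + 1)) / 2)
    (fun v hv z hz hz' => by
      simpa [G_off hz'] using k z (by linarith [h v hv, (dn_nb hz m).1]))
    (fun v hv => by
      rw [sum_sub_distrib, ← sum_div, sum_sub_distrib, sum_nb_const]
      linarith [log_sub v m, G1_eq hv m]) hx'
  linarith

lemma nb_pow (h0 : ∀ v, 0 ≤ f v) (k : ℕ) : ∀ w : V, (∀ v, dn v m ≤ k → ∑ z ∈ nb v, f z ≤ 4 * f v) →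
    (w.1 - m.1).natAbs + (w.2 - m.2).natAbs ≤ k → f w ≤ 4 ^ k * f m := by
  induction k with
  | zero =>
    intro w _ h
    rw [show w = m from Prod.ext (by omega) (by omega)]; simp
  | succ k ih =>
    intro w hs h
    have ih' := fun w => ih w fun v hv => hs v (by push_cast; omega)
    obtain ⟨w', h1, h2⟩ : ∃ w', (w ∈ nb w' ∨ w = w') ∧
        (w'.1 - m.1).natAbs + (w'.2 - m.2).natAbs ≤ k := by
      rcases lt_trichotomy w.1 m.1 with h1 | h1 | h1
      · exact ⟨(w.1 + 1, w.2), Or.inl (mem_nb.mpr (by simp)), by dsimp only; omega⟩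
      · rcases lt_trichotomy w.2 m.2 with h2 | h2 | h2
        · exact ⟨(w.1, w.2 + 1), Or.inl (mem_nb.mpr (by simp)), by dsimp only; omega⟩
        · exact ⟨w, Or.inr rfl, by omega⟩
        · exact ⟨(w.1, w.2 - 1), Or.inl (mem_nb.mpr (by simp)), by dsimp only; omega⟩
      · exact ⟨(w.1 - 1, w.2), Or.inl (mem_nb.mpr (by simp)), by dsimp only; omega⟩
    have h3 : f w ≤ 4 * f w' := by
      rcases h1 with h1 | rfl
      · exact (single_le_sum (fun z _ => h0 z) h1).trans (hs w' (by unfold dn; omega))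
      · linarith [h0 w]
    rw [pow_succ]
    linarith [ih' w' h2]

lemma G_lo {R s : ℤ} (hR : 2 ≤ R) (h : Sb m R ⊆ D) (hs : 1 ≤ s) (hx : dn x m ≤ s) :
    (log (R ^ 2) - log (2 * s ^ 2)) / 3600 ≤ G1 D x m := by
  have hR' : (2 : ℝ) ≤ R := by exact_mod_cast hR
  have hs' : (1 : ℝ) ≤ s := by exact_mod_cast hs
  let N := (Sb m 2).filter fun w => sq2 w m ≤ 4
  have k1 : ∀ z, ∑ w ∈ N, G1 D z w ≤ 400 * G1 D z m := fun z => by
    refine (sum_le_card_nsmul _ _ (16 * G1 D z m) fun w hw => ?_).trans ?_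
    · rw [G1_symm D z, G1_symm D z, show (16 : ℝ) = 4 ^ 2 by norm_num]
      refine nb_pow (f := fun v => G1 D v z) (fun _ => G_nn _ _ _) 2 w
        (fun v hv => G1_super _ _ (h (mem_Sb.mpr (by omega)))) ?_
      have h1 := (mem_filter.mp hw).2
      have h2 := mem_Sb.mp (mem_filter.mp hw).1
      unfold sq2 at h1
      unfold dn at h2
      generalize w.1 = w1 at *
      generalize w.2 = w2 at *
      obtain ⟨a, rfl⟩ : ∃ a, w1 = m.1 + a := ⟨w1 - m.1, by omega⟩
      obtain ⟨b, rfl⟩ : ∃ b, w2 = m.2 + b := ⟨w2 - m.2, by omega⟩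
      simp only [add_sub_cancel_left] at *
      have : -2 ≤ a ∧ a ≤ 2 ∧ -2 ≤ b ∧ b ≤ 2 := by omega
      obtain ⟨_, _, _, _⟩ := this
      interval_cases a <;> interval_cases b <;> omega
    · have : N.card ≤ 25 := (card_filter_le _ _).trans (by
        simp only [Sb, card_product, Int.card_Icc]
        exact Nat.mul_le_mul (n₂ := 5) (m₂ := 5) (by omega) (by omega))
      have : (N.card : ℝ) ≤ 25 := by exact_mod_cast this
      rw [nsmul_eq_mul]
      nlinarith [G_nn D z m]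
  have k2 := maxp wt_one ((Sb m R).filter fun z => sq2 z m ≤ R ^ 2)
    (fun z => log (R ^ 2) - log ((sq2 z m : ℝ) - 1) - 9 * ∑ w ∈ N, G1 D z w) (fun z hz => by
      have c3 : R ^ 2 < sq2 z m := by
        by_contra hc
        refine hz (mem_filter.mpr ⟨mem_Sb.mpr ?_, not_lt.mp hc⟩)
        nlinarith [le_sq2 z m]
      have : log (R ^ 2) ≤ log ((sq2 z m : ℝ) - 1) := log_le_log (by positivity) (by
        exact_mod_cast (by omega : R ^ 2 ≤ sq2 z m - 1))
      linarith [sum_nonneg fun w (_ : w ∈ N) => G_nn D z w]) (fun v hv => by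
      have hv' := h (mem_filter.mp hv).1
      have e : 4 * ∑ w ∈ N, G1 D v w = ∑ w ∈ N, dl v w + ∑ z ∈ nb v, ∑ w ∈ N, G1 D z w := by
        rw [sum_comm, mul_sum, ← sum_add_distrib]
        exact sum_congr rfl fun w _ => G1_eq hv' w
      simp only [one_mul, sum_sub_distrib, sum_nb_const, ← mul_sum]
      by_cases c : 5 ≤ sq2 v m
      · linarith [log_super v m c, sum_nonneg fun w (_ : w ∈ N) => dl_nonneg v w]
      · have c1 : v ∈ N := mem_filter.mpr ⟨mem_Sb.mpr (by nlinarith [le_sq2 v m]), by omega⟩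
        have c2 := single_le_sum (f := fun w => dl v w) (fun w _ => dl_nonneg v w) c1
        have c3 : ∑ z ∈ nb v, log ((sq2 z m : ℝ) - 1) ≤ 4 * (9 / 4) := by
          rw [← sum_nb_const v]
          refine sum_le_sum fun z hz => ?_
          have c4 : sq2 z m ≤ 9 := by
            rw [mem_nb] at hz
            unfold sq2 at *
            rcases hz with ⟨e1, e2 | e2⟩ | ⟨e1, e2 | e2⟩ <;> rw [e1, e2] <;>
              nlinarith [sq_nonneg (v.1 - m.1 - 2), sq_nonneg (v.1 - m.1 + 2),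
                sq_nonneg (v.2 - m.2 - 2), sq_nonneg (v.2 - m.2 + 2), sq_nonneg (v.1 - m.1),
                sq_nonneg (v.2 - m.2)]
          by_cases c5 : sq2 z m ≤ 1
          · have : sq2 z m = 0 ∨ sq2 z m = 1 := by
              have : 0 ≤ sq2 z m := by unfold sq2; positivity
              omega
            rcases this with e | e <;> rw [e] <;> norm_num
          · refine (log_le_log (y := 2 ^ 3) ?_ ?_).trans ?_
            · rw [sub_pos]; exact_mod_cast not_le.mp c5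
            · have : (sq2 z m : ℝ) ≤ 9 := by exact_mod_cast c4
              linarith
            · rw [log_pow]; push_cast; linarith [log_two_lt_d9]
        rw [dl_self] at c2
        linarith [log_int_nonneg (sq2 v m)]) x
  have k3 : log ((sq2 x m : ℝ) - 1) ≤ log (2 * s ^ 2) := by
    have : (sq2 x m : ℝ) ≤ 2 * s ^ 2 := by exact_mod_cast sq2_le hx
    by_cases c5 : sq2 x m ≤ 1
    · have : sq2 x m = 0 ∨ sq2 x m = 1 := by
        have : 0 ≤ sq2 x m := by unfold sq2; positivity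
        omega
      refine le_trans (le_of_eq ?_) (log_nonneg (by nlinarith))
      rcases this with e | e <;> rw [e] <;> norm_num
    · exact log_le_log (by rw [sub_pos]; exact_mod_cast not_le.mp c5) (by linarith)
  linarith [k1 x]

/-- the logarithmic scale -/
def Lg (L : ℝ) (n : ℤ) : Prop := 1 ≤ n ∧ 3000 * log (2 * n ^ 2 + 1) ≤ L

variable {L : ℝ} {n : ℤ}

lemma Lg.ge (h : Lg L n) : 3000 ≤ L := by
  have h1 : (1 : ℝ) ≤ n := by exact_mod_cast h.1
  have : 1 ≤ log (2 * n ^ 2 + 1) := by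
    rw [le_log_iff_exp_le (by positivity)]; nlinarith [exp_one_lt_d9]
  linarith [h.2]

lemma Lg.pos (h : Lg L n) : 0 < L := by linarith [h.ge]

lemma Lg.G (h : Lg L n) (h' : ∀ v ∈ D, dn v m < n) (x : V) : G1 D x m ≤ L / 6000 := by
  refine (G1_le_diag _ _ _).trans ((G_up h' (by have := h.1; unfold dn; omega)).trans ?_)
  simp only [sq2, sub_self]
  norm_num
  linarith [h.2]

lemma harn1 (hL : Lg L n) {t : ℤ} (ht : 1 ≤ t) (ht' : 2 * t < n) (h0 : ∀ v, 0 ≤ f v)
    (hs : ∀ v, dn v b ≤ 2 * t → ∑ z ∈ nb v, f z ≤ 4 * f v) (h : dn a b ≤ t) : f b ≤ L * f a := by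
  have ht0 : (1 : ℝ) ≤ t := by exact_mod_cast ht
  have h1 := hit_le (T := Sb b (2 * t)) (z := b) (a := a) (fun v hv => hs v (mem_Sb.mp hv))
    (fun _ _ w _ => h0 w) (mem_Sb.mpr (by unfold dn; omega)) (mem_Sb.mpr (by omega))
  have h2 := G_lo (m := b) (R := 2 * t) (by omega) Subset.rfl ht h
  have h3 := hL.G (D := Sb b (2 * t)) (m := b) (fun v hv => (mem_Sb.mp hv).trans_lt ht') b
  push_cast at h2
  rw [show (2 * (t : ℝ)) ^ 2 = 2 * (2 * t ^ 2) by ring, log_mul two_ne_zero (by positivity),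
    add_sub_cancel_right] at h2
  nlinarith [mul_le_mul_of_nonneg_left h2 (h0 b), mul_le_mul_of_nonneg_left h3 (h0 a),
    mul_le_mul_of_nonneg_left log_two_gt_d9.le (h0 b), mul_nonneg hL.pos.le (h0 a)]

lemma harn (hL : Lg L n) {t : ℤ} (ht : 1 ≤ t) (ht' : 2 * t < n) (h0 : ∀ v, 0 ≤ f v) (k : ℕ) :
    ∀ b : V, (∀ v : V, min a.1 b.1 - 2 * t ≤ v.1 → v.1 ≤ max a.1 b.1 + 2 * t →
      min a.2 b.2 - 2 * t ≤ v.2 → v.2 ≤ max a.2 b.2 + 2 * t → ∑ z ∈ nb v, f z ≤ 4 * f v) →
      dn a b ≤ k * t → f b ≤ L ^ k * f a := by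
  induction k with
  | zero =>
    intro b _ h
    unfold dn at h
    rw [show b = a from Prod.ext (by omega) (by omega)]; simp
  | succ k ih =>
    intro b hs h
    push_cast at h
    rw [add_mul] at h
    have hk : 0 ≤ (k : ℤ) * t := by positivity
    unfold dn at h
    have h1 := ih (b.1 + max (-t) (min t (a.1 - b.1)), b.2 + max (-t) (min t (a.2 - b.2)))
      (fun v h1 h2 h3 h4 => hs v (by omega) (by omega) (by omega) (by omega))
      (by unfold dn; omega)
    refine (harn1 hL ht ht' h0 (fun v hv => by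
      unfold dn at hv
      exact hs v (by omega) (by omega) (by omega) (by omega)) (by unfold dn; omega)).trans
      ((mul_le_mul_of_nonneg_left h1 hL.pos.le).trans_eq (by ring))

/-- escape in the free direction -/
lemma masson {R : ℤ} {κ M : ℝ} (hR : 0 < R) (hκ : 0 ≤ κ) (hM : 0 ≤ M) (hc : c ∈ T)
    (hT : ∀ v ∈ T, dn v c < R) (h0 : ∀ v, 0 ≤ f v) (h1 : ∀ v, dn v c ≤ R → g v ≤ M)
    (hf : ∀ v ∈ T, ∑ z ∈ nb v, f z ≤ 4 * f v)
    (hg : ∀ v ∈ T, 4 * g v ≤ ∑ z ∈ nb v, g z) (s : ℤ) (hs : s = 1 ∨ s = -1)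
    (hb : ∀ z, z ∉ T → dn z c ≤ R → κ ≤ f z ∨ (g z ≤ 0 ∧ s * (z.1 - c.1) ≤ 0) ∨
      (dn z c = R ∧ 4 * (s * (z.1 - c.1)) ≤ R)) : κ * g c ≤ 6 * M * f c := by
  have hR' : (0 : ℝ) < R := by exact_mod_cast hR
  let φ : V → ℤ := fun z => 3 * (s * (z.1 - c.1)) * R + 2 * (z.1 - c.1) ^ 2 - 2 * (z.2 - c.2) ^ 2
  have := har_le' (D := T) (g := fun z => κ * (M * φ z + R ^ 2 * g z))
    (h := fun z => 6 * R ^ 2 * M * f z) (fun v hv => by
      have : ∑ z ∈ nb v, (φ z : ℝ) = 4 * φ v := by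
        rw [sum_nb]; simp only [φ]; push_cast; ring
      rw [← mul_sum, sum_add_distrib, ← mul_sum, ← mul_sum, this, mul_left_comm]
      refine mul_le_mul_of_nonneg_left ?_ hκ
      nlinarith [mul_le_mul_of_nonneg_left (hg v hv) (sq_nonneg (R : ℝ))])
    (fun v hv => by
      rw [← mul_sum, mul_left_comm]
      exact mul_le_mul_of_nonneg_left (hf v hv) (by positivity))
    (fun x hx z hz hz' => by
      have hd : dn z c ≤ R := by linarith [hT x hx, (dn_nb hz c).1]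
      have h3 := mul_le_mul_of_nonneg_left (h1 z hd) (sq_nonneg (R : ℝ))
      have h4 := mul_nonneg (show (0 : ℝ) ≤ 6 * R ^ 2 * M by positivity) (h0 z)
      obtain ⟨X, hX⟩ : ∃ X, X = s * (z.1 - c.1) := ⟨_, rfl⟩
      have e : φ z = 3 * X * R + 2 * X ^ 2 - 2 * (z.2 - c.2) ^ 2 := by
        simp only [φ, hX]; rcases hs with rfl | rfl <;> ring
      have hX' : -R ≤ X ∧ X ≤ R := by unfold dn at hd; rcases hs with rfl | rfl <;> omega
      rcases hb z hz' hd with h | ⟨h, h'⟩ | ⟨h, h'⟩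
      · have : φ z ≤ 5 * R ^ 2 := by nlinarith [sq_nonneg (z.2 - c.2)]
        have : (φ z : ℝ) ≤ 5 * R ^ 2 := by exact_mod_cast this
        have := mul_le_mul_of_nonneg_left this hM
        refine le_trans (mul_le_mul_of_nonneg_left (show _ ≤ 6 * R ^ 2 * M by linarith) hκ) ?_
        rw [mul_comm]
        exact mul_le_mul_of_nonneg_left h (by positivity)
      · have : φ z ≤ 0 := by nlinarith [sq_nonneg (z.2 - c.2)]
        have : (φ z : ℝ) ≤ 0 := by exact_mod_cast this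
        exact (mul_nonpos_of_nonneg_of_nonpos hκ (by nlinarith [sq_nonneg (R : ℝ)])).trans h4
      · have : φ z ≤ -R ^ 2 := by
          rw [← hX] at h'
          rcases (by unfold dn at h; rcases hs with rfl | rfl <;> omega :
            X = -R ∨ z.2 - c.2 = R ∨ z.2 - c.2 = -R) with h2 | h2 | h2 <;> rw [e, h2] <;> nlinarith
        have : (φ z : ℝ) ≤ -R ^ 2 := by exact_mod_cast this
        have := mul_le_mul_of_nonneg_left this hM
        exact (mul_nonpos_of_nonneg_of_nonpos hκ (by linarith)).trans h4) hc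
  simp only [φ, sub_self, mul_zero, zero_mul] at this
  norm_num at this
  refine le_of_mul_le_mul_left ?_ (show (0 : ℝ) < R ^ 2 by positivity)
  linarith

/-- crossing a square from near its left side -/
lemma cubic {ρ x₀ : ℤ} {κ : ℝ} (hκ : 0 ≤ κ) (h0 : ∀ v, 0 ≤ f v) (h1 : x₀ < c.1) (h2 : c.1 < x₀ + ρ)
    (hf : ∀ v : V, x₀ < v.1 → v.1 < x₀ + ρ → c.2 - ρ < v.2 → v.2 < c.2 + ρ →
      ∑ z ∈ nb v, f z ≤ 4 * f v)
    (hb : ∀ y, c.2 - ρ < y → y < c.2 + ρ → κ ≤ f (x₀ + ρ, y)) :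
    κ * (c.1 - x₀) ≤ 2 * ρ * f c := by
  have hR' : (0 : ℝ) < ρ := by exact_mod_cast (by omega : 0 < ρ)
  let φ : V → ℤ := fun z => (z.1 - x₀) * (ρ ^ 2 + (z.1 - x₀) ^ 2 - 3 * (z.2 - c.2) ^ 2)
  have := har_le' (D := Ioo x₀ (x₀ + ρ) ×ˢ Ioo (c.2 - ρ) (c.2 + ρ)) (g := fun z => κ * φ z)
    (h := fun z => 2 * ρ ^ 3 * f z) (fun v hv => by
      have : ∑ z ∈ nb v, (φ z : ℝ) = 4 * φ v := by
        rw [sum_nb]; simp only [φ]; push_cast; ring
      rw [← mul_sum, this, mul_left_comm])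
    (fun v hv => by
      simp only [mem_product, mem_Ioo] at hv
      rw [← mul_sum, mul_left_comm]
      exact mul_le_mul_of_nonneg_left (hf v hv.1.1 hv.1.2 hv.2.1 hv.2.2) (by positivity))
    (fun x hx z hz hz' => by
      simp only [mem_product, mem_Ioo] at hx hz'
      rw [mem_nb] at hz
      by_cases h : z.1 = x₀ + ρ
      · have h3 := hb z.2 (by omega) (by omega)
        rw [← h] at h3
        have : φ z ≤ 2 * ρ ^ 3 := by
          simp only [φ, h, add_sub_cancel_left]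
          nlinarith [mul_nonneg (show 0 ≤ ρ by omega) (sq_nonneg (z.2 - c.2))]
        have : (φ z : ℝ) ≤ 2 * ρ ^ 3 := by exact_mod_cast this
        nlinarith [mul_le_mul_of_nonneg_left h3 (show (0 : ℝ) ≤ 2 * ρ ^ 3 by positivity)]
      · have : φ z ≤ 0 := by
          rcases (by omega : z.1 = x₀ ∨ (0 ≤ z.1 - x₀ ∧ z.1 - x₀ ≤ ρ ∧
            (z.2 - c.2 = ρ ∨ z.2 - c.2 = -ρ))) with h3 | ⟨h3, h4, h5 | h5⟩
          · simp [φ, h3]
          all_goals exact mul_nonpos_of_nonneg_of_nonpos h3 (by rw [h5]; nlinarith)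
        have : (φ z : ℝ) ≤ 0 := by exact_mod_cast this
        exact (mul_nonpos_of_nonneg_of_nonpos hκ this).trans (mul_nonneg (by positivity) (h0 z)))
    (v := c) (by simp only [mem_product, mem_Ioo]; omega)
  simp only [φ] at this
  push_cast at this
  have h3 : (0 : ℝ) < c.1 - x₀ := by exact_mod_cast (by omega : 0 < c.1 - x₀)
  refine le_of_mul_le_mul_left ?_ (show (0 : ℝ) < ρ ^ 2 by positivity)
  nlinarith [mul_nonneg hκ (pow_pos h3 3).le]

end Pool.Agent.P.MP_5fda20_pr.W
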