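import Pool.Agent.P.MP_5fda20_pr.W.Inv

/-! Anticoncentration of the area. -/

namespace Pool.Agent.P.MP_5fda20_pr.W

open Finset U

variable {D T : Finset V} {a b x y : V} {ρ ρ' t t' n top R : ℤ} {L : ℝ}
  {β β' μ μ' ν γ γ' : List V} {c d : List V × List V} {M k : ℕ}

lemma Sd.lev (h : Sd D y top ρ t c β μ γ) (ht : 0 ≤ t) {v : V} (hv : v ∈ μ) :
    ρ ≤ dn v y ∧ dn v y ≤ ρ + 336 * t := by
  have := ((h.2.1.ends ht).2.2 v hv).dn
  have := dn_tri v (pt y ρ β) y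
  have := h.2.1.rch.pt.2
  omega

lemma Sd.low (h : Sd D y top ρ t c β μ γ) (ht : 0 ≤ t) (h' : ρ + 336 * t < top) :
    ∀ v ∈ β ++ μ, dn v y ≠ top := fun v hv => by
  rcases List.mem_append.mp hv with hv | hv
  · exact (h.2.1.low v hv).ne
  · have := h.lev ht hv; omega

lemma Rel.ev (h : Rel D y top ρ t c d) (hc : IsC D y x c) (ht : 0 ≤ t) (h' : ρ + 336 * t < top)
    (he : Ev y top c) : Ev y top d := by
  rcases h with rfl | ⟨β, μ, μ', γ, a1, a2, a3, -⟩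
  · exact he
  obtain ⟨⟨v, b1, b2⟩, b3⟩ := he
  rw [a1.1] at b1 b3
  rw [(lev_app (a1.low ht h') γ).1] at b3
  rw [Ev, a2.1, (lev_app (a2.low ht h') γ).1, a3]
  refine ⟨⟨v, List.mem_append_right _ ((List.mem_append.mp b1).resolve_left
    fun e => a1.low ht h' v e b2), b2⟩, fun e => ?_⟩
  simp only [List.mem_append] at e b3
  exact e.elim (fun e => e.elim (fun e => b3 (Or.inl (Or.inl e))) fun e =>
    a1.2.2 _ (lst_mem hc.2.ne) ((a2.2.1.ends ht).2.2 _ e)) fun e => b3 (Or.inr e)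

lemma ss_mid (g : V → V → ℤ) (h : IsQ T a b ν) (β γ : List V) :
    ss g (β ++ ν ++ γ) = ss g (β ++ [a]) + ss g ν + ss g (b :: γ) := by
  obtain ⟨r, s, e1, e2⟩ := glue_congr h
  have a1 := ss_glue g a r β
  have a2 := ss_glue g b γ (β ++ s)
  rw [← e1] at a1
  rw [List.append_assoc β s [b], ← e2, a1] at a2
  rw [← a2, e2]
  simp

lemma Sd.wn (h : Sd D y top ρ t c β μ γ) (hc : IsC D y x c) (ht : 0 ≤ t) (h' : ρ + 336 * t < top)
    (he : Ev y top c) : ∃ C : V → ℤ, ∀ ν, IsQ (Tf y ρ t β γ) (μ.headD y) (lst μ) ν → ∀ F,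
      Wn x y (β ++ ν ++ γ, c.2) F = Lp ν F + C F := by
  have b3 := he.2
  rw [h.1, (lev_app (h.low ht h') γ).1] at b3
  obtain ⟨g, g1, g2⟩ : ∃ g, g ≠ [] ∧ ∀ l, lst c.2 ∉ l → (sw (l ++ γ, c.2)).2 = l ++ g := by
    refine ⟨(sw (γ, c.2)).2, ?_, fun l hl => ?_⟩
    · obtain ⟨z, γ, rfl⟩ := List.exists_cons_of_ne_nil (h.ne hc ht)
      by_cases e : z = lst c.2 <;> simp [sw, e]
    · have : ∀ v ∈ l, (decide (v ≠ lst c.2)) = true := fun v hv => by
        simpa using fun e : v = lst c.2 => hl (e ▸ hv)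
      simp only [sw, List.takeWhile_append_of_pos this, List.dropWhile_append_of_pos this,
        List.append_assoc]
  refine ⟨fun F => ell x y F + Lp (β ++ [μ.headD y]) F + Lp (lst μ :: g) F - Lp c.2 F -
    kp (lst g) F + kp (lst c.2) F, fun ν hν F => ?_⟩
  rw [Wn, g2 _ fun e => (List.mem_append.mp e).elim (fun e => b3 (by simp [e])) fun e =>
    h.2.2 _ (lst_mem hc.2.ne) (mem_Tf.mp (hν.sub _ e)).1, lst_app _ g1, Lp, ss_mid _ hν]
  simp only [Lp]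
  ring

lemma Xf_image {α α' : Type*} [DecidableEq α'] {P : Finset α} {i : α → α'} {v : α → ℝ}
    {v' : α' → ℝ} {φ : α → ℤ} {φ' : α' → ℤ} (hi : Set.InjOn i P)
    (h : ∀ d ∈ P, v' (i d) = v d ∧ φ' (i d) = φ d) : Xf M (P.image i) v' φ' k = Xf M P v φ k := by
  rw [Xf, Xf, sum_image hi, sum_image hi, sum_congr rfl fun d hd => (h d hd).1,
    sum_congr rfl fun d hd => by rw [(h d hd).1, (h d hd).2]]

/-- the area swept by a piece of the curve -/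
noncomputable def ar (n : ℤ) (s : V) (ν : List V) : ℤ := ∑ F ∈ Fc n, (Lp ν F - Lp ν s)

lemma Sd.X (h : Sd D y top ρ t c β μ γ) (hc : IsC D y x c) (ht : 0 ≤ t) (h' : ρ + 336 * t < top)
    (he : Ev y top c) : Xf M (fb D y x top ρ t c) (vl D y ρ R)
      (fun e => Ar n x y e - Ar n x y c) k = Xf M (PP (Tf y ρ t β γ) (μ.headD y) (lst μ))
        (Zm (Om D (pt y ρ β) R (β ++ γ ++ c.2))) (fun ν => ar n (lf y x) ν - ar n (lf y x) μ) k := by
  obtain ⟨C, hC⟩ := h.wn hc ht h' he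
  rw [h.fb_eq hc ht]
  refine Xf_image (fun ν _ ν' _ e => by simpa using e) fun ν hν => ⟨vl_eq h.2.1.rch _, ?_⟩
  conv_lhs => rw [show c = (β ++ μ ++ γ, c.2) from Prod.ext h.1 rfl]
  simp only [Ar, ar, hC ν (mem_PP.mp hν), hC μ (h.isQ hc ht), ← sum_sub_distrib]
  exact sum_congr rfl fun F _ => by ring

lemma pt_swap {l r : List V} (h : ∀ v ∈ μ, dn v y ≠ ρ) (h' : ∀ v ∈ μ', dn v y ≠ ρ)
    (hr : Rch y ρ (l ++ μ ++ r)) :
    Rch y ρ (l ++ μ' ++ r) ∧ pt y ρ (l ++ μ' ++ r) = pt y ρ (l ++ μ ++ r) := by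
  by_cases e : Rch y ρ l
  · rw [List.append_assoc, List.append_assoc, (e.app _).2.2, (e.app _).2.2]
    exact ⟨e.mono _, rfl⟩
  · have e' : ∀ v ∈ l, dn v y ≠ ρ := fun v a b => e ⟨v, a, b⟩
    obtain ⟨v, a, b⟩ := hr
    rw [(lev_app (List.forall_mem_append.mpr ⟨e', h⟩) _).2.2,
      (lev_app (List.forall_mem_append.mpr ⟨e', h'⟩) _).2.2]
    simp only [List.mem_append] at a
    exact ⟨⟨v, List.mem_append_right _ (a.resolve_left fun a =>
      a.elim (fun a => e' v a b) fun a => h v a b), b⟩, rfl⟩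

lemma Sd.inv (h : Sd D y top ρ t c β μ γ) (hr : Rel D y top ρ' t' c d) (ht : 0 ≤ t) (ht' : 0 ≤ t')
    (hR : 336 * t ≤ R) (hs : ρ' + 336 * t' + R < ρ ∨ ρ + R < ρ') (h' : ρ' + 336 * t' < top) :
    ∃ β' γ', Sd D y top ρ t d β' μ γ' ∧ d.2 = c.2 ∧ pt y ρ β' = pt y ρ β ∧
      ∀ v, dn v (pt y ρ β) ≤ R → (v ∈ β' ++ γ' ↔ v ∈ β ++ γ) := by
  rcases hr with rfl | ⟨l, ν, ν', r, a1, a2, a3, -⟩
  · exact ⟨β, γ, h, rfl, rfl, fun _ _ => Iff.rfl⟩
  have k : ∀ {e ν}, Sd D y top ρ' t' e l ν r → ∀ v ∈ ν, R < dn v (pt y ρ β) ∧ dn v y ≠ ρ ∧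
      dn v y < top ∧ ¬ Qs t (lq y ρ β v) := fun a v hv => by
    have b1 := a.lev ht' hv
    have b2 := dn_tri v (pt y ρ β) y
    have b3 := dn_tri (pt y ρ β) v y
    have b4 := h.2.1.rch.pt.2
    rw [dn_comm _ v] at b3
    refine ⟨by omega, by omega, by omega, fun e => ?_⟩
    have := (show Wv y ρ t β v by unfold Qs at e; unfold Wv Ws; omega).dn.1
    omega
  obtain ⟨⟨_, _, b1, -⟩, -, b2⟩ := h.2.1.ends ht
  obtain ⟨⟨_, _, b3, -⟩, -⟩ := a1.2.1.ends ht'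
  rcases infix_disj (h.1.symm.trans a1.1) (by simp [b1]) (by simp [b3]) fun v a b => by
    have := (b2 v a).dn.1; have := (k a1 v b).1; omega with ⟨δ, rfl, rfl⟩ | ⟨δ, rfl, rfl⟩
  · refine ⟨β, δ ++ ν' ++ r, ⟨by simp [a2.1], ⟨h.2.1.rch, h.2.1.low, h.2.1.bef, h.2.1.mid,
      fun v hv => ?_, h.2.1.ins⟩, a3 ▸ h.2.2⟩, a3, rfl, fun v hv => ?_⟩
    · by_cases e : v ∈ ν'
      · exact (k a2 v e).2.2.2
      · exact h.2.1.aft v (by simp only [List.mem_append] at hv ⊢; tauto)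
    · have : v ∉ ν := fun e => by have := (k a1 v e).1; omega
      have : v ∉ ν' := fun e => by have := (k a2 v e).1; omega
      simp only [List.mem_append]; tauto
  · obtain ⟨p1, p2⟩ := pt_swap (fun v hv => (k a1 v hv).2.1) (fun v hv => (k a2 v hv).2.1) h.2.1.rch
    have p3 : lq y ρ (l ++ ν' ++ δ) = lq y ρ (l ++ ν ++ δ) := by rw [lq, p2, lq]
    refine ⟨l ++ ν' ++ δ, γ, ⟨by simp [a2.1], ⟨p1, fun v hv => ?_, fun v hv => ?_, p3 ▸ h.2.1.mid,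
      p3 ▸ h.2.1.aft, p2 ▸ h.2.1.ins⟩, fun v hv => by
        rw [Wv, p3]; exact h.2.2 v (a3 ▸ hv)⟩, a3, p2, fun v hv => ?_⟩
    · by_cases e : v ∈ ν'
      · exact (k a2 v e).2.2.1
      · exact h.2.1.low v (by simp only [List.mem_append] at hv ⊢; tauto)
    · rw [p3]
      by_cases e : v ∈ ν'
      · exact (k a2 v e).2.2.2
      · exact h.2.1.bef v (by simp only [List.mem_append] at hv ⊢; tauto)
    · have : v ∉ ν := fun e => by have := (k a1 v e).1; omega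
      have : v ∉ ν' := fun e => by have := (k a2 v e).1; omega
      simp only [List.mem_append]; tauto

lemma X_inv (hc : c ∈ CC D y x) (hd : d ∈ fb D y x top ρ' t' c) (ht : 0 ≤ t) (ht' : 0 ≤ t')
    (hR : 336 * t ≤ R) (hs : ρ' + 336 * t' + R < ρ ∨ ρ + R < ρ') (h1 : ρ + 336 * t < top)
    (h' : ρ' + 336 * t' < top) (he : Ev y top c) :
    Xf M (fb D y x top ρ t d) (vl D y ρ R) (fun e => Ar n x y e - Ar n x y d) k =
      Xf M (fb D y x top ρ t c) (vl D y ρ R) (fun e => Ar n x y e - Ar n x y c) k := by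
  obtain ⟨hd, hr⟩ := mem_fb.mp hd
  by_cases h : AcC D y top ρ t c
  · obtain ⟨β, μ, γ, h⟩ := acC_iff.mp h
    obtain ⟨β', γ', a1, a2, a3, a4⟩ := h.inv hr ht ht' hR hs h'
    rw [h.X (mem_CC.mp hc) ht h1 he, a1.X (mem_CC.mp hd) ht h1 (hr.ev (mem_CC.mp hc) ht' h' he),
      a2, a3]
    congr 2
    · ext v
      simp only [mem_Tf, ← not_or, ← List.mem_append]
      rw [show Wv y ρ t β' v = Wv y ρ t β v by rw [Wv, Wv, lq, lq, a3]]
      exact and_congr_right fun e => not_congr (a4 v (e.dn.1.trans hR))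
    · ext v
      simp only [Om, mem_inter, mem_sdiff, List.mem_toFinset, mem_Sb, List.mem_append (s := _ ++ _)]
      exact and_congr_left fun e => by rw [a4 v e]
  · have h2 : ¬ AcC D y top ρ t d := fun e => by
      obtain ⟨β, μ, γ, e⟩ := acC_iff.mp e
      obtain ⟨β', γ', a1, -⟩ := e.inv hr.symm ht ht' hR hs h'
      exact h (acC_iff.mpr ⟨_, _, _, a1⟩)
    have k : ∀ c, (vl D y ρ R c : ℂ) ≠ 0 := fun c => Complex.ofReal_ne_zero.mpr (Zm_pos _ _).ne'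
    rw [fb_not h hc, fb_not h2 hd]
    simp [Xf, div_self (k _)]

lemma lc_ell (y p : V) : ∃ s δ : ℤ, (s = 1 ∨ s = -1) ∧ (δ = 0 ∨ δ = -1) ∧ ∀ F, ∃ P : V → ℤ,
    ∀ u v, v ∈ nb u → ell u v F =
      0 + s * ell (lc y p u) (lc y p v) (lc y p F + (δ, 0)) + P u - P v := by
  rcases lc_cases y p with ⟨-, h⟩ | ⟨-, h⟩ | ⟨-, h⟩ | ⟨-, h⟩
  · refine ⟨1, 0, by simp, by simp, fun F => ⟨fun _ => 0, fun u v e => ?_⟩⟩
    rw [mem_nb] at e
    simp only [h, ell, Prod.mk_add_mk]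
    split_ifs <;> omega
  · refine ⟨-1, -1, by simp, by simp, fun F => ⟨fun _ => 0, fun u v e => ?_⟩⟩
    rw [mem_nb] at e
    simp only [h, ell, Prod.mk_add_mk]
    split_ifs <;> omega
  · refine ⟨-1, 0, by simp, by simp, fun F =>
      ⟨fun w => if w.1 ≤ F.1 ∧ w.2 ≤ F.2 then 1 else 0, fun u v e => ?_⟩⟩
    rw [mem_nb] at e
    simp only [h, ell, Prod.mk_add_mk]
    split_ifs <;> omega
  · refine ⟨1, -1, by simp, by simp, fun F =>
      ⟨fun w => if w.1 ≤ F.1 ∧ w.2 ≤ F.2 then 1 else 0, fun u v e => ?_⟩⟩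
    rw [mem_nb] at e
    simp only [h, ell, Prod.mk_add_mk]
    split_ifs <;> omega

lemma IsQ.map {e : V ≃ V} (he : ∀ u v, v ∈ nb u → e v ∈ nb (e u)) (h : IsQ T a b μ) :
    IsQ (T.map e.toEmbedding) (e a) (e b) (μ.map e) :=
  ⟨by simp [h.hd], List.isChain_map_of_isChain e he h.ch, h.nd.map e.injective, fun v hv => by
    obtain ⟨w, a, rfl⟩ := List.mem_map.mp hv
    exact mem_map_of_mem _ (h.sub w a), by rw [lst_map _ h.ne, h.en]⟩

lemma aut_iff {e : V ≃ V} (he : Aut e) (u v : V) : e v ∈ nb (e u) ↔ v ∈ nb u := by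
  rw [he u]; exact mem_map' _

lemma Zm_aut {e : V ≃ V} (he : Aut e) (Ω : Finset V) (μ : List V) :
    Zm (Ω.map e.toEmbedding) (μ.map e) = Zm Ω μ := by
  rw [Zm, Zm, ← Z_aut he (Ω \ _)]
  congr 1
  ext v
  obtain ⟨v, rfl⟩ := e.surjective v
  simp

lemma X_le {m : ℕ} (h : Sd (Dm (m + 1 : ℕ) 1) y top ρ t c β μ γ)
    (hc : IsC (Dm (m + 1 : ℕ) 1) y x c) (hy : y ∈ Dm (m + 1 : ℕ) 1) (hx : x ∈ nb y) (ht : 1 ≤ t)
    (h' : ρ + 336 * t < top) (he : Ev y top c) (hR : 700 * t ≤ R) (hρ : R ≤ ρ)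
    (hn : R ≤ (m + 1 : ℕ)) (hL : Lg L (m + 1 : ℕ)) (hL' : Big L) (hM : 0 < M) (hk : Fq M k t) :
    ‖Xf M (fb (Dm (m + 1 : ℕ) 1) y x top ρ t c) (vl (Dm (m + 1 : ℕ) 1) y ρ R)
      (fun e => Ar (m + 1 : ℕ) x y e - Ar (m + 1 : ℕ) x y c) k‖ ≤ 1 - 1 / L ^ 1124 := by
  have ht0 : 0 ≤ t := by omega
  obtain ⟨C, hC⟩ := h.wn hc ht0 h' he
  rw [h.X hc ht0 h' he]
  obtain ⟨s, δ, hs, hδ, hP⟩ := lc_ell y (pt y ρ β)
  have ha := lc_aut y (pt y ρ β)
  have hq := h.isQ hc ht0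
  have hm := h.2.1.mid
  rw [Mid, List.head?_map, hq.hd, lst_map _ hq.ne] at hm
  have h2 := fun ν hν => (two (h.splice (ν := ν) hc ht0 hν).1 hy hx (Ev.gd (Rel.ev (Or.inr
    ⟨β, μ, ν, γ, h, (h.splice hc ht0 hν).2, rfl, hν.hd.trans hq.hd.symm, hν.en⟩) hc ht0 h' he)
      (h.splice hc ht0 hν).1 hx (by omega))).2
  generalize μ.headD y = a at *
  generalize lst μ = b at *
  change Aut (lq y ρ β) at ha
  have e0 : ∀ ν : List V, (ν.map (lq y ρ β)).map (lq y ρ β).symm = ν := fun ν => by simp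
  have e1 : ∀ ν, IsQ ((Tf y ρ t β γ).map (lq y ρ β).toEmbedding) (lq y ρ β a) (lq y ρ β b) ν →
      ∃ ν', IsQ (Tf y ρ t β γ) a b ν' ∧ ν'.map (lq y ρ β) = ν := fun ν hν => ⟨ν.map (lq y ρ β).symm,
    by simpa [map_map] using hν.map (e := (lq y ρ β).symm) fun u v e =>
      (aut_iff ha _ _).mp (by simpa using e), by simp⟩
  rw [← Xf_image (i := List.map (lq y ρ β)) (v' := Zm ((Om (Dm (m + 1 : ℕ) 1) (pt y ρ β) R
      (β ++ γ ++ c.2)).map (lq y ρ β).toEmbedding)) (φ' := fun ν => ar (m + 1 : ℕ) (lf y x)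
      (ν.map (lq y ρ β).symm) - ar (m + 1 : ℕ) (lf y x) μ)
      (List.map_injective_iff.mpr (lq y ρ β).injective).injOn
      fun ν _ => ⟨Zm_aut ha _ _, by rw [e0]⟩,
    show image _ _ = PP ((Tf y ρ t β γ).map (lq y ρ β).toEmbedding) (lq y ρ β a) (lq y ρ β b) from
      ext fun ν => by
        simp only [mem_image, mem_PP]
        exact ⟨fun ⟨ν', a, b⟩ => b ▸ a.map fun u v => (aut_iff ha u v).mpr, e1 ν⟩]
  refine spread ⟨ht, by omega, fun v => ?_, fun v hv => ?_, by simpa using hm.1, hm.2.1,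
    fun u a v b => ?_⟩ hL hL' hM hk fun ν ν' a1 a2 => ?_
  · obtain ⟨v, rfl⟩ := (lq y ρ β).surjective v
    simp only [mem_map_equiv, Equiv.symm_apply_apply, mem_Tf, Om, mem_inter, mem_sdiff, mem_Sb,
      List.mem_toFinset, List.mem_append, not_or]
    exact ⟨fun e => ⟨⟨⟨h.2.1.inD ht0 e.1, e.2, fun e' => h.2.2 v e' e.1⟩, by
      have := e.1.dn.1; omega⟩, e.1⟩, fun e => ⟨e.2, e.1.1.2.1⟩⟩
  · obtain ⟨v, rfl⟩ := (lq y ρ β).surjective v
    simp only [mem_map_equiv, Equiv.symm_apply_apply, mem_Tf]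
    exact ⟨by unfold Qs at hv; unfold Wv Ws; omega, fun e => h.2.1.bef v e hv,
      fun e => h.2.1.aft v e hv⟩
  · obtain ⟨u, a1, rfl⟩ := mem_map.mp a
    obtain ⟨v, b1, rfl⟩ := mem_map.mp b
    have a2 := mem_Dm.mp (mem_sdiff.mp (mem_inter.mp a1).1).1
    have b2 := mem_Dm.mp (mem_sdiff.mp (mem_inter.mp b1).1).1
    refine (lc_dn y _ u v).trans_lt ?_
    unfold dn; omega
  obtain ⟨ν, b1, rfl⟩ := e1 ν a1
  obtain ⟨ν', b2, rfl⟩ := e1 ν' a2
  let f : V ≃ V := (lq y ρ β).trans (Equiv.addRight (δ, 0))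
  have k1 : ∀ F, Lp ν' F - Lp ν F =
      s * (Lp (ν'.map (lq y ρ β)) (f F) - Lp (ν.map (lq y ρ β)) (f F)) := fun F => by
    obtain ⟨P, hP⟩ := hP F
    have := fun ν (b : IsQ (Tf y ρ t β γ) a b ν) => ss_lin (g := fun u v => ell u v F)
      (g' := fun _ _ => 0) (g'' := fun u v => ell (lq y ρ β u) (lq y ρ β v) (f F)) s P ν a b.hd
      (b.ch.imp hP)
    simp only [Lp, ss_map, this ν b1, this ν' b2, b1.en, b2.en,
      ss_zero (g := fun _ _ => 0) _ (b1.ch.imp fun _ _ _ => rfl),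
      ss_zero (g := fun _ _ => 0) _ (b2.ch.imp fun _ _ _ => rfl)]
    ring
  have k2 : ∀ F, f F ∉ Rw t → Lp ν' F - Lp ν F = 0 := fun F hF => by
    rw [k1, Lp_off a2 a1 (fun v hv => by
      obtain ⟨v, a, rfl⟩ := mem_map.mp hv
      exact (mem_Tf.mp a).1) hF, sub_self, mul_zero]
  have k3 : ∀ F, f F ∈ Rw t → dn F (pt y ρ β) ≤ 336 * t + 1 := fun F hF => by
    rw [← lc_dn0 y]
    rw [Rw, mem_Rt] at hF
    simp only [f, Equiv.trans_apply, Equiv.coe_addRight, Prod.fst_add, Prod.snd_add, lq] at hF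
    unfold dn; omega
  have k4 : ∀ F, f F ∈ Rw t → F ∈ Fc (m + 1 : ℕ) := fun F hF => by
    have := mem_Dm.mp (h.2.1.ins (mem_Sb.mpr ((k3 F hF).trans (by omega))))
    rw [mem_Fc]; omega
  have k5 := k2 (lf y x) fun e => by
    have a1 := k3 _ e
    have a2 := dn_tri (pt y ρ β) (lf y x) y
    have a3 : dn (lf y x) y ≤ 1 := by
      rcases lf_cases hx with ⟨-, a, -⟩ | ⟨-, a, -⟩ | ⟨-, a, -⟩ | ⟨-, a, -⟩ <;> rw [a] <;>
        simp only [dn] <;> omega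
    rw [h.2.1.rch.pt.2, dn_comm] at a2
    omega
  refine ⟨?_, fun F hF => ?_⟩
  · have : ar (m + 1 : ℕ) (lf y x) ν' - ar (m + 1 : ℕ) (lf y x) ν =
        s * (al t (ν'.map (lq y ρ β)) - al t (ν.map (lq y ρ β))) := by
      rw [ar, ar, al, al, ← sum_sub_distrib, ← sum_sub_distrib, mul_sum, sum_congr
        (g := fun F => Lp ν' F - Lp ν F) rfl fun F _ => by omega,
        ← sum_subset (s₁ := (Rw t).map f.symm.toEmbedding) (fun F hF => k4 F (by simpa using hF))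
          fun F _ hF => k2 F (by simpa using hF), sum_map]
      exact sum_congr rfl fun F _ => by simp [k1]
    rw [e0, e0, sub_sub_sub_cancel_right, abs_sub_comm, this, abs_mul]
    rcases hs with rfl | rfl <;> simp
  · obtain ⟨F, rfl⟩ := f.surjective F
    have a3 := h2 ν b1 F (k4 F hF)
    have a4 := h2 ν' b2 F (k4 F hF)
    rw [hC ν b1, hC ν b1] at a3
    rw [hC ν' b2, hC ν' b2] at a4
    have a5 := k1 F
    rw [abs_le]
    rcases hs with rfl | rfl <;> omega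

lemma ex_Fq {J : ℕ} (h0 : 0 < k) (h1 : k < 147456 * 4 ^ J) :
    ∃ i ≤ J, Fq (147456 * 4 ^ J) k (2 ^ i : ℕ) := by
  obtain ⟨k', a1, a2, a3⟩ : ∃ k' : ℤ, (k' = k ∨ k' = (147456 * 4 ^ J : ℕ) - k) ∧ 1 ≤ k' ∧
      2 * k' ≤ (147456 * 4 ^ J : ℕ) := by
    generalize 147456 * 4 ^ J = M at *
    exact ⟨min k (M - k), by omega, by omega, by omega⟩
  by_cases e : ((147456 * 4 ^ J : ℕ) : ℤ) ≤ 147456 * k'
  · exact ⟨0, by omega, k', a1, by omega, Or.inr ⟨rfl, a3, e⟩⟩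
  have key : ∀ N : ℕ, ∃ i ≤ N, 147456 * (k' * 4 ^ i) ≤ (147456 * 4 ^ J : ℕ) ∧
      (i = N ∨ ((147456 * 4 ^ J : ℕ) : ℤ) ≤ 147456 * (k' * 4 ^ (i + 1))) := fun N => by
    induction N with
    | zero => exact ⟨0, le_rfl, by omega, Or.inl rfl⟩
    | succ N ih =>
      obtain ⟨i, b1, b2, rfl | b3⟩ := ih
      · rcases le_total (147456 * (k' * 4 ^ (i + 1))) (147456 * 4 ^ J : ℕ) with b | b
        exacts [⟨i + 1, le_rfl, b, Or.inl rfl⟩, ⟨i, by omega, b2, Or.inr b⟩]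
      · exact ⟨i, by omega, b2, Or.inr b3⟩
  obtain ⟨i, b1, b2, b3⟩ := key J
  have e4 : (((2 ^ i : ℕ) : ℤ)) ^ 2 = 4 ^ i := by push_cast; rw [← pow_mul, mul_comm, pow_mul]; rfl
  refine ⟨i, b1, k', a1, by omega, Or.inl ⟨by rw [e4]; linarith, ?_⟩⟩
  rw [e4]
  rcases b3 with rfl | b3
  · push_cast
    nlinarith [pow_pos (show (0 : ℤ) < 4 by norm_num) i]
  · rw [pow_succ] at b3; linarith

lemma sep {R I i i' l l' : ℕ} (hR : 0 < R) (hl : l < I) (h : i < i' ∨ (i = i' ∧ l < l')) :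
    lv (R * 2 ^ i) I l + (R * 2 ^ i : ℕ) + (R * 2 ^ i' : ℕ) < lv (R * 2 ^ i') I l' := by
  have h0 : 0 < R * 2 ^ i := by positivity
  rcases h with h | ⟨rfl, h⟩
  · have h1 : 2 * (R * 2 ^ i) ≤ R * 2 ^ i' := by
      rw [mul_left_comm, ← pow_succ']
      exact Nat.mul_le_mul_left _ (Nat.pow_le_pow_right (by omega) h)
    generalize R * 2 ^ i = A at *
    generalize R * 2 ^ i' = B at *
    have h2 : (l : ℤ) + 1 ≤ I := by exact_mod_cast hl
    have h3 : 2 * (A : ℤ) ≤ B := by exact_mod_cast h1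
    have h4 : (0 : ℤ) < A := by exact_mod_cast h0
    unfold lv
    nlinarith [mul_nonneg (sub_nonneg.mpr h3) (show (0 : ℤ) ≤ I - 1 by omega),
      mul_nonneg h4.le (sub_nonneg.mpr h2), mul_nonneg (Nat.cast_nonneg (α := ℤ) B)
        (Nat.cast_nonneg (α := ℤ) l')]
  · have := lv_lt (R := R * 2 ^ i) (I := I) h
    omega

theorem anti {m K j I J : ℕ} (hB : Beu K) (hK : 1 ≤ K) (hI : 1 ≤ I)
    (h1 : (I : ℝ) * (1 / 2 ^ j) ≤ 1 / 4)
    (h2 : 16 * I ^ 2 * L ^ 76 / 2 ^ j ≤ 1 / L ^ 1124 / L ^ 2100 / 2)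
    (h3 : ((J + 1) * I : ℕ) * (L ^ 2 / 4 ^ j) ≤ 1) (h4 : lv (K ^ j * 1000 * 2 ^ J) I I ≤ top)
    (h5 : top ≤ (m + 1 : ℕ)) (hL : Lg L (m + 1 : ℕ)) (hL' : Big L) (hy : y ∈ Dm (m + 1 : ℕ) 1)
    (hx : x ∈ nb y) (A : ℤ) : ∑ c ∈ CC (Dm (m + 1 : ℕ) 1) y x, wt (Dm (m + 1 : ℕ) 1) c *
      chi (Ev y top c ∧ Ar (m + 1 : ℕ) x y c = A) ≤
      3 * ((∑ c ∈ CC (Dm (m + 1 : ℕ) 1) y x, wt (Dm (m + 1 : ℕ) 1) c * chi (Ev y top c)) /
        (147456 * 4 ^ J) + 4 * (1 - 1 / L ^ 1124 / L ^ 2100 / 2) ^ I * Z (Dm (m + 1 : ℕ) 1)) := by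
  classical
  set D := Dm (m + 1 : ℕ) 1 with hD
  have hn : ∀ u ∈ D, ∀ v ∈ D, dn u v < (m + 1 : ℕ) := fun u a v b => by
    rw [mem_Dm] at a b; unfold dn; omega
  have R0 : 0 < K ^ j * 1000 := by positivity
  have hP : ∀ i, Par K j (2 ^ i) (K ^ j * 1000 * 2 ^ i) I := fun i =>
    ⟨hB, hK, Nat.one_le_two_pow, (mul_assoc _ _ _).ge, hI, h1⟩
  have g1 : ∀ i ≤ J, lv (K ^ j * 1000 * 2 ^ i) I I ≤ top := fun i hi => le_trans (by
    unfold lv
    exact mul_le_mul_of_nonneg_right (by exact_mod_cast Nat.mul_le_mul_left _ (Nat.mul_le_mul_left _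
      (Nat.pow_le_pow_right (by omega) hi))) (by positivity)) h4
  have g2 : ∀ i ∈ range (J + 1) ×ˢ range I, (1000 * (2 ^ i.1 : ℕ) ≤ ((K ^ j * 1000 * 2 ^ i.1 : ℕ) : ℤ)
      ∧ 1 ≤ 2 ^ i.1) ∧ 4 * ((K ^ j * 1000 * 2 ^ i.1 : ℕ) : ℤ) ≤ lv (K ^ j * 1000 * 2 ^ i.1) I i.2 ∧
      lv (K ^ j * 1000 * 2 ^ i.1) I i.2 + 4 * (K ^ j * 1000 * 2 ^ i.1 : ℕ) ≤ top := fun i hi => by
    rw [mem_product, mem_range, mem_range] at hi
    exact ⟨⟨by exact_mod_cast (hP _).le, (hP _).ht⟩, lv_ge hI _,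
      (lv_lt hi.2).trans (g1 _ (by omega))⟩
  have L0 := hL.pos
  have L1 : 2 ≤ L ^ 1124 := le_trans (by linarith [hL.ge]) (le_self_pow₀ (by linarith [hL.ge])
    (by norm_num))
  have L2 : 1 / L ^ 1124 ≤ 1 / 2 := one_div_le_one_div_of_le two_pos L1
  have L3 : 0 < 1 / L ^ 1124 := by positivity
  have hM : 0 < 147456 * 4 ^ J := by positivity
  have hv : ∀ ρ R (s : Finset (List V × List V)), ∀ d ∈ s, 0 ≤ vl D y ρ R d := fun _ _ _ _ _ =>
    (Zm_pos _ _).le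
  refine (resample (range (J + 1) ×ˢ range I) (η := Real.exp (L ^ 2 / 4 ^ j))
    (fb := fun i => fb D y x top (lv (K ^ j * 1000 * 2 ^ i.1) I i.2) (2 ^ i.1 : ℕ))
    (v := fun i => vl D y (lv (K ^ j * 1000 * 2 ^ i.1) I i.2) (K ^ j * 1000 * 2 ^ i.1 : ℕ)) hM
    (Real.exp_pos _).le (fun c _ => (wt_pos _ _).le) (fun i hi => ?_) (fun i hi c hc d hd => ?_)
    (fun i hi l hl e c hc he d hd k => ?_) A).trans (mul_le_mul ?_ ?_ ?_ (by norm_num))
  · have := g2 i hi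
    exact fib (hP _) hn hL (by omega) (by omega)
  · have := g2 i hi
    exact (mem_fb.mp hd).2.ev (mem_CC.mp hc) (by omega) (by omega)
  · have a1 := g2 i hi
    have a2 := g2 l hl
    refine X_inv hc hd (by omega) (by omega) (by omega) ?_ (by omega) (by omega) he
    rw [mem_product, mem_range, mem_range] at hi hl
    rw [Ne, Prod.ext_iff] at e
    by_cases a : i.1 < l.1 ∨ (i.1 = l.1 ∧ i.2 < l.2)
    · have := sep R0 hi.2 a; omega
    · have := sep (i := l.1) (i' := i.1) (l' := i.2) R0 hl.2 (by omega); omega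
  · rw [← Real.exp_nat_mul, card_product, card_range, card_range]
    exact (Real.exp_le_exp.mpr h3).trans (Real.exp_one_lt_d9.le.trans (by norm_num))
  · have hM' : (0 : ℝ) < (147456 * 4 ^ J : ℕ) := by exact_mod_cast hM
    have hB0 : 0 ≤ 4 * (1 - 1 / L ^ 1124 / L ^ 2100 / 2) ^ I * Z D := by
      have : 1 / L ^ 1124 / L ^ 2100 ≤ 1 / L ^ 1124 :=
        div_le_self L3.le (one_le_pow₀ (by linarith [hL.ge]))
      exact mul_nonneg (mul_nonneg (by norm_num) (pow_nonneg (by linarith) _)) (Z_pos _).le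
    rw [one_div_mul_eq_div, div_le_iff₀ hM', add_mul, show ((147456 * 4 ^ J : ℕ) : ℝ) =
      147456 * 4 ^ J by norm_cast, div_mul_cancel₀ _ (by positivity),
      ← add_sum_erase _ _ (mem_range.mpr hM)]
    refine add_le_add (sum_le_sum fun c _ => mul_le_mul_of_nonneg_left (mul_le_of_le_one_right
      (chi_nonneg _) (prod_le_one (fun _ _ => norm_nonneg _) fun i _ => Xf_one _ _ (hv _ _ _)))
      (wt_pos _ _).le) ((sum_le_card_nsmul _ _ _ fun k hk => ?_).trans (by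
        rw [nsmul_eq_mul, mul_comm]
        exact mul_le_mul_of_nonneg_left (by exact_mod_cast (card_erase_le.trans_eq (card_range _)))
          hB0))
    rw [mem_erase, mem_range] at hk
    obtain ⟨i, b1, b2⟩ := ex_Fq (Nat.pos_of_ne_zero hk.1) hk.2
    have := cnt (y := y) (x := x) (c := 1 - 1 / L ^ 1124) (hP i) ⟨_, _, _, _, hD⟩ hn hL (g1 i b1)
      (by linarith) (by linarith) (by rwa [sub_sub_cancel]) hx
    rw [sub_sub_cancel] at this
    refine le_trans (sum_le_sum fun c hc => mul_le_mul_of_nonneg_left ?_ (wt_pos _ _).le) this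
    by_cases he : Ev y top c
    swap
    · rw [chi_neg he, zero_mul]
      exact mul_nonneg (chi_nonneg _) (prod_nonneg fun _ _ => by split_ifs <;> linarith)
    rw [chi_pos he, chi_pos he.1, one_mul, one_mul, prod_product,
      ← mul_prod_erase _ _ (mem_range.mpr (show i < J + 1 by omega))]
    refine (mul_le_of_le_one_right (prod_nonneg fun _ _ => norm_nonneg _) (prod_le_one
      (fun _ _ => prod_nonneg fun _ _ => norm_nonneg _) fun _ _ => prod_le_one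
        (fun _ _ => norm_nonneg _) fun _ _ => Xf_one _ _ (hv _ _ _))).trans
      (prod_le_prod (fun _ _ => norm_nonneg _) fun l hl => ?_)
    split_ifs with a
    · obtain ⟨β, μ, γ, a⟩ := acC_iff.mp a
      have := g2 (i, l) (mem_product.mpr ⟨mem_range.mpr (by omega), hl⟩)
      exact X_le a (mem_CC.mp hc) hy hx (by omega) (by omega) he (by omega) (by omega) (by omega)
        hL hL' hM b2
    · exact Xf_one _ _ (hv _ _ _)
  · exact mul_nonneg (by positivity) (sum_nonneg fun _ _ => sum_nonneg fun _ _ => mul_nonneg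
      (wt_pos _ _).le (mul_nonneg (chi_nonneg _) (prod_nonneg fun _ _ => norm_nonneg _)))

end Pool.Agent.P.MP_5fda20_pr.W
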