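import Pool.Agent.P.MP_5fda20_pr.W.Fom
import Pool.Agent.P.MP_5fda20_pr.W.Anti

/-! The two arm estimate. -/

namespace Pool.Agent.P.MP_5fda20_pr.W

open Finset U Real

variable {B D : Finset V} {x y : V} {q : V → V → ℝ} {φ u : V → ℝ}

lemma QH.sum {S : Finset V} {φ u : V → V → ℝ} (h : ∀ a, QH q D (φ a) (u a)) (s : V → ℝ) :
    QH q D (fun v => ∑ a ∈ S, s a * φ a v) fun v => ∑ a ∈ S, s a * u a v :=
  ⟨fun v hv => sum_congr rfl fun a _ => by rw [(h a).1 v hv], fun v hv => by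
    simp only [mul_sum]
    rw [sum_comm]
    exact sum_congr rfl fun a _ => by
      rw [mul_left_comm, (h a).2 v hv, mul_sum]
      exact sum_congr rfl fun _ _ => by ring⟩

lemma triv_out {m : ℕ} (h : B ⊆ Dm (m + 1 : ℕ) 1) (hy : y ∉ Dm (m + 1 : ℕ) 1) : Triv (zv y) B := by
  refine ⟨fun v => if m < y.2 ∧ v.1 ≤ y.1 then -1 else 1, fun v => by
    dsimp only; split_ifs <;> norm_num, fun u hu v hv e => ?_⟩
  have := mem_Dm.mp (h hu)
  have := mem_Dm.mp (h hv)
  rw [mem_Dm] at hy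
  rw [mem_nb] at e
  simp only [zv]
  split_ifs <;> first | omega | norm_num

lemma arm0 {m : ℕ} {k : ℤ} {β : ℝ} (hy : y ∈ Dm (m + 1 : ℕ) 1) (hx' : x ∈ Dm (m + 1 : ℕ) 1)
    (hx : x ∈ nb y) (hk : lf x y = (k, k) ∨ lf y x = (k, k)) (hk' : x = (k, k) ∨ y = (k, k))
    (hβ : ∀ φ u, (∀ v, |φ v| ≤ 1) → QH (qd k) (Dm (m + 1 : ℕ) 1) φ u → |u x| ≤ β ∧ |u y| ≤ β) :
    ∑ c ∈ CC (Dm (m + 1 : ℕ) 1) y x, wt (Dm (m + 1 : ℕ) 1) c * chi (lst c.2 ∉ Dm (m + 1 : ℕ) 1) ≤
      dq (qd k) (Dm (m + 1 : ℕ) 1) * β ^ 2 := by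
  obtain ⟨ε, e1, e2⟩ := sign hy hx' hx hk
  set B := Dm (m + 1 : ℕ) 1 with hB
  choose u hu using fun a => ex_QH (sg_qd k) B fun v => dl v a
  set S := B.biUnion nb \ B
  have s0 : ∀ a ∈ S, ∀ v ∈ B, dl v a = 0 := fun a ha v hv =>
    dl_ne fun e => (mem_sdiff.mp ha).2 (e ▸ hv)
  have s1 : ∀ {T a l}, T ⊆ B → IsP T a l → a ∈ T → lst l ∉ B → lst l ∈ S := fun hT h ha ho =>
    let ⟨p, p1, _, p3, _⟩ := h.last ha
    mem_sdiff.mpr ⟨mem_biUnion.mpr ⟨p, hT p1, p3⟩, ho⟩
  have s2 : ∑ a ∈ S, |u a x| ≤ β ∧ ∑ a ∈ S, |u a y| ≤ β := by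
    have k : ∀ z, ∃ s : V → ℝ, (∀ a, |s a| ≤ 1) ∧ ∀ a, s a * u a z = |u a z| := fun z =>
      ⟨fun a => if 0 ≤ u a z then 1 else -1, fun a => by dsimp only; split_ifs <;> simp, fun a => by
        dsimp only
        split_ifs with e
        exacts [by rw [one_mul, abs_of_nonneg e], by rw [neg_one_mul, abs_of_neg (not_le.mp e)]]⟩
    have k' : ∀ s : V → ℝ, (∀ a, |s a| ≤ 1) → ∀ v, |∑ a ∈ S, s a * dl v a| ≤ 1 := fun s hs v => by
      simp only [dl, mul_ite, mul_one, mul_zero, sum_ite_eq]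
      split_ifs
      exacts [hs v, by simp]
    obtain ⟨s, a1, a2⟩ := k x
    obtain ⟨s', b1, b2⟩ := k y
    exact ⟨by simpa only [a2] using (le_abs_self _).trans (hβ _ _ (k' s a1) (QH.sum hu s)).1,
      by simpa only [b2] using (le_abs_self _).trans (hβ _ _ (k' s' b1) (QH.sum hu s')).2⟩
  have key : ∑ c ∈ CC B y x, 2 * (wt B c * chi (lst c.2 ∉ B)) =
      ∑ a ∈ S, ∑ b ∈ S, ε a b * (dt (qd k) B * (u b y * u a x - u b x * u a y)) := by
    rw [sum_congr rfl fun a ha => sum_congr rfl fun b hb => by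
      rw [← fom2 (sg_qd k) B (s0 b hb) (s0 a ha) _ _ y (hu b) (hu a), sum_sigma', mul_sum],
      sum_congr rfl fun a _ => sum_comm, sum_comm, CC, sum_map]
    refine sum_congr rfl fun ⟨σ, α⟩ hc => ?_
    simp only [mem_sigma, mem_P] at hc
    obtain ⟨h1, h2⟩ := hc
    have b1 := s1 subset_rfl h1 hy h1.out
    change 2 * (wt B (σ, α) * chi (lst α ∉ B)) = _
    simp only [mul_left_comm (ε _ _), mul_sub, sum_sub_distrib, dl, mul_ite, mul_one,
      mul_zero]
    by_cases ho : lst α ∈ B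
    · have : lst α ∉ S := fun e => (mem_sdiff.mp e).2 ho
      simp [chi_neg (not_not.mpr ho), this]
    have hx2 : x ∈ B \ σ.toFinset := by_contra fun e => ho (by rwa [(isP_out e).mp h2])
    have b2 := s1 sdiff_subset h2 hx2 ho
    have t1 : Triv (zv y) ((B \ σ.toFinset) \ α.toFinset) := tr_ch σ y h1.hd h1.ch
      (fun v hv => by simp [hv]) (triv_out (sdiff_subset.trans sdiff_subset) h1.out)
    have t2 : Triv (zv (k, k)) ((B \ σ.toFinset) \ α.toFinset) := by
      rcases hk' with e | e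
      exacts [e ▸ tr_nb hx (by simp [h1.mem_hd]) (by simp [h2.mem_hd]) t1, e ▸ t1]
    rw [chi_pos ho, dt_triv _ (triv_qd t2), mul_one, wt, Zm_app, ← e2 (σ, α) ⟨h1, h2⟩ ho]
    simp only [sum_ite_irrel, sum_const_zero, sum_ite_eq, if_pos b1, if_pos b2, Zm]
    ring
  have k2 : ∀ a b, ε a b * (dt (qd k) B * (u b y * u a x - u b x * u a y)) ≤
      dq (qd k) B * (|u a x| * |u b y| + |u a y| * |u b x|) := fun a b => by
    refine (le_abs_self _).trans ?_
    rw [abs_mul, abs_mul]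
    refine (mul_le_of_le_one_left (by positivity) (e1 a b)).trans
      (mul_le_mul_of_nonneg_left ((abs_sub _ _).trans_eq ?_) (abs_nonneg _))
    rw [abs_mul, abs_mul]; ring
  have k3 := key.trans_le (sum_le_sum fun a _ => sum_le_sum fun b _ => k2 a b)
  simp only [← mul_sum, sum_add_distrib, ← sum_mul] at k3
  have k4 := mul_le_mul s2.1 s2.2 (sum_nonneg fun _ _ => abs_nonneg _)
    ((sum_nonneg fun _ _ => abs_nonneg _).trans s2.1)
  nlinarith [mul_le_mul_of_nonneg_left k4 (dq_nonneg (qd k) B)]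

lemma half {r : ℕ} {p : V} {s : ℤ} {A : V → ℝ} (hs : s = 1 ∨ s = -1) (h1 : ∀ v, v ∉ B → A v ≤ 1)
    (h2 : ∀ v ∈ B, 4 * A v ≤ ∑ z ∈ nb v, A z) (h3 : Sb p r ⊆ B)
    (h4 : ∀ i : ℤ, 0 < i → i ≤ r → A (p.1 + s * i, p.2 + s * i) ≤ 0) {v : V}
    (hv : v = p ∨ v ∈ nb p) : A v ≤ 16 / √(r + 1) := by
  classical
  let T := B.filter fun v => ¬ ∃ i : ℤ, 0 < i ∧ i ≤ r ∧ v = (p.1 + s * i, p.2 + s * i)
  have a0 := c_le_Hm (D := T) (φ := fun v => chi (v ∉ B)) fun _ => chi_nonneg _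
  have a1 := slit (m := r) (p := p) (M := 1) (g := Hm T fun v => chi (v ∉ B)) hs hs zero_le_one
    (fun v _ => Hm_le_c (fun _ => chi_le _) v) (fun v hv => Hm_sub (fun _ => chi_nonneg _)
      (Or.inr (chi_neg (not_not.mpr (h3 (mem_Sb.mpr hv)))))) fun i a b => by
      rw [Hm_off (D := T) fun e => (mem_filter.mp e).2 ⟨i, a, b, rfl⟩, chi_neg (not_not.mpr (h3 (mem_Sb.mpr
        (by unfold dn; rcases hs with rfl | rfl <;> omega))))]
  have a2 := le_Hm (D := T) (φ := fun v => chi (v ∉ B)) (g := A)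
    (fun v hv => h2 v (mem_filter.mp hv).1) (fun v hv => by
      by_cases e : v ∈ B
      · obtain ⟨i, a, b, rfl⟩ := not_not.mp fun e' => hv (mem_filter.mpr ⟨e, e'⟩)
        exact (h4 i a b).trans (chi_nonneg _)
      · rw [chi_pos e]; exact h1 v e) v
  have a3 : Hm T (fun v => chi (v ∉ B)) v ≤ 4 * Hm T (fun v => chi (v ∉ B)) p := by
    rcases hv with rfl | hv
    · linarith [a0 v]
    · rw [Hm_har _ _ p (mem_filter.mpr ⟨h3 (mem_Sb.mpr (by rw [dn_self]; omega)),
        fun ⟨i, a, _, e⟩ => by rw [Prod.ext_iff] at e; rcases hs with rfl | rfl <;> omega⟩)]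
      exact single_le_sum (fun z _ => a0 z) hv
  rw [show 16 / √(r + 1 : ℝ) = 4 * (4 / √(r + 1) * 1) by ring]
  linarith

lemma arm1 {r : ℕ} (hφ : ∀ v, |φ v| ≤ 1) (h : QH (qd (r + 2)) (Dm (2 * r + 4 + 1 : ℕ) 1) φ u) {v : V}
    (hv : v = ((r : ℤ) + 2, (r : ℤ) + 2) ∨ v = ((r : ℤ) + 3, (r : ℤ) + 2) ∨
      v = ((r : ℤ) + 2, (r : ℤ) + 3)) : |u v| ≤ 32 / √(r + 1) := by
  let s : V → ℝ := fun v => if v.1 = v.2 ∧ v.1 ≤ r + 2 then -1 else 1
  have hB : ∀ v : V, v.swap ∈ Dm (2 * r + 4 + 1 : ℕ) 1 ↔ v ∈ Dm (2 * r + 4 + 1 : ℕ) 1 := fun v => by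
    simp only [mem_Dm, Prod.fst_swap, Prod.snd_swap]; omega
  have s1 : ∀ v, |s v| = 1 := fun v => by simp only [s]; split_ifs <;> simp
  have k1 : ∀ τ : ℝ, |τ| = 1 → ∀ v, v ∉ Dm (2 * r + 4 + 1 : ℕ) 1 →
      |(u v + τ * (s v * u v.swap)) / 2| ≤ 1 := fun τ e v hv => by
    rw [abs_div, h.1 v hv, h.1 _ ((hB v).not.mpr hv), abs_two, div_le_one two_pos]
    refine (abs_add_le _ _).trans ?_
    rw [abs_mul, abs_mul, e, s1]
    linarith [hφ v, hφ v.swap]
  have k2 : ∀ τ : ℝ, ∀ v ∈ Dm (2 * r + 4 + 1 : ℕ) 1, 4 * |(u v + τ * (s v * u v.swap)) / 2| ≤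
      ∑ z ∈ nb v, |(u z + τ * (s z * u z.swap)) / 2| := fun τ v hv => by
    have a1 := h.2 _ ((hB v).mpr hv)
    have a2 := (aut_of (Equiv.prodComm ℤ ℤ) fun x z => by
      simp only [mem_nb, Equiv.prodComm_apply, Prod.fst_swap, Prod.snd_swap]; omega).sum v
      fun z => qd (r + 2) v.swap z * u z
    simp only [Equiv.prodComm_apply] at a2
    have a3 : ∑ z ∈ nb v, qd (r + 2) v z * ((u z + τ * (s z * u z.swap)) / 2) =
        4 * ((u v + τ * (s v * u v.swap)) / 2) := by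
      rw [show 4 * ((u v + τ * (s v * u v.swap)) / 2) = (4 * u v + τ * (s v * (4 * u v.swap))) / 2
        by ring, h.2 v hv, a1, a2, mul_sum, mul_sum, ← sum_add_distrib, sum_div]
      refine sum_congr rfl fun z hz => ?_
      have : s v * qd (r + 2) v.swap z.swap = qd (r + 2) v z * s z := by
        rw [mem_nb] at hz
        simp only [s, qd, Prod.fst_swap, Prod.snd_swap]
        split_ifs <;> first | omega | norm_num
      rw [← mul_assoc (s v), this]
      ring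
    rw [← abs_of_pos (show (0 : ℝ) < 4 by norm_num), ← abs_mul, ← a3]
    refine (abs_sum_le_sum_abs _ _).trans (sum_le_sum fun z _ => ?_)
    rw [abs_mul]
    exact mul_le_of_le_one_left (abs_nonneg _) (sg_qd _ _ _).1
  have k3 := half (r := r) (p := ((r : ℤ) + 3, (r : ℤ) + 3)) (v := v) (Or.inr rfl) (k1 1 abs_one)
    (k2 1) (fun z hz => by rw [mem_Sb, dn] at hz; rw [mem_Dm]; omega) fun i a b => by
      simp only [s, Prod.swap]
      rw [if_pos ⟨trivial, by omega⟩]; simp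
  have k4 := half (r := r) (p := ((r : ℤ) + 2, (r : ℤ) + 2)) (v := v) (Or.inl rfl)
    (k1 (-1) (by simp)) (k2 (-1)) (fun z hz => by rw [mem_Sb, dn] at hz; rw [mem_Dm]; omega)
    (fun i a b => by
      simp only [s, Prod.swap]
      rw [if_neg (by omega)]; simp) (by simp only [mem_nb, Prod.ext_iff] at hv ⊢; omega)
  have k5 : |(u v + 1 * (s v * u v.swap)) / 2| ≤ 16 / √(r + 1) := by
    rcases hv with rfl | hv
    · simp only [s, Prod.swap]
      rw [if_pos ⟨trivial, le_rfl⟩]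
      simp only [neg_one_mul, one_mul, add_neg_cancel, zero_div, abs_zero]
      positivity
    · exact k3 (Or.inr (by simp only [mem_nb, Prod.ext_iff] at hv ⊢; omega))
  rw [show u v = (u v + 1 * (s v * u v.swap)) / 2 + (u v + -1 * (s v * u v.swap)) / 2 by ring,
    show 32 / √(r + 1 : ℝ) = 16 / √(r + 1) + 16 / √(r + 1) by ring]
  exact (abs_add_le _ _).trans (add_le_add k5 k4)

lemma gam_up (i k : ℕ) : gam (k + i) ≤ gam i * exp (1 / (4 * (i + 1))) := by
  have : Antitone fun m : ℕ => gam m * exp (1 / (4 * ((m : ℝ) + 1))) :=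
    antitone_nat_of_succ_le fun m => by
      rw [gam_succ, mul_assoc]
      refine mul_le_mul_of_nonneg_left ((mul_le_mul_of_nonneg_right
        ((add_comm _ _).trans_le (add_one_le_exp _)) (exp_pos _).le).trans_eq ?_) (gam_pos m).le
      rw [← exp_add]
      congr 1
      push_cast
      field_simp
      ring
  exact (le_mul_of_one_le_right (gam_pos _).le (one_le_exp (by positivity))).trans
    (this (Nat.le_add_left i k))

lemma ratio_up {h k : ℕ} (hk : k < h) :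
    (dq (qd k) (Dm (h + 1 : ℕ) 1) / Z (Dm (h + 1 : ℕ) 1)) ^ 4 ≤ 7 * (h + 1) := by
  let A : ℕ → Finset V := fun m => (Sb (0, 0) (14 * h)).filter
    fun v => v.1 ≠ v.2 ∨ (0 < v.1 ∧ v.1 ≤ k + m)
  have hjr : (1 : ℝ) ≤ h := by exact_mod_cast (by omega : 1 ≤ h)
  have hc : (0 : ℝ) < 1 - 1 / (5 * h) := by
    rw [sub_pos, div_lt_one (by positivity)]; linarith
  have key : ∀ m ≤ h - k, (1 - 1 / (5 * h)) ^ m * (dq (qd k) (A m) / Z (A m)) ≤
      exp (∑ i ∈ range m, 1 / (4 * ((i : ℝ) + 1))) := by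
    intro m
    induction m with
    | zero =>
      intro _
      rw [dq_triv, div_self (Z_pos _).ne']
      · simp
      refine ⟨ep, fun v => by unfold ep; split_ifs <;> norm_num, fun u hu v hv huv => ?_⟩
      have := (mem_filter.mp hu).2
      have := (mem_filter.mp hv).2
      rw [mem_nb] at huv
      unfold qd ep
      split_ifs <;> first | omega | norm_num
    | succ m ih =>
      intro hm
      have hx : ((k : ℤ) + m + 1, (k : ℤ) + m + 1) ∈ A (m + 1) := by
        simp only [A, mem_filter, mem_Sb, dn]; omega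
      have e : (A (m + 1)).erase (k + m + 1, k + m + 1) = A m := by
        ext v
        simp only [A, mem_erase, mem_filter, mem_Sb, dn, Ne, Prod.ext_iff]
        omega
      have hs := sol_lo (k := k) (D := A (m + 1)) (f := fun v => dl v (k + m + 1, k + m + 1))
        (fun v => by simp only [A, mem_filter, mem_Sb, dn, Prod.fst_swap, Prod.snd_swap]; omega)
        (fun v => if_congr (by simp only [Prod.ext_iff, Prod.fst_swap, Prod.snd_swap]; omega) rfl rfl)
        (fun i hi => dl_ne (by simp only [Ne, Prod.mk.injEq]; omega))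
        (sol_G1 _ (k + m + 1, k + m + 1))
      have e1 := dq_erase hx hs
      have e2 := Z_erase hx
      rw [e] at e1 e2
      have b1 := ((gap (k + m + 1) (k + m)).1 (A (m + 1))
        fun v hv => by simp only [A, mem_filter] at hv; omega).trans (gam_up m k)
      have b2 := (((gap (k + m + 1) m).2 (12 * h) (by omega)).1).trans
        (G_mono wt_one wt_one (D' := (A (m + 1)).filter fun v => v.1 ≠ v.2 ∨ k < v.1) (fun v hv => by
          rw [mem_Ga] at hv; simp only [A, mem_filter, mem_Sb, dn]; omega)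
          (fun _ _ _ _ => le_rfl) _ _)
      have b3 : (1 - 1 / (5 * h)) * gam m ≤ G1 ((A (m + 1)).filter fun v => v.1 ≠ v.2 ∨ k < v.1)
          (k + m + 1, k + m + 1) (k + m + 1, k + m + 1) := by
        refine le_trans ?_ b2
        have c1 : (m : ℝ) + 1 ≤ h := by exact_mod_cast (by omega : m + 1 ≤ h)
        have c2 := (sig_sq m).2
        have c3 : 3 / 8 ≤ gam m := le_trans (by
          simp only [gam, prod_range_zero]; linarith [pi_gt_three]) (gam_mono (Nat.zero_le m))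
        push_cast at c2 ⊢
        have c5 : 12 * sig m ^ 2 / (12 * h * (12 * h - m)) ≤ 1 / (5 * h) * gam m := by
          rw [one_div_mul_eq_div, div_le_div_iff₀ (mul_pos (by positivity) (by linarith))
            (by positivity)]
          nlinarith [mul_le_mul c3 (show (120 : ℝ) * h ^ 2 ≤ 12 * h * (12 * h - m) by nlinarith)
            (by positivity) (by linarith), mul_le_mul_of_nonneg_right c2 (show (0 : ℝ) ≤ h by linarith)]
        linarith
      have hZ := Z_pos (A (m + 1))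
      have hG := G_pos wt_one hx
      have i1 := ih (by omega)
      rw [e1, e2, abs_of_nonneg (G_nonneg wt_one _ _), mul_div_mul_comm, mul_left_comm,
        div_mul_eq_mul_div, div_le_iff₀ hG] at i1
      rw [sum_range_succ, exp_add, pow_succ, mul_right_comm]
      refine le_of_mul_le_mul_right ?_ (gam_pos m)
      have := mul_le_mul_of_nonneg_right b3 (mul_nonneg (pow_pos hc m).le
        (div_nonneg (dq_nonneg (qd k) (A (m + 1))) hZ.le))
      have := mul_le_mul_of_nonneg_left b1 (exp_pos (∑ i ∈ range m, 1 / (4 * ((i : ℝ) + 1)))).le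
      linarith
  have a1 := key _ le_rfl
  have a2 := dq_mono (sg_qd k) (D' := Dm (h + 1 : ℕ) 1) (A (h - k)) fun v hv => by
    rw [mem_Dm] at hv; simp only [A, mem_filter, mem_Sb, dn]; omega
  have a3 := one_add_mul_le_pow (a := -(1 / (5 * (h : ℝ)))) (by linarith) (h - k)
  have a4 : ((h - k : ℕ) : ℝ) ≤ h := by exact_mod_cast Nat.sub_le h k
  have a5 : ((h - k : ℕ) : ℝ) * (1 / (5 * h)) ≤ 1 / 5 := by
    rw [mul_one_div, div_le_div_iff₀ (by positivity) (by norm_num)]; linarith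
  have a0 := div_nonneg (dq_nonneg (qd k) (Dm (h + 1 : ℕ) 1)) (Z_pos (Dm (h + 1 : ℕ) 1)).le
  have a6 := pow_le_pow_left₀ (by positivity) ((mul_le_mul (show 4 / 5 ≤ (1 - 1 / (5 * h : ℝ)) ^
    (h - k) by rw [sub_eq_add_neg]; linarith) a2 a0 (pow_pos hc _).le).trans a1) 4
  rw [← exp_nat_mul, mul_sum, sum_congr (s₁ := range (h - k)) (g := fun i : ℕ => 1 / ((i : ℝ) + 1))
    rfl fun i _ => by push_cast; field_simp, mul_pow] at a6
  have a7 := exp_le_exp.mpr (harm_le (h - k))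
  rw [exp_add, exp_log (by exact_mod_cast (by omega : 0 < h - k))] at a7
  nlinarith [exp_one_lt_d9]

lemma CC_aut {e : V ≃ V} (he : Aut e) (F : List V × List V → ℝ) :
    ∑ c ∈ CC (D.map e.toEmbedding) (e y) (e x), wt (D.map e.toEmbedding) c * F c =
      ∑ c ∈ CC D y x, wt D c * F (c.1.map e, c.2.map e) := by
  have k : ∀ D y (X : List V → ℝ), ∑ σ ∈ Pa D y, X σ = N D ∅ y fun σ => X σ / Zm D σ :=
    fun D y X => sum_congr rfl fun σ _ => by rw [if_neg (by simp), mul_div_cancel₀ _ (Zm_pos _ _).ne']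
  have k' := fun D a F => N_aut he D ∅ a F
  rw [map_empty] at k'
  rw [sum_CC, sum_CC, k, k, k']
  refine N_congr fun σ _ _ => ?_
  rw [Zm_aut he, show D.map e.toEmbedding \ (σ.map e).toFinset = (D \ σ.toFinset).map e.toEmbedding
    from ext fun v => by obtain ⟨v, rfl⟩ := e.surjective v; simp, k']

theorem arm {r : ℕ} {ρ : ℤ} (hx : x ∈ nb y) (h : Sb y (r + 3) ⊆ D) (hρ : r + 3 < ρ) :
    ∑ c ∈ CC D y x, wt D c * chi (Ev y ρ c) ≤ 3072 / √√(r + 1) ^ 3 * Z D := by
  obtain ⟨w, hw⟩ : ∃ w : V, w = (min x.1 y.1 - (r + 2), min x.2 y.2 - (r + 2)) := ⟨_, rfl⟩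
  have he : Aut (Equiv.addRight w) := aut_add _
  obtain ⟨x, rfl⟩ := (Equiv.addRight w).surjective x
  obtain ⟨y, rfl⟩ := (Equiv.addRight w).surjective y
  have hx' := (aut_iff he _ _).mp hx
  rw [Prod.ext_iff] at hw
  simp only [Equiv.coe_addRight, Prod.fst_add, Prod.snd_add] at hw
  have hn := mem_nb.mp hx'
  have hB : ∀ v ∈ (Dm (2 * r + 4 + 1 : ℕ) 1).map (Equiv.addRight w).toEmbedding,
      dn v (Equiv.addRight w y) ≤ r + 3 := fun v hv => by
    obtain ⟨v, a, rfl⟩ := mem_map.mp hv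
    rw [mem_Dm] at a
    simp only [dn, Equiv.coe_toEmbedding, Equiv.coe_addRight, Prod.fst_add, Prod.snd_add]
    omega
  have a1 := ray (x := Equiv.addRight w x) (fun v hv => h (mem_Sb.mpr (hB v hv)))
    fun v hv => (hB v hv).trans_lt hρ
  rw [CC_aut he, Z_aut he, sum_congr (s₁ := CC (Dm _ _) _ _) (g := fun c =>
    wt (Dm (2 * r + 4 + 1 : ℕ) 1) c * chi (lst c.2 ∉ Dm (2 * r + 4 + 1 : ℕ) 1))
    rfl fun c hc => by rw [lst_map _ (mem_CC.mp hc).2.ne, mem_map_equiv,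
      Equiv.symm_apply_apply]] at a1
  have a2 := arm0 (m := 2 * r + 4) (k := r + 2) (β := 32 / √(r + 1)) (x := x) (y := y)
    (by rw [mem_Dm]; omega) (by rw [mem_Dm]; omega) hx'
    (by simp only [lf, Prod.ext_iff]; omega) (by simp only [Prod.ext_iff]; omega) fun φ u a b =>
      ⟨arm1 a b (by simp only [Prod.ext_iff]; omega), arm1 a b (by simp only [Prod.ext_iff]; omega)⟩
  have a3 := ratio_up (h := 2 * r + 4) (k := r + 2) (by omega)
  have p0 : (0 : ℝ) < r + 1 := by positivity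
  have p1 : 0 < √√(r + 1 : ℝ) := by positivity
  have p2 : √√(r + 1 : ℝ) ^ 4 = r + 1 := by
    rw [show 4 = 2 * 2 by rfl, pow_mul, sq_sqrt (sqrt_nonneg _), sq_sqrt p0.le]
  have a4 := le_of_pow_le_pow_left₀ (b := 3 * √√(r + 1 : ℝ)) (by norm_num) (by positivity)
    (a3.trans (by rw [mul_pow, p2]; push_cast; linarith))
  rw [← div_le_iff₀ (Z_pos _)]
  refine a1.trans ((div_le_div_of_nonneg_right a2 (Z_pos _).le).trans ?_)
  rw [mul_div_right_comm, div_pow, sq_sqrt p0.le]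
  refine (mul_le_mul_of_nonneg_right a4 (by positivity)).trans_eq ?_
  generalize √√(r + 1 : ℝ) = z at *
  rw [← p2]
  field_simp
  norm_num

end Pool.Agent.P.MP_5fda20_pr.W
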