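import Pool.Agent.P.MP_5fda20_pr.W.Top

/-! Balanced splits force a long branch. -/

namespace Pool.Agent.P.MP_5fda20_pr.W

open Finset U MP_a28080_pr SimpleGraph

variable {D : Finset V} {x y : V} {c : List V × List V} {n ρ : ℤ}

/-- the first branch goes far before the second one meets it -/
def Ev (y : V) (ρ : ℤ) (c : List V × List V) : Prop := Rch y ρ c.1 ∧ lst c.2 ∉ pre y ρ c.1

lemma Ev.gd (he : Ev y ρ c) (h : IsC D y x c) (hx : x ∈ nb y) (hρ : 2 ≤ ρ) : Gd x y c := by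
  have a1 := (dn_nb hx y).1
  have a0 := dn_self y
  obtain ⟨ω, e⟩ := h.1.eq_cons
  refine ⟨fun e' => he.2 ?_, fun r e' => he.2 ?_⟩
  · rw [e', e, show y :: ω = [y] ++ ω from rfl, (lev_app (by simp; omega) ω).1]; simp
  · rw [(isP_out (by simp [e'])).mp h.2, e', show y :: x :: r = [y, x] ++ r from rfl,
      (lev_app (by simp; omega) r).1]
    simp [lst]

lemma card_Rt {a b c d : ℤ} (h : a ≤ b + 1) (h' : c ≤ d + 1) :
    ((Rt a b c d).card : ℤ) = (b + 1 - a) * (d + 1 - c) := by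
  rw [Rt, card_product, Int.card_Icc, Int.card_Icc]
  push_cast
  rw [Int.toNat_of_nonneg (by omega), Int.toNat_of_nonneg (by omega)]

lemma card_Fc (h : 0 ≤ n) : ((Fc n).card : ℤ) = n * n := by
  rw [Fc, card_Rt (by omega) (by omega)]; ring

lemma row_const (g : ℤ → ℤ) (h : ∀ i, 0 ≤ i → i + 1 < n → g (i + 1) = g i) {i : ℤ} (hi : 0 ≤ i) :
    i < n → g i = g 0 := by
  induction i, hi using Int.leInduction with
  | base => exact fun _ => rfl
  | succ i hi ih => exact fun h' => (h i hi h').trans (ih (by omega))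

lemma near (h : IsC (Dm n 1) y x c) (hx : x ∈ nb y) (h0 : 1 ≤ ρ) (hn : 4 * ρ < n) {s : ℤ}
    (h2 : ∀ F ∈ Fc n, Wn x y c F = s ∨ Wn x y c F = s + 1)
    (h3 : ∀ v, v ∈ (sw c).2 ∨ v ∈ c.2 → dn v y ≤ ρ) :
    ∑ F ∈ Fc n, (Wn x y c F - s) ≤ 2 * ρ * n ∨ n * n - 2 * ρ * n ≤ ∑ F ∈ Fc n, (Wn x y c F - s) := by
  have k : ∀ p q, q ∈ nb p → (p ∈ Dm n 1 ∨ q ∈ Dm n 1) → (ρ < dn p y ∨ ρ < dn q y) →
      Wn x y c (lf p q) = Wn x y c (lf q p) := fun p q a b d => by
    have a1 := h3 x (Or.inr h.2.mem_hd)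
    have a2 := dn_self y
    have := Wn_jump h hx a b
    rw [CR_out (sw_spec h).1.2.ch (d.imp (fun e e' => by have := h3 p (Or.inl e'); omega)
      fun e e' => by have := h3 q (Or.inl e'); omega), CR_out h.2.ch (d.imp (fun e e' => by
        have := h3 p (Or.inr e'); omega) fun e e' => by have := h3 q (Or.inr e'); omega), cr,
      if_neg (by rintro ⟨rfl, rfl⟩; omega), if_neg (by rintro ⟨rfl, rfl⟩; omega)] at this
    omega
  obtain ⟨r, r1, r2, r3⟩ : ∃ r, 0 ≤ r ∧ r < n ∧ (r < y.2 - ρ ∨ y.2 + ρ ≤ r) := by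
    by_cases e : 0 < y.2 - ρ
    exacts [⟨0, by omega⟩, ⟨n - 1, by omega⟩]
  have k1 : ∀ i, 0 ≤ i → i < n → Wn x y c (i, r) = Wn x y c (0, r) := fun i a b =>
    row_const (fun i => Wn x y c (i, r)) (fun i a b => by
      have := k (i + 1, r) (i + 1, r + 1) (by simp [mem_nb]) (by simp only [mem_Dm]; omega)
        (by simp only [dn]; omega)
      rw [show lf (i + 1, r) (i + 1, r + 1) = (i, r) by ext <;> simp only [lf] <;> omega,
        show lf (i + 1, r + 1) (i + 1, r) = (i + 1, r) by ext <;> simp only [lf] <;> omega] at this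
      exact this.symm) a b
  have k2 : ∀ i j, 0 ≤ i → i < n → (i < y.1 - ρ ∨ y.1 + ρ ≤ i) → 0 ≤ j → j < n →
      Wn x y c (i, j) = Wn x y c (i, 0) := fun i j a b d e f =>
    row_const (fun j => Wn x y c (i, j)) (fun j e f => by
      have := k (i, j + 1) (i + 1, j + 1) (by simp [mem_nb]) (by simp only [mem_Dm]; omega)
        (by simp only [dn]; omega)
      rwa [show lf (i, j + 1) (i + 1, j + 1) = (i, j + 1) by ext <;> simp only [lf] <;> omega,
        show lf (i + 1, j + 1) (i, j + 1) = (i, j) by ext <;> simp only [lf] <;> omega] at this) e f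
  have k3 : ∑ F ∈ Fc n, |Wn x y c F - Wn x y c (0, r)| ≤ 2 * ρ * n := by
    rw [← sum_filter_add_sum_filter_not _ (· ∈ Rt (y.1 - ρ) (y.1 + ρ - 1) 0 (n - 1)),
      sum_eq_zero (s := filter (fun F => ¬ _) _) fun F hF => ?_, add_zero]
    · refine (sum_le_card_nsmul _ _ 1 fun F hF => ?_).trans ?_
      · have := h2 F (mem_filter.mp hF).1
        have := h2 (0, r) (by rw [mem_Fc]; omega)
        rw [abs_le]; omega
      · rw [nsmul_eq_mul, mul_one]
        refine (Nat.cast_le.mpr (card_le_card fun F hF => (mem_filter.mp hF).2)).trans ?_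
        rw [card_Rt (by omega) (by omega)]
        exact le_of_eq (by ring)
    · rw [mem_filter, mem_Fc, mem_Rt] at hF
      rw [show F = (F.1, F.2) from rfl, k2 _ _ (by omega) (by omega) (by omega) (by omega)
        (by omega), ← k2 _ r (by omega) (by omega) (by omega) r1 r2, k1 _ (by omega) (by omega),
        sub_self, abs_zero]
  have k4 := abs_le.mp ((abs_sum_le_sum_abs _ _).trans k3)
  simp only [sum_sub_distrib, sum_const, nsmul_eq_mul, card_Fc (show 0 ≤ n by omega)] at k4 ⊢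
  rcases h2 (0, r) (by rw [mem_Fc]; omega) with e | e <;> rw [e] at k4
  · exact Or.inl k4.2
  · exact Or.inr (by linarith [k4.1])

lemma ev_of (h : IsC D y x c) (h0 : 0 ≤ ρ) {v : V} (hv : v ∈ (sw c).2) (hv' : ρ ≤ dn v y) :
    Ev y ρ c := by
  have a := (sw_spec h).1.2
  have hr : Rch y ρ (sw c).2 := ivt a.ch y a.mem_hd hv (by rwa [dn_self]) hv'
  obtain ⟨r, e⟩ := h.pref
  refine ⟨let ⟨w, b, d⟩ := hr; ⟨w, by simp [e, b], d⟩, fun h' => ?_⟩
  rcases h.sw2 with ⟨l, r', -, b, d⟩ | ⟨b, -⟩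
  · rw [e, (hr.app r).1] at h'
    obtain ⟨β, q, γ, e1, e2, e3⟩ := hr.dec
    rw [e1, (lev_eq e2 e3 γ).1] at h'
    have hn := a.nd
    rw [e1] at hn
    refine (List.nodup_append.mp hn).2.2 _ h' _ (lst_mem (List.cons_ne_nil q γ)) ?_
    rw [← lst_app β (List.cons_ne_nil q γ), ← e1, d, lst_snoc]
  · exact b ((List.takeWhile_sublist _).subset h')

lemma Wn_sw (h : IsC D y x c) (hx : x ∈ nb y) (F : V) : Wn y x (sw c) F = -Wn x y c F := by
  have : ell y x F = -ell x y F := by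
    rw [mem_nb] at hx
    unfold U.ell
    split_ifs <;> omega
  rw [Wn, Wn, (sw_spec h).2.1, this]
  ring

/-- the area is half of the box -/
def Hf (n a : ℤ) : Prop := a = n * n / 2 ∨ a = (n * n + 1) / 2

lemma bal {m : ℕ} {f : V → V} (hf : f ∈ For (Dm (m + 1 : ℕ) 1) nb) (h0 : 0 ≤ ρ)
    (hn : 4 * (ρ + 1) < (m + 1 : ℕ)) (hs : Splittable (Pr (m + 1) (gr f))) :
    ∃ y ∈ Dm (m + 1 : ℕ) 1, ∃ x ∈ nb y, let c := cf (Dm (m + 1 : ℕ) 1) y x f
      (Ev y ρ c ∧ Hf (m + 1 : ℕ) (Ar (m + 1 : ℕ) x y c)) ∨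
      (x ∈ Dm (m + 1 : ℕ) 1 ∧ Ev x ρ (sw c) ∧ Hf (m + 1 : ℕ) (Ar (m + 1 : ℕ) y x (sw c))) := by
  classical
  obtain ⟨u, v, ha, hy, hc⟩ : ∃ u v, (Pr (m + 1) (gr f)).Adj u v ∧
      du (co v) (co u) ∈ Dm (m + 1 : ℕ) 1 ∧ Hf (m + 1 : ℕ)
        (((Pr (m + 1) (gr f)).deleteEdges {s(u, v)}).connectedComponentMk u).supp.ncard := by
    obtain ⟨u, v, a, b, d⟩ := hs
    simp only [Fintype.card_prod, Fintype.card_fin] at b d
    rcases du_mem a.1 with h | h
    · exact ⟨v, u, a.symm, h, Or.inr (by rw [Sym2.eq_swap, d]; push_cast; rfl)⟩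
    · exact ⟨u, v, a, h, Or.inl (by rw [b]; push_cast; rfl)⟩
  have h' := grid_adj.mp ha.1
  refine ⟨_, hy, _, nb_du (nb_symm h'), ?_⟩
  obtain ⟨h, h1, h2⟩ := cf_spec hf (du (co v) (co u)) (du (co u) (co v))
  obtain ⟨u', v', e1, e2, hS⟩ := spl h hy (nb_du (nb_symm h')) hf h1 h2 ha.2
  obtain rfl : u' = u := co_inj (e1.trans (lf_du h'))
  obtain rfl : v' = v := co_inj (e2.trans (lf_du (nb_symm h')))
  have hx := nb_du (nb_symm h')
  dsimp only
  generalize cf _ _ _ f = c at *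
  generalize du (co u') (co v') = x at *
  generalize du (co v') (co u') = y at *
  have hA : Hf (m + 1 : ℕ) (Ar (m + 1 : ℕ) x y c) := by
    convert hc
    rw [Ar, ← sum_co, show (((Pr (m + 1) (gr f)).deleteEdges {s(u', v')}).connectedComponentMk
      u').supp = (univ.filter fun w => Wn x y c (co w) - Wn x y c (lf y x) = 1 :
        Finset (Fin (m + 1) × Fin (m + 1))) from
        Set.ext fun w => by simp [← (hS.reach (Pr_tree hf).1 w).1, reachable_comm],
      Set.ncard_coe_finset, card_filter]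
    push_cast
    exact sum_congr rfl fun w _ => by rcases hS.val w with e | e <;> simp [e]
  by_contra hh
  rw [not_or] at hh
  have := near (ρ := ρ + 1) (s := Wn x y c (lf y x)) h hx (by omega) hn (fun F hF => by
    obtain ⟨s, rfl⟩ := ex_co' hF
    have := hS.val s
    omega) fun w hw => by
      by_contra b
      rcases hw with hw | hw
      · exact hh.1 ⟨ev_of h h0 hw (by omega), hA⟩
      · have a1 := dn_tri w x y
        have a2 := (dn_nb hx y).1
        rw [dn_self] at a2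
        refine hh.2 ⟨by_contra fun hx' => ?_, ev_of (sw_spec h).1 h0
          ((sw_spec h).2.1.symm ▸ hw) (by omega), ?_⟩
        · rw [(isP_out fun e => hx' (mem_sdiff.mp e).1).mp h.2, List.mem_singleton] at hw
          rw [hw] at b
          omega
        · have a3 := hS.lu
          rw [e1] at a3
          have : Ar (m + 1 : ℕ) y x (sw c) = (m + 1 : ℕ) * (m + 1 : ℕ) - Ar (m + 1 : ℕ) x y c := by
            rw [Ar, Ar, ← card_Fc (by omega), card_eq_sum_ones, Nat.cast_sum, ← sum_sub_distrib]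
            refine sum_congr rfl fun F _ => ?_
            rw [Wn_sw h hx, Wn_sw h hx]
            omega
          unfold Hf at hA ⊢
          omega
  change Ar _ x y c ≤ _ ∨ _ ≤ Ar _ x y c at this
  unfold Hf at hA
  generalize ((m + 1 : ℕ) : ℤ) = n at *
  have : (4 * (ρ + 1) + 1) * n ≤ n * n := mul_le_mul_of_nonneg_right hn (by omega)
  have e : 2 * (ρ + 1) * n = 2 * (ρ * n) + 2 * n := by ring
  have e' : (4 * (ρ + 1) + 1) * n = 4 * (ρ * n) + 5 * n := by ring
  omega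

theorem pUST_le (m : ℕ) (h0 : 0 ≤ ρ) (hn : 4 * (ρ + 1) < (m + 1 : ℕ)) :
    pUST (grid (m + 1)) * Z (Dm (m + 1 : ℕ) 1) ≤ 2 * ∑ y ∈ Dm (m + 1 : ℕ) 1, ∑ x ∈ nb y,
      ∑ c ∈ CC (Dm (m + 1 : ℕ) 1) y x, wt (Dm (m + 1 : ℕ) 1) c *
        chi (Ev y ρ c ∧ Hf (m + 1 : ℕ) (Ar (m + 1 : ℕ) x y c)) := by
  classical
  set D := Dm (m + 1 : ℕ) 1 with hD
  have c2 : {T | T ≤ grid (m + 1) ∧ T.IsTree} = (fun f => Pr (m + 1) (gr f)) '' (For D nb) := by
    ext T
    constructor
    · exact fun h => Pr_surj h.1 h.2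
    · rintro ⟨f, hf, rfl⟩
      exact ⟨fun _ _ h => h.1, Pr_tree hf⟩
  have c1 : {T | T ≤ grid (m + 1) ∧ T.IsTree ∧ Splittable T}.ncard ≤
      ((For D nb).filter fun f => Splittable (Pr (m + 1) (gr f))).card := by
    rw [← Set.ncard_coe_finset]
    refine le_trans (Set.ncard_le_ncard (fun T hT => ?_)) (Set.ncard_image_le
      (f := fun f => Pr (m + 1) (gr f)))
    obtain ⟨f, hf, rfl⟩ := Pr_surj hT.1 hT.2.1
    exact ⟨f, mem_filter.mpr ⟨hf, hT.2.2⟩, rfl⟩
  rw [pUST, c2, Set.InjOn.ncard_image fun f hf g hg => Pr_inj hf hg, Set.ncard_coe_finset]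
  change _ / Z D * _ ≤ _
  rw [div_mul_cancel₀ _ (Z_pos D).ne']
  refine (Nat.cast_le.mpr c1).trans ?_
  set φ := fun (y x : V) (c : List V × List V) => chi (Ev y ρ c ∧ Hf (m + 1 : ℕ) (Ar (m + 1 : ℕ) x y c))
  have k : (((For D nb).filter fun f => Splittable (Pr (m + 1) (gr f))).card : ℝ) ≤
      ∑ f ∈ For D nb, ∑ y ∈ D, ∑ x ∈ nb y,
        (φ y x (cf D y x f) + if x ∈ D then φ x y (sw (cf D y x f)) else 0) := by
    have k0 : ∀ f y x, 0 ≤ φ y x (cf D y x f) + if x ∈ D then φ x y (sw (cf D y x f)) else 0 :=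
      fun f y x => add_nonneg (chi_nonneg _) (by split_ifs; exacts [chi_nonneg _, le_rfl])
    rw [card_filter, Nat.cast_sum]
    refine sum_le_sum fun f hf => ?_
    split_ifs with hs
    · obtain ⟨y, hy, x, hx, h⟩ := bal hf h0 hn hs
      refine le_trans ?_ ((single_le_sum (fun x _ => k0 f y x) hx).trans
        (single_le_sum (fun y _ => sum_nonneg fun x _ => k0 f y x) hy))
      rcases h with h | h
      · rw [show φ y x _ = 1 from chi_pos h]
        split_ifs <;> simp [φ, chi_nonneg]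
      · rw [if_pos h.1, show φ x y _ = 1 from chi_pos h.2]
        simp [φ, chi_nonneg]
    · exact Nat.cast_zero.trans_le (sum_nonneg fun y _ => sum_nonneg fun x _ => k0 f y x)
  refine k.trans ?_
  rw [sum_comm, two_mul]
  simp only [sum_comm (s := For D nb), sum_add_distrib]
  refine add_le_add (le_of_eq (sum_congr rfl fun y _ => sum_congr rfl fun x _ => sum_For _ _ _ _)) ?_
  have k1 : ∀ y x, ∑ f ∈ For D nb, (if x ∈ D then φ x y (sw (cf D y x f)) else 0) =
      if x ∈ D then ∑ c ∈ CC D x y, wt D c * φ x y c else 0 := fun y x => by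
    split_ifs
    · rw [← sum_sw, ← sum_For]
    · simp
  simp only [k1, ← sum_filter]
  rw [sum_comm' (t' := D) (s' := fun x => (nb x).filter (· ∈ D)) fun y x => by
    simp only [mem_filter]
    exact ⟨fun h => ⟨⟨nb_symm h.2.1, h.1⟩, h.2.2⟩, fun h => ⟨h.1.2, nb_symm h.1.1, h.2⟩⟩]
  exact sum_le_sum fun x _ => sum_le_sum_of_subset_of_nonneg (filter_subset _ _) fun y _ _ =>
    sum_nonneg fun c _ => mul_nonneg (wt_pos _ _).le (chi_nonneg _)

end Pool.Agent.P.MP_5fda20_pr.W
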