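import Pool.Agent.P.MP_5fda20_pr.W.Ana

/-! Weak Beurling estimates. -/

namespace Pool.Agent.P.MP_5fda20_pr.W

open Finset U Real

variable {D : Finset V} {c : V} {g : V → ℝ} {A : V → Prop}

lemma sum_log (m : ℕ) : 2 * (m * log m - m) ≤ ∑ d ∈ Icc (-(m : ℤ)) m, log d := by
  induction m with
  | zero => simp
  | succ m ih =>
    have e : Icc (-((m + 1 : ℕ) : ℤ)) (m + 1 : ℕ) =
        insert ((m : ℤ) + 1) (insert (-((m : ℤ) + 1)) (Icc (-(m : ℤ)) m)) := by
      ext d; simp only [mem_Icc, mem_insert]; omega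
    rw [e, sum_insert (by simp only [mem_Icc, mem_insert]; omega),
      sum_insert (by simp only [mem_Icc]; omega)]
    push_cast
    rw [log_neg_eq_log]
    rcases Nat.eq_zero_or_pos m with rfl | hm
    · simp
    have hm' : (0 : ℝ) < m := by exact_mod_cast hm
    have h := log_le_sub_one_of_pos (show 0 < ((m : ℝ) + 1) / m by positivity)
    rw [log_div (by positivity) hm'.ne', show ((m : ℝ) + 1) / m - 1 = 1 / m by field_simp; ring,
      le_div_iff₀ hm'] at h
    nlinarith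

lemma beur0 {r : ℕ} (hr : 1 ≤ r) (hA : ∀ k : ℤ, r < k → k ≤ 2 * r → ∃ v, A v ∧ dn v c = k) :
    ∃ φ : V → ℝ, (∀ z, 0 ≤ φ z ∧ φ z ≤ 1) ∧ (∀ z, ¬ A z → 4 * φ z ≤ ∑ w ∈ nb z, φ w) ∧
      (∀ z, dn z c ≤ 2 * r → 1 / 25200 ≤ φ z) ∧ ∀ z, 16 * r < dn z c → φ z = 0 := by
  classical
  choose! v h1 h2 using hA
  have hr' : (1 : ℝ) ≤ r := by exact_mod_cast hr
  let I := Ioc (r : ℤ) (2 * r)
  have hI : (I.card : ℝ) = r := by
    simp only [I, Int.card_Ioc]; exact_mod_cast (by omega : (2 * (r : ℤ) - r).toNat = r)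
  let T := Sb c (16 * r)
  let φ : V → ℝ := fun z => ∑ k ∈ I, G1 T z (v k)
  have s1 : ∀ z, z ∉ I.image v → 4 * φ z ≤ ∑ w ∈ nb z, φ w := fun z hz => by
    rw [sum_comm, mul_sum]
    exact sum_le_sum fun k hk => G1_sub _ fun e => hz (e ▸ mem_image_of_mem _ hk)
  have s2 : ∀ z, 16 * r < dn z c → φ z = 0 := fun z hz =>
    sum_eq_zero fun k _ => G_off (fun h => by have := mem_Sb.mp h; omega) _
  have s3 : ∀ j ∈ I, φ (v j) ≤ 7 * r := fun j hj => by
    have hj' := mem_Ioc.mp hj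
    have a1 : ∀ k ∈ I, G1 T (v j) (v k) ≤ 7 / 2 + (log r - log (j - k : ℤ)) := fun k hk => by
      have hk' := mem_Ioc.mp hk
      have b1 := h2 j hj'.1 hj'.2
      have b2 := h2 k hk'.1 hk'.2
      refine (G_up (R := 19 * r) (fun x hx => by
        have := mem_Sb.mp hx; unfold dn at *; omega) (by unfold dn at *; omega)).trans ?_
      have b3 : log (2 * ((19 * r : ℤ) : ℝ) ^ 2 + 1) ≤ log (2 ^ 10 * r ^ 2) :=
        log_le_log (by positivity) (by push_cast; nlinarith)
      rw [log_mul (by positivity) (by positivity), log_pow, log_pow] at b3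
      have b4 : log (((j - k : ℤ) : ℝ) ^ 2) ≤ log ((sq2 (v j) (v k) : ℝ) + 1) := by
        by_cases e : j = k
        · simp [e, sq2]
        · refine log_le_log (by have := sub_ne_zero.mpr e; positivity) ?_
          have b5 : (j - k) ^ 2 ≤ dn (v j) (v k) ^ 2 :=
            sq_le_sq' (by unfold dn at *; omega) (by unfold dn at *; omega)
          exact_mod_cast (by linarith [le_sq2 (v j) (v k)] : (j - k) ^ 2 ≤ sq2 (v j) (v k) + 1)
      rw [log_pow] at b4
      push_cast at *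
      linarith [log_two_lt_d9]
    have a2 : ∑ k ∈ I, (log r - log (j - k : ℤ)) ≤ ∑ d ∈ Icc (-(r : ℤ)) r, (log r - log d) := by
      rw [← sum_image (f := fun d : ℤ => log r - log d) (g := fun k => j - k)
        fun _ _ _ _ e => sub_right_injective e]
      refine sum_le_sum_of_subset_of_nonneg (fun d hd => ?_) fun d hd _ => ?_
      · obtain ⟨k, hk, rfl⟩ := mem_image.mp hd
        have := mem_Ioc.mp hk
        rw [mem_Icc]; omega
      · rw [sub_nonneg, ← log_abs d]
        by_cases e : d = 0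
        · simpa [e] using log_nonneg hr'
        · exact log_le_log (by simpa using e) (by exact_mod_cast abs_le.mpr (mem_Icc.mp hd))
    refine (sum_le_sum a1).trans ?_
    rw [sum_add_distrib, sum_const, nsmul_eq_mul, hI]
    rw [sum_sub_distrib (s := Icc _ _), sum_const, Int.card_Icc,
      show ((r : ℤ) + 1 - -r).toNat = 2 * r + 1 by omega, nsmul_eq_mul] at a2
    push_cast at a2 ⊢
    nlinarith [sum_log r, log_le_sub_one_of_pos (show (0 : ℝ) < r by linarith)]
  have s4 : ∀ z, φ z ≤ 7 * r := har_le (D := T \ I.image v) (h := fun _ => 7 * r)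
    (fun z hz => s1 z (mem_sdiff.mp hz).2) (fun z _ => (sum_nb_const z _).le) fun z hz => by
      by_cases h : z ∈ I.image v
      · obtain ⟨j, hj, rfl⟩ := mem_image.mp h
        exact s3 j hj
      · rw [s2 z (not_le.mp fun h' => hz (mem_sdiff.mpr ⟨mem_Sb.mpr h', h⟩))]
        positivity
  refine ⟨fun z => φ z / (7 * r), fun z => ⟨div_nonneg (sum_nonneg fun _ _ => G_nn _ _ _)
    (by positivity), (div_le_one (by positivity)).mpr (s4 z)⟩, fun z hz => ?_, fun z hz => ?_,
    fun z hz => by simp only [s2 z hz, zero_div]⟩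
  · rw [← sum_div, ← mul_div_assoc]
    refine div_le_div_of_nonneg_right (s1 z fun h => ?_) (by positivity)
    obtain ⟨j, hj, rfl⟩ := mem_image.mp h
    exact hz (h1 j (mem_Ioc.mp hj).1 (mem_Ioc.mp hj).2)
  · rw [le_div_iff₀ (by positivity)]
    refine le_trans ?_ (card_nsmul_le_sum I _ (1 / 3600 : ℝ) fun k hk => ?_)
    · rw [nsmul_eq_mul, hI]; linarith
    · have := h2 k (mem_Ioc.mp hk).1 (mem_Ioc.mp hk).2
      have := mem_Ioc.mp hk
      refine le_trans ?_ (G_lo (R := 14 * r) (s := 4 * r) (by omega) (fun x hx => by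
        rw [mem_Sb] at *; unfold dn at *; omega) (by omega) (by unfold dn at *; omega))
      rw [← log_div (by positivity) (by positivity)]
      refine div_le_div_of_nonneg_right ?_ (by norm_num)
      rw [le_log_iff_exp_le (by positivity), le_div_iff₀ (by positivity)]
      push_cast
      nlinarith [exp_one_lt_d9]

lemma out1 {r : ℕ} {M : ℝ} (hr : 1 ≤ r) (hA : ∀ k : ℤ, r < k → k ≤ 2 * r → ∃ v, A v ∧ dn v c = k)
    (hs : ∀ v, dn v c ≤ 16 * r → 4 * g v ≤ ∑ z ∈ nb v, g z) (h0 : ∀ v, A v → g v ≤ 0) (hM : 0 ≤ M)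
    (h1 : ∀ v, dn v c ≤ 16 * r + 1 → g v ≤ M) {z : V} (hz : dn z c ≤ r) :
    g z ≤ (1 - 1 / 50400) * M := by
  classical
  obtain ⟨φ, p1, p2, p3, p4⟩ := beur0 hr hA
  by_cases ha : A z
  · linarith [h0 z ha]
  have := har_le' (D := (Sb c (16 * r)).filter fun v => ¬ A v) (h := fun v => M * (1 - φ v))
    (fun v hv => hs v (mem_Sb.mp (mem_filter.mp hv).1)) (fun v hv => by
      rw [← mul_sum, sum_sub_distrib, sum_nb_const, mul_left_comm]
      exact mul_le_mul_of_nonneg_left (by linarith [p2 v (mem_filter.mp hv).2]) hM)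
    (fun x hx w hw hw' => by
      by_cases h : A w
      · exact (h0 w h).trans (mul_nonneg hM (sub_nonneg.mpr (p1 w).2))
      · rw [p4 w (not_le.mp fun h' => hw' (mem_filter.mpr ⟨mem_Sb.mpr h', h⟩)), sub_zero, mul_one]
        exact h1 w (by linarith [mem_Sb.mp (mem_filter.mp hx).1, (dn_nb hw c).1]))
    (v := z) (mem_filter.mpr ⟨mem_Sb.mpr (by omega), ha⟩)
  nlinarith [mul_le_mul_of_nonneg_left (p3 z (by omega)) hM]

lemma in1 {s K : ℕ} {M : ℝ} (hs1 : 1 ≤ s) (hK : 3 * 10 ^ 8 ≤ log K)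
    (hA : ∀ k : ℤ, s < k → k ≤ 2 * K * s → ∃ v, A v ∧ dn v c = k)
    (hs : ∀ v, s < dn v c → 4 * g v ≤ ∑ z ∈ nb v, g z) (h0 : ∀ v, A v → s < dn v c → g v ≤ 0)
    (hD : ∀ v, v ∉ D → s < dn v c → g v ≤ 0) (hM : 0 ≤ M) (h1 : ∀ v, s ≤ dn v c → g v ≤ M) {z : V}
    (hz : 2 * K * s ≤ dn z c) : g z ≤ (1 - 1 / 50400) * M := by
  classical
  have hK1 : 1 ≤ K := Nat.one_le_iff_ne_zero.mpr (by rintro rfl; norm_num at hK)
  obtain ⟨r, hr⟩ : ∃ r, r = K * s := ⟨_, rfl⟩
  have hr' : (2 * K * s : ℤ) = 2 * r := by rw [hr]; push_cast; ring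
  have hsr : s ≤ r := hr ▸ Nat.le_mul_of_pos_left _ hK1
  have hs' : (1 : ℝ) ≤ s := by exact_mod_cast hs1
  have hr1 : (1 : ℝ) ≤ r := by exact_mod_cast hs1.trans hsr
  rw [hr'] at hA hz
  obtain ⟨φ, p1, p2, p3, p4⟩ := beur0 (hs1.trans hsr) fun k a b => hA k (by omega) b
  let T := Sb c (16 * r)
  have q1 : ∀ w, dn w c ≤ s → 150000 ≤ G1 T w c := fun w hw => by
    refine le_trans ?_ (G_lo (R := 16 * r) (by omega) Subset.rfl (by omega) hw)
    push_cast
    rw [← log_div (by positivity) (by positivity), le_div_iff₀ (by norm_num), hr]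
    push_cast
    have : (0 : ℝ) < K := by exact_mod_cast hK1
    rw [show (16 * ((K : ℝ) * s)) ^ 2 / (2 * s ^ 2) = 128 * K ^ 2 by field_simp; ring,
      log_mul (by norm_num) (by positivity), log_pow]
    push_cast
    linarith [log_nonneg (show (1 : ℝ) ≤ 128 by norm_num)]
  have q2 : ∀ w, dn w c = 2 * r → G1 T w c ≤ 14 / 5 := fun w hw => by
    refine (G_up (R := 17 * r) (fun x hx => by have := mem_Sb.mp hx; omega) (by omega)).trans ?_
    have b1 : ((2 * r) ^ 2 : ℝ) ≤ sq2 w c := by exact_mod_cast hw ▸ le_sq2 w c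
    have b2 : log (2 * ((17 * r : ℤ) : ℝ) ^ 2 + 1) ≤ log (2 ^ 8 * ((sq2 w c : ℝ) + 1)) :=
      log_le_log (by positivity) (by push_cast; nlinarith)
    rw [log_mul (by norm_num) (by nlinarith), log_pow] at b2
    push_cast at *
    linarith [log_two_lt_d9]
  have k1 : ∀ z, dn z c = 2 * r → g z ≤ (1 - 1 / 50400) * M := fun z hz => by
    by_cases ha : A z
    · linarith [h0 z ha (by omega)]
    have := har_le' (D := T.filter fun v => ¬ A v ∧ s < dn v c)
      (h := fun v => M * (1 - φ v + G1 T v c / 150000))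
      (fun v hv => hs v (mem_filter.mp hv).2.2) (fun v hv => by
        rw [← mul_sum, sum_add_distrib, sum_sub_distrib, sum_nb_const, mul_left_comm, ← sum_div]
        refine mul_le_mul_of_nonneg_left ?_ hM
        linarith [p2 v (mem_filter.mp hv).2.1, G1_super T c (mem_filter.mp hv).1])
      (fun x hx w hw hw' => by
        have b1 := (mem_filter.mp hx).2.2
        have b2 := (dn_nb hw c).2
        have b3 := G_nn T w c
        by_cases h' : s < dn w c
        · by_cases h : A w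
          · exact (h0 w h h').trans (mul_nonneg hM (by linarith [(p1 w).2]))
          · rw [p4 w (not_le.mp fun h'' => hw' (mem_filter.mpr ⟨mem_Sb.mpr h'', h, h'⟩))]
            exact (h1 w h'.le).trans (le_mul_of_one_le_right hM (by linarith))
        · exact (h1 w (by omega)).trans (le_mul_of_one_le_right hM
            (by linarith [(p1 w).2, q1 w (by omega)])))
      (v := z) (mem_filter.mpr ⟨mem_Sb.mpr (by omega), ha, by omega⟩)
    nlinarith [mul_le_mul_of_nonneg_left (p3 z hz.le) hM, mul_le_mul_of_nonneg_left (q2 z hz) hM]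
  have k2 : ∀ z, z ∉ D.filter (fun v => 2 * r < dn v c) → 2 * r ≤ dn z c →
      g z ≤ (1 - 1 / 50400) * M := fun z a b => by
    by_cases h : dn z c = 2 * r
    · exact k1 z h
    · exact (hD z (fun h' => a (mem_filter.mpr ⟨h', by omega⟩)) (by omega)).trans (by positivity)
  by_cases h : z ∈ D.filter fun v => 2 * r < dn v c
  · exact har_le' (h := fun _ => (1 - 1 / 50400) * M)
      (fun v hv => hs v (by have := (mem_filter.mp hv).2; omega)) (fun z _ => (sum_nb_const z _).le)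
      (fun x hx w hw hw' => k2 w hw' (by
        have := (mem_filter.mp hx).2; have := dn_nb hw c; omega)) h
  · exact k2 z h hz

/-- the two Beurling estimates with ratio `K` -/
def Beu (K : ℕ) : Prop := ∀ (j w : ℕ) (c : V) (g : V → ℝ) (A : V → Prop), 1 ≤ w → (∀ v, g v ≤ 1) →
  (∀ k : ℤ, w < k → k ≤ K ^ j * w → ∃ v, A v ∧ dn v c = k) →
  ((∀ v, dn v c < K ^ j * w → 4 * g v ≤ ∑ z ∈ nb v, g z) → (∀ v, A v → g v ≤ 0) →
    ∀ z, dn z c ≤ w → g z ≤ 1 / 2 ^ j) ∧
  ∀ D : Finset V, (∀ v, w < dn v c → 4 * g v ≤ ∑ z ∈ nb v, g z) →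
    (∀ v, A v ∨ v ∉ D → w < dn v c → g v ≤ 0) → ∀ z, K ^ j * w ≤ dn z c → g z ≤ 1 / 2 ^ j

theorem ex_beu : ∃ K, 2 ≤ K ∧ Beu K := by
  obtain ⟨K, hK⟩ : ∃ K : ℕ, exp (3 * 10 ^ 8) ≤ K := ⟨_, Nat.le_ceil _⟩
  have hK1 : (16 : ℝ) ≤ K := by linarith [add_one_le_exp (3 * 10 ^ 8)]
  have hK2 : 16 ≤ K := by exact_mod_cast hK1
  rw [← le_log_iff_exp_le (by linarith)] at hK
  obtain ⟨k, hk⟩ := exists_pow_lt_of_lt_one (show (0 : ℝ) < 1 / 2 by norm_num)
    (show (1 : ℝ) - 1 / 50400 < 1 by norm_num)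
  have hk0 : k ≠ 0 := by rintro rfl; norm_num at hk
  have hq : ∀ j : ℕ, ((1 : ℝ) - 1 / 50400) ^ (k * j) ≤ 1 / 2 ^ j := fun j => by
    rw [pow_mul, ← one_div_pow]
    exact pow_le_pow_left₀ (by positivity) hk.le j
  refine ⟨(2 * K) ^ k, le_trans (by omega) (Nat.le_self_pow hk0 _), fun j w c g A hw h1 hA => ?_⟩
  push_cast at hA ⊢
  rw [← pow_mul] at hA ⊢
  have hi : ∀ i : ℕ, ∃ s : ℕ, (s : ℤ) = (2 * K) ^ i * w ∧ w ≤ s := fun i =>
    ⟨(2 * K) ^ i * w, by push_cast; rfl, Nat.le_mul_of_pos_left _ (by positivity)⟩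
  refine ⟨fun hs h0 z hz => le_trans ?_ (hq j), fun D hs h0 z hz => le_trans ?_ (hq j)⟩ <;>
    clear hq
  · clear hi
    generalize k * j = i at *
    revert w z
    induction i with
    | zero => intro w _ z _ _ _; simpa using h1 z
    | succ i ih =>
      intro w hw z hz hA hs
      have e : (2 * K : ℤ) ^ (i + 1) * w = (2 * K) ^ i * ((2 * K * w : ℕ) : ℤ) := by
        push_cast; ring
      have e1 : 32 * w ≤ 2 * K * w := Nat.mul_le_mul_right _ (by omega)
      have e2 : ((2 * K * w : ℕ) : ℤ) ≤ (2 * K) ^ i * ((2 * K * w : ℕ) : ℤ) :=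
        le_mul_of_one_le_left (by positivity) (one_le_pow₀ (by omega))
      rw [e] at hA hs
      rw [pow_succ']
      exact out1 hw (fun k a b => hA k a (by omega)) (fun v hv => hs v (by omega)) h0
        (by positivity) (fun v hv => ih (2 * K * w) (by omega) v (by omega)
          (fun k a b => hA k (by omega) b) hs) hz
  · generalize k * j = i at *
    revert hA z
    induction i with
    | zero => intro z _ _; simpa using h1 z
    | succ i ih =>
      intro z hA hz
      obtain ⟨s, e, e1⟩ := hi i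
      have e2 : (2 * K : ℤ) ^ (i + 1) * w = 2 * K * s := by rw [e]; ring
      have e3 : (s : ℤ) ≤ 2 * K * s := le_mul_of_one_le_left (by positivity) (by omega)
      rw [e2] at hA hz
      rw [pow_succ']
      exact in1 (D := D) (by omega) hK (fun k a b => hA k (by omega) b) (fun v hv => hs v (by omega))
        (fun v a b => h0 v (Or.inl a) (by omega)) (fun v a b => h0 v (Or.inr a) (by omega))
        (by positivity) (fun v hv => ih v (fun k a b => hA k a (by omega)) (by omega)) hz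

end Pool.Agent.P.MP_5fda20_pr.W
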