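import Pool.Agent.P.MP_5fda20_pr.W.Loc

/-! Most levels are crossed nicely and only once. -/

namespace Pool.Agent.P.MP_5fda20_pr.W

open Finset U

variable {D : Finset V} {q x y : V} {ρ ρ' n top : ℤ} {π β μ γ : List V} {L : ℝ}

/-- local coordinates at the first passage point -/
def lq (y : V) (ρ : ℤ) (π : List V) : V ≃ V := lc y (pt y ρ π)

/-- a nice crossing of the box at level `ρ` -/
structure Dec (D : Finset V) (y : V) (top ρ t : ℤ) (β μ γ : List V) : Prop where
  rch : Rch y ρ β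
  low : ∀ v ∈ β, dn v y < top
  bef : ∀ v ∈ β, ¬ Qs t (lq y ρ β v)
  mid : Mid t (μ.map (lq y ρ β))
  aft : ∀ v ∈ γ, ¬ Qs t (lq y ρ β v)
  ins : Sb (pt y ρ β) (700 * t) ⊆ D

/-- there is a nice crossing -/
def Act (D : Finset V) (y : V) (top ρ t : ℤ) (π : List V) : Prop :=
  ∃ β μ γ, π = β ++ μ ++ γ ∧ Dec D y top ρ t β μ γ

/-- the outer box at level `ρ` -/
def Wv (y : V) (ρ t : ℤ) (π : List V) (v : V) : Prop := Ws t (lq y ρ π v)

lemma Wv.dn {t : ℤ} {v : V} (h : Wv y ρ t π v) : dn v (pt y ρ π) ≤ 336 * t ∧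
    dn (pt y ρ π) y + 48 * t ≤ dn v y := by
  have h1 := lc_dn0 y (pt y ρ π) v
  have h2 := lc_X y (pt y ρ π) v
  unfold Wv Ws lq at h
  unfold W.dn at h1 ⊢
  unfold W.dn at h2
  omega

lemma Rch.lq (h : Rch y ρ β) (γ : List V) : lq y ρ (β ++ γ) = lq y ρ β := by
  rw [W.lq, (h.app γ).2.2, W.lq]

lemma psi {K j w : ℕ} (hB : Beu K) (hw : 1 ≤ w) {κ : List V} (hκ : κ.IsChain Adj) (hy : y ∈ κ)
    {p : V} (hp : p ∈ κ) (hR : K ^ j * w ≤ dn y p) {Ω : Finset V} (hΩ : ∀ v ∈ κ, v ∉ Ω)
    {W : V → Prop} (hW : ∀ v, W v → dn v p ≤ w) : ∃ ψ : V → ℝ,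
      (∀ v ∈ Ω, ∑ z ∈ nb v, ψ z ≤ 4 * ψ v) ∧ (∀ v, 0 ≤ ψ v) ∧ (∀ v, W v → 1 ≤ ψ v) ∧
      (∀ v, K ^ j * w ≤ dn v p → ψ v ≤ 1 / 2 ^ j) ∧
      (∀ v, ¬ W v → 4 * ψ v ≤ ∑ z ∈ nb v, ψ z) ∧ ∀ v, v ∉ Ω → ¬ W v → ψ v ≤ 0 := by
  classical
  have h1 : ∀ v, ¬ W v → 4 * Hm (Ω.filter (¬ W ·)) (fun v => chi (W v)) v ≤ _ := fun v hv =>
    Hm_sub (fun _ => chi_nonneg _) (Or.inr (chi_neg hv))
  have h2 : ∀ v, v ∉ Ω → ¬ W v → Hm (Ω.filter (¬ W ·)) (fun v => chi (W v)) v ≤ 0 :=
    fun v a b => by rw [Hm_off (by simp [a]), chi_neg b]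
  refine ⟨_, fun v hv => Hm_sup (fun _ => chi_le _) ?_, c_le_Hm fun _ => chi_nonneg _,
    fun v hv => by rw [Hm_off (by simp [hv]), chi_pos hv],
    (hB j w p _ (· ∈ κ) hw (Hm_le_c fun _ => chi_le _) fun k a b => ivt hκ p hp hy
      (by rw [dn_self]; omega) (b.trans hR)).2 Ω (fun v hv => h1 v fun h => by
        have := hW v h; omega) fun v a b => h2 v (a.elim (hΩ v) id) fun h => by
          have := hW v h; omega, h1, h2⟩
  by_cases h : W v <;> simp [h, hv, chi_pos]

lemma stage_fwd {t : ℤ} (h : Pst D y β q) (hD : ∃ a b c d, D = Rt a b c d)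
    (hn : ∀ u ∈ D, ∀ v ∈ D, dn u v < n) (hL : Lg L n) (ht : 1 ≤ t) (hρ : 700 * t ≤ ρ)
    (h1 : ∀ v ∈ β, dn v y ≠ ρ) (hq : dn q y = ρ) (hρ' : ρ + 801 * t < ρ') (htop : ρ' ≤ top) :
    N (D \ β.toFinset) β.toFinset q (fun _ => 1) ≤ L ^ 2100 * N (D \ β.toFinset) β.toFinset q
      fun γ => chi (Act D y top ρ t (pre y ρ' (β ++ γ)) ∨ ¬ Rch y ρ' (β ++ γ)) := by
  have hg := h.geo hD hn (by omega) h1 hq
  have e := fun F => N_aut (lc_aut y q) (D \ β.toFinset) β.toFinset q F
  have hβ : ∀ v ∈ β, dn v y < ρ := fun v hv => h.lt (by omega) h1 hv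
  rw [lc_p, Finset.map_sdiff] at e
  have hL0 : 0 ≤ L ^ 2100 := by have := hL.pos; positivity
  by_cases hi : Sb (0, 0) (700 * t) ⊆ D.map (lc y q).toEmbedding
  · have := fwd_in hg hL ht hρ hi
    rw [e, e] at this
    refine this.trans (mul_le_mul_of_nonneg_left (N_mono fun γ hγ _ => chi_mono ?_) hL0)
    rintro ⟨l, μ, r, e1, a1, a2, a3⟩
    obtain ⟨l', r, rfl, e2, rfl⟩ := List.map_eq_append_iff.mp e1
    obtain ⟨l, μ, rfl, rfl, rfl⟩ := List.map_eq_append_iff.mp e2
    obtain ⟨l, rfl⟩ : ∃ l', l = q :: l' := by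
      rcases l with _ | ⟨a, l⟩
      · obtain ⟨⟨a, b1, b2, -⟩, -⟩ := a2
        obtain ⟨μ, rfl⟩ : ∃ μ', μ = q :: μ' := by
          rcases μ with _ | ⟨a, μ⟩
          · simp at b1
          · exact ⟨μ, by simpa using hγ.hd⟩
        simp only [List.map_cons, lc_p, List.head?_cons, Option.some.injEq] at b1
        subst b1
        omega
      · exact ⟨l, by simpa using hγ.hd⟩
    have b0 : pt y ρ (β ++ q :: l) = q := (lev_eq h1 hq l).2.2
    have b1 : ∀ v ∈ β ++ q :: l, dn v y < ρ' := fun v hv => by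
      rcases List.mem_append.mp hv with hv | hv
      · linarith [hβ v hv]
      · have := (a1 _ (List.mem_map_of_mem hv)).2
        rw [lc_dn0] at this
        linarith [dn_tri v q y]
    refine Or.inl ⟨β ++ q :: l, μ, pre y ρ' r, ?_, ⟨q, by simp, hq⟩,
      fun v hv => (b1 v hv).trans_le htop, fun v hv => ?_, by rwa [lq, b0], fun v hv => ?_, ?_⟩
    · rw [← List.append_assoc, ← List.append_assoc]
      refine (lev_app (fun v hv => ?_) r).1
      rcases List.mem_append.mp hv with hv | hv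
      · exact (b1 v hv).ne
      · have := a2.2.2 _ (List.mem_map_of_mem hv)
        have := lc_dn0 y q v
        have := dn_tri v q y
        unfold Ws dn at *
        omega
    · rw [lq, b0]
      rcases List.mem_append.mp hv with hv | hv
      · have := lc_X y q v
        have := hβ v hv
        unfold Qs; omega
      · exact (a1 _ (List.mem_map_of_mem hv)).1
    · rw [lq, b0]
      exact a3 _ (List.mem_map_of_mem ((List.takeWhile_sublist _).subset hv))
    · rw [b0]
      exact fun v hv => by simpa using hi (mem_Sb.mpr ((lc_dn0 y q v).trans_le (mem_Sb.mp hv)))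
  · have := fwd_out hg hL ht hρ hi
    rw [e, e] at this
    refine this.trans (mul_le_mul_of_nonneg_left (N_mono fun γ hγ _ => chi_mono fun a => ?_) hL0)
    refine Or.inr fun ⟨v, hv, e⟩ => ?_
    rcases List.mem_append.mp hv with hv | hv
    · linarith [hβ v hv]
    · have := a _ (List.mem_map_of_mem hv)
      rw [lc_dn0] at this
      linarith [dn_tri v q y]

lemma vis_zero {W : ℕ → V → Prop} {M : Finset ℕ} (h : ∀ i ∈ M, ∀ v ∈ π, ¬ W i v) :
    vis W M π = 0 := by
  simp only [vis, card_eq_zero, filter_eq_empty_iff]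
  exact fun i hi ⟨v, a, b⟩ => h i hi v a b

lemma vis_app {W W' : ℕ → V → Prop} {M : Finset ℕ} (h : ∀ i ∈ M, W' i = W i) (β γ : List V) :
    vis W' M β ≤ vis W M (β ++ γ) ∧ vis W M (β ++ γ) ≤ vis W' M β + vis W M γ := by
  unfold vis
  refine ⟨card_le_card fun i hi => ?_, (card_le_card fun i hi => ?_).trans (card_union_le _ _)⟩
  · simp only [mem_filter, List.mem_append] at hi ⊢
    obtain ⟨a, v, b, c⟩ := hi
    exact ⟨a, v, Or.inl b, h i a ▸ c⟩
  · simp only [mem_filter, List.mem_append, mem_union] at hi ⊢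
    obtain ⟨a, v, b | b, c⟩ := hi
    exacts [Or.inl ⟨a, v, b, (h i a).symm ▸ c⟩, Or.inr ⟨a, v, b, c⟩]

open Classical in
lemma vis_succ (W : ℕ → V → Prop) (l : ℕ) (π : List V) : vis W (range (l + 1)) π =
    vis W (range l) π + if ∃ v ∈ π, W l v then 1 else 0 := by
  unfold vis
  rw [card_filter, card_filter, sum_range_succ]

/-- the levels of one scale -/
def lv (R I i : ℕ) : ℤ := 4 * R * (I + i)

lemma lv_lt {R I i k : ℕ} (h : i < k) : lv R I i + 4 * R ≤ lv R I k := by
  have : (i : ℤ) + 1 ≤ k := by exact_mod_cast h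
  unfold lv; nlinarith

lemma lv_ge {R I : ℕ} (hI : 1 ≤ I) (i : ℕ) : 4 * R ≤ lv R I i := by
  have : (1 : ℤ) ≤ I := by exact_mod_cast hI
  unfold lv; nlinarith

/-- admissible parameters of a scale -/
structure Par (K j t R I : ℕ) : Prop where
  beu : Beu K
  hK : 1 ≤ K
  ht : 1 ≤ t
  hR : K ^ j * (1000 * t) ≤ R
  hI : 1 ≤ I
  hj : (I : ℝ) * (1 / 2 ^ j) ≤ 1 / 4

variable {K j t R I : ℕ}

lemma Par.le (h : Par K j t R I) : 1000 * t ≤ R :=
  (Nat.le_mul_of_pos_left _ (pow_pos h.hK _)).trans h.hR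

lemma Par.psi (h : Par K j t R I) {κ : List V} (hκ : κ.IsChain Adj) (hy : y ∈ κ) {l : ℕ}
    (hl : ∀ i < l, Rch y (lv R I i) κ) {Ω : Finset V} (hΩ : ∀ v ∈ κ, v ∉ Ω) :
    ∃ ψ : ℕ → V → ℝ, (∀ i, ∀ v ∈ Ω, ∑ z ∈ nb v, ψ i z ≤ 4 * ψ i v) ∧ (∀ i v, 0 ≤ ψ i v) ∧
      (∀ i < l, ∀ v, Wv y (lv R I i) t κ v → 1 ≤ ψ i v ∧ dn v y ≤ lv R I l ∧
        ∀ k < l, k ≠ i → ψ k v ≤ 1 / 2 ^ j) ∧
      ∀ i < l, ∀ v, lv R I l - R ≤ dn v y ∨ dn v y ≤ R → ψ i v ≤ 1 / 2 ^ j ∧
        4 * ψ i v ≤ ∑ z ∈ nb v, ψ i z ∧ (v ∉ Ω → ψ i v ≤ 0) := by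
  have h1 := h.le
  have h2 : (K : ℤ) ^ j * (336 * t : ℕ) ≤ R := by
    exact_mod_cast (Nat.mul_le_mul_left _ (by omega)).trans h.hR
  have key := fun i (hi : i < l) => W.psi (j := j) (w := 336 * t) h.beu (by have := h.ht; omega) hκ
    hy (hl i hi).pt.1 (by rw [dn_comm, (hl i hi).pt.2]; linarith [lv_ge (R := R) h.hI i]) hΩ
    (W := Wv y (lv R I i) t κ) fun v hv => by exact_mod_cast hv.dn.1
  choose! ψ p1 p2 p3 p4 p5 p6 using key
  refine ⟨fun i v => if i < l then ψ i v else 0, fun i v hv => ?_, fun i v => ?_,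
    fun i hi v hv => ?_, fun i hi v hv => ?_⟩
  · dsimp only
    split_ifs with hi
    exacts [p1 i hi v hv, by simp]
  · dsimp only
    split_ifs with hi
    exacts [p2 i hi v, le_rfl]
  · have a1 := hv.dn
    have a2 := dn_tri v (pt y (lv R I i) κ) y
    rw [(hl i hi).pt.2] at a1 a2
    refine ⟨by simpa [hi] using p3 i hi v hv, by have := lv_lt (R := R) (I := I) hi; omega,
      fun k hk hk' => ?_⟩
    simp only [if_pos hk]
    refine p4 k hk v (h2.trans ?_)
    have a3 := dn_tri v (pt y (lv R I k) κ) y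
    have a4 := dn_tri (pt y (lv R I k) κ) v y
    rw [(hl k hk).pt.2] at a3 a4
    rw [dn_comm _ v] at a4
    rcases lt_or_gt_of_ne hk' with a | a <;> have := lv_lt (R := R) (I := I) a <;> omega
  · simp only [if_pos hi]
    have a3 := dn_tri v (pt y (lv R I i) κ) y
    have a4 := dn_tri (pt y (lv R I i) κ) v y
    rw [(hl i hi).pt.2] at a3 a4
    rw [dn_comm _ v] at a4
    have := lv_lt (R := R) (I := I) hi
    have := lv_ge (R := R) h.hI i
    have a5 : ¬ Wv y (lv R I i) t κ v := fun h' => by have := h'.dn.1; have := h.ht; omega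
    exact ⟨p4 i hi v (h2.trans (by omega)), p5 i hi v a5, fun a => p6 i hi v a a5⟩

lemma stage_vis (hP : Par K j t R I) {l : ℕ} (hl : l ≤ I) (h : Pst D y β q)
    (hD : ∃ a b c d, D = Rt a b c d) (hn : ∀ u ∈ D, ∀ v ∈ D, dn u v < n) (hL : Lg L n)
    (h1 : ∀ v ∈ β, dn v y ≠ lv R I l) (hq : dn q y = lv R I l) :
    N (D \ β.toFinset) β.toFinset q
      (fun γ => 2 ^ vis (fun i => Wv y (lv R I i) t β) (range l) γ) ≤
      (1 + 16 * I ^ 2 * L ^ 76 / 2 ^ j) * N (D \ β.toFinset) β.toFinset q (fun _ => 1) := by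
  have r1 := hP.le
  have r2 := hP.ht
  have r3 := lv_ge (R := R) hP.hI l
  have hβ : ∀ v ∈ β, dn v y < lv R I l := fun v hv => h.lt (by omega) h1 hv
  have hg := h.geo hD hn (by omega) h1 hq
  have hc := (List.isChain_append.mp h.ch).1
  obtain ⟨o, ho, ho'⟩ := mem_map.mp hg.one
  rw [List.mem_toFinset] at ho
  have hy : y ∈ β := by
    obtain ⟨x, β, rfl⟩ := List.exists_cons_of_ne_nil (List.ne_nil_of_mem ho)
    rw [show x = y by simpa using h.hd]; simp
  have hr : ∀ i < l, Rch y (lv R I i) β := fun i hi => by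
    have a1 := lv_lt (R := R) (I := I) hi
    have a2 := lv_ge (R := R) hP.hI i
    have a3 := lc_dn0 y q o
    have a4 := dn_tri q o y
    rw [show lc y q o = (-1, 0) from ho', dn_comm o] at a3
    exact ivt hc y hy ho (by rw [dn_self]; omega) (by unfold dn at a3 a4 hq ⊢; omega)
  have hE : 0 ≤ 16 * I ^ 2 * L ^ 76 / 2 ^ j := by have := hL.pos; positivity
  by_cases hqD : q ∈ D
  swap
  · have : q ∉ D \ β.toFinset := by simp [hqD]
    rw [N_out this, N_out this]
    split_ifs
    · simp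
    · rw [vis_zero (fun i hi v hv h' => by
          have a1 := lv_lt (R := R) (I := I) (mem_range.mp hi)
          rw [List.mem_singleton.mp hv] at h'
          have a2 := h'.dn.1
          have a3 := dn_tri q (pt y (lv R I i) β) y
          rw [(hr i (mem_range.mp hi)).pt.2] at a3
          omega), pow_zero]
      exact le_mul_of_one_le_left (mul_pos (Z_pos _) one_pos).le (by linarith)
  obtain ⟨ψ, p1, p2, p3, p4⟩ := hP.psi hc hy hr (Ω := D \ β.toFinset) fun v hv => by simp [hv]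
  obtain ⟨z, hz, hm⟩ := exists_max_image (Sb y (lv R I l)) (He D β.toFinset)
    ⟨y, mem_Sb.mpr (by rw [dn_self]; omega)⟩
  refine (N_vis_le (h := He D β.toFinset) (c := He D β.toFinset z) (ε := 1 / 2 ^ j) (range l)
    (Hm_har _ _) (fun v hv => Hm_off hv) He_nn (He_nn _) p1 p2 (fun i hi v hv => by
      obtain ⟨a, b, c⟩ := p3 i (mem_range.mp hi) v hv
      exact ⟨hm v (mem_Sb.mpr b), a, fun k hk => c k (mem_range.mp hk)⟩) (by positivity)
    (le_trans (mul_le_mul_of_nonneg_right (by simpa using hl) (by positivity)) hP.hj) q).trans ?_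
  rw [N_one, mul_left_comm, add_mul, one_mul, mul_sum]
  refine mul_le_mul_of_nonneg_left (add_le_add_right ((sum_le_card_nsmul _ _
    (16 * I * L ^ 76 / 2 ^ j * He D β.toFinset q) fun i hi => ?_).trans ?_) _) (Z_pos _).le
  · have k : ∀ v, dn v (0, 0) ≤ R → lv R I l - R ≤ dn ((lc y q).symm v) y ∨
        dn ((lc y q).symm v) y ≤ R := fun v hv => by
      have a1 := lc_dn0 y q ((lc y q).symm v)
      have a2 := dn_tri q ((lc y q).symm v) y
      rw [Equiv.apply_symm_apply, dn_comm _ q] at a1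
      exact Or.inl (by omega)
    have e0 : (lc y q).symm (0, 0) = q := by rw [← lc_p y q, Equiv.symm_apply_apply]
    have := carl hg hL (R := R) (by omega) (by omega) (lc_p y q ▸ mem_map_of_mem _ hqD)
      (ψ := fun v => ψ i ((lc y q).symm v)) (ε := 1 / 2 ^ j) (by positivity)
      (fun v hv => (p4 i (mem_range.mp hi) _ (k v hv)).1) (fun v _ hv => by
        have := (lc_aut y q).sum ((lc y q).symm v) fun v => ψ i ((lc y q).symm v)
        simp only [Equiv.apply_symm_apply, Equiv.symm_apply_apply] at this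
        rw [this]
        exact (p4 i (mem_range.mp hi) _ (k v hv.le)).2.1)
      (fun v a hv => (p4 i (mem_range.mp hi) _ (k v hv)).2.2 (by
        rw [mem_map_equiv] at a; simp only [mem_sdiff, a]; simp)) (p2 _ _) (z := lc y q z) (by
        rw [show (-lv R I l, (lc y q y).2) = lc y q y from Prod.ext ?_ rfl, lc_dn]
        · exact mem_Sb.mp hz
        · have a1 := lc_X y q y
          have a2 := lc_dn0 y q y
          rw [dn_comm y, hq] at a2
          rw [hq, dn_self] at a1
          unfold dn at a2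
          omega)
    rw [e0, ← lc_p y q, He_aut (lc_aut y q), He_aut (lc_aut y q)] at this
    have hR : (0 : ℝ) < R := by exact_mod_cast (by omega : 0 < R)
    have a1 : (lv R I l : ℝ) ≤ 8 * I * R := by
      have : (l : ℝ) ≤ I := by exact_mod_cast hl
      unfold lv; push_cast; nlinarith
    refine le_of_mul_le_mul_right ?_ hR
    have a2 := mul_le_mul_of_nonneg_right a1 (show 0 ≤ L ^ 76 * (1 / 2 ^ j) * He D β.toFinset q from
      mul_nonneg (by have := hL.pos; positivity) (He_nn _))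
    push_cast at this
    rw [div_eq_mul_one_div]
    linarith
  · rw [card_range, nsmul_eq_mul, ← mul_assoc]
    refine mul_le_mul_of_nonneg_right ?_ (He_nn _)
    rw [← mul_div_assoc]
    have : (l : ℝ) ≤ I := by exact_mod_cast hl
    have := hL.pos
    exact div_le_div_of_nonneg_right ((mul_le_mul_of_nonneg_right ‹(l : ℝ) ≤ I›
      (by positivity)).trans_eq (by ring)) (by positivity)

open Classical in
/-- the factor of one stage -/
noncomputable def Fs (D : Finset V) (y : V) (top : ℤ) (t R I : ℕ) (c : ℝ) (l : ℕ) (π : List V) : ℝ :=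
  chi (Rch y (lv R I (l + 1)) π) *
    ((if Act D y top (lv R I l) t (pre y (lv R I (l + 1)) π) then c else 1) *
    2 ^ vis (fun i => Wv y (lv R I i) t (pre y (lv R I (l + 1)) π)) (range l)
      (suf y (lv R I l) (pre y (lv R I (l + 1)) π)))

variable {c : ℝ}

lemma Fs_nn (hc : 0 ≤ c) (l : ℕ) (π : List V) : 0 ≤ Fs D y top t R I c l π :=
  mul_nonneg (chi_nonneg _) (mul_nonneg (by split_ifs; exacts [hc, zero_le_one]) (by positivity))

lemma Rch.mono (h : Rch y ρ β) (γ : List V) : Rch y ρ (β ++ γ) :=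
  let ⟨v, a, b⟩ := h; ⟨v, List.mem_append_left _ a, b⟩

lemma rch_le (hc : π.IsChain Adj) (hy : y ∈ π) (h : Rch y ρ π) (h0 : 0 ≤ ρ') (h' : ρ' ≤ ρ) :
    Rch y ρ' π :=
  let ⟨_, a, b⟩ := h; ivt hc y hy a (by rwa [dn_self]) (b ▸ h')

lemma lv_nn (R I i : ℕ) : 0 ≤ lv R I i := by unfold lv; positivity

lemma Pst.rch (h : Pst D y β q) {l i : ℕ} (hq : dn q y = lv R I l) (hi : i ≤ l) :
    Rch y (lv R I i) (β ++ [q]) := rch_le h.ch (List.mem_of_head? h.hd) ⟨q, by simp, hq⟩
  (lv_nn _ _ _) (by unfold lv; nlinarith [show (i : ℤ) ≤ l by exact_mod_cast hi])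

lemma Pst.rch' (h : Pst D y β q) {l i : ℕ} (hq : dn q y = lv R I l) (hi : i < l) (hR : 0 < R) :
    Rch y (lv R I i) β := by
  obtain ⟨v, a, b⟩ := h.rch hq hi.le
  rcases List.mem_append.mp a with a | a
  · exact ⟨v, a, b⟩
  · have := lv_lt (R := R) (I := I) hi
    rw [List.mem_singleton.mp a] at b
    omega

lemma prod_Fs (h : Pst D y β q) {l : ℕ} (hq : dn q y = lv R I l) (γ : List V) :
    ∏ i ∈ range l, Fs D y top t R I c i (β ++ q :: γ) =
      ∏ i ∈ range l, Fs D y top t R I c i (β ++ [q]) := by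
  refine prod_congr rfl fun i hi => ?_
  have := h.rch hq (show i + 1 ≤ l from mem_range.mp hi)
  rw [show β ++ q :: γ = β ++ [q] ++ γ by simp, Fs, Fs, (this.app γ).1, chi_pos this,
    chi_pos (this.mono γ)]

open Classical in
theorem cnt0 (hP : Par K j t R I) (hD : ∃ a b c d, D = Rt a b c d)
    (hn : ∀ u ∈ D, ∀ v ∈ D, dn u v < n) (hL : Lg L n) (htop : lv R I I ≤ top) (hc : 1 / 2 ≤ c)
    (hc' : c ≤ 1) (hj : 16 * I ^ 2 * L ^ 76 / 2 ^ j ≤ (1 - c) / L ^ 2100 / 2) :
    N D ∅ y (fun π => chi (Rch y (lv R I I) π) * ∏ i ∈ range I,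
      (if Act D y top (lv R I i) t π then c else 1 : ℝ)) ≤
      2 * (1 - (1 - c) / L ^ 2100 / 2) ^ I * Z D := by
  classical
  have r1 := hP.le
  have r2 := hP.ht
  have hc0 : 0 ≤ c := by linarith
  have hL1 : 1 ≤ L ^ 2100 := one_le_pow₀ (by linarith [hL.ge])
  set κ := (1 - c) / L ^ 2100 with hκ
  have k0 : 0 ≤ κ := div_nonneg (by linarith) (by linarith)
  have k1 : κ ≤ 1 := (div_le_one (by linarith)).mpr (by linarith)
  have hA : ∀ l π, 0 ≤ ∏ i ∈ range l, Fs D y top t R I c i π := fun l π =>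
    prod_nonneg fun i _ => Fs_nn hc0 i π
  have s1 : ∀ l ≤ I, N D ∅ y (fun π => ∏ i ∈ range l, Fs D y top t R I c i π) ≤
      (1 - κ / 2) ^ l * Z D := by
    intro l
    induction l with
    | zero => exact fun _ => by simpa using N_le_Z fun _ => le_rfl
    | succ l ih =>
      intro hl
      rw [pow_succ', mul_assoc]
      refine le_trans ?_ (mul_le_mul_of_nonneg_left (ih (by omega)) (by linarith))
      rw [← N_smul]
      have a0 := lv_lt (R := R) (I := I) (show l < l + 1 by omega)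
      refine N_tr (fun v => dn v y = lv R I l) D ∅ y _ _ (fun β q h h1 hq => ?_) fun π hπ h => ?_
      · have e : ∀ γ, IsP (D \ β.toFinset) q γ → ∏ i ∈ range l, Fs D y top t R I c i (β ++ γ) =
            ∏ i ∈ range l, Fs D y top t R I c i (β ++ [q]) := fun γ hγ => by
          obtain ⟨γ, rfl⟩ := hγ.eq_cons
          exact prod_Fs h hq γ
        rw [empty_union, N_congr fun γ hγ _ => by rw [prod_range_succ, e γ hγ],
          N_congr (F := fun γ => (1 - κ / 2) * _)
            (F' := fun _ => (∏ i ∈ range l, Fs D y top t R I c i (β ++ [q])) *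
            ((1 - κ / 2) * 1)) fun γ hγ _ => by rw [e γ hγ]; ring, N_smul, N_smul, N_smul]
        refine mul_le_mul_of_nonneg_left ?_ (hA _ _)
        have a1 := stage_vis hP (by omega) h hD hn hL h1 hq
        have a2 := stage_fwd (t := t) (ρ' := lv R I (l + 1)) (top := top) h hD hn hL (by omega)
          (by have := lv_ge (R := R) hP.hI l; omega) h1 hq (by omega) (le_trans (by
            unfold lv; push_cast; nlinarith [show (l : ℤ) + 1 ≤ I by exact_mod_cast hl]) htop)
        have a3 := N_mono (D := D \ β.toFinset) (A := β.toFinset) (a := q)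
          (F := fun γ => Fs D y top t R I c l (β ++ γ))
          (F' := fun γ => 2 ^ vis (fun i => Wv y (lv R I i) t β) (range l) γ - (1 - c) *
            chi (Act D y top (lv R I l) t (pre y (lv R I (l + 1)) (β ++ γ)) ∨
              ¬ Rch y (lv R I (l + 1)) (β ++ γ))) fun γ hγ _ => by
          have b0 : (1 : ℝ) ≤ 2 ^ vis (fun i => Wv y (lv R I i) t β) (range l) γ :=
            one_le_pow₀ one_le_two
          by_cases b1 : Rch y (lv R I (l + 1)) (β ++ γ)
          swap
          · rw [Fs, chi_neg b1, chi_pos (Or.inr b1)]; linarith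
          have b2 := (lev_app (fun v hv => (show dn v y < lv R I (l + 1) by
            have := h.lt (lv_nn _ _ _) h1 hv; omega).ne) γ).1
          have b3 : (2 : ℝ) ^ vis (fun i => Wv y (lv R I i) t (pre y (lv R I (l + 1)) (β ++ γ)))
              (range l) (suf y (lv R I l) (pre y (lv R I (l + 1)) (β ++ γ))) ≤
              2 ^ vis (fun i => Wv y (lv R I i) t β) (range l) γ := by
            refine pow_le_pow_right₀ one_le_two ?_
            rw [b2, (lev_app h1 _).2.1]
            conv_rhs => rw [← pre_suf y (lv R I (l + 1)) γ]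
            obtain ⟨γ, rfl⟩ := hγ.eq_cons
            rw [show pre y (lv R I (l + 1)) (q :: γ) = q :: pre y (lv R I (l + 1)) γ from
              (lev_app (β := [q]) (by simp; omega) γ).1, (lev_cons hq _).2.1]
            exact (vis_app (fun i hi => by
              funext v
              rw [Wv, (h.rch' hq (mem_range.mp hi) (by omega)).lq, Wv]) _ _).1
          rw [Fs, chi_pos b1, one_mul]
          split_ifs with b4
          · rw [chi_pos (Or.inl b4)]; nlinarith
          · rw [chi_neg (by tauto)]; linarith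
        rw [N_sub, N_smul] at a3
        have a4 := N_nonneg (D := D \ β.toFinset) (A := β.toFinset) (a := q) (F := fun _ => 1)
          fun _ => zero_le_one
        rw [← div_le_iff₀' (by linarith)] at a2
        have a5 := mul_le_mul_of_nonneg_left a2 (sub_nonneg.mpr hc')
        rw [← mul_div_assoc, ← div_mul_eq_mul_div, ← hκ] at a5
        nlinarith [mul_le_mul_of_nonneg_right hj a4]
      · rw [prod_range_succ, Fs, chi_neg, zero_mul, mul_zero]
        · exact mul_nonneg (by linarith) (hA _ _)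
        · intro h'
          obtain ⟨v, a, b⟩ := rch_le hπ.ch hπ.mem_hd h' (lv_nn R I l) (by omega)
          exact h v a b
  have s2 : ∀ π, IsP D y π → ∀ l, Rch y (lv R I l) π → ∏ i ∈ range l,
      (if Act D y top (lv R I i) t π then c else 1 : ℝ) ≤
      (∏ i ∈ range l, Fs D y top t R I c i π) *
        2 ^ vis (fun i => Wv y (lv R I i) t π) (range l) (suf y (lv R I l) π) := by
    intro π hπ l
    induction l with
    | zero => intro _; simp [vis]
    | succ l ih =>
      intro hl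
      have a0 := lv_lt (R := R) (I := I) (show l < l + 1 by omega)
      rw [prod_range_succ, prod_range_succ, mul_assoc]
      refine (mul_le_mul_of_nonneg_right (ih (rch_le hπ.ch hπ.mem_hd hl (lv_nn R I l) (by omega)))
        (by split_ifs; exacts [hc0, zero_le_one])).trans ?_
      rw [mul_assoc]
      refine mul_le_mul_of_nonneg_left ?_ (hA _ _)
      rw [Fs, chi_pos hl, one_mul]
      obtain ⟨β, q, γ, rfl, h1, hq⟩ := hl.dec
      have h := hπ.split.1
      have hr : ∀ i ≤ l, Rch y (lv R I i) β := fun i hi => h.rch' hq (by omega) (by omega)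
      have hW : ∀ i ≤ l, Wv y (lv R I i) t β = Wv y (lv R I i) t (β ++ q :: γ) := fun i hi => by
        funext v
        rw [Wv, Wv, (hr i hi).lq]
      rw [(lev_eq h1 hq γ).1, (lev_eq h1 hq γ).2.1, ((hr l le_rfl).app _).2.1, vis_succ, pow_add]
      have b1 : (2 : ℝ) ^ _ ≤ _ := pow_le_pow_right₀ one_le_two (vis_app (M := range l)
        (fun i hi => hW i (mem_range.mp hi).le) (suf y (lv R I l) β) (q :: γ)).2
      rw [pow_add] at b1
      have b2 : (if Act D y top (lv R I l) t (β ++ q :: γ) then c else 1 : ℝ) ≤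
          (if Act D y top (lv R I l) t β then c else 1) *
            2 ^ if ∃ v ∈ q :: γ, Wv y (lv R I l) t (β ++ q :: γ) v then 1 else 0 := by
        by_cases b3 : ∃ v ∈ q :: γ, Wv y (lv R I l) t (β ++ q :: γ) v
        · rw [if_pos b3]; split_ifs <;> linarith
        rw [if_neg b3, pow_zero, mul_one]
        by_cases b4 : Act D y top (lv R I l) t β
        swap
        · rw [if_neg b4]; split_ifs <;> linarith
        obtain ⟨β', μ, γ', rfl, hd⟩ := b4
        suffices b5 : Act D y top (lv R I l) t (β' ++ μ ++ γ' ++ q :: γ) by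
          rw [if_pos (show Act _ _ _ _ _ (β' ++ μ ++ γ') from ⟨β', μ, γ', rfl, hd⟩), if_pos b5]
        refine ⟨β', μ, γ' ++ q :: γ, by simp,
          hd.rch, hd.low, hd.bef, hd.mid, fun v hv => ?_, hd.ins⟩
        rcases List.mem_append.mp hv with hv | hv
        · exact hd.aft v hv
        · refine fun h' => b3 ⟨v, hv, ?_⟩
          rw [Wv, List.append_assoc, List.append_assoc, hd.rch.lq]
          unfold Qs at h'; unfold Ws; omega
      exact (mul_le_mul b1 b2 (by split_ifs; exacts [hc0, zero_le_one])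
        (by positivity)).trans_eq (by ring)
  refine le_trans (N_mono fun π hπ _ => ?_) (le_trans (N_tr (fun v => dn v y = lv R I I) D ∅ y
    (fun π => (∏ i ∈ range I, Fs D y top t R I c i π) *
      2 ^ vis (fun i => Wv y (lv R I i) t π) (range I) (suf y (lv R I I) π))
    (fun π => 2 * ∏ i ∈ range I, Fs D y top t R I c i π) (fun β q h h1 hq => ?_)
      fun π hπ h => ?_) ?_)
  · by_cases h : Rch y (lv R I I) π
    · rw [chi_pos h, one_mul]; exact s2 π hπ I h
    · rw [chi_neg h, zero_mul]; exact mul_nonneg (hA _ _) (by positivity)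
  · rw [empty_union, N_congr (F' := fun γ => (∏ i ∈ range I, Fs D y top t R I c i (β ++ [q])) *
        2 ^ vis (fun i => Wv y (lv R I i) t β) (range I) γ) fun γ hγ _ => ?_,
      N_congr (F := fun γ => 2 * _) (F' := fun _ => (∏ i ∈ range I,
        Fs D y top t R I c i (β ++ [q])) * (2 * 1)) fun γ hγ _ => ?_, N_smul, N_smul, N_smul]
    · refine mul_le_mul_of_nonneg_left ((stage_vis hP le_rfl h hD hn hL h1 hq).trans
        (mul_le_mul_of_nonneg_right (by linarith) (N_nonneg fun _ => zero_le_one))) (hA _ _)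
    · obtain ⟨γ, rfl⟩ := hγ.eq_cons
      rw [prod_Fs h hq]; ring
    · obtain ⟨γ, rfl⟩ := hγ.eq_cons
      rw [prod_Fs h hq, (lev_eq h1 hq γ).2.1]
      congr 2
      unfold vis
      congr 1
      ext i
      simp only [mem_filter, mem_range]
      exact and_congr_right fun hi => by simp only [Wv, (h.rch' hq hi (by omega)).lq]
  · rw [show suf y (lv R I I) π = [] by simpa [suf] using h, vis_zero (by simp)]
    linarith [hA I π]
  · rw [N_smul, mul_assoc]
    exact mul_le_mul_of_nonneg_left (s1 I le_rfl) two_pos.le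

/-- a nice crossing whose outer box is avoided by the second branch -/
def AcC (D : Finset V) (y : V) (top ρ t : ℤ) (c : List V × List V) : Prop :=
  Act D y top ρ t c.1 ∧ ∀ v ∈ c.2, ¬ Wv y ρ t c.1 v

open Classical in
theorem cnt (hP : Par K j t R I) (hD : ∃ a b c d, D = Rt a b c d)
    (hn : ∀ u ∈ D, ∀ v ∈ D, dn u v < n) (hL : Lg L n) (htop : lv R I I ≤ top) (hc : 1 / 2 ≤ c)
    (hc' : c ≤ 1) (hj : 16 * I ^ 2 * L ^ 76 / 2 ^ j ≤ (1 - c) / L ^ 2100 / 2) (hx : x ∈ nb y) :
    ∑ s ∈ CC D y x, wt D s * (chi (Rch y top s.1) * ∏ i ∈ range I,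
      (if AcC D y top (lv R I i) t s then c else 1 : ℝ)) ≤
      4 * (1 - (1 - c) / L ^ 2100 / 2) ^ I * Z D := by
  have r1 := hP.le
  have r2 := hP.ht
  have h0 : ∀ p : Prop, (0 : ℝ) ≤ if p then c else 1 := fun p => by split_ifs <;> linarith
  refine le_trans ?_ ((mul_le_mul_of_nonneg_left (cnt0 (y := y) hP hD hn hL htop hc hc' hj)
    two_pos.le).trans_eq (by ring))
  rw [sum_CC, N, mul_sum]
  refine sum_le_sum fun σ hσ => ?_
  rw [mem_P] at hσ
  rw [if_neg (by simp)]
  by_cases h : Rch y top σ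
  swap
  · simp only [chi_neg h, zero_mul, N_zero]
    exact mul_nonneg two_pos.le (mul_nonneg (Zm_pos _ _).le
      (mul_nonneg (chi_nonneg _) (prod_nonneg fun _ _ => h0 _)))
  have hr : ∀ i ≤ I, Rch y (lv R I i) σ := fun i hi => rch_le hσ.ch hσ.mem_hd h (lv_nn _ _ _)
    (le_trans (by unfold lv; nlinarith [show (i : ℤ) ≤ I by exact_mod_cast hi]) htop)
  obtain ⟨ψ, p1, p2, p3, p4⟩ := hP.psi hσ.ch hσ.mem_hd (fun i hi => hr i hi.le)
    (Ω := D \ σ.toFinset) fun v hv => by simp [hv]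
  have k := N_vis_le (D := D \ σ.toFinset) (A := ∅) (W := fun i => Wv y (lv R I i) t σ)
    (h := fun _ => 1) (c := 1) (ε := 1 / 2 ^ j) (range I) (fun v _ => (sum_nb_const v 1).symm)
    (fun v _ => by simp [tg]) (fun _ => zero_le_one) zero_le_one p1 p2 (fun i hi v hv => by
      obtain ⟨a, -, c⟩ := p3 i (mem_range.mp hi) v hv
      exact ⟨le_rfl, a, fun k hk => c k (mem_range.mp hk)⟩) (by positivity)
    (by simpa using hP.hj) x
  have k2 := sum_le_card_nsmul (range I) (fun i => ψ i x) (1 / 2 ^ j) fun i hi =>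
    (p4 i (mem_range.mp hi) x (Or.inr (by
      have := (dn_nb hx y).1
      rw [dn_self] at this
      omega))).1
  rw [card_range, nsmul_eq_mul] at k2
  refine (N_mono (F' := fun τ => (∏ i ∈ range I, (if Act D y top (lv R I i) t σ then c else 1 : ℝ)) *
    2 ^ vis (fun i => Wv y (lv R I i) t σ) (range I) τ) fun τ _ _ => ?_).trans ?_
  · rw [chi_pos h, one_mul, vis, card_filter, ← prod_pow_eq_pow_sum,
      ← prod_mul_distrib]
    refine prod_le_prod (fun _ _ => h0 _) fun i _ => ?_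
    by_cases a : ∃ v ∈ τ, Wv y (lv R I i) t σ v
    · rw [if_pos a]; split_ifs <;> linarith
    · rw [if_neg a, pow_zero, mul_one]
      exact (if_congr (show AcC D y top (lv R I i) t (σ, τ) ↔ _ from
        and_iff_left (by simpa using a)) rfl rfl).le
  · rw [N_smul, chi_pos (hr I le_rfl), one_mul, ← mul_assoc, mul_comm]
    refine mul_le_mul_of_nonneg_right (k.trans ?_) (prod_nonneg fun _ _ => h0 _)
    rw [mul_comm]
    exact mul_le_mul_of_nonneg_right (by linarith [hP.hj]) (Z_pos _).le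

end Pool.Agent.P.MP_5fda20_pr.W
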