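import Pool.Agent.P.MP_5fda20_pr.W.Arm

/-! The upper bound. -/

namespace Pool.Agent.P.MP_5fda20_pr.W

open Finset U Real Filter

/-- the two arm profile -/
noncomputable def pf (i : ℤ) : ℝ := 1 / √√(i : ℝ) ^ 3

lemma pf_nn (i : ℤ) : 0 ≤ pf i := by unfold pf; positivity

lemma r4 {x : ℝ} (h : 0 ≤ x) : √√x ^ 4 = x := by
  rw [show 4 = 2 * 2 by rfl, pow_mul, sq_sqrt (sqrt_nonneg _), sq_sqrt h]

lemma sum_pf (m : ℕ) : ∑ i ∈ Icc (1 : ℤ) m, pf i ≤ 4 * √√(m : ℝ) := by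
  induction m with
  | zero => simp
  | succ m ih =>
    rw [show Icc (1 : ℤ) (m + 1 : ℕ) = insert ((m : ℤ) + 1) (Icc (1 : ℤ) m) from ext fun i => by
      simp only [mem_Icc, mem_insert]; omega, sum_insert (by simp), pf]
    push_cast
    have a1 := r4 (x := m + 1) (by positivity)
    have a2 := r4 (x := m) (by positivity)
    have a3 : √√(m : ℝ) ≤ √√(m + 1) := sqrt_le_sqrt (sqrt_le_sqrt (by linarith))
    have a4 : 0 < √√(m + 1 : ℝ) := by positivity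
    have a5 := sqrt_nonneg (√(m : ℝ))
    generalize √√(m + 1 : ℝ) = s at *
    generalize √√(m : ℝ) = t at *
    have : 1 / s ^ 3 ≤ 4 * (s - t) := by
      rw [div_le_iff₀ (by positivity)]
      nlinarith [mul_nonneg (sq_nonneg (s - t)) (show 0 ≤ 3 * s ^ 2 + 2 * s * t + t ^ 2 by positivity)]
    linarith

lemma arm' {m : ℕ} {x y : V} (hm : 200 ≤ m) (hy : y ∈ Dm (m + 1 : ℕ) 1) (hx : x ∈ nb y) :
    ∑ c ∈ CC (Dm (m + 1 : ℕ) 1) y x, wt (Dm (m + 1 : ℕ) 1) c * chi (Ev y ((m + 1) / 8 : ℕ) c) ≤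
      24576 * (pf y.1 + pf (m + 1 - y.1) + pf y.2 + pf (m + 1 - y.2)) * Z (Dm (m + 1 : ℕ) 1) := by
  rw [mem_Dm] at hy
  obtain ⟨d, h1, h2⟩ : ∃ d : ℕ, (1 ≤ d ∧ d ≤ y.1 ∧ d ≤ m + 1 - y.1 ∧ d ≤ y.2 ∧ d ≤ m + 1 - y.2) ∧
      pf d ≤ pf y.1 + pf (m + 1 - y.1) + pf y.2 + pf (m + 1 - y.2) := by
    refine ⟨(min (min y.1 (m + 1 - y.1)) (min y.2 (m + 1 - y.2))).toNat, by omega, ?_⟩
    have := pf_nn y.1
    have := pf_nn (m + 1 - y.1)
    have := pf_nn y.2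
    have := pf_nn (m + 1 - y.2)
    rw [Int.toNat_of_nonneg (by omega)]
    simp only [min_def]
    split_ifs <;> linarith
  refine le_trans ?_ (mul_le_mul_of_nonneg_right (mul_le_mul_of_nonneg_left h2 (by norm_num))
    (Z_pos _).le)
  have p0 : 0 < √√(d : ℝ) := by have : 0 < d := h1.1; positivity
  have k : ∀ r : ℕ, d ≤ 16 * (r + 1) → √√(d : ℝ) ≤ 2 * √√(r + 1) := fun r hr =>
    le_of_pow_le_pow_left₀ (n := 4) (by norm_num) (by positivity) (by
      rw [mul_pow, r4 (by positivity), r4 (by positivity)]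
      norm_num
      exact_mod_cast hr)
  rw [pf, Int.cast_natCast, mul_one_div]
  by_cases hd : d ≤ 16
  · refine ((sum_le_sum fun c _ => mul_le_of_le_one_right (wt_pos _ _).le (chi_le _)).trans_eq
      (sum_wt _ _ _)).trans (le_mul_of_one_le_left (Z_pos _).le ?_)
    have := pow_le_pow_left₀ p0.le (k 0 hd) 3
    rw [le_div_iff₀ (by positivity)]
    norm_num at this
    linarith
  · refine (arm (r := d / 8) hx (fun v hv => by rw [mem_Sb, dn] at hv; rw [mem_Dm]; omega)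
      (by omega)).trans (mul_le_mul_of_nonneg_right ?_ (Z_pos _).le)
    have := pow_le_pow_left₀ p0.le (k (d / 8) (by omega)) 3
    rw [div_le_div_iff₀ (by positivity) (by positivity)]
    linarith

lemma arm_sum {m : ℕ} (hm : 200 ≤ m) : ∑ y ∈ Dm (m + 1 : ℕ) 1, ∑ x ∈ nb y,
    ∑ c ∈ CC (Dm (m + 1 : ℕ) 1) y x, wt (Dm (m + 1 : ℕ) 1) c * chi (Ev y ((m + 1) / 8 : ℕ) c) ≤
      1572864 * (m * √√(m : ℝ)) * Z (Dm (m + 1 : ℕ) 1) := by
  refine (sum_le_sum fun y hy => (sum_le_sum fun x hx => arm' hm hy hx).trans_eq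
    (sum_nb_const _ _)).trans ?_
  simp only [← mul_sum, ← sum_mul, ← mul_assoc]
  refine mul_le_mul_of_nonneg_right ?_ (Z_pos _).le
  have a1 := sum_pf m
  have a2 : ∑ i ∈ Icc (1 : ℤ) m, pf (m + 1 - i) = ∑ i ∈ Icc (1 : ℤ) m, pf i :=
    sum_equiv (Equiv.subLeft ((m : ℤ) + 1)) (fun i => by simp only [mem_Icc, Equiv.subLeft_apply]; omega)
      fun _ _ => rfl
  rw [Dm, show ((m + 1 : ℕ) : ℤ) - 1 = m by omega]
  simp only [sum_add_distrib, sum_product, sum_const, a2, Int.card_Icc,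
    add_sub_cancel_right, Int.toNat_natCast, nsmul_eq_mul, ← mul_sum]
  nlinarith [mul_le_mul_of_nonneg_left a1 (Nat.cast_nonneg (α := ℝ) m)]

theorem core_up {K : ℕ} (hB : Beu K) (hK : 1 ≤ K) {m w : ℕ} (hw : 600 ≤ w)
    (hL : Lg (2 ^ w) (m + 1 : ℕ)) (hP : 8 * (8000 * (K ^ 9760 * 2 ^ 3226) ^ w) ≤ m + 1) :
    pUST (grid (m + 1)) ≤
      40000 * (8000 * (K ^ 9760 * 2 ^ 3226) ^ w) ^ 2 * (√√(m + 1 : ℝ) / (m + 1)) := by
  obtain ⟨P, eP⟩ : ∃ P, P = 8000 * (K ^ 9760 * 2 ^ 3226) ^ w := ⟨_, rfl⟩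
  have eP' : (P : ℝ) = 8000 * (K ^ 9760 * 2 ^ 3226) ^ w := by rw [eP]; push_cast; rfl
  have P1 : 8000 ≤ P := by
    rw [eP]; exact Nat.le_mul_of_pos_right _ (by positivity)
  rw [← eP] at hP
  rw [← eP']
  obtain ⟨J, J1, J2⟩ : ∃ J, P * 2 ^ J ≤ (m + 1) / 8 ∧ m + 1 ≤ 16 * (P * 2 ^ J) := by
    have h0 : (m + 1) / 8 / P ≠ 0 := (Nat.div_pos (by omega) (by omega)).ne'
    refine ⟨Nat.log 2 ((m + 1) / 8 / P), ?_, ?_⟩
    · rw [mul_comm]
      exact (Nat.le_div_iff_mul_le (by omega)).mp (Nat.pow_log_le_self 2 h0)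
    · have := (Nat.div_lt_iff_lt_mul (by omega)).mp (Nat.lt_pow_succ_log_self one_lt_two
        ((m + 1) / 8 / P))
      rw [pow_succ, mul_right_comm, mul_comm _ P] at this
      omega
  have L1 := hL.ge
  have hBig : Big (2 ^ w) := by
    rw [Big, show (4 : ℝ) = 2 ^ 2 by norm_num, ← pow_mul]
    exact pow_le_pow_right₀ one_le_two hw
  have e1 : ((2 ^ (3226 * w) : ℕ) : ℝ) = (2 ^ w) ^ 3226 := by push_cast; rw [mul_comm, pow_mul]
  have e2 : (2 : ℝ) ^ (9760 * w) = (2 ^ w) ^ 9760 := by rw [mul_comm, pow_mul]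
  have e3 : (4 : ℝ) ^ (9760 * w) = (2 ^ w) ^ 19520 := by
    rw [show (4 : ℝ) = 2 ^ 2 by norm_num, ← pow_mul, ← pow_mul]; congr 1; ring
  have n1 : (1 : ℝ) ≤ m + 1 := by simp
  have lg : 2 * log (m + 1) ≤ log (2 * (m + 1) ^ 2 + 1) := by
    refine (log_pow _ 2).symm.trans_le (log_le_log (by positivity) ?_)
    nlinarith only [sq_nonneg ((m : ℝ) + 1)]
  have hL2 := hL.2
  push_cast at hL2
  have J3 : (J : ℝ) + 1 ≤ 2 ^ w := by
    have : (2 : ℝ) ^ J ≤ m + 1 := by exact_mod_cast (by nlinarith [Nat.div_le_self (m + 1) 8] : 2 ^ J ≤ m + 1)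
    have := log_le_log (by positivity) this
    rw [log_pow] at this
    nlinarith [log_two_gt_d9, Nat.cast_nonneg (α := ℝ) J]
  generalize (2 : ℝ) ^ w = L at *
  have L0 : 0 < L := by linarith
  have pw : ∀ {a b : ℕ} {c : ℝ}, a < b → c ≤ L → c * L ^ a ≤ L ^ b := fun h h' =>
    (mul_le_mul_of_nonneg_right h' (by positivity)).trans (by
      rw [← pow_succ']; exact pow_le_pow_right₀ (by linarith) h)
  have an := fun y hy x hx A => anti (m := m) (j := 9760 * w) (I := 2 ^ (3226 * w)) (J := J)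
    (top := ((m + 1) / 8 : ℕ)) (x := x) (y := y) hB hK Nat.one_le_two_pow
    (by rw [e1, e2, mul_one_div, div_le_div_iff₀ (by positivity) (by norm_num), one_mul, mul_comm]
        exact pw (by norm_num) (by linarith only [L1]))
    (by rw [e1, e2, div_div, div_div, div_le_div_iff₀ (by positivity) (by positivity), one_mul,
          show 16 * (L ^ 3226) ^ 2 * L ^ 76 * (L ^ 1124 * (L ^ 2100 * 2)) = 32 * L ^ 9752 by ring]
        exact pw (by norm_num) (by linarith only [L1]))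
    (by rw [Nat.cast_mul, e1, e3, ← mul_div_assoc, div_le_one (by positivity), mul_assoc, ← pow_add]
        exact pw (by norm_num) (by exact_mod_cast J3))
    (by unfold lv
        rw [eP, mul_pow, ← pow_mul, ← pow_mul] at J1
        exact_mod_cast le_trans (le_of_eq (by ring)) J1)
    (by omega) hL hBig hy hx A
  have hq : 0 ≤ (1 - 1 / L ^ 1124 / L ^ 2100 / 2) ^ 2 ^ (3226 * w) ∧
      (1 - 1 / L ^ 1124 / L ^ 2100 / 2) ^ 2 ^ (3226 * w) ≤ 1 / (m + 1) ^ 4 := by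
    have a1 : 1 / L ^ 1124 / L ^ 2100 / 2 ≤ 1 := by
      rw [div_div, div_div, div_le_one (by positivity)]
      exact one_le_mul_of_one_le_of_one_le (one_le_pow₀ (by linarith only [L1]))
        (one_le_mul_of_one_le_of_one_le (one_le_pow₀ (by linarith only [L1])) one_le_two)
    refine ⟨pow_nonneg (sub_nonneg.mpr a1) _,
      (pow_le_pow_left₀ (sub_nonneg.mpr a1) (one_sub_le_exp_neg _) _).trans ?_⟩
    rw [← exp_nat_mul, e1, show L ^ 3226 * -(1 / L ^ 1124 / L ^ 2100 / 2) = -(L ^ 2 / 2) by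
      field_simp, exp_neg, one_div]
    refine inv_anti₀ (by positivity) ?_
    rw [← exp_log (show (0 : ℝ) < (m + 1) ^ 4 by positivity), log_pow]
    have := log_nonneg n1
    exact exp_le_exp.mpr (by push_cast; nlinarith only [lg, hL2, L1, this])
  generalize (1 - 1 / L ^ 1124 / L ^ 2100 / 2) ^ 2 ^ (3226 * w) = Q at an hq
  clear eP eP' e1 e2 e3
  have hZ := Z_pos (Dm (m + 1 : ℕ) 1)
  refine le_of_mul_le_mul_right ((pUST_le (ρ := ((m + 1) / 8 : ℕ)) m (by omega) (by omega)).trans ?_) hZ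
  have s1 := sum_le_sum (s := Dm (m + 1 : ℕ) 1) fun y hy => sum_le_sum (s := nb y) fun x hx =>
    (sum_le_sum (s := CC (Dm (m + 1 : ℕ) 1) y x) fun c _ => show wt (Dm (m + 1 : ℕ) 1) c *
      chi (Ev y ((m + 1) / 8 : ℕ) c ∧ Hf (m + 1 : ℕ) (Ar (m + 1 : ℕ) x y c)) ≤ _ + _ by
        rw [← mul_add]
        refine mul_le_mul_of_nonneg_left ?_ (wt_pos _ _).le
        by_cases h : Ev y ((m + 1) / 8 : ℕ) c ∧ Hf (m + 1 : ℕ) (Ar (m + 1 : ℕ) x y c)
        · rw [chi_pos h]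
          rcases h.2 with e | e
          exacts [le_add_of_le_of_nonneg (chi_pos ⟨h.1, e⟩).ge (chi_nonneg _),
            le_add_of_nonneg_of_le (chi_nonneg _) (chi_pos ⟨h.1, e⟩).ge]
        · rw [chi_neg h]; exact add_nonneg (chi_nonneg _) (chi_nonneg _)).trans
      (sum_add_distrib.trans_le (add_le_add (an y hy x hx _) (an y hy x hx _)))
  simp only [sum_add_distrib, mul_add, sum_nb_const] at s1
  simp only [← mul_sum, ← sum_div, sum_const, nsmul_eq_mul] at s1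
  have s2 := arm_sum (m := m) (by omega)
  have s3 : ((Dm (m + 1 : ℕ) 1).card : ℝ) ≤ (m + 1) ^ 2 := by
    have := card_Rt (a := 1) (b := (m + 1 : ℕ) - 1) (c := 1) (d := (m + 1 : ℕ) - 1) (by omega) (by omega)
    exact_mod_cast (this.trans_le (by push_cast; nlinarith) : ((Dm (m + 1 : ℕ) 1).card : ℤ) ≤ (m + 1) ^ 2)
  have s4 : ((m : ℝ) + 1) ^ 2 ≤ 256 * P ^ 2 * 4 ^ J := by
    have : ((m : ℝ) + 1) ≤ 16 * (P * 2 ^ J) := by exact_mod_cast J2
    refine (pow_le_pow_left₀ (by positivity) this 2).trans_eq ?_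
    rw [mul_pow, mul_pow, ← pow_mul, mul_comm J, pow_mul]; ring
  have s5 : √√(m : ℝ) ≤ √√(m + 1) := sqrt_le_sqrt (sqrt_le_sqrt (by linarith))
  have s6 : 1 ≤ √√(m + 1 : ℝ) := one_le_sqrt.mpr (one_le_sqrt.mpr n1)
  have s7 : 1572864 * (m * √√(m : ℝ)) / (147456 * 4 ^ J) ≤ 3000 * P ^ 2 * (√√(m + 1 : ℝ) / (m + 1)) := by
    rw [← mul_div_assoc, div_le_div_iff₀ (by positivity) (by positivity)]
    have := mul_le_mul (show (m : ℝ) ≤ m + 1 by linarith) s5 (by positivity) (by positivity)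
    nlinarith [mul_le_mul_of_nonneg_right this (show (0 : ℝ) ≤ m + 1 by positivity),
      mul_le_mul_of_nonneg_right s4 (show 0 ≤ √√(m + 1 : ℝ) by positivity)]
  have s8 : (Dm (m + 1 : ℕ) 1).card * Q ≤ √√(m + 1 : ℝ) / (m + 1) := by
    refine (mul_le_mul s3 hq.2 hq.1 (by positivity)).trans ?_
    rw [mul_one_div, div_le_div_iff₀ (by positivity) (by positivity), ← pow_succ]
    exact (pow_le_pow_right₀ n1 (by norm_num)).trans (le_mul_of_one_le_left (by positivity) s6)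
  have s9 := (div_le_div_of_nonneg_right s2 (show (0 : ℝ) ≤ 147456 * 4 ^ J by positivity)).trans
    ((mul_div_right_comm _ _ _).trans_le (mul_le_mul_of_nonneg_right s7 hZ.le))
  have s10 := mul_le_mul_of_nonneg_right s8 hZ.le
  have s11 : 1 * (√√(m + 1 : ℝ) / (m + 1) * Z (Dm (m + 1 : ℕ) 1)) ≤ P ^ 2 * _ :=
    mul_le_mul_of_nonneg_right (one_le_pow₀ (by exact_mod_cast (by omega : 1 ≤ P))) (by positivity)
  have s12 : 0 ≤ √√(m + 1 : ℝ) / (m + 1) * Z (Dm (m + 1 : ℕ) 1) := by positivity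
  linarith only [s1, s9, s10, s11, s12]

theorem ust_upper {ε : ℝ} (hε : 0 < ε) :
    ∀ᶠ n : ℕ in atTop, pUST (grid n) ≤ (n : ℝ) ^ (-(3 / 4 - ε)) := by
  obtain ⟨K, hK, hB⟩ := ex_beu
  obtain ⟨a, ha⟩ : ∃ a : ℕ, ((K : ℝ) ^ 9760 * 2 ^ 3226) ≤ 2 ^ a :=
    (pow_unbounded_of_one_lt _ one_lt_two).imp fun _ => le_of_lt
  obtain ⟨δ, h0, h1, h2⟩ : ∃ δ : ℝ, 0 < δ ∧ δ * (2 * a + 1 : ℕ) ≤ ε ∧ δ * (2 * a + 1 : ℕ) ≤ 1 :=
    ⟨min ε 1 / (2 * a + 1 : ℕ), by positivity, by rw [div_mul_cancel₀ _ (by positivity)]; simp,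
      by rw [div_mul_cancel₀ _ (by positivity)]; simp⟩
  have t1 := (tendsto_rpow_atTop h0).eventually_ge_atTop (2 ^ 601)
  have t2 := (isLittleO_log_rpow_atTop h0).bound (show (0 : ℝ) < 1 / 24000 by norm_num)
  filter_upwards [tendsto_natCast_atTop_atTop.eventually t1,
    tendsto_natCast_atTop_atTop.eventually t2, eventually_ge_atTop 2] with n a1 a2 a3
  obtain ⟨m, rfl⟩ : ∃ m, n = m + 1 := ⟨n - 1, by omega⟩
  have n2 : (2 : ℝ) ≤ (m + 1 : ℕ) := by exact_mod_cast a3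
  have y0 : 0 < ((m + 1 : ℕ) : ℝ) ^ δ := by positivity
  rw [Real.norm_of_nonneg (log_nonneg (by linarith)), Real.norm_of_nonneg y0.le] at a2
  obtain ⟨w, w1, w2⟩ := exists_nat_pow_near (le_trans (one_le_pow₀ one_le_two) a1) one_lt_two
  have w3 : 600 ≤ w := by
    have := (pow_lt_pow_iff_right₀ one_lt_two).mp (a1.trans_lt w2)
    omega
  have b1 : (40000 : ℝ) * (8000 * (K ^ 9760 * 2 ^ 3226) ^ w) ^ 2 ≤
      (((m + 1 : ℕ) : ℝ) ^ δ) ^ (2 * a + 1) := by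
    have c1 : ((K : ℝ) ^ 9760 * 2 ^ 3226) ^ w ≤ (((m + 1 : ℕ) : ℝ) ^ δ) ^ a :=
      (pow_le_pow_left₀ (by positivity) ha w).trans (by
        rw [← pow_mul, mul_comm, pow_mul]; exact pow_le_pow_left₀ (by positivity) w1 a)
    rw [mul_pow, ← mul_assoc, pow_succ' _ (2 * a), pow_mul']
    exact mul_le_mul (le_trans (le_trans (by norm_num) (pow_le_pow_right₀ one_le_two
      (show 50 ≤ 601 by norm_num))) a1) (pow_le_pow_left₀ (by positivity) c1 2) (by positivity) y0.le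
  rw [← rpow_natCast (_ ^ δ), ← rpow_mul (by positivity)] at b1
  have b2 := b1.trans (rpow_le_rpow_of_exponent_le (by linarith only [n2]) h2)
  refine (core_up hB (by omega) w3 ⟨by omega, ?_⟩ ?_).trans ((mul_le_mul_of_nonneg_right (b1.trans
    (rpow_le_rpow_of_exponent_le (by linarith only [n2]) h1)) (by positivity)).trans_eq ?_)
  · have := log_le_log (by positivity) (show 2 * ((m + 1 : ℕ) : ℝ) ^ 2 + 1 ≤ (m + 1 : ℕ) ^ 4 by
      nlinarith only [n2, mul_le_mul n2 n2 (by norm_num) (by positivity)])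
    rw [log_pow] at this
    rw [pow_succ] at w2
    push_cast at this a2 w2 ⊢
    linarith only [this, a2, w2]
  · rw [rpow_one] at b2
    have c1 : (1 : ℝ) ≤ (K ^ 9760 * 2 ^ 3226) ^ w := one_le_pow₀ (one_le_mul_of_one_le_of_one_le
      (one_le_pow₀ (by exact_mod_cast (by omega : 1 ≤ K))) (one_le_pow₀ one_le_two))
    have c2 : (8 : ℝ) * (8000 * (K ^ 9760 * 2 ^ 3226) ^ w) ≤ (m + 1 : ℕ) := by
      generalize ((K : ℝ) ^ 9760 * 2 ^ 3226) ^ w = X at *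
      nlinarith only [b2, c1]
    exact_mod_cast c2
  · push_cast
    have p : (0 : ℝ) < m + 1 := by positivity
    rw [sqrt_eq_rpow, sqrt_eq_rpow, ← rpow_mul p.le, ← rpow_sub_one p.ne', ← rpow_add p]
    congr 1
    ring

end Pool.Agent.P.MP_5fda20_pr.W
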