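import Pool.Agent.P.MP_5fda20_pr.W.Tra

/-! Forests and pairs of branches. -/

namespace Pool.Agent.P.MP_5fda20_pr.W

open Finset U MP_a28080_pr

variable {D T : Finset V} {f g : V → V} {a x y : V} {l : List V} {c : List V × List V}

/-- the list follows the map -/
def Fol (f : V → V) (l : List V) : Prop := l.IsChain fun u v => f u = v

/-- the branch of `a` until it leaves `T` -/
noncomputable def br (f : V → V) (T : Finset V) (a : V) : List V :=
  if _h : a ∈ T then a :: br f (T.erase a) (f a) else [a]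
termination_by T.card
decreasing_by exact card_erase_lt_of_mem _h

lemma br_spec (hf : f ∈ For D nb) (T : Finset V) : T ⊆ D → ∀ a,
    IsP T a (br f T a) ∧ Fol f (br f T a) ∧ ∃ k, lst (br f T a) = f^[k] a := by
  induction T using ind_erase with
  | h T ih =>
    intro hT a
    rw [br]
    split_ifs with h
    · obtain ⟨h1, h2, k, h3⟩ := ih a h ((erase_subset _ _).trans hT) (f a)
      refine ⟨(isP_in h).mpr ⟨_, (mem_For.mp hf).2.1 a (hT h), _, h1, fun e => ?_, rfl⟩,
        List.isChain_cons.mpr ⟨fun z hz => ?_, h2⟩, k + 1, by rw [lst_cons _ h1.ne, h3]; rfl⟩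
      · exact not_periodic hf (k := k + 1) (by omega) (h3.symm.trans e) (hT h)
      · rw [h1.hd] at hz
        exact Option.some.inj hz
    · exact ⟨(isP_out h).mpr rfl, List.isChain_singleton _, 0, rfl⟩

/-- the pair of branches -/
noncomputable def cf (D : Finset V) (y x : V) (f : V → V) : List V × List V :=
  (br f D y, br f (D \ (br f D y).toFinset) x)

lemma cf_spec (hf : f ∈ For D nb) (y x : V) :
    IsC D y x (cf D y x f) ∧ Fol f (cf D y x f).1 ∧ Fol f (cf D y x f).2 :=
  ⟨⟨(br_spec hf D subset_rfl y).1, (br_spec hf _ sdiff_subset x).1⟩,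
    (br_spec hf D subset_rfl y).2.1, (br_spec hf _ sdiff_subset x).2.1⟩

lemma Fol.eq (h : Fol f l) (h' : Fol g l) {v : V} (hv : v ∈ l) (hv' : v ≠ lst l) : f v = g v := by
  obtain ⟨s, r, rfl⟩ := List.append_of_mem hv
  rcases r with _ | ⟨w, r⟩
  · exact absurd (by simp [lst]) hv'
  · exact (List.isChain_cons_cons.mp (List.isChain_split.mp h).2).1.trans
      (List.isChain_cons_cons.mp (List.isChain_split.mp h').2).1.symm

lemma cut_mem (hf : f ∈ For D nb) (S : Finset V) :
    (fun v => if v ∈ S then v else f v) ∈ For (D \ S) nb := by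
  obtain ⟨h1, h2, h3⟩ := mem_For.mp hf
  refine mem_For.mpr ⟨fun v hv => ?_, fun v hv => ?_, fun v => ?_⟩
  · split_ifs with h
    exacts [rfl, h1 v fun h' => hv (mem_sdiff.mpr ⟨h', h⟩)]
  · rw [if_neg (mem_sdiff.mp hv).2]; exact h2 v (mem_sdiff.mp hv).1
  · by_contra hc
    simp only [not_exists, not_not] at hc
    obtain ⟨n, hn⟩ := h3 v
    have := iter_agree (f := f) (g := fun v => if v ∈ S then v else f v) (S := fun y => y ∉ S)
      (fun y hy => by rw [if_neg hy]) v n fun m _ => (mem_sdiff.mp (hc m)).2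
    exact hn (this ▸ (mem_sdiff.mp (hc n)).1)

lemma fib_le (c : List V × List V) :
    (((For D nb).filter fun f => cf D y x f = c).card : ℝ) ≤ wt D c := by
  refine Nat.cast_le.mpr (card_le_card_of_injOn
    (fun f v => if v ∈ (c.1 ++ c.2).toFinset then v else f v)
    (fun f hf => cut_mem (mem_filter.mp hf).1 _) fun f hf g hg e => ?_)
  obtain ⟨hf, e1⟩ := mem_filter.mp hf
  obtain ⟨hg, e2⟩ := mem_filter.mp hg
  have a := cf_spec hf y x
  have b := cf_spec hg y x
  rw [e1] at a
  rw [e2] at b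
  funext v
  by_cases h : v ∈ D
  swap
  · rw [(mem_For.mp hf).1 v h, (mem_For.mp hg).1 v h]
  by_cases h1 : v ∈ c.1
  · exact a.2.1.eq b.2.1 h1 ((a.1.1.mem v h1).mp h)
  by_cases h2 : v ∈ c.2
  · exact a.2.2.eq b.2.2 h2 ((a.1.2.mem v h2).mp (by simp [h, h1]))
  · simpa [h1, h2] using congrFun e v

lemma N_tot (D : Finset V) (a : V) : N D ∅ a (fun _ => 1) = Z D := by
  rw [N_one, le_antisymm (Hm_le_c tg_le a) (c_le_Hm (fun v => by simp [tg]) a), mul_one]

lemma sum_wt (D : Finset V) (y x : V) : ∑ c ∈ CC D y x, wt D c = Z D := by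
  have := sum_CC (D := D) (z := y) (a := x) fun _ => 1
  simp only [mul_one, N_tot] at this
  rw [this, ← N_tot D y, N]
  simp [Zm]

lemma fib_eq (h : c ∈ CC D y x) :
    (((For D nb).filter fun f => cf D y x f = c).card : ℝ) = wt D c := by
  refine (sum_eq_sum_iff_of_le fun c _ => fib_le (D := D) (y := y) (x := x) c).mp ?_ c h
  rw [sum_wt, ← Nat.cast_sum, ← card_eq_sum_card_fiberwise fun f hf =>
    mem_coe.mpr (mem_CC.mpr (cf_spec hf y x).1)]
  rfl

lemma sum_For (D : Finset V) (y x : V) (F : List V × List V → ℝ) :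
    ∑ f ∈ For D nb, F (cf D y x f) = ∑ c ∈ CC D y x, wt D c * F c := by
  rw [← sum_fiberwise_of_maps_to (g := cf D y x) fun f hf => mem_CC.mpr (cf_spec hf y x).1]
  refine sum_congr rfl fun c hc => ?_
  rw [sum_congr rfl fun f hf => by rw [(mem_filter.mp hf).2], sum_const, nsmul_eq_mul, fib_eq hc]

lemma IsC.ex (h : IsC D y x c) : ∃ f ∈ For D nb, Fol f c.1 ∧ Fol f c.2 := by
  have := (fib_eq (mem_CC.mpr h)).symm ▸ wt_pos D c
  obtain ⟨f, hf⟩ := card_pos.mp (Nat.cast_pos.mp this)
  obtain ⟨hg, e⟩ := mem_filter.mp hf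
  exact ⟨f, hg, e ▸ (cf_spec hg y x).2⟩

end Pool.Agent.P.MP_5fda20_pr.W
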