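import Pool.Agent.P.MP_5fda20_pr.W.Ray

/-! A Fomin identity with signs and the two arm estimate. -/

namespace Pool.Agent.P.MP_5fda20_pr.W

open Finset U

variable {B D : Finset V} {a x y : V} {q : V → V → ℝ} {φ U U' : V → ℝ} {l π : List V}
  {c : List V × List V}

lemma sum_Pa (h : a ∈ D) (F : List V → ℝ) (hF : ∀ ω, ω ≠ [] → lst ω = a → F (a :: ω) = 0) :
    ∑ π ∈ Pa D a, F π = ∑ z ∈ nb a, ∑ ω ∈ Pa (D.erase a) z, F (a :: ω) := by
  rw [Pa, dif_pos h, sum_biUnion]
  · refine sum_congr rfl fun z _ => ?_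
    rw [sum_image fun _ _ _ _ e => List.cons_injective e, sum_filter_of_ne
      (p := fun ω => lst ω ≠ a) fun ω hω e e' => e (hF ω (mem_P.mp hω).ne e')]
  · intro z _ z' _ hne
    refine disjoint_left.mpr fun π h1 h2 => hne ?_
    obtain ⟨ω, h3, rfl⟩ := mem_image.mp h1
    obtain ⟨ω', h4, e⟩ := mem_image.mp h2
    rw [List.cons_injective e] at h4
    exact Option.some_injective _
      ((mem_P.mp (mem_filter.mp h3).1).hd.symm.trans (mem_P.mp (mem_filter.mp h4).1).hd)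

/-- product of the signs along a list -/
def sq (q : V → V → ℝ) : List V → ℝ
  | a :: b :: l => q a b * sq q (b :: l)
  | _ => 1

/-- signed determinant -/
noncomputable def dt (q : V → V → ℝ) (D : Finset V) : ℝ := (LM q D).det

/-- signed harmonic extension -/
def QH (q : V → V → ℝ) (D : Finset V) (φ U : V → ℝ) : Prop :=
  (∀ v, v ∉ D → U v = φ v) ∧ ∀ v ∈ D, 4 * U v = ∑ z ∈ nb v, q v z * U z

lemma ex_QH (hq : Sg q) (D : Finset V) (φ : V → ℝ) : ∃ U, QH q D φ U := by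
  obtain ⟨u, hu⟩ := sol_ex hq D fun v => ∑ z ∈ nb v, q v z * if z ∈ D then 0 else φ z
  refine ⟨fun v => u v + if v ∈ D then 0 else φ v, fun v hv => ?_, fun v hv => ?_⟩
  · simp [hu.1 v hv, hv]
  · have := hu.2 v hv
    simp only [mul_add, sum_add_distrib, if_pos hv] at this ⊢
    linarith

lemma QH.step (hq : Sg q) (hy : y ∈ D) : ∃ g : V → ℝ, dt q (D.erase y) = g y * dt q D ∧
    ∀ φ U U', φ y = 0 → QH q D φ U → QH q (D.erase y) φ U' →
      U' y = 0 ∧ ∀ v, U v = U' v + (∑ z ∈ nb y, q y z * U' z) * g v := by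
  obtain ⟨g, hg⟩ := sol_ex hq D fun v => dl v y
  refine ⟨g, det_erase q hy g hg.1 hg.2, fun φ U U' h0 h h' => ?_⟩
  have e : U' y = 0 := (h'.1 y (notMem_erase _ _)).trans h0
  have : Sol q D (fun _ => 0) fun v => U v - (U' v + (∑ z ∈ nb y, q y z * U' z) * g v) := by
    refine ⟨fun v hv => by simp [h.1 v hv, h'.1 v fun a => hv (mem_of_mem_erase a), hg.1 v hv],
      fun v hv => ?_⟩
    simp only [mul_sub, mul_add, sum_sub_distrib, sum_add_distrib, mul_left_comm _ (∑ z ∈ nb y, _),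
      ← mul_sum, h.2 v hv, hg.2 v hv]
    by_cases a : v = y
    · rw [a, e, dl_self]; ring
    · rw [h'.2 v (mem_erase.mpr ⟨a, hv⟩), dl_ne a]; ring
  exact ⟨e, fun v => sub_eq_zero.mp (congrFun (this.uniq (u' := fun _ => 0) (f' := fun _ => 0) hq
    ⟨fun _ _ => rfl, by simp⟩ fun _ _ => rfl) v)⟩

lemma sq_cons (h : IsP D a l) (y : V) : sq q (y :: l) = q y a * sq q l := by
  obtain ⟨ω, rfl⟩ := h.eq_cons
  rfl

lemma sd_cons (D : Finset V) (y : V) (l : List V) :
    D \ (y :: l).toFinset = D.erase y \ l.toFinset := by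
  ext v; simp only [mem_sdiff, mem_erase, List.mem_toFinset, List.mem_cons]; tauto

lemma Pa_out (h : a ∉ D) : Pa D a = {[a]} := by rw [Pa, dif_neg h]

lemma fom1 (hq : Sg q) (D : Finset V) : (∀ v ∈ D, φ v = 0) → ∀ U a, QH q D φ U →
    ∑ π ∈ Pa D a, sq q π * dt q (D \ π.toFinset) * φ (lst π) = dt q D * U a := by
  induction D using ind_erase with
  | h D ih =>
    intro h0 U a h
    by_cases ha : a ∈ D
    · obtain ⟨g, g1, g2⟩ := QH.step hq ha
      obtain ⟨U', h'⟩ := ex_QH hq (D.erase a) φ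
      obtain ⟨e1, e2⟩ := g2 φ U U' (h0 a ha) h h'
      rw [sum_Pa ha _ fun ω a b => by rw [lst_cons _ a, b, h0 _ ha, mul_zero], e2, e1, zero_add,
        sum_mul, mul_sum]
      refine sum_congr rfl fun z _ => ?_
      rw [sum_congr rfl fun ω hω => by rw [sq_cons (mem_P.mp hω), sd_cons, lst_cons _
        (mem_P.mp hω).ne, mul_assoc, mul_assoc, ← mul_assoc (sq q ω)], ← mul_sum,
        ih a ha (fun v hv => h0 v (mem_of_mem_erase hv)) U' z h', g1]
      ring
    · rw [Pa_out ha, sum_singleton, sd_cons, erase_eq_of_notMem ha, h.1 a ha]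
      simp [sq, lst]

lemma fom2 (hq : Sg q) {ψ : V → ℝ} (D : Finset V) : (∀ v ∈ D, φ v = 0) → (∀ v ∈ D, ψ v = 0) →
    ∀ U W y, QH q D φ U → QH q D ψ W → ∑ π ∈ Pa D y, ∑ α ∈ Pa (D \ π.toFinset) x,
      sq q π * sq q α * dt q ((D \ π.toFinset) \ α.toFinset) *
        (φ (lst π) * ψ (lst α) - φ (lst α) * ψ (lst π)) = dt q D * (U y * W x - U x * W y) := by
  induction D using ind_erase with
  | h D ih =>
    intro h0 h1 U W y h k
    by_cases ha : y ∈ D
    · obtain ⟨g, g1, g2⟩ := QH.step hq ha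
      obtain ⟨U', h'⟩ := ex_QH hq (D.erase y) φ
      obtain ⟨W', k'⟩ := ex_QH hq (D.erase y) ψ
      obtain ⟨e1, e2⟩ := g2 φ U U' (h0 y ha) h h'
      obtain ⟨e3, e4⟩ := g2 ψ W W' (h1 y ha) k k'
      rw [sum_Pa ha _ fun ω a b => by simp [lst_cons _ a, b, h0 _ ha, h1 _ ha],
        sum_congr (g := fun z => q y z * (g y * dt q D * (U' z * W' x - U' x * W' z))) rfl
          fun z _ => ?_, e2 y, e2 x, e4 y, e4 x, e1, e3]
      · simp only [sum_nb]; ring
      · rw [← g1, ← ih y ha (fun v hv => h0 v (mem_of_mem_erase hv))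
          (fun v hv => h1 v (mem_of_mem_erase hv)) U' W' z h' k', mul_sum]
        refine sum_congr rfl fun ω hω => ?_
        rw [sq_cons (mem_P.mp hω), sd_cons, lst_cons _ (mem_P.mp hω).ne, mul_sum]
        exact sum_congr rfl fun _ _ => by ring
    · have a1 := fom1 hq D h0 U x h
      have a2 := fom1 hq D h1 W x k
      rw [Pa_out ha, sum_singleton, sd_cons, erase_eq_of_notMem ha, h.1 y ha, k.1 y ha, mul_sub,
        mul_left_comm, ← mul_assoc (dt q D), ← a1, ← a2, mul_sum, sum_mul, ← sum_sub_distrib]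
      simp only [List.toFinset_nil, sdiff_empty]
      exact sum_congr rfl fun _ _ => by simp only [sq, lst, List.getLastD_cons, List.getLastD_nil]; ring

lemma dt_triv (D : Finset V) : Triv q D → dt q D = Z D := by
  refine ind_erase (P := fun D => Triv q D → dt q D = Z D) (fun D ih h => ?_) D
  rcases D.eq_empty_or_nonempty with rfl | ⟨x, hx⟩
  · rw [← det_LM_one]; simp [dt]
  have e := ih x hx (h.mono (erase_subset _ _))
  obtain ⟨s, h1, h2⟩ := h
  have hs : Sol q D (fun v => dl v x) fun v => s v * s x * G1 D v x :=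
    ⟨fun v hv => by simp only [G1, G_off hv, mul_zero], fun v hv => by
      have : ∑ z ∈ nb v, q v z * (s z * s x * G1 D z x) = s v * s x * ∑ z ∈ nb v, G1 D z x := by
        rw [mul_sum]
        refine sum_congr rfl fun z hz => ?_
        by_cases hz' : z ∈ D
        · rw [h2 v hv z hz' hz]
          linear_combination (s v * s x * G1 D z x) * h1 z
        · simp only [G1, G_off hz', mul_zero]
      have e : dl v x = s v * s x * dl v x := by
        by_cases h : v = x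
        · rw [h, h1, one_mul]
        · rw [dl_ne h, mul_zero]
      rw [this]
      linear_combination (s v * s x) * G1_eq hv x - e⟩
  rw [dt, det_erase q hx _ hs.1 hs.2, Z_erase hx, h1, one_mul] at e
  exact mul_left_cancel₀ (G_pos wt_one hx).ne' e

lemma tr_ch : ∀ (l : List V) (a : V), l.head? = some a → l.IsChain Adj → (∀ v ∈ l, v ∉ D) →
    Triv (zv (lst l)) D → Triv (zv a) D
  | [], _, h, _, _, _ => by simp at h
  | [b], a, h, _, _, k => by
    obtain rfl : b = a := by simpa using h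
    exact k
  | b :: d :: l, a, h, h', h0, k => by
    obtain rfl : b = a := by simpa using h
    obtain ⟨h1, h2⟩ := List.isChain_cons_cons.mp h'
    exact tr_nb (nb_symm h1) (h0 d (by simp)) (h0 b (by simp))
      (tr_ch (d :: l) d rfl h2 (fun v hv => h0 v (List.mem_cons_of_mem _ hv)) k)

lemma sq_eq {g : V → V → ℤ} : ∀ l : List V, l.IsChain (fun u v => q u v = (-1) ^ g u v) →
    sq q l = (-1) ^ ss g l
  | [], _ => by simp [sq, ss]
  | [_], _ => by simp [sq, ss]
  | b :: d :: l, h => by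
    obtain ⟨h1, h2⟩ := List.isChain_cons_cons.mp h
    rw [sq, ss, sq_eq (d :: l) h2, h1, zpow_add₀ (by norm_num)]

lemma IsP.ch' (h : IsP D a π) : π.IsChain fun u v => v ∈ nb u ∧ u ∈ D :=
  List.isChain_iff_forall_rel_of_append_cons_cons.mpr fun u v l r e => by
    subst e
    refine ⟨List.isChain_iff_forall_rel_of_append_cons_cons.mp h.ch rfl,
      (h.mem u (by simp)).mpr fun e => ?_⟩
    rw [lst_app _ (by simp), lst_cons _ (by simp)] at e
    exact (List.nodup_cons.mp (List.nodup_append.mp h.nd).2.1).1 (e ▸ lst_mem (by simp))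

lemma IsP.last (h : IsP D a π) (ha : a ∈ D) :
    ∃ p ∈ D, p ∈ π ∧ lst π ∈ nb p ∧ CR π p (lst π) = 1 := by
  obtain ⟨l, e⟩ := h.snoc
  have ho := h.out
  generalize lst π = b at e ho
  subst e
  rcases List.eq_nil_or_concat' l with rfl | ⟨l, p, rfl⟩
  · obtain rfl : b = a := by simpa using h.hd
    exact absurd ha ho
  obtain ⟨-, a2, -, a4, -⟩ := isP_snoc.mp h
  rw [List.append_assoc, List.singleton_append] at a2 ⊢
  have a5 := List.isChain_iff_forall_rel_of_append_cons_cons.mp a2 rfl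
  refine ⟨p, a4 p (by simp), by simp, a5, ?_⟩
  have := CR_out (p := p) (q := b) (List.isChain_split.mp a2).1 (Or.inr fun e => ho (a4 b e))
  rw [CR] at this ⊢
  rw [ss_glue, this]
  simp [ss, cr, nb_ne a5]

/-- potential for faces on the boundary ring -/
def Pt (m : ℤ) (F w : V) : ℤ := if F.2 = 0 then 0 else if F.2 = m then (if w.1 ≤ F.1 then 1 else 0)
  else if F.1 = 0 then (if w.1 ≤ 0 ∧ w.2 ≤ F.2 then 1 else 0) else
    if m < w.1 ∧ w.2 ≤ F.2 then -1 else 0

/-- the face on the left of the exit edge -/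
def fx (m : ℤ) (b : V) : V := lf (max 1 (min m b.1), max 1 (min m b.2)) b

lemma sign {m : ℕ} {k : ℤ} (hy : y ∈ Dm (m + 1 : ℕ) 1) (hx' : x ∈ Dm (m + 1 : ℕ) 1) (hx : x ∈ nb y)
    (hk : lf x y = (k, k) ∨ lf y x = (k, k)) : ∃ ε : V → V → ℝ, (∀ a b, |ε a b| ≤ 1) ∧
      ∀ c, IsC (Dm (m + 1 : ℕ) 1) y x c → lst c.2 ∉ Dm (m + 1 : ℕ) 1 →
        sq (qd k) c.1 * sq (qd k) c.2 * (ε (lst c.2) (lst c.1) - ε (lst c.1) (lst c.2)) = 2 := by
  let γ : V → ℤ := fun v => if v.1 ≤ k ∧ v.2 < v.1 then 1 else 0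
  let E : V → V → ℤ := fun a b => Pt m (fx m b) a + kp a (fx m b) - Pt m (fx m b) b - kp b (fx m b)
    + (if lf x y = (k, k) then 0 else 1) + ell x y (k, k) + kp b (k, k) + kp a (k, k) + γ a + γ b
    + γ x + γ y
  refine ⟨fun a b => (-1) ^ E a b, fun a b => by simp [abs_zpow], fun c h ho => ?_⟩
  have hs : (sw c).2 = c.1 := by
    rcases h.sw2 with ⟨l, r, e1, -, e2⟩ | ⟨-, -, e⟩
    · rcases r with _ | ⟨z, r⟩
      · rw [e1, e2]
      · exact absurd (List.isChain_iff_forall_rel_of_append_cons_cons.mp h.1.ch' e1).2 ho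
    · exact e
  have hx2 : x ∈ Dm (m + 1 : ℕ) 1 \ c.1.toFinset := by_contra fun e =>
    ho (by rwa [(isP_out e).mp h.2])
  obtain ⟨t1, t2⟩ := two h hy hx ⟨fun e => ho (e ▸ hy), fun r e => by simp [e] at hx2⟩
  have s1 : ∀ {T a l}, IsP T a l → sq (qd k) l = (-1) ^ (Lp l (k, k) + γ a - γ (lst l)) :=
    fun {T a l} h => by
      rw [sq_eq (g := fun u v => ell u v (k, k) + γ u - γ v) l (h.ch.imp fun u v e => by
        rw [Adj, mem_nb] at e
        unfold qd
        split_ifs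
        · refine (Odd.neg_one_zpow ?_).symm
          simp only [ell, γ, Int.odd_iff]
          split_ifs <;> omega
        · refine (Even.neg_one_zpow ?_).symm
          simp only [ell, γ, Int.even_iff]
          split_ifs <;> omega),
        ss_lin (g' := fun u v => ell u v (k, k)) (g'' := fun _ _ => 0) 0 γ l a h.hd
          (h.ch.imp fun u v _ => by ring), zero_mul, add_zero, Lp]
  have s2 : ∀ p ∈ Dm (m + 1 : ℕ) 1, ∀ b ∈ nb p, b ∉ Dm (m + 1 : ℕ) 1 → lf p b = fx m b ∧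
      lf p b ∈ Fc (m + 1 : ℕ) ∧ lf b p ∈ Fc (m + 1 : ℕ) ∧ Wn x y c (lf p b) =
        Pt m (lf p b) (lst c.2) + kp (lst c.2) (lf p b) - Pt m (lf p b) (lst c.1) -
          kp (lst c.1) (lf p b) := fun p hp b hb ho => by
    rw [mem_Dm] at hp ho
    have f1 : lf p b ∈ Fc (m + 1 : ℕ) ∧ lf b p ∈ Fc (m + 1 : ℕ) ∧ ((lf p b).1 = 0 ∨ (lf p b).1 = m ∨
        (lf p b).2 = 0 ∨ (lf p b).2 = m) := by
      simp only [mem_Fc]
      rcases lf_cases hb with ⟨rfl, a, b⟩ | ⟨rfl, a, b⟩ | ⟨rfl, a, b⟩ | ⟨rfl, a, b⟩ <;>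
        rw [a, b] <;> dsimp only at ho ⊢ <;> omega
    refine ⟨congrArg (lf · b) ?_, f1.1, f1.2.1, ?_⟩
    · rw [mem_nb] at hb
      ext <;> dsimp only <;> omega
    generalize lf p b = F at f1
    have f2 : ∀ u v, v ∈ nb u ∧ u ∈ Dm (m + 1 : ℕ) 1 → ell u v F = Pt m F u - Pt m F v :=
      fun u v e => by
        rw [mem_nb, mem_Dm] at e
        have := mem_Fc.mp f1.1
        simp only [ell, Pt]
        split_ifs <;> omega
    rw [Wn, hs, Lp, Lp, ss_tel _ h.1.hd (h.1.ch'.imp f2), ss_tel _ h.2.hd (h.2.ch'.imp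
      fun u v e => f2 u v ⟨e.1, (mem_sdiff.mp e.2).1⟩), f2 x y ⟨nb_symm hx, hx'⟩]
    ring
  obtain ⟨p, p1, p2, p3, p4⟩ := h.1.last hy
  obtain ⟨p', q1, q2, q3, q4⟩ := h.2.last hx2
  rw [mem_sdiff, List.mem_toFinset] at q1
  obtain ⟨b1, b2, b3, b4⟩ := s2 p p1 _ p3 h.1.out
  obtain ⟨d1, d2, d3, d4⟩ := s2 p' q1.1 _ q3 ho
  have cr0 : ∀ p b, b ∉ Dm (m + 1 : ℕ) 1 → cr x y p b = 0 := fun p b e => by
    rw [cr, if_neg (by rintro ⟨-, rfl⟩; exact e hy), if_neg (by rintro ⟨rfl, -⟩; exact e hx'),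
      sub_zero]
  have j1 := Wn_jump h hx p3 (Or.inl p1)
  have j2 := Wn_jump h hx q3 (Or.inl q1.1)
  rw [hs, cr0 _ _ h.1.out, p4, CR_out h.2.ch (Or.inl fun e => by
    have := (h.2.mem p e).mpr fun e' => ho (e' ▸ p1)
    simp [p2] at this)] at j1
  rw [hs, cr0 _ _ ho, q4, CR_out h.1.ch (Or.inl q1.2)] at j2
  have u1 := t2 _ b2
  have u2 := t2 _ b3
  have u3 := t2 _ d2
  have u4 := t2 _ d3
  have u5 : Wn x y c (k, k) = Wn x y c (lf x y) - if lf x y = (k, k) then 0 else 1 := by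
    split_ifs with e
    · rw [e, sub_zero]
    · rw [← hk.resolve_left e]; omega
  rw [Wn, hs] at u5
  rw [b1] at b4 j1 u1
  rw [d1] at d4 j2 u3
  rw [s1 h.1, s1 h.2, ← zpow_add₀ (by norm_num), mul_sub, ← zpow_add₀ (by norm_num),
    ← zpow_add₀ (by norm_num), Even.neg_one_zpow (by simp only [E, Int.even_iff]; omega),
    Odd.neg_one_zpow (by simp only [E, Int.odd_iff]; omega)]
  norm_num

end Pool.Agent.P.MP_5fda20_pr.W
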