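import Pool.Agent.P.MP_5fda20_pr.W.Ring

/-! The forward estimate at a first passage point, in local coordinates. -/

namespace Pool.Agent.P.MP_5fda20_pr.W

open Finset U Real

variable {D A : Finset V} {L : ℝ} {n ρ t y : ℤ}

/-- a rectangle -/
noncomputable def Rt (a b c d : ℤ) : Finset V := Icc a b ×ˢ Icc c d

lemma mem_Rt {a b c d : ℤ} {v : V} : v ∈ Rt a b c d ↔ (a ≤ v.1 ∧ v.1 ≤ b) ∧ c ≤ v.2 ∧ v.2 ≤ d := by
  simp only [Rt, mem_product, mem_Icc]

/-- the picture seen from a first passage point placed at the origin -/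
structure Geo (D A : Finset V) (n ρ y : ℤ) : Prop where
  box : ∃ a b c d, D = Rt a b c d
  hy : (-ρ, y) ∈ D
  hy' : -ρ ≤ y ∧ y ≤ ρ
  sub : ∀ v ∈ A, v ∈ D ∧ dn v (-ρ, y) < ρ
  one : (-1, 0) ∈ A
  dia : ∀ u ∈ D, ∀ v ∈ D, dn u v < n

/-- the escape probability -/
noncomputable def He (D A : Finset V) : V → ℝ := Hm (D \ A) (tg A)

lemma He_nn (v : V) : 0 ≤ He D A v := c_le_Hm tg_nonneg v
lemma He_le (v : V) : He D A v ≤ 1 := Hm_le_c tg_le v
lemma He_A {v : V} (h : v ∈ A) : He D A v = 0 := by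
  rw [He, Hm_off (by simp [h]), tg, if_pos h]
lemma He_out {v : V} (h : v ∉ D) (h' : v ∉ A) : He D A v = 1 := by
  rw [He, Hm_off (by simp [h]), tg, if_neg h']
lemma He_sup {v : V} (h : v ∉ A) : ∑ z ∈ nb v, He D A z ≤ 4 * He D A v :=
  Hm_sup tg_le (Or.inr (if_neg h))
lemma He_sub {v : V} (h : v ∈ D) : 4 * He D A v ≤ ∑ z ∈ nb v, He D A z :=
  Hm_sub tg_nonneg (by by_cases h' : v ∈ A <;> simp [h, h', tg])

lemma refl {a b c d x₀ : ℤ} {C : ℝ} (hA : ∀ v ∈ A, v.1 < x₀) (hC : 1 ≤ C)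
    (h : ∀ y, 1 ≤ C * He (Rt a b c d) A (2 * x₀ - (a - 1), y)) {z : V} (hz : z ∈ Rt a b c d)
    (hz' : z.1 ≤ x₀) : He (Rt a b c d) A z ≤ C * He (Rt a b c d) A (2 * x₀ - z.1, z.2) := by
  have k : ∀ z : V, z ∈ A ∨ z.1 = x₀ →
      He (Rt a b c d) A z ≤ C * He (Rt a b c d) A (2 * x₀ - z.1, z.2) := by
    rintro z (h | h)
    · rw [He_A h]; exact mul_nonneg (by linarith) (He_nn _)
    · rw [show (2 * x₀ - z.1, z.2) = z from Prod.ext (by dsimp only; omega) rfl]
      exact le_mul_of_one_le_left (He_nn _) hC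
  by_cases h1 : z ∈ A ∨ z.1 = x₀
  · exact k z h1
  refine har_le' (D := (Rt a b c d \ A).filter fun v => v.1 < x₀)
    (h := fun z => C * He (Rt a b c d) A (2 * x₀ - z.1, z.2))
    (fun v hv => He_sub (mem_sdiff.mp (mem_filter.mp hv).1).1) (fun v hv => ?_)
    (fun x hx w hw hw' => ?_) (by simp only [mem_filter, mem_sdiff]; exact ⟨by tauto, by omega⟩)
  · have := He_sup (D := Rt a b c d) (v := (2 * x₀ - v.1, v.2)) fun h' => by
      have := hA _ h'; have := (mem_filter.mp hv).2; omega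
    rw [← mul_sum, mul_left_comm]
    refine mul_le_mul_of_nonneg_left (le_of_eq_of_le ?_ this) (by linarith)
    rw [sum_nb, sum_nb]
    ring_nf
  · by_cases h2 : w ∈ A ∨ w.1 = x₀
    · exact k w h2
    simp only [mem_filter, mem_sdiff, mem_Rt, mem_nb, not_or] at hx hw hw' h2
    refine (He_le _).trans ?_
    by_cases h3 : w.1 = a - 1
    · rw [h3]; exact h _
    · rw [He_out (by simp only [mem_Rt, h2.1, not_false_eq_true, and_true] at *; omega) fun h' => by have := hA _ h'; omega]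
      linarith

lemma first_hit (s : V → Prop) {l : List V} (h : ∃ v ∈ l, s v) :
    ∃ α a r, l = α ++ a :: r ∧ (∀ v ∈ α, ¬ s v) ∧ s a := by
  induction l with
  | nil => simp at h
  | cons x l ih =>
    by_cases hx : s x
    · exact ⟨[], x, l, rfl, by simp, hx⟩
    · obtain ⟨α, a, r, rfl, h1, h2⟩ := ih (by simpa [hx] using h)
      exact ⟨x :: α, a, r, rfl, by simpa [hx] using h1, h2⟩

lemma last_hit (s : V → Prop) {l : List V} (h : ∃ v ∈ l, s v) :
    ∃ α a r, l = α ++ a :: r ∧ (∀ v ∈ r, ¬ s v) ∧ s a := by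
  obtain ⟨α, a, r, e, h1, h2⟩ := first_hit s (l := l.reverse) (by simpa using h)
  exact ⟨r.reverse, a, α.reverse, by simpa using congrArg List.reverse e,
    fun v hv => h1 v (List.mem_reverse.mp hv), h2⟩

lemma adj_lst {α r : List V} {a : V} (h : (α ++ a :: r).IsChain Adj) (h' : α ≠ []) :
    a ∈ nb (lst α) := by
  rcases List.eq_nil_or_concat' α with rfl | ⟨α, m, rfl⟩
  · exact absurd rfl h'
  · rw [List.append_assoc] at h
    simpa using (List.isChain_cons_cons.mp (List.isChain_split.mp h).2).1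

lemma cross {c d : ℤ} {l : List V} (h : l.IsChain Adj) {a : V} (h1 : l.head? = some a)
    (h2 : a.1 < c) (h3 : d < (lst l).1) (hcd : c ≤ d) : ∃ α μ γ b, l = α ++ μ ++ γ ∧
      (∀ v ∈ α, v.1 < c) ∧ (∀ v ∈ γ, d < v.1) ∧ μ.head? = some b ∧ b.1 = c ∧ (lst μ).1 = d := by
  obtain ⟨α, b, r, rfl, p1, p2⟩ := first_hit (fun v => c ≤ v.1) (l := l)
    ⟨_, lst_mem (by rintro rfl; simp at h1), by omega⟩
  have hα : α ≠ [] := by
    rintro rfl
    obtain rfl : b = a := by simpa using h1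
    omega
  have p3 := mem_nb.mp (adj_lst h hα)
  have p4 := p1 _ (lst_mem hα)
  obtain ⟨μ, b', γ, e, p5, p6⟩ := last_hit (fun v => v.1 ≤ d) (l := b :: r) ⟨b, by simp, by omega⟩
  rw [e] at h h3
  have hγ : γ ≠ [] := by
    rintro rfl
    rw [← List.append_assoc, lst_snoc] at h3
    omega
  obtain ⟨w, γ, rfl⟩ := List.exists_cons_of_ne_nil hγ
  have p7 := mem_nb.mp (List.isChain_cons_cons.mp
    (List.isChain_split.mp (List.isChain_append.mp h).2.1).2).1
  have p8 := p5 w (by simp)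
  exact ⟨α, μ ++ [b'], w :: γ, b, by simp [e], fun v hv => not_le.mp (p1 v hv),
    fun v hv => not_le.mp (p5 v hv), by rw [← head_glue μ b' (w :: γ), ← e]; rfl, by omega,
    by rw [lst_snoc]; omega⟩

/-- the inner box -/
def Qs (t : ℤ) (v : V) : Prop := (64 * t ≤ v.1 ∧ v.1 ≤ 320 * t) ∧ -(128 * t) ≤ v.2 ∧ v.2 ≤ 128 * t

/-- the outer box -/
def Ws (t : ℤ) (v : V) : Prop := (48 * t ≤ v.1 ∧ v.1 ≤ 336 * t) ∧ -(128 * t) ≤ v.2 ∧ v.2 ≤ 128 * t

/-- the middle piece crosses the inner box -/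
def Mid (t : ℤ) (μ : List V) : Prop := (∃ a, μ.head? = some a ∧ a.1 = 64 * t ∧
  -(16 * t) ≤ a.2 ∧ a.2 ≤ 16 * t) ∧ ((lst μ).1 = 320 * t ∧ -(16 * t) ≤ (lst μ).2 ∧
    (lst μ).2 ≤ 16 * t) ∧ ∀ v ∈ μ, Ws t v

/-- a nice continuation -/
def Nice (t : ℤ) (γ : List V) : Prop := ∃ l μ r, γ = l ++ μ ++ r ∧
  (∀ v ∈ l, ¬ Qs t v ∧ dn v (0, 0) ≤ 64 * t) ∧ Mid t μ ∧ ∀ v ∈ r, ¬ Qs t v

lemma Geo.lt (h : Geo D A n ρ y) {v : V} (hv : v ∈ A) : v.1 < 0 ∧ -(2 * ρ) < v.2 ∧ v.2 < 2 * ρ := by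
  have := (h.sub v hv).2
  have := h.hy'
  unfold dn at *
  omega

lemma far (h : Geo D A n ρ y) (hL : Lg L n) (ht : 1 ≤ t) (hρ : 700 * t ≤ ρ)
    (hD : Sb (0, 0) (700 * t) ⊆ D) {z : V} (hz : dn z (0, 0) ≤ 644 * t) :
    He D A z ≤ L ^ 1726 * He D (A ∪ Rt (-(32 * t)) (320 * t) (-(128 * t)) (128 * t))
      (328 * t, 0) := by
  obtain ⟨z, hz', hm⟩ := exists_max_image (Sb (0, 0) (644 * t)) (He D A) ⟨z, mem_Sb.mpr hz⟩
  refine (hm _ (mem_Sb.mpr hz)).trans ?_
  clear hz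
  simp only [mem_Sb] at hm hz'
  have hn : 1400 * t < n := by
    have := h.dia (700 * t, 0) (hD (mem_Sb.mpr (by unfold dn; omega))) (-(700 * t), 0)
      (hD (mem_Sb.mpr (by unfold dn; omega)))
    unfold dn at this; omega
  set B := A ∪ Rt (-(32 * t)) (320 * t) (-(128 * t)) (128 * t) with hB
  have hB1 : ∀ v ∈ B, v ∈ D ∧ v.1 ≤ 320 * t ∧ -(2 * ρ) < v.2 ∧ v.2 < 2 * ρ := fun v hv => by
    rcases mem_union.mp hv with h' | h'
    · exact ⟨(h.sub v h').1, by have := h.lt h'; omega⟩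
    · rw [mem_Rt] at h'
      exact ⟨hD (mem_Sb.mpr (by unfold dn; omega)), by omega⟩
  have hL1 : 1 ≤ L := by linarith [hL.ge]
  have k1 : ∀ v, dn v (-1, 0) ≤ 321 * t → He D A z ≤ L * (He D A z - He D A v) := fun v hv => by
    have := harn1 (f := fun v => if dn v (0, 0) ≤ 644 * t then He D A z - He D A v else 0)
      (a := v) (b := (-1, 0)) hL (t := 321 * t) (by omega) (by omega) (fun v => by
        split_ifs with a
        exacts [sub_nonneg.mpr (hm v a), le_rfl]) (fun v hv => by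
        rw [if_pos (by unfold dn at *; omega), sum_congr rfl fun w hw => if_pos (by
          have := mem_nb.mp hw; unfold dn at *; omega), sum_sub_distrib, sum_nb_const]
        linarith [He_sub (A := A) (hD (mem_Sb.mpr (show dn v (0, 0) ≤ 700 * t by
          unfold dn at *; omega)))]) hv
    rwa [if_pos (by unfold dn; omega), if_pos (by unfold dn at *; omega), He_A h.one,
      sub_zero] at this
  have k2 : He D A z ≤ L * He D B z := by
    have := har_le (D := D \ B) (g := fun v => L * He D A v)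
      (h := fun v => L * He D B v + (L - 1) * He D A z) (fun v hv => by
        rw [← mul_sum, mul_left_comm]
        exact mul_le_mul_of_nonneg_left (He_sub (mem_sdiff.mp hv).1) hL.pos.le) (fun v hv => by
        rw [sum_add_distrib, sum_nb_const, ← mul_sum, mul_add, mul_left_comm 4 L]
        exact add_le_add_left (mul_le_mul_of_nonneg_left (He_sup (mem_sdiff.mp hv).2) hL.pos.le) _)
      (fun v hv => by
        have a1 := mul_nonneg (sub_nonneg.mpr hL1) (He_nn (D := D) (A := A) z)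
        by_cases h1 : v ∈ B
        · rw [He_A h1]
          rcases mem_union.mp h1 with h2 | h2
          · rw [He_A h2]; linarith
          · linarith [k1 v (by rw [mem_Rt] at h2; unfold dn; omega)]
        · rw [He_out (A := B) (fun h' => hv (mem_sdiff.mpr ⟨h', h1⟩)) h1]
          linarith [mul_le_mul_of_nonneg_left (He_le (D := D) (A := A) v) hL.pos.le]) z
    linarith
  obtain ⟨a, b, c, d, rfl⟩ := h.box
  have ha := mem_Rt.mp h.hy
  have hb := mem_Rt.mp (hD (mem_Sb.mpr (show dn (700 * t, 0) (0, 0) ≤ _ by unfold dn; omega)))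
  have hab := h.dia _ (mem_Rt.mpr (show (a ≤ (a, y).1 ∧ _) ∧ _ by omega)) _
    (mem_Rt.mpr (show (a ≤ (b, y).1 ∧ _) ∧ _ by omega))
  unfold dn at hab hz'
  have k3 := refl (A := B) (a := a) (b := b) (c := c) (d := d) (x₀ := 650 * t) (C := L ^ 25)
    (fun v hv => by have := hB1 v hv; omega) (one_le_pow₀ hL1) (fun y => by
      obtain ⟨e, he⟩ : ∃ e, e = 650 * t - (a - 1) := ⟨_, rfl⟩
      obtain ⟨y', hy⟩ : ∃ y', (y' = y + 3 * e ∧ 0 ≤ y) ∨ (y' = y - 3 * e ∧ y ≤ 0) := by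
        rcases le_total 0 y with h | h
        exacts [⟨_, Or.inl ⟨rfl, h⟩⟩, ⟨_, Or.inr ⟨rfl, h⟩⟩]
      have a1 := harn (f := He (Rt a b c d) B) (a := (2 * (650 * t) - (a - 1), y)) hL (t := e / 4)
        (by omega) (by omega) He_nn 15 (2 * (650 * t) - (a - 1), y') (fun v _ _ _ _ =>
          He_sup fun h' => by have := hB1 v h'; omega) (by unfold dn; omega)
      have a2 := harn (f := He (Rt a b c d) B) (a := (2 * (650 * t) - (a - 1), y')) hL (t := e / 4)
        (by omega) (by omega) He_nn 10 (a - 1, y') (fun v _ _ _ _ =>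
          He_sup fun h' => by have := hB1 v h'; omega) (by unfold dn; omega)
      have a3 : (a - 1, y') ∉ Rt a b c d := by rw [mem_Rt]; omega
      rw [He_out a3 fun h' => a3 (hB1 _ h').1] at a2
      exact a2.trans ((mul_le_mul_of_nonneg_left a1 (by positivity)).trans_eq (by ring)))
    (z := z) (hD (mem_Sb.mpr (by unfold dn; omega))) (by omega)
  have k4 := harn (f := He (Rt a b c d) B) (a := (328 * t, 0)) hL ht (by omega) He_nn 1700
    (2 * (650 * t) - z.1, z.2) (fun v _ _ _ _ => He_sup fun h' => by have := hB1 v h'; omega)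
    (by unfold dn; omega)
  refine k2.trans ((mul_le_mul_of_nonneg_left (k3.trans (mul_le_mul_of_nonneg_left k4
    (by positivity))) hL.pos.le).trans_eq (by ring))

lemma fwd_in (h : Geo D A n ρ y) (hL : Lg L n) (ht : 1 ≤ t) (hρ : 700 * t ≤ ρ)
    (hD : Sb (0, 0) (700 * t) ⊆ D) :
    N (D \ A) A (0, 0) (fun _ => 1) ≤ L ^ 2100 * N (D \ A) A (0, 0) fun γ => chi (Nice t γ) := by
  have hn : 1400 * t < n := by
    have := h.dia (700 * t, 0) (hD (mem_Sb.mpr (by unfold dn; omega))) (-(700 * t), 0)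
      (hD (mem_Sb.mpr (by unfold dn; omega)))
    unfold dn at this; omega
  have hL1 : 1 ≤ L := by linarith [hL.ge]
  set B := A ∪ Rt (-(32 * t)) (320 * t) (-(128 * t)) (128 * t) with hB
  let T₁ := Rt (-(32 * t)) (64 * t - 1) (-(32 * t)) (32 * t) \ A
  let T₂ := Rt (48 * t) (336 * t) (-(16 * t)) (16 * t)
  have s1 : T₁ ⊆ D \ A := sdiff_subset_sdiff (fun v hv => hD (by
    rw [mem_Rt] at hv; rw [mem_Sb]; unfold dn; omega)) Subset.rfl
  have m1 : ∀ v : V, 0 ≤ v.1 → v.1 < 64 * t → -(32 * t) ≤ v.2 → v.2 ≤ 32 * t → v ∈ T₁ :=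
    fun v _ _ _ _ => mem_sdiff.mpr ⟨mem_Rt.mpr (by omega), fun h' => by have := h.lt h'; omega⟩
  have s2 : T₂ ⊆ D \ A := fun v hv => by
    rw [mem_Rt] at hv
    exact mem_sdiff.mpr ⟨hD (mem_Sb.mpr (by unfold dn; omega)), fun h' => by
      have := h.lt h'; omega⟩
  have z1 := m1 (56 * t, 0) (by omega) (by omega) (by omega) (by omega)
  have z2 : (328 * t, 0) ∈ T₂ := mem_Rt.mpr (by omega)
  have c3 := N_dom (T := D \ B) (D := D \ A) (A := A) (A' := B) (a := (328 * t, 0))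
    (F := fun _ => 1) (F' := fun γ => chi (∀ v ∈ γ, v ∉ B))
    (sdiff_subset_sdiff Subset.rfl subset_union_left) (fun _ => chi_nonneg _) fun γ hγ h1 => by
      have := hγ.out
      refine Or.inr ⟨by simp only [mem_sdiff] at *; tauto, fun h' => h1 (mem_union_left _ h'),
        (chi_pos fun v hv => ?_).ge⟩
      by_cases e : v = lst γ
      exacts [e ▸ h1, (mem_sdiff.mp ((hγ.mem v hv).mpr e)).2]
  rw [N_one, mul_div_cancel_left₀ _ (Z_pos _).ne', le_div_iff₀ (Z_pos _)] at c3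
  have c2 := conc (A := A) (a := (56 * t, 0)) s2 z2 (F' := fun γ => ∀ v ∈ γ, v ∉ B)
    (F := fun γ => ∃ τ r, γ = τ ++ r ∧ (∀ v ∈ τ, v ∈ T₂) ∧ τ ≠ [] ∧ lst τ ∉ B ∧ ∀ v ∈ r, v ∉ B)
    fun l m r τ _ a b _ e f => ⟨τ, r, rfl, f, by rintro rfl; simp at b, e ▸ a m (by simp),
      fun v hv => a v (by simp [hv])⟩
  have c1 := conc (A := A) (a := (0, 0)) s1 z1 (F := Nice t)
    (F' := fun γ => ∃ τ r, γ = τ ++ r ∧ (∀ v ∈ τ, v ∈ T₂) ∧ τ ≠ [] ∧ lst τ ∉ B ∧ ∀ v ∈ r, v ∉ B)
    (by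
      rintro l m r τ hp ⟨τ₂, r₂, e, a1, a2, a3, a4⟩ a5 a6 a7 a8
      have hτ : τ ≠ [] := by rintro rfl; simp at a5
      have b1 := mem_Rt.mp (mem_sdiff.mp (a8 m (a7 ▸ lst_mem hτ))).1
      have b2 : ∀ v, v ∉ B → ¬ Qs t v ∧ (v ∈ T₂ → 320 * t < v.1) := fun v hv => by
        simp only [hB, T₂, mem_union, mem_Rt, Qs, not_or] at hv ⊢
        omega
      obtain ⟨r', rfl, rfl⟩ : ∃ r', τ₂ = l ++ m :: r' ∧ r = r' ++ r₂ := by
        rcases List.append_eq_append_iff.mp e with ⟨x, rfl, e'⟩ | ⟨x, rfl, e'⟩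
        · rcases x with _ | ⟨w, x⟩
          · exact absurd (mem_union_right _ (mem_Rt.mpr (by omega))) 
              (a4 m (by rw [show r₂ = m :: r from e'.symm]; simp))
          · obtain ⟨rfl, rfl⟩ := List.cons.inj e'
            exact ⟨x, rfl, rfl⟩
        · exact absurd (mem_union_right _ (mem_Rt.mpr (by omega))) (a4 m (by simp [e']))
      rw [lst_app _ (by simp)] at a3
      have b3 : ∀ v ∈ m :: r', v ∈ T₂ := fun v hv => a1 v (List.mem_append_right _ hv)
      obtain ⟨α, μ, γ, b, e1, p1, p2, p3, p4, p5⟩ := cross (l := m :: r') (c := 64 * t)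
        (d := 320 * t) (List.isChain_append.mp (show (m :: r' ++ r₂).IsChain Adj from
          (List.isChain_split.mp hp.ch).2)).1 rfl (by omega)
        ((b2 _ a3).2 (b3 _ (lst_mem (by simp)))) (by omega)
      have hμ : μ ≠ [] := by rintro rfl; simp at p3
      have b4 : ∀ v, v ∈ α ∨ v ∈ μ ∨ v ∈ γ → (48 * t ≤ v.1 ∧ v.1 ≤ 336 * t) ∧
          -(16 * t) ≤ v.2 ∧ v.2 ≤ 16 * t := fun v hv => mem_Rt.mp (b3 v (by simpa [e1] using hv))
      rcases α with _ | ⟨m', α⟩
      · obtain ⟨μ, rfl⟩ := List.head?_eq_some_iff.mp p3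
        have := (List.cons.inj e1).1
        subst this
        omega
      obtain ⟨rfl, rfl⟩ := List.cons.inj e1
      refine ⟨τ ++ α, μ, γ ++ r₂, by simp, fun v hv => ?_, ⟨⟨b, p3, p4, (b4 b (by
        simp [List.mem_of_head? p3])).2⟩, ⟨p5, (b4 _ (by simp [lst_mem hμ])).2⟩, fun v hv => ?_⟩,
        fun v hv => ?_⟩
      · unfold Qs dn
        rcases List.mem_append.mp hv with hv | hv
        · have := mem_Rt.mp (mem_sdiff.mp (a8 v hv)).1; omega
        · have := b4 v (by simp [hv]); have := p1 v (by simp [hv]); omega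
      · have := b4 v (by simp [hv]); unfold Ws; omega
      · rcases List.mem_append.mp hv with hv | hv
        · have := p2 v hv; unfold Qs; omega
        · exact (b2 v (a4 v hv)).1)
  have g2 := harn (f := fun v => G1 T₂ v (328 * t, 0)) (a := (56 * t, 0)) hL ht (by omega)
    (fun _ => G_nn _ _ _) 272 (328 * t, 0) (fun v _ _ _ _ => G1_super _ _ (mem_Rt.mpr (by omega)))
    (by unfold dn; omega)
  have p1 := G_pos wt_one z1
  have p2 := G_pos wt_one z2
  have g1 := masson (T := Sb (0, 0) (16 * t - 1) \ A) (c := (0, 0)) (R := 16 * t)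
    (f := fun v => G1 T₁ v (56 * t, 0)) (g := He D A) (κ := G1 T₁ (56 * t, 0) (56 * t, 0) / L ^ 56)
    (M := L ^ 1726 * He D B (328 * t, 0)) (by omega) (by positivity)
    (mul_nonneg (by positivity) (He_nn _))
    (mem_sdiff.mpr ⟨mem_Sb.mpr (by unfold dn; omega), fun h' => by have := h.lt h'; omega⟩)
    (fun v hv => by have := mem_Sb.mp (mem_sdiff.mp hv).1; omega) (fun _ => G_nn _ _ _)
    (fun v hv => far h hL ht hρ hD (by omega))
    (fun v hv => G1_super _ _ (sdiff_subset_sdiff (fun v hv => by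
      rw [mem_Sb] at hv; rw [mem_Rt]; unfold dn at hv; omega) Subset.rfl hv))
    (fun v hv => He_sub (hD (mem_Sb.mpr (by have := mem_Sb.mp (mem_sdiff.mp hv).1; omega))))
    1 (Or.inl rfl) fun z a b => by
      by_cases h1 : z ∈ A
      · exact Or.inr (Or.inl ⟨(He_A h1).le, by have := h.lt h1; omega⟩)
      have h2 : dn z (0, 0) = 16 * t := by
        simp only [mem_sdiff, mem_Sb, h1, not_false_eq_true, and_true] at a; omega
      by_cases h3 : 4 * t < z.1
      · refine Or.inl ((div_le_iff₀' (by positivity)).mpr ?_)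
        unfold dn at h2
        exact harn (f := fun v => G1 T₁ v (56 * t, 0)) hL ht (by omega) (fun _ => G_nn _ _ _) 56 _
          (fun v _ _ _ _ => G1_super _ _ (m1 v (by omega) (by omega) (by omega) (by omega)))
          (by unfold dn; omega)
      · exact Or.inr (Or.inr ⟨h2, by omega⟩)
  rw [N_one]
  change Z (D \ A) * He D A (0, 0) ≤ _
  change He D B _ * _ ≤ _ at c3
  have q2 : 1 / L ^ 272 ≤ G1 T₂ (56 * t, 0) (328 * t, 0) / G1 T₂ (328 * t, 0) (328 * t, 0) := by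
    rw [div_le_div_iff₀ (by positivity) p2]; linarith
  have q3 := (mul_le_mul q2 c3 (mul_nonneg (He_nn _) (Z_pos _).le)
    (div_nonneg (G_nn _ _ _) p2.le)).trans c2
  have q4 := (mul_le_mul_of_nonneg_left q3 (div_nonneg (G_nn T₁ (0, 0) (56 * t, 0)) p1.le)).trans c1
  rw [div_mul_eq_mul_div, div_le_iff₀ (by positivity), mul_comm, ← le_div_iff₀ p1] at g1
  refine (mul_le_mul_of_nonneg_left g1 (Z_pos _).le).trans (le_trans ?_
    (mul_le_mul_of_nonneg_left q4 (by positivity)))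
  have q5 : 6 * L ^ 2054 ≤ L ^ 2100 := by
    rw [show L ^ 2100 = L * L ^ 45 * L ^ 2054 by ring]
    exact mul_le_mul_of_nonneg_right (by nlinarith [one_le_pow₀ (n := 45) hL1, hL.ge])
      (by positivity)
  refine le_trans (le_of_eq ?_) (mul_le_mul_of_nonneg_right q5 (mul_nonneg
    (div_nonneg (G_nn _ _ _) p1.le) (mul_nonneg (by positivity)
      (mul_nonneg (He_nn _) (Z_pos _).le))))
  field_simp

lemma fwd_out (h : Geo D A n ρ y) (hL : Lg L n) (ht : 1 ≤ t) (hρ : 700 * t ≤ ρ)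
    (hD : ¬ Sb (0, 0) (700 * t) ⊆ D) : N (D \ A) A (0, 0) (fun _ => 1) ≤
      L ^ 2100 * N (D \ A) A (0, 0) fun γ => chi (∀ v ∈ γ, dn v (0, 0) ≤ 801 * t) := by
  have hL1 : 1 ≤ L := by linarith [hL.ge]
  have h0 : (0, 0) ∉ A := fun h' => by have := h.lt h'; omega
  by_cases h00 : (0, 0) ∈ D
  swap
  · have : (0, 0) ∉ D \ A := by simp [h00]
    rw [N_out this, N_out this, if_neg h0, if_neg h0, chi_pos (by simp [dn]; omega)]
    exact le_mul_of_one_le_left (mul_pos (Z_pos _) one_pos).le (one_le_pow₀ hL1)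
  have hn := h.dia _ h00 _ h.hy
  obtain ⟨y', hy, hy'⟩ : ∃ y', (y' = 700 * t ∨ y' = -(700 * t)) ∧ (700 * t, y') ∉ D := by
    obtain ⟨v, a, b⟩ := not_subset.mp hD
    obtain ⟨a, b, c, d, rfl⟩ := h.box
    have := h.hy
    simp only [mem_Rt, mem_Sb, dn] at *
    by_cases e : v.2 < c
    exacts [⟨_, Or.inr rfl, by omega⟩, ⟨_, Or.inl rfl, by omega⟩]
  let T := (D \ A) ∩ Sb (0, 0) (800 * t)
  have c1 := N_dom (T := T) (D := D \ A) (A := A) (A' := D) (a := (0, 0)) (F := fun _ => 1)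
    (F' := fun γ => chi (∀ v ∈ γ, dn v (0, 0) ≤ 801 * t)) inter_subset_left
    (fun _ => chi_nonneg _) fun γ hγ h1 => by
      refine Or.inr ⟨by simp [h1], fun h' => h1 (h.sub _ h').1, (chi_pos fun v hv => ?_).ge⟩
      obtain ⟨l, e⟩ := hγ.snoc
      rw [e] at hγ hv
      obtain ⟨b1, b2, -, b4, -⟩ := isP_snoc.mp hγ
      have b5 : ∀ v ∈ l, dn v (0, 0) ≤ 800 * t := fun v hv => mem_Sb.mp (mem_inter.mp (b4 v hv)).2
      rcases List.mem_append.mp hv with hv | hv
      · linarith [b5 v hv]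
      · have hl : l ≠ [] := by
          rintro rfl
          exact h1 ((by simpa using b1 : lst γ = (0, 0)) ▸ h00)
        rw [List.mem_singleton.mp hv]
        linarith [(dn_nb (adj_lst b2 hl) (0, 0)).1, b5 _ (lst_mem hl)]
  rw [N_one, mul_div_cancel_left₀ _ (Z_pos _).ne', le_div_iff₀ (Z_pos _)] at c1
  have s1 : ∀ v, v ∉ A → dn v (0, 0) ≤ 800 * t →
      ∑ z ∈ nb v, Hm T (tg D) z ≤ 4 * Hm T (tg D) v := fun v a b =>
    Hm_sup tg_le (by by_cases e : v ∈ D <;> simp [T, a, mem_Sb, b, e, tg])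
  have s2 : ∀ v, v ∉ D → Hm T (tg D) v = 1 := fun v a => by
    rw [Hm_off (by simp [T, a]), tg, if_neg a]
  have g1 := masson (T := (D \ A) ∩ Sb (0, 0) (16 * t - 1)) (c := (0, 0)) (R := 16 * t)
    (f := Hm T (tg D)) (g := He D A) (κ := 1 / L ^ 720) (M := 1) (by omega) (by positivity)
    zero_le_one (mem_inter.mpr ⟨mem_sdiff.mpr ⟨h00, h0⟩, mem_Sb.mpr (by unfold dn; omega)⟩)
    (fun v hv => by have := mem_Sb.mp (mem_inter.mp hv).2; omega) (c_le_Hm tg_nonneg)
    (fun v _ => He_le v) (fun v hv => s1 v (mem_sdiff.mp (mem_inter.mp hv).1).2 (by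
      have := mem_Sb.mp (mem_inter.mp hv).2; omega))
    (fun v hv => He_sub (mem_sdiff.mp (mem_inter.mp hv).1).1) 1 (Or.inl rfl) fun z a b => by
      by_cases h1 : z ∈ A
      · exact Or.inr (Or.inl ⟨(He_A h1).le, by have := h.lt h1; omega⟩)
      by_cases h4 : z ∈ D
      swap
      · exact Or.inl ((s2 z h4).symm ▸ (div_le_one (by positivity)).mpr (one_le_pow₀ hL1))
      have h2 : dn z (0, 0) = 16 * t := by
        simp only [mem_sdiff, mem_inter, mem_Sb, h1, h4, not_false_eq_true, true_and] at a; omega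
      by_cases h3 : 4 * t < z.1
      · refine Or.inl ((div_le_iff₀' (by positivity)).mpr ?_)
        unfold dn at h2 hn
        rw [← s2 _ hy']
        exact harn hL ht (by omega) (c_le_Hm tg_nonneg) 720 _
          (fun v _ _ _ _ => s1 v (fun h' => by have := h.lt h'; omega) (by unfold dn; omega))
          (by unfold dn; omega)
      · exact Or.inr (Or.inr ⟨h2, by omega⟩)
  rw [N_one]
  change Z (D \ A) * He D A (0, 0) ≤ _
  rw [one_div_mul_eq_div, div_le_iff₀ (by positivity)] at g1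
  refine (mul_le_mul_of_nonneg_left g1 (Z_pos _).le).trans (le_trans ?_
    (mul_le_mul_of_nonneg_left c1 (by positivity)))
  have q5 : 6 * L ^ 720 ≤ L ^ 2100 := by
    rw [show L ^ 2100 = L * L ^ 1379 * L ^ 720 by ring]
    exact mul_le_mul_of_nonneg_right (by nlinarith [one_le_pow₀ (n := 1379) hL1, hL.ge])
      (by positivity)
  exact le_trans (le_of_eq (by ring)) (mul_le_mul_of_nonneg_right q5
    (mul_nonneg (c_le_Hm tg_nonneg _) (Z_pos _).le))

lemma carl (h : Geo D A n ρ y) (hL : Lg L n) {R : ℤ} (hR : 16 ≤ R) (hρ : R ≤ ρ) (h00 : (0, 0) ∈ D)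
    {ψ : V → ℝ} {ε : ℝ} (hε : 0 ≤ ε) (p1 : ∀ v, dn v (0, 0) ≤ R → ψ v ≤ ε)
    (p2 : ∀ v ∈ D, dn v (0, 0) < R → 4 * ψ v ≤ ∑ z ∈ nb v, ψ z)
    (p3 : ∀ v ∈ A, dn v (0, 0) ≤ R → ψ v ≤ 0) (p4 : 0 ≤ ψ (0, 0)) {z : V} (hz : dn z (-ρ, y) ≤ ρ) :
    He D A z * ψ (0, 0) * R ≤ ρ * L ^ 76 * ε * He D A (0, 0) := by
  have hL1 : 1 ≤ L := by linarith [hL.ge]
  have hn := h.dia _ h00 _ h.hy
  have hy := h.hy'
  have hR' : (16 : ℝ) ≤ R := by exact_mod_cast hR
  have hρ' : (R : ℝ) ≤ ρ := by exact_mod_cast hρ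
  obtain ⟨w, hw, hm⟩ := exists_max_image ((Sb (-ρ, y) (2 * ρ)).filter
    fun v => dn v (-ρ, y) = 2 * ρ) (He D A) ⟨(ρ, y), by
      simp only [mem_filter, mem_Sb, dn]; omega⟩
  simp only [mem_filter, mem_Sb] at hw hm
  have k0 : ∀ z, z ∉ D ∩ Sb (-ρ, y) (2 * ρ - 1) → dn z (-ρ, y) ≤ 2 * ρ →
      He D A z ≤ He D A w := fun z a b => by
    by_cases e : dn z (-ρ, y) = 2 * ρ
    · exact hm z ⟨b, e⟩
    obtain ⟨z', a1, a2⟩ : ∃ z', z' ∉ D ∧ dn z' (-ρ, y) = 2 * ρ := by
      obtain ⟨a', b', c, d, rfl⟩ := h.box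
      have := h.hy
      simp only [mem_inter, mem_Rt, mem_Sb, dn] at *
      by_cases e1 : z.1 < a'
      · exact ⟨(-(3 * ρ), y), by omega⟩
      by_cases e2 : b' < z.1
      · exact ⟨(ρ, y), by omega⟩
      by_cases e3 : z.2 < c
      exacts [⟨(-ρ, y - 2 * ρ), by omega⟩, ⟨(-ρ, y + 2 * ρ), by omega⟩]
    exact (He_le z).trans ((He_out a1 fun h' => a1 (h.sub _ h').1).ge.trans (hm z' ⟨a2.le, a2⟩))
  have k1 : He D A z ≤ He D A w := by
    by_cases e : z ∈ D ∩ Sb (-ρ, y) (2 * ρ - 1)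
    · exact har_le' (h := fun _ => He D A w) (fun v hv => He_sub (mem_inter.mp hv).1)
        (fun v _ => (sum_nb_const v _).le) (fun x hx v hv hv' => k0 v hv' (by
          have := mem_Sb.mp (mem_inter.mp hx).2; have := dn_nb hv (-ρ, y); omega)) e
    · exact k0 z e (by omega)
  have hA : ∀ v ∈ A, dn v (-ρ, y) < ρ := fun v hv => (h.sub v hv).2
  unfold dn at hn hw hA
  have k2 : ∀ y', -(3 * ρ) ≤ y' → y' ≤ 3 * ρ → He D A w / L ^ 75 ≤ He D A (0 + 2 * ρ, y') := by
    intro y' a b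
    obtain ⟨y₁, e⟩ : ∃ y₁, (y₁ = w.2 ∧ (w.2 = y + 2 * ρ ∨ w.2 = y - 2 * ρ)) ∨
        (y₁ = y + 2 * ρ ∧ (w.1 = ρ ∨ w.1 = -(3 * ρ))) := by
      by_cases e : w.2 = y + 2 * ρ ∨ w.2 = y - 2 * ρ
      exacts [⟨_, Or.inl ⟨rfl, e⟩⟩, ⟨_, Or.inr ⟨rfl, by omega⟩⟩]
    have a1 := harn (f := He D A) (a := (w.1, y₁)) hL (t := ρ / 4) (by omega) (by omega) He_nn 20 w
      (fun v _ _ _ _ => He_sup fun h' => by have := hA v h'; omega) (by unfold dn; omega)
    have a2 := harn (f := He D A) (a := (0 + 2 * ρ, y₁)) hL (t := ρ / 4) (by omega) (by omega) He_nn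
      25 (w.1, y₁) (fun v _ _ _ _ => He_sup fun h' => by have := hA v h'; omega)
      (by unfold dn; omega)
    have a3 := harn (f := He D A) (a := (0 + 2 * ρ, y')) hL (t := ρ / 4) (by omega) (by omega) He_nn
      30 (0 + 2 * ρ, y₁) (fun v _ _ _ _ => He_sup fun h' => by have := hA v h'; omega)
      (by unfold dn; omega)
    rw [div_le_iff₀' (by positivity)]
    exact a1.trans ((mul_le_mul_of_nonneg_left (a2.trans (mul_le_mul_of_nonneg_left a3
      (by positivity))) (by positivity)).trans_eq (by ring))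
  have hw0 : 0 ≤ He D A w / L ^ 75 := div_nonneg (He_nn _) (by positivity)
  have hw1 : He D A w / L ^ 75 ≤ 1 :=
    (div_le_one (by positivity)).mpr ((He_le _).trans (one_le_pow₀ hL1))
  have g1 := masson (T := (D \ A) ∩ Sb (0, 0) (R - 1)) (c := (0, 0)) (R := R)
    (f := He D A) (g := ψ) (κ := He D A w / L ^ 75 * (R / (16 * ρ))) (M := ε) (by omega)
    (mul_nonneg hw0 (div_nonneg (by linarith) (by linarith))) hε
    (mem_inter.mpr ⟨mem_sdiff.mpr ⟨h00, fun h' => by have := h.lt h'; omega⟩,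
      mem_Sb.mpr (by unfold dn; omega)⟩)
    (fun v hv => by have := mem_Sb.mp (mem_inter.mp hv).2; omega) He_nn p1
    (fun v hv => He_sup (mem_sdiff.mp (mem_inter.mp hv).1).2)
    (fun v hv => p2 v (mem_sdiff.mp (mem_inter.mp hv).1).1 (by
      have := mem_Sb.mp (mem_inter.mp hv).2; omega)) 1 (Or.inl rfl) fun z a b => by
      by_cases h1 : z ∈ A
      · exact Or.inr (Or.inl ⟨p3 z h1 b, by have := h.lt h1; omega⟩)
      by_cases h4 : z ∈ D
      swap
      · exact Or.inl ((He_out h4 h1).symm ▸ mul_le_one₀ hw1 (div_nonneg (by linarith) (by linarith))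
          ((div_le_one (by linarith)).mpr (by linarith)))
      have h2 : dn z (0, 0) = R := by
        simp only [mem_sdiff, mem_inter, mem_Sb, h1, h4, not_false_eq_true, true_and] at a; omega
      by_cases h3 : R < 4 * z.1
      · unfold dn at h2
        have := cubic (f := He D A) (c := z) (ρ := 2 * ρ) (x₀ := 0) hw0 He_nn (by omega) (by omega)
          (fun v _ _ _ _ => He_sup fun h' => by have := h.lt h'; omega)
          fun y' _ _ => k2 y' (by omega) (by omega)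
        have h5 : (R : ℝ) ≤ 4 * z.1 := by exact_mod_cast h3.le
        refine Or.inl ?_
        rw [← mul_div_assoc, div_le_iff₀ (by linarith)]
        push_cast at this
        nlinarith [mul_le_mul_of_nonneg_left h5 hw0]
      · exact Or.inr (Or.inr ⟨h2, by omega⟩)
  rw [div_mul_div_comm, div_mul_eq_mul_div, div_le_iff₀ (mul_pos (by positivity) (by linarith))]
    at g1
  have q1 := mul_le_mul_of_nonneg_right k1 (mul_nonneg p4 (show (0 : ℝ) ≤ R by linarith))
  have q2 : 0 ≤ ρ * L ^ 75 * ε * He D A (0, 0) :=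
    mul_nonneg (mul_nonneg (mul_nonneg (by linarith) (by positivity)) hε) (He_nn _)
  nlinarith [mul_le_mul_of_nonneg_left hL.ge q2]

end Pool.Agent.P.MP_5fda20_pr.W
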