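import Pool.Agent.P.MP_5fda20_pr.W.Spr
import Pool.Agent.P.MP_5fda20_pr.W.Cnt

/-! Fibres of resampling and their invariance. -/

namespace Pool.Agent.P.MP_5fda20_pr.W

open Finset U

variable {D : Finset V} {a a' x y : V} {ρ ρ' t t' n top R : ℤ} {L : ℝ}
  {β β' μ μ' ν γ γ' r r' : List V} {c d : List V × List V}

lemma first_uniq {s : V → Prop} (e : β ++ a :: r = β' ++ a' :: r') (h1 : ∀ v ∈ β, ¬ s v) (h2 : s a)
    (h3 : ∀ v ∈ β', ¬ s v) (h4 : s a') : β = β' := by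
  rcases List.append_eq_append_iff.mp e with ⟨_ | ⟨z, δ⟩, e1, e2⟩ | ⟨_ | ⟨z, δ⟩, e1, e2⟩
  · simp [e1]
  · exact absurd h2 (h3 a (by simp [e1, (List.cons.inj e2).1]))
  · simp [e1]
  · exact absurd h4 (h1 a' (by simp [e1, (List.cons.inj e2).1]))

lemma last_uniq {s : V → Prop} (e : r ++ a :: γ = r' ++ a' :: γ') (h1 : ∀ v ∈ γ, ¬ s v) (h2 : s a)
    (h3 : ∀ v ∈ γ', ¬ s v) (h4 : s a') : γ = γ' := by
  rcases List.append_eq_append_iff.mp e with ⟨_ | ⟨z, δ⟩, -, e2⟩ | ⟨_ | ⟨z, δ⟩, -, e2⟩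
  · exact (List.cons.inj e2).2
  · exact absurd h4 (h1 a' (by simp [(List.cons.inj e2).2]))
  · exact (List.cons.inj e2).2.symm
  · exact absurd h2 (h3 a (by simp [(List.cons.inj e2).2]))

lemma infix_disj (e : β ++ μ ++ γ = β' ++ μ' ++ γ') (h1 : μ ≠ []) (h2 : μ' ≠ [])
    (h : ∀ v ∈ μ, v ∉ μ') : (∃ δ, β' = β ++ μ ++ δ ∧ γ = δ ++ μ' ++ γ') ∨
      ∃ δ, β = β' ++ μ' ++ δ ∧ γ' = δ ++ μ ++ γ := by
  have k : ∀ {β μ γ μ' γ' δ : List V}, μ ++ γ = δ ++ (μ' ++ γ') → μ' ≠ [] → (∀ v ∈ μ, v ∉ μ') →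
      ∃ δ', β ++ δ = β ++ μ ++ δ' ∧ γ = δ' ++ μ' ++ γ' := by
    intro β μ γ μ' γ' δ e h2 h
    rcases List.append_eq_append_iff.mp e with ⟨δ', rfl, rfl⟩ | ⟨_ | ⟨z, δ'⟩, rfl, e2⟩
    · exact ⟨δ', by simp, by simp⟩
    · exact ⟨[], by simp, by simpa using e2.symm⟩
    · obtain ⟨w, μ', rfl⟩ := List.exists_cons_of_ne_nil h2
      exact absurd (by simp [(List.cons.inj e2).1]) (h z (by simp))
  rw [List.append_assoc, List.append_assoc] at e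
  rcases List.append_eq_append_iff.mp e with ⟨δ, rfl, e2⟩ | ⟨δ, rfl, e2⟩
  exacts [Or.inl (k e2 h2 h), Or.inr (k e2 h1 fun v a b => h v b a)]

/-- an active decomposition -/
def Sd (D : Finset V) (y : V) (top ρ t : ℤ) (c : List V × List V) (β μ γ : List V) : Prop :=
  c.1 = β ++ μ ++ γ ∧ Dec D y top ρ t β μ γ ∧ ∀ v ∈ c.2, ¬ Wv y ρ t β v

lemma acC_iff : AcC D y top ρ t c ↔ ∃ β μ γ, Sd D y top ρ t c β μ γ := by
  have k : ∀ {β μ γ}, c.1 = β ++ μ ++ γ → Rch y ρ β → Wv y ρ t c.1 = Wv y ρ t β :=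
    fun e h => by funext v; rw [e, Wv, List.append_assoc, h.lq, Wv]
  exact ⟨fun ⟨⟨β, μ, γ, e, h⟩, h'⟩ => ⟨β, μ, γ, e, h, k e h.rch ▸ h'⟩,
    fun ⟨β, μ, γ, e, h, h'⟩ => ⟨⟨β, μ, γ, e, h⟩, (k e h.rch).symm ▸ h'⟩⟩

lemma lst_map (e : V → V) (h : μ ≠ []) : lst (μ.map e) = e (lst μ) := by
  rcases List.eq_nil_or_concat' μ with rfl | ⟨α, a, rfl⟩
  exacts [absurd rfl h, by simp]

lemma Dec.ends (h : Dec D y top ρ t β μ γ) (_ht : 0 ≤ t) : (∃ a r, μ = a :: r ∧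
    Qs t (lq y ρ β a)) ∧ (∃ r, μ = r ++ [lst μ] ∧ Qs t (lq y ρ β (lst μ))) ∧
      ∀ v ∈ μ, Wv y ρ t β v := by
  obtain ⟨⟨a, h1, h2⟩, h3, h4⟩ := h.mid
  rcases μ with _ | ⟨z, r⟩
  · simp at h1
  rw [lst_map _ (by simp)] at h3
  obtain rfl : lq y ρ β z = a := by simpa using h1
  refine ⟨⟨z, r, rfl, by unfold Qs; omega⟩, ?_, fun v hv => h4 _ (List.mem_map_of_mem hv)⟩
  rcases List.eq_nil_or_concat' (z :: r) with e | ⟨α, b, e⟩
  · simp at e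
  · exact ⟨α, by simp [e], by unfold Qs; omega⟩

lemma Sd.uniq (h : Sd D y top ρ t c β μ γ) (h' : Sd D y top ρ t c β' μ' γ') (ht : 0 ≤ t) :
    β = β' ∧ μ = μ' ∧ γ = γ' := by
  have e := h.1.symm.trans h'.1
  have e1 : lq y ρ β = lq y ρ β' := by
    rw [← h.2.1.rch.lq (μ ++ γ), ← h'.2.1.rch.lq (μ' ++ γ'), ← List.append_assoc, e,
      List.append_assoc]
  obtain ⟨⟨a, r, a1, a2⟩, ⟨s, a3, a4⟩, -⟩ := h.2.1.ends ht
  obtain ⟨⟨a', r', b1, b2⟩, ⟨s', b3, b4⟩, -⟩ := h'.2.1.ends ht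
  obtain rfl : β = β' := first_uniq (s := fun v => Qs t (lq y ρ β v)) (r := r ++ γ) (r' := r' ++ γ')
    (by simpa [a1, b1] using e) h.2.1.bef a2 (e1 ▸ h'.2.1.bef) (e1 ▸ b2)
  obtain rfl : γ = γ' := last_uniq (s := fun v => Qs t (lq y ρ β v)) (r := β ++ s) (r' := β ++ s')
    (by rw [a3, b3] at e; simpa using e) h.2.1.aft a4 h'.2.1.aft b4
  exact ⟨rfl, by simpa using e, rfl⟩

/-- two configurations differ by the crossing only -/
def Rel (D : Finset V) (y : V) (top ρ t : ℤ) (c d : List V × List V) : Prop :=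
  d = c ∨ ∃ β μ μ' γ, Sd D y top ρ t c β μ γ ∧ Sd D y top ρ t d β μ' γ ∧ d.2 = c.2 ∧
    μ'.head? = μ.head? ∧ lst μ' = lst μ

lemma Rel.symm (h : Rel D y top ρ t c d) : Rel D y top ρ t d c :=
  h.imp Eq.symm fun ⟨β, μ, μ', γ, a, b, e, f, g⟩ => ⟨β, μ', μ, γ, b, a, e.symm, f.symm, g.symm⟩

lemma Rel.trans {e : List V × List V} (h : Rel D y top ρ t c d) (h' : Rel D y top ρ t d e)
    (ht : 0 ≤ t) : Rel D y top ρ t c e := by
  rcases h with rfl | ⟨β, μ, μ', γ, a1, a2, a3, a4, a5⟩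
  · exact h'
  rcases h' with rfl | ⟨β', ν, ν', γ', b1, b2, b3, b4, b5⟩
  · exact Or.inr ⟨β, μ, μ', γ, a1, a2, a3, a4, a5⟩
  obtain ⟨rfl, rfl, rfl⟩ := a2.uniq b1 ht
  exact Or.inr ⟨β, μ, ν', γ, a1, b2, b3.trans a3, b4.trans a4, b5.trans a5⟩

open Classical in
/-- the fibre -/
noncomputable def fb (D : Finset V) (y x : V) (top ρ t : ℤ) (c : List V × List V) :
    Finset (List V × List V) := (CC D y x).filter (Rel D y top ρ t c)

lemma mem_fb : d ∈ fb D y x top ρ t c ↔ d ∈ CC D y x ∧ Rel D y top ρ t c d := by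
  simp only [fb, mem_filter]

/-- the local weight -/
noncomputable def vl (D : Finset V) (y : V) (ρ R : ℤ) (d : List V × List V) : ℝ :=
  Zm (D ∩ Sb (pt y ρ d.1) R) (d.1 ++ d.2)

/-- the free part of the outer box -/
noncomputable def Tf (y : V) (ρ t : ℤ) (β γ : List V) : Finset V :=
  (Rt (48 * t) (336 * t) (-(128 * t)) (128 * t)).map (lq y ρ β).symm.toEmbedding \ (β ++ γ).toFinset

lemma mem_Tf {v : V} : v ∈ Tf y ρ t β γ ↔ Wv y ρ t β v ∧ v ∉ β ∧ v ∉ γ := by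
  simp [Tf, mem_map_equiv, mem_Rt, Wv, Ws]

lemma Dec.inD (h : Dec D y top ρ t β μ γ) (ht : 0 ≤ t) {v : V} (hv : Wv y ρ t β v) : v ∈ D :=
  h.ins (mem_Sb.mpr (by have := hv.dn.1; omega))

lemma Sd.isQ (h : Sd D y top ρ t c β μ γ) (hc : IsC D y x c) (ht : 0 ≤ t) :
    IsQ (Tf y ρ t β γ) (μ.headD y) (lst μ) μ := by
  obtain ⟨⟨a, r, e, -⟩, -, a2⟩ := h.2.1.ends ht
  have a3 := hc.1.ch
  have a4 := hc.1.nd
  rw [h.1] at a3 a4
  simp only [List.nodup_append, List.mem_append] at a4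
  exact ⟨by simp [e], a3.left_of_append.right_of_append, a4.1.2.1, fun v hv => mem_Tf.mpr
    ⟨a2 v hv, fun b => a4.1.2.2 v b v hv rfl, fun b => a4.2.2 v (Or.inr hv) v b rfl⟩, rfl⟩

lemma Sd.ne (h : Sd D y top ρ t c β μ γ) (hc : IsC D y x c) (ht : 0 ≤ t) : γ ≠ [] := by
  rintro rfl
  have hq := h.isQ hc ht
  refine hc.1.out ?_
  rw [h.1, List.append_nil, lst_app _ hq.ne]
  exact h.2.1.inD ht (mem_Tf.mp (hq.sub _ (lst_mem hq.ne))).1

lemma glue_congr (h : IsQ D a a' μ) :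
    ∃ r s, μ = a :: r ∧ μ = s ++ [a'] := by
  obtain ⟨z, r, rfl⟩ := List.exists_cons_of_ne_nil h.ne
  obtain rfl : z = a := by simpa using h.hd
  rcases List.eq_nil_or_concat' (z :: r) with e | ⟨α, b, e⟩
  · simp at e
  · exact ⟨r, α, rfl, by rw [← h.en, e, lst_snoc]⟩

lemma Sd.splice (h : Sd D y top ρ t c β μ γ) (hc : IsC D y x c) (ht : 0 ≤ t)
    (h' : IsQ (Tf y ρ t β γ) (μ.headD y) (lst μ) ν) :
    IsC D y x (β ++ ν ++ γ, c.2) ∧ Sd D y top ρ t (β ++ ν ++ γ, c.2) β ν γ := by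
  have hq := h.isQ hc ht
  have hγ := h.ne hc ht
  obtain ⟨r, s, e1, e2⟩ := glue_congr hq
  obtain ⟨r', s', e3, e4⟩ := glue_congr h'
  obtain ⟨a1, a2, a3, a4⟩ := hc.1
  rw [h.1] at a1 a2 a3 a4
  have b0 := fun v hv => mem_Tf.mp (h'.sub v hv)
  refine ⟨⟨⟨?_, ?_, ?_, fun v hv => ?_⟩, hc.2.hd, hc.2.ch, hc.2.nd, fun v hv => ?_⟩, rfl,
    ⟨h.2.1.rch, h.2.1.low, h.2.1.bef, ⟨?_, ?_, ?_⟩, h.2.1.aft, h.2.1.ins⟩, h.2.2⟩
  · rw [e1] at a1
    rw [e3]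
    simpa [List.head?_append] using a1
  · have b1 : (β ++ [μ.headD y]).IsChain Adj := by
      rw [e1, List.append_assoc, List.cons_append] at a2
      exact (List.isChain_split.mp a2).1
    have b2 : (lst μ :: γ).IsChain Adj := by
      rw [e2, ← List.append_assoc, List.append_assoc, List.singleton_append] at a2
      exact (List.isChain_split.mp a2).2
    have b3 := chain_glue b1 (e3 ▸ h'.ch)
    rw [← e3, e4, ← List.append_assoc] at b3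
    have := chain_glue b3 b2
    rwa [e4, ← List.append_assoc, List.append_assoc _ [_]]
  · simp only [List.nodup_append, List.mem_append] at a3 ⊢
    refine ⟨⟨a3.1.1, h'.nd, fun u a v b e => (b0 v b).2.1 (e ▸ a)⟩, a3.2.1, fun u a v b e => ?_⟩
    exact a.elim (fun a => a3.2.2 u (Or.inl a) v b e) fun a => (b0 u a).2.2 (e ▸ b)
  · rw [lst_app _ hγ] at a4 ⊢
    by_cases b : v ∈ ν
    · exact iff_of_true (h.2.1.inD ht (b0 v b).1) fun e => (b0 v b).2.2 (e ▸ lst_mem hγ)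
    · exact a4 v (by simp only [List.mem_append] at hv ⊢; tauto)
  · rw [← hc.2.mem v hv, h.1]
    have b1 : v ∉ ν := fun b => h.2.2 v hv (b0 v b).1
    have b2 : v ∉ μ := fun b => h.2.2 v hv (mem_Tf.mp (hq.sub v b)).1
    simp [b1, b2]
  · have := h.2.1.mid.1
    rwa [List.head?_map, hq.hd, ← h'.hd, ← List.head?_map] at this
  · have := h.2.1.mid.2.1
    rwa [lst_map _ hq.ne, ← h'.en, ← lst_map (lq y ρ β) h'.ne] at this
  · intro v hv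
    obtain ⟨w, a, rfl⟩ := List.mem_map.mp hv
    exact (b0 w a).1

lemma Sd.fb_eq (h : Sd D y top ρ t c β μ γ) (hc : IsC D y x c) (ht : 0 ≤ t) :
    fb D y x top ρ t c = (PP (Tf y ρ t β γ) (μ.headD y) (lst μ)).image
      fun ν => (β ++ ν ++ γ, c.2) := by
  ext d
  simp only [fb, mem_filter, mem_image, mem_PP, mem_CC]
  constructor
  · rintro ⟨hd, rfl | ⟨β', ν, ν', γ', a1, a2, a3, a4, a5⟩⟩
    · exact ⟨μ, h.isQ hc ht, Prod.ext h.1.symm rfl⟩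
    · obtain ⟨rfl, rfl, rfl⟩ := h.uniq a1 ht
      have := a2.isQ hd ht
      rw [a5, List.headD_eq_head?_getD, a4, ← List.headD_eq_head?_getD] at this
      exact ⟨ν', this, Prod.ext a2.1.symm a3.symm⟩
  · rintro ⟨ν, hν, rfl⟩
    exact ⟨(h.splice hc ht hν).1, Or.inr ⟨β, μ, ν, γ, h, (h.splice hc ht hν).2, rfl,
      hν.hd.trans (h.isQ hc ht).hd.symm, hν.en⟩⟩

lemma fb_not (h : ¬ AcC D y top ρ t c) (hc : c ∈ CC D y x) : fb D y x top ρ t c = {c} := by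
  ext d
  simp only [fb, mem_filter, mem_singleton]
  exact ⟨fun a => a.2.elim id fun ⟨β, μ, _, γ, b, _⟩ => absurd (acC_iff.mpr ⟨β, μ, γ, b⟩) h,
    fun a => ⟨a ▸ hc, Or.inl a⟩⟩

/-- the local domain -/
noncomputable def Om (D : Finset V) (p : V) (R : ℤ) (l : List V) : Finset V :=
  (D \ l.toFinset) ∩ Sb p R

lemma vl_eq (h : Rch y ρ β) (α : List V) : vl D y ρ R (β ++ ν ++ γ, α) =
    Zm (Om D (pt y ρ β) R (β ++ γ ++ α)) ν := by
  rw [vl, List.append_assoc β, (h.app _).2.2]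
  refine Zm_congr fun v => ?_
  simp only [Om, mem_inter, mem_sdiff, List.mem_toFinset, List.mem_append]
  tauto

lemma lc_l1 (y p v : V) : (v.1 - p.1).natAbs + (v.2 - p.2).natAbs =
    (lc y p v).1.natAbs + (lc y p v).2.natAbs := by
  rcases lc_cases y p with ⟨-, h⟩ | ⟨-, h⟩ | ⟨-, h⟩ | ⟨-, h⟩ <;> rw [h] <;> dsimp only <;> omega

lemma fib {K j t R I : ℕ} (hP : Par K j t R I) (hn : ∀ u ∈ D, ∀ v ∈ D, dn u v < n) (hL : Lg L n)
    (hR : R ≤ ρ) (hR' : R ≤ n) :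
    Fib (CC D y x) (wt D) (Real.exp (L ^ 2 / 4 ^ j)) (fb D y x top ρ t) (vl D y ρ R) := by
  have ht : (0 : ℤ) ≤ t := by omega
  have r1 := hP.le
  have r2 := hP.ht
  refine ⟨fun c hc => mem_fb.mpr ⟨hc, Or.inl rfl⟩, fun c _ d hd => (mem_fb.mp hd).1,
    fun c _ d hd => ext fun e => ?_, fun c _ => Zm_pos _ _, fun c hc => ?_⟩
  · rw [mem_fb, mem_fb]
    exact and_congr_right fun _ => ⟨fun a => (mem_fb.mp hd).2.trans a ht,
      fun a => (mem_fb.mp hd).2.symm.trans a ht⟩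
  by_cases h : AcC D y top ρ t c
  swap
  · refine ⟨wt D c / vl D y ρ R c, (div_pos (wt_pos _ _) (Zm_pos _ _)).le, fun d hd => ?_⟩
    rw [fb_not h hc, mem_singleton] at hd
    rw [hd, div_mul_cancel₀ _ (show vl D y ρ R c ≠ 0 from (Zm_pos _ _).ne')]
    exact ⟨le_rfl, le_mul_of_one_le_left (wt_pos _ _).le (Real.one_le_exp (by positivity))⟩
  obtain ⟨β, μ, γ, h⟩ := acC_iff.mp h
  rw [mem_CC] at hc
  refine ⟨Z (D \ (β ++ γ ++ c.2).toFinset) / Z (Om D (pt y ρ β) R (β ++ γ ++ c.2)),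
    (div_pos (Z_pos _) (Z_pos _)).le, fun d hd => ?_⟩
  rw [h.fb_eq hc ht] at hd
  obtain ⟨ν, hν, rfl⟩ := mem_image.mp hd
  have b0 := fun v hv => (mem_Tf.mp ((mem_PP.mp hν).sub v hv)).1
  rw [vl_eq h.2.1.rch, show wt D (β ++ ν ++ γ, c.2) = Zm (D \ (β ++ γ ++ c.2).toFinset) ν from
    Zm_congr fun v => by simp only [mem_sdiff, List.mem_toFinset, List.mem_append]; tauto,
    div_mul_eq_mul_div, mul_div_assoc, mul_left_comm, ← le_div_iff₀' (Z_pos _),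
    ← div_le_iff₀' (Z_pos _)]
  refine ⟨Zm_mono ν inter_subset_left fun v a b => mem_inter.mpr ⟨b, mem_Sb.mpr (by
    have := (b0 v a).dn.1; omega)⟩, ring (w := 500 * t) hP.beu hL (by omega) hP.hK
      (by exact_mod_cast (by rw [← mul_assoc 2]; exact hP.hR)) hR'
      (fun u a v b => hn u (mem_sdiff.mp a).1 v (mem_sdiff.mp b).1) (fun k a b => ?_) fun v hv => ?_⟩
  · have b1 := hc.1.ch
    have b2 := hc.1.hd
    obtain ⟨q, b3, -⟩ := h.2.1.rch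
    rw [h.1, List.append_assoc] at b1 b2
    rw [List.head?_append_of_ne_nil _ (List.ne_nil_of_mem b3)] at b2
    obtain ⟨w, b4, b5⟩ := ivt (k := k) b1.left_of_append (pt y ρ β) h.2.1.rch.pt.1
      (List.mem_of_head? b2) (by rw [dn_self]; omega) (by rw [dn_comm, h.2.1.rch.pt.2]; omega)
    exact ⟨w, by simp [b4], b5⟩
  · have := b0 v hv
    rw [lc_l1 y]
    unfold Wv Ws lq at this
    omega

end Pool.Agent.P.MP_5fda20_pr.W
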