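import Pool.Agent.P.MP_5fda20_pr.W.Fwd

/-! Local coordinates, levels and first passage points. -/

namespace Pool.Agent.P.MP_5fda20_pr.W

open Finset U

variable {D A : Finset V} {a p q y z : V} {e : V ≃ V} {ρ n : ℤ} {π β γ : List V}

lemma G1_aut (he : Aut e) (D : Finset V) (x y : V) :
    G1 (D.map e.toEmbedding) (e x) (e y) = G1 D x y := G_aut he _ D x y

lemma Z_aut (he : Aut e) (D : Finset V) : Z (D.map e.toEmbedding) = Z D := by
  induction D using Finset.induction_on with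
  | empty => rfl
  | insert a D ha ih =>
    have h1 := Z_erase (mem_insert_self a D)
    have h2 := Z_erase (mem_map_of_mem e.toEmbedding (mem_insert_self a D))
    rw [← map_erase, erase_insert ha, ih, ← erase_insert ha, h1] at h2
    simp only [erase_insert ha] at h2
    exact (mul_left_cancel₀ (G_pos wt_one (mem_insert_self a D)).ne'
      (h2.trans (congrArg (· * _) (G1_aut he _ a a)))).symm

lemma N_aut (he : Aut e) (D : Finset V) : ∀ (A : Finset V) (a : V) (F : List V → ℝ),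
    N (D.map e.toEmbedding) (A.map e.toEmbedding) (e a) F = N D A a fun π => F (π.map e) := by
  induction D using ind_erase with
  | h D ih =>
    intro A a F
    by_cases ha : a ∈ D
    · rw [N_in ha, N_in (a := e a) (mem_map_of_mem e.toEmbedding ha), he.sum]
      refine sum_congr rfl fun z _ => ?_
      have := ih a ha (insert a A) z fun ω => F (e a :: ω)
      rwa [map_erase, map_insert] at this
    · rw [N_out ha, N_out (by simpa using ha), Z_aut he]
      simp

lemma He_aut (he : Aut e) (D A : Finset V) (v : V) :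
    He (D.map e.toEmbedding) (A.map e.toEmbedding) (e v) = He D A v := by
  have := N_aut he (D \ A) A v fun _ => 1
  rw [N_one, N_one, Z_aut he, Finset.map_sdiff] at this
  exact mul_left_cancel₀ (Z_pos _).ne' this

/-- local coordinates at `p`, looking away from `y` -/
def lc (y p : V) : V ≃ V where
  toFun z := if p.1 - y.1 = dn p y then (z.1 - p.1, z.2 - p.2) else
    if y.1 - p.1 = dn p y then (p.1 - z.1, z.2 - p.2) else
    if p.2 - y.2 = dn p y then (z.2 - p.2, z.1 - p.1) else (p.2 - z.2, z.1 - p.1)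
  invFun z := if p.1 - y.1 = dn p y then (z.1 + p.1, z.2 + p.2) else
    if y.1 - p.1 = dn p y then (p.1 - z.1, z.2 + p.2) else
    if p.2 - y.2 = dn p y then (z.2 + p.1, z.1 + p.2) else (z.2 + p.1, p.2 - z.1)
  left_inv z := by dsimp only; split_ifs <;> simp
  right_inv z := by dsimp only; split_ifs <;> simp

lemma lc_cases (y p : V) : (p.1 - y.1 = dn p y ∧ ∀ z, lc y p z = (z.1 - p.1, z.2 - p.2)) ∨
    (y.1 - p.1 = dn p y ∧ ∀ z, lc y p z = (p.1 - z.1, z.2 - p.2)) ∨
    (p.2 - y.2 = dn p y ∧ ∀ z, lc y p z = (z.2 - p.2, z.1 - p.1)) ∨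
    (y.2 - p.2 = dn p y ∧ ∀ z, lc y p z = (p.2 - z.2, z.1 - p.1)) := by
  simp only [lc, Equiv.coe_fn_mk]
  split_ifs with h1 h2 h3
  exacts [Or.inl ⟨h1, fun _ => rfl⟩, Or.inr (Or.inl ⟨h2, fun _ => rfl⟩),
    Or.inr (Or.inr (Or.inl ⟨h3, fun _ => rfl⟩)),
    Or.inr (Or.inr (Or.inr ⟨by unfold dn at *; omega, fun _ => rfl⟩))]

lemma lc_aut (y p : V) : Aut (lc y p) := aut_of _ fun x z => by
  rcases lc_cases y p with h | h | h | h <;> simp only [h.2, mem_nb] <;> omega

lemma lc_dn (y p a b : V) : dn (lc y p a) (lc y p b) = dn a b := by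
  rcases lc_cases y p with h | h | h | h <;> simp only [h.2, dn] <;> omega

lemma lc_p (y p : V) : lc y p p = (0, 0) := by
  rcases lc_cases y p with h | h | h | h <;> simp [h.2]

lemma lc_dn0 (y p a : V) : dn (lc y p a) (0, 0) = dn a p := by rw [← lc_p y p, lc_dn]

lemma lc_X (y p z : V) : dn p y + (lc y p z).1 ≤ dn z y := by
  rcases lc_cases y p with h | h | h | h <;> rw [h.2, ← h.1] <;> unfold dn <;> omega

lemma dn_tri (a b c : V) : dn a c ≤ dn a b + dn b c := by unfold dn; omega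
lemma dn_comm (a b : V) : dn a b = dn b a := by unfold dn; omega
lemma dn_self (a : V) : dn a a = 0 := by unfold dn; omega

lemma ivt {l : List V} (h : l.IsChain Adj) (c : V) {k : ℤ} {u v : V} (hu : u ∈ l) (hv : v ∈ l)
    (h1 : dn u c ≤ k) (h2 : k ≤ dn v c) : ∃ w ∈ l, dn w c = k := by
  induction l generalizing u v with
  | nil => simp at hu
  | cons x l ih =>
    by_cases hx : dn x c = k
    · exact ⟨x, by simp, hx⟩
    rcases l with _ | ⟨z, l⟩
    · rw [List.mem_singleton] at hu hv; subst hu hv; omega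
    obtain ⟨h4, h5⟩ := List.isChain_cons_cons.mp h
    have := dn_nb h4 c
    have k1 : ∃ u ∈ z :: l, dn u c ≤ k := by
      rcases List.mem_cons.mp hu with rfl | hu
      · exact ⟨z, by simp, by omega⟩
      · exact ⟨u, hu, h1⟩
    have k2 : ∃ u ∈ z :: l, k ≤ dn u c := by
      rcases List.mem_cons.mp hv with rfl | hv
      · exact ⟨z, by simp, by omega⟩
      · exact ⟨v, hv, h2⟩
    obtain ⟨u, a, b⟩ := k1
    obtain ⟨v, a', b'⟩ := k2
    obtain ⟨w, a, b⟩ := ih h5 a a' b b'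
    exact ⟨w, List.mem_cons_of_mem _ a, b⟩

lemma Pst.lt (h : Pst D y β q) (hρ : 0 ≤ ρ) (h1 : ∀ v ∈ β, dn v y ≠ ρ) {v : V} (hv : v ∈ β) :
    dn v y < ρ := by
  by_contra hc
  have hy : y ∈ β := by
    obtain ⟨x, β, rfl⟩ := List.exists_cons_of_ne_nil (List.ne_nil_of_mem hv)
    rw [show x = y by simpa using h.hd]; simp
  obtain ⟨w, a, b⟩ := ivt (List.isChain_append.mp h.ch).1 y hy hv (by rw [dn_self]; exact hρ)
    (not_lt.mp hc)
  exact h1 w a b

lemma Pst.geo (h : Pst D y β q) (hD : ∃ a b c d, D = Rt a b c d)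
    (hn : ∀ u ∈ D, ∀ v ∈ D, dn u v < n) (hρ : 0 < ρ) (h1 : ∀ v ∈ β, dn v y ≠ ρ) (hq : dn q y = ρ) :
    Geo (D.map (lc y q).toEmbedding) (β.toFinset.map (lc y q).toEmbedding) n ρ (lc y q y).2 := by
  have hβ : β ≠ [] := by
    rintro rfl
    rw [show q = y by simpa using h.hd, dn_self] at hq; omega
  have hy : y ∈ β := by
    obtain ⟨x, β, rfl⟩ := List.exists_cons_of_ne_nil hβ
    rw [show x = y by simpa using h.hd]; simp
  have e : (-ρ, (lc y q y).2) = lc y q y := by
    have := lc_X y q y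
    have := lc_dn0 y q y
    unfold dn at *
    exact Prod.ext (by omega) rfl
  refine ⟨?_, by rw [e]; exact mem_map_of_mem _ (h.sub y hy), ?_, fun v hv => ?_, ?_, fun u hu v hv => ?_⟩
  · obtain ⟨a, b, c, d, rfl⟩ := hD
    have key : ∀ a' b' c' d', (∀ z, z ∈ Rt a b c d ↔ lc y q z ∈ Rt a' b' c' d') →
        (Rt a b c d).map (lc y q).toEmbedding = Rt a' b' c' d' := fun a' b' c' d' h => by
      ext v; rw [mem_map_equiv, h, Equiv.apply_symm_apply]
    rcases lc_cases y q with h | h | h | h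
    · exact ⟨_, _, _, _, key (a - q.1) (b - q.1) (c - q.2) (d - q.2) fun z => by
        simp only [h.2, mem_Rt]; omega⟩
    · exact ⟨_, _, _, _, key (q.1 - b) (q.1 - a) (c - q.2) (d - q.2) fun z => by
        simp only [h.2, mem_Rt]; omega⟩
    · exact ⟨_, _, _, _, key (c - q.2) (d - q.2) (a - q.1) (b - q.1) fun z => by
        simp only [h.2, mem_Rt]; omega⟩
    · exact ⟨_, _, _, _, key (q.2 - d) (q.2 - c) (a - q.1) (b - q.1) fun z => by
        simp only [h.2, mem_Rt]; omega⟩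
  · have := lc_dn0 y q y
    unfold dn at *; omega
  · rw [mem_map] at hv
    obtain ⟨v, hv, rfl⟩ := hv
    rw [List.mem_toFinset] at hv
    exact ⟨mem_map_of_mem _ (h.sub v hv), by rw [e]; exact (lc_dn y q v y).trans_lt (h.lt hρ.le h1 hv)⟩
  · refine mem_map.mpr ⟨lst β, List.mem_toFinset.mpr (lst_mem hβ), ?_⟩
    have a1 := lc_X y q (lst β)
    have a2 := h.lt hρ.le h1 (lst_mem hβ)
    have a3 : lc y q q ∈ nb (lc y q (lst β)) := by
      rw [lc_aut y q]; exact mem_map_of_mem _ (adj_lst h.ch hβ)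
    rw [lc_p, mem_nb] at a3
    exact Prod.ext (by change (lc y q (lst β)).1 = _; omega) (by change (lc y q (lst β)).2 = _; omega)
  · rw [mem_map] at hu hv
    obtain ⟨u, hu, rfl⟩ := hu
    obtain ⟨v, hv, rfl⟩ := hv
    exact (lc_dn y q u v).trans_lt (hn u hu v hv)

/-- the part before the level -/
def pre (y : V) (ρ : ℤ) (π : List V) : List V := π.takeWhile (dn · y ≠ ρ)

/-- the part from the level on -/
def suf (y : V) (ρ : ℤ) (π : List V) : List V := π.dropWhile (dn · y ≠ ρ)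

/-- the first passage point -/
def pt (y : V) (ρ : ℤ) (π : List V) : V := (suf y ρ π).headD y

/-- the level is reached -/
def Rch (y : V) (ρ : ℤ) (π : List V) : Prop := ∃ v ∈ π, dn v y = ρ

lemma pre_suf (y : V) (ρ : ℤ) (π : List V) : pre y ρ π ++ suf y ρ π = π :=
  List.takeWhile_append_dropWhile

lemma pre_ne {v : V} (h : v ∈ pre y ρ π) : dn v y ≠ ρ := by
  simpa using List.mem_takeWhile_imp h

lemma lev_app (h : ∀ v ∈ β, dn v y ≠ ρ) (γ : List V) : pre y ρ (β ++ γ) = β ++ pre y ρ γ ∧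
    suf y ρ (β ++ γ) = suf y ρ γ ∧ pt y ρ (β ++ γ) = pt y ρ γ := by
  have : ∀ v ∈ β, decide (dn v y ≠ ρ) = true := fun v hv => decide_eq_true (h v hv)
  simp only [pre, pt, suf, List.takeWhile_append_of_pos this, List.dropWhile_append_of_pos this,
    and_self]

lemma lev_cons (h : dn q y = ρ) (γ : List V) : pre y ρ (q :: γ) = [] ∧
    suf y ρ (q :: γ) = q :: γ ∧ pt y ρ (q :: γ) = q := by
  simp [pre, pt, suf, h]

lemma Rch.dec (h : Rch y ρ π) : ∃ β q γ, π = β ++ q :: γ ∧ (∀ v ∈ β, dn v y ≠ ρ) ∧ dn q y = ρ :=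
  first_hit (fun v => dn v y = ρ) h

lemma lev_eq (h : ∀ v ∈ β, dn v y ≠ ρ) (h' : dn q y = ρ) (γ : List V) :
    pre y ρ (β ++ q :: γ) = β ∧ suf y ρ (β ++ q :: γ) = q :: γ ∧ pt y ρ (β ++ q :: γ) = q := by
  simp only [lev_app h, lev_cons h', List.append_nil, and_self]

lemma Rch.app (h : Rch y ρ β) (γ : List V) : pre y ρ (β ++ γ) = pre y ρ β ∧
    suf y ρ (β ++ γ) = suf y ρ β ++ γ ∧ pt y ρ (β ++ γ) = pt y ρ β := by
  obtain ⟨β, q, r, rfl, h1, h2⟩ := h.dec
  simp only [List.append_assoc, List.cons_append, lev_eq h1 h2, and_self]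

lemma Rch.pt (h : Rch y ρ π) : pt y ρ π ∈ π ∧ dn (pt y ρ π) y = ρ := by
  obtain ⟨β, q, r, rfl, h1, h2⟩ := h.dec
  simp [lev_eq h1 h2, h2]

end Pool.Agent.P.MP_5fda20_pr.W
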