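import Pool.Agent.P.MP_5fda20_pr.U.Asm

/-! Self-avoiding paths as lists and their weighted sums. -/

namespace Pool.Agent.P.MP_5fda20_pr.W

open Finset U

/-- adjacency -/
abbrev Adj (x z : V) : Prop := z ∈ nb x

/-- last vertex -/
def lst (π : List V) : V := π.getLastD (0, 0)

@[simp] lemma lst_single (a : V) : lst [a] = a := rfl

lemma lst_app (α : List V) {γ : List V} (h : γ ≠ []) : lst (α ++ γ) = lst γ := by
  obtain ⟨a, γ, rfl⟩ := List.exists_cons_of_ne_nil h
  simp only [lst, List.getLastD_eq_getLast?, List.getLast?_append, List.getLast?_cons,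
    Option.some_or, Option.getD_some]

lemma lst_cons (a : V) {γ : List V} (h : γ ≠ []) : lst (a :: γ) = lst γ := lst_app [a] h

@[simp] lemma lst_snoc (α : List V) (a : V) : lst (α ++ [a]) = a := lst_app α (by simp)

lemma getLast_eq {π : List V} (h : π ≠ []) : π.getLast? = some (lst π) := by
  rcases List.eq_nil_or_concat' π with rfl | ⟨α, a, rfl⟩
  · exact absurd rfl h
  · simp

lemma lst_mem {π : List V} (h : π ≠ []) : lst π ∈ π := List.mem_of_getLast? (getLast_eq h)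

/-- a self-avoiding path from `a` stopped at its exit from `D` -/
structure IsP (D : Finset V) (a : V) (π : List V) : Prop where
  hd : π.head? = some a
  ch : π.IsChain Adj
  nd : π.Nodup
  mem : ∀ v ∈ π, v ∈ D ↔ v ≠ lst π

variable {D D' A T : Finset V} {a b : V} {π : List V}

lemma IsP.ne (h : IsP D a π) : π ≠ [] := fun e => by simpa [e] using h.hd

lemma IsP.out (h : IsP D a π) : lst π ∉ D := fun h' => (h.mem _ (lst_mem h.ne)).mp h' rfl

lemma IsP.eq_cons (h : IsP D a π) : ∃ ω, π = a :: ω := by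
  obtain ⟨x, ω, rfl⟩ := List.exists_cons_of_ne_nil h.ne
  exact ⟨ω, by simpa using h.hd⟩

lemma IsP.mem_hd (h : IsP D a π) : a ∈ π := List.mem_of_head? h.hd

lemma isP_out (h : a ∉ D) : IsP D a π ↔ π = [a] := by
  constructor
  · intro hp
    obtain ⟨ω, rfl⟩ := hp.eq_cons
    by_contra hne
    have h1 : ω ≠ [] := fun e => hne (by rw [e])
    have h2 := hp.mem a (by simp)
    rw [lst_cons a h1] at h2
    exact (List.nodup_cons.mp hp.nd).1 ((not_not.mp (mt h2.mpr h)) ▸ lst_mem h1)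
  · rintro rfl
    exact ⟨rfl, by simp, by simp, by simpa using h⟩

lemma isP_in (h : a ∈ D) :
    IsP D a π ↔ ∃ z ∈ nb a, ∃ ω, IsP (D.erase a) z ω ∧ lst ω ≠ a ∧ π = a :: ω := by
  constructor
  · intro hp
    obtain ⟨ω, rfl⟩ := hp.eq_cons
    have h1 : ω ≠ [] := by
      rintro rfl
      exact hp.out h
    obtain ⟨z, ω', rfl⟩ := List.exists_cons_of_ne_nil h1
    have hn := List.nodup_cons.mp hp.nd
    refine ⟨z, (List.isChain_cons_cons.mp hp.ch).1, _, ⟨rfl, (List.isChain_cons_cons.mp hp.ch).2,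
      hn.2, fun v hv => ?_⟩, fun e => hn.1 (e ▸ lst_mem h1), rfl⟩
    rw [mem_erase, hp.mem v (List.mem_cons_of_mem _ hv), lst_cons a h1]
    exact and_iff_right fun e => hn.1 (e ▸ hv)
  · rintro ⟨z, hz, ω, hp, hl, rfl⟩
    have ha : a ∉ ω := fun h' => by simpa [hl.symm] using hp.mem a h'
    obtain ⟨ω', rfl⟩ := hp.eq_cons
    refine ⟨rfl, List.isChain_cons_cons.mpr ⟨hz, hp.ch⟩, List.nodup_cons.mpr ⟨ha, hp.nd⟩,
      fun v hv => ?_⟩
    rw [lst_cons a hp.ne]
    rcases List.mem_cons.mp hv with rfl | hv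
    · simp [h, hl.symm]
    · rw [← hp.mem v hv, mem_erase]
      exact (and_iff_right fun e : v = a => ha (e ▸ hv)).symm

/-- the finite set of stopped paths -/
noncomputable def Pa (D : Finset V) (a : V) : Finset (List V) :=
  if _h : a ∈ D then (nb a).biUnion fun z =>
    ((Pa (D.erase a) z).filter fun ω => lst ω ≠ a).image (a :: ·)
  else {[a]}
termination_by D.card
decreasing_by exact card_erase_lt_of_mem _h

lemma mem_P : π ∈ Pa D a ↔ IsP D a π := by
  induction D using ind_erase generalizing a π with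
  | h D ih =>
    by_cases h : a ∈ D
    · rw [Pa, dif_pos h, isP_in h]
      simp only [mem_biUnion, mem_image, mem_filter, ih a h]
      exact ⟨fun ⟨z, hz, ω, h1, h2⟩ => ⟨z, hz, ω, h1.1, h1.2, h2.symm⟩,
        fun ⟨z, hz, ω, h1, h2, h3⟩ => ⟨z, hz, ω, ⟨h1, h2⟩, h3.symm⟩⟩
    · rw [Pa, dif_neg h, isP_out h, mem_singleton]

/-- forests left after removing a path -/
noncomputable def Zm (D : Finset V) (π : List V) : ℝ := Z (D \ π.toFinset)

lemma Zm_pos (D : Finset V) (π : List V) : 0 < Zm D π := Z_pos _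

lemma Zm_app (D : Finset V) (α π : List V) : Zm D (α ++ π) = Zm (D \ α.toFinset) π := by
  simp only [Zm, List.toFinset_append, sdiff_sdiff_left, sup_eq_union]

lemma Zm_cons (D : Finset V) (a : V) (π : List V) : Zm D (a :: π) = Zm (D.erase a) π := by
  rw [← sdiff_singleton_eq_erase]; exact Zm_app D [a] π

lemma Zm_congr {π' : List V} (h : ∀ v, v ∈ D ∧ v ∉ π ↔ v ∈ D' ∧ v ∉ π') : Zm D π = Zm D' π' := by
  unfold Zm
  congr 1
  ext v
  simp [h v]

/-- weighted sum over the paths that do not end in `A` -/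
noncomputable def N (D A : Finset V) (a : V) (F : List V → ℝ) : ℝ :=
  ∑ π ∈ Pa D a, if lst π ∈ A then 0 else Zm D π * F π

variable {F F' : List V → ℝ}

lemma N_out (h : a ∉ D) : N D A a F = if a ∈ A then 0 else Z D * F [a] := by
  rw [N, Pa, dif_neg h, sum_singleton, Zm_cons, erase_eq_of_notMem h]
  simp [Zm]

lemma N_in (h : a ∈ D) :
    N D A a F = ∑ z ∈ nb a, N (D.erase a) (insert a A) z fun ω => F (a :: ω) := by
  rw [N, Pa, dif_pos h, sum_biUnion]
  · refine sum_congr rfl fun z _ => ?_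
    rw [sum_image fun _ _ _ _ e => List.cons_injective e, sum_filter, N]
    refine sum_congr rfl fun ω hω => ?_
    rw [lst_cons a (mem_P.mp hω).ne, Zm_cons]
    by_cases h1 : lst ω = a <;> simp [h1]
  · intro z _ z' _ hne
    refine disjoint_left.mpr fun π h1 h2 => hne ?_
    obtain ⟨ω, h3, rfl⟩ := mem_image.mp h1
    obtain ⟨ω', h4, e⟩ := mem_image.mp h2
    rw [List.cons_injective e] at h4
    exact Option.some_injective _
      ((mem_P.mp (mem_filter.mp h3).1).hd.symm.trans (mem_P.mp (mem_filter.mp h4).1).hd)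

lemma N_mono (h : ∀ π, IsP D a π → lst π ∉ A → F π ≤ F' π) : N D A a F ≤ N D A a F' :=
  sum_le_sum fun π hπ => by
    split_ifs with h'
    exacts [le_rfl, mul_le_mul_of_nonneg_left (h π (mem_P.mp hπ) h') (Zm_pos _ _).le]

lemma N_congr (h : ∀ π, IsP D a π → lst π ∉ A → F π = F' π) : N D A a F = N D A a F' :=
  le_antisymm (N_mono fun π h1 h2 => (h π h1 h2).le) (N_mono fun π h1 h2 => (h π h1 h2).ge)

lemma N_sum {ι : Type*} (s : Finset ι) (F : ι → List V → ℝ) :
    N D A a (fun π => ∑ i ∈ s, F i π) = ∑ i ∈ s, N D A a (F i) := by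
  unfold N
  rw [sum_comm]
  refine sum_congr rfl fun π _ => ?_
  split_ifs
  · simp
  · rw [mul_sum]

lemma N_smul (c : ℝ) : N D A a (fun π => c * F π) = c * N D A a F := by
  unfold N
  rw [mul_sum]
  refine sum_congr rfl fun π _ => ?_
  split_ifs <;> ring

lemma N_add : N D A a (fun π => F π + F' π) = N D A a F + N D A a F' := by
  unfold N
  rw [← sum_add_distrib]
  refine sum_congr rfl fun π _ => ?_
  split_ifs <;> ring

lemma N_sub : N D A a (fun π => F π - F' π) = N D A a F - N D A a F' := by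
  unfold N
  rw [← sum_sub_distrib]
  refine sum_congr rfl fun π _ => ?_
  split_ifs <;> ring

lemma N_zero : N D A a (fun _ => 0) = 0 := by simp [N]

lemma N_nonneg (h : ∀ π, 0 ≤ F π) : 0 ≤ N D A a F :=
  N_zero.ge.trans (N_mono fun π _ _ => h π)

lemma N_A : N D A a F = N D ∅ a fun π => if lst π ∈ A then 0 else F π :=
  sum_congr rfl fun π _ => by split_ifs <;> simp_all

/-- harmonic on `D` -/
def Har (D : Finset V) (h : V → ℝ) : Prop := ∀ v ∈ D, 4 * h v = ∑ z ∈ nb v, h z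

lemma har_le {g h : V → ℝ} (hg : ∀ v ∈ D, 4 * g v ≤ ∑ z ∈ nb v, g z)
    (hh : ∀ v ∈ D, ∑ z ∈ nb v, h z ≤ 4 * h v) (h0 : ∀ v, v ∉ D → g v ≤ h v) (v : V) :
    g v ≤ h v := by
  have := maxp wt_one D (fun v => g v - h v) (fun v hv => sub_nonpos.mpr (h0 v hv))
    (fun v hv => by
      simp only [one_mul, sum_sub_distrib]
      linarith [hg v hv, hh v hv]) v
  linarith

lemma har_le' {g h : V → ℝ} (hg : ∀ v ∈ D, 4 * g v ≤ ∑ z ∈ nb v, g z)
    (hh : ∀ v ∈ D, ∑ z ∈ nb v, h z ≤ 4 * h v) (h0 : ∀ x ∈ D, ∀ z ∈ nb x, z ∉ D → g z ≤ h z)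
    {v : V} (hv : v ∈ D) : g v ≤ h v := by
  have := maxp' D (fun v => g v - h v) (fun x hx z hz hz' => sub_nonpos.mpr (h0 x hx z hz hz'))
    (fun v hv => by
      simp only [sum_sub_distrib]
      linarith [hg v hv, hh v hv]) hv
  linarith

lemma ex_har (D : Finset V) (φ : V → ℝ) : ∃ h, Har D h ∧ ∀ v, v ∉ D → h v = φ v := by
  obtain ⟨u, hu⟩ := sol_ex sg_one D fun v => ∑ z ∈ nb v, if z ∈ D then 0 else φ z
  refine ⟨fun v => u v + if v ∈ D then 0 else φ v, fun v hv => ?_, fun v hv => ?_⟩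
  · have := hu.2 v hv
    simp only [one_mul, sum_add_distrib, if_pos hv] at this ⊢
    linarith
  · simp [hu.1 v hv, hv]

/-- harmonic extension -/
noncomputable def Hm (D : Finset V) (φ : V → ℝ) : V → ℝ := (ex_har D φ).choose

lemma Hm_har (D : Finset V) (φ : V → ℝ) : Har D (Hm D φ) := (ex_har D φ).choose_spec.1

lemma Hm_off {φ : V → ℝ} {v : V} (h : v ∉ D) : Hm D φ v = φ v := (ex_har D φ).choose_spec.2 v h

lemma Hm_le {φ g : V → ℝ} (hh : ∀ v ∈ D, ∑ z ∈ nb v, g z ≤ 4 * g v)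
    (h0 : ∀ v, v ∉ D → φ v ≤ g v) (v : V) : Hm D φ v ≤ g v :=
  har_le (fun v hv => (Hm_har D φ v hv).le) hh (fun v hv => (Hm_off hv).trans_le (h0 v hv)) v

lemma le_Hm {φ g : V → ℝ} (hh : ∀ v ∈ D, 4 * g v ≤ ∑ z ∈ nb v, g z)
    (h0 : ∀ v, v ∉ D → g v ≤ φ v) (v : V) : g v ≤ Hm D φ v :=
  har_le hh (fun v hv => (Hm_har D φ v hv).ge) (fun v hv => (h0 v hv).trans_eq (Hm_off hv).symm) v

lemma Hm_le_c {φ : V → ℝ} {c : ℝ} (h0 : ∀ v, φ v ≤ c) (v : V) : Hm D φ v ≤ c :=
  Hm_le (g := fun _ => c) (fun v _ => (sum_nb_const v c).le) (fun v _ => h0 v) v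

lemma c_le_Hm {φ : V → ℝ} {c : ℝ} (h0 : ∀ v, c ≤ φ v) (v : V) : c ≤ Hm D φ v :=
  le_Hm (g := fun _ => c) (fun v _ => (sum_nb_const v c).ge) (fun v _ => h0 v) v

lemma N_har (D : Finset V) : ∀ (A : Finset V) (φ h : V → ℝ), Har D h →
    (∀ v, v ∉ D → h v = if v ∈ A then 0 else φ v) → ∀ a,
    N D A a (fun π => φ (lst π)) = Z D * h a := by
  induction D using ind_erase with
  | h D ih =>
    intro A φ h h1 h2 a
    by_cases ha : a ∈ D
    · have hg := G_pos wt_one ha
      rw [N_in ha]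
      have key := ih a ha (insert a A) φ (fun x => h x - h a / G1 D a a * G1 D x a)
        (fun x hx => by
          obtain ⟨hxa, hxD⟩ := mem_erase.mp hx
          have e := G1_eq hxD a
          rw [dl_ne hxa, zero_add] at e
          rw [sum_sub_distrib, ← mul_sum, ← e, ← h1 x hxD]
          ring) (fun v hv => by
          by_cases hva : v = a
          · subst hva
            simp [div_mul_cancel₀ _ hg.ne']
          · have hv' : v ∉ D := fun h' => hv (mem_erase.mpr ⟨hva, h'⟩)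
            simp [G_off hv', h2 v hv', hva])
      rw [sum_congr rfl fun z _ => (N_congr fun ω hω _ => by rw [lst_cons a hω.ne]).trans (key z),
        ← mul_sum, sum_sub_distrib, ← mul_sum, ← h1 a ha, Z_erase ha]
      have e := G1_eq ha a
      rw [dl_self] at e
      rw [show ∑ z ∈ nb a, G1 D z a = 4 * G1 D a a - 1 by linarith]
      field_simp
      ring
    · rw [N_out ha, h2 a ha]
      split_ifs <;> simp

/-- indicator of the target -/
def tg (A : Finset V) (v : V) : ℝ := if v ∈ A then 0 else 1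

lemma tg_nonneg (v : V) : 0 ≤ tg A v := by unfold tg; split_ifs <;> norm_num
lemma tg_le (v : V) : tg A v ≤ 1 := by unfold tg; split_ifs <;> norm_num

lemma N_one (D A : Finset V) (a : V) : N D A a (fun _ => 1) = Z D * Hm D (tg A) a :=
  N_har D A (fun _ => 1) _ (Hm_har _ _) (fun _ hv => Hm_off hv) a

lemma N_le_Z (h : ∀ π, F π ≤ 1) : N D A a F ≤ Z D :=
  (N_mono fun π _ _ => h π).trans ((N_one D A a).trans_le
    (mul_le_of_le_one_right (Z_pos D).le (Hm_le_c tg_le a)))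

lemma Zm_mono (π : List V) : ∀ {T D : Finset V}, T ⊆ D → (∀ v ∈ π, v ∈ D → v ∈ T) →
    Zm T π / Z T ≤ Zm D π / Z D := by
  induction π with
  | nil => intro T D _ _; simp [Zm, (Z_pos _).ne']
  | cons a π ih =>
    intro T D h1 h2
    have := ih (erase_subset_erase a h1) fun v hv hv' => mem_erase.mpr
      ⟨(mem_erase.mp hv').1, h2 v (List.mem_cons_of_mem _ hv) (mem_of_mem_erase hv')⟩
    rw [Zm_cons, Zm_cons]
    by_cases ha : a ∈ D
    · have hT := h2 a (by simp) ha
      rw [Z_erase ha, Z_erase hT, div_le_div_iff₀ (mul_pos (G_pos wt_one hT) (Z_pos _))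
        (mul_pos (G_pos wt_one ha) (Z_pos _))] at this
      rw [div_le_div_iff₀ (Z_pos _) (Z_pos _)]
      have h3 : G1 T a a ≤ G1 D a a := G_mono wt_one wt_one h1 (fun _ _ _ _ => le_rfl) _ _
      refine le_of_mul_le_mul_left ?_ (G_pos wt_one ha)
      nlinarith [mul_le_mul_of_nonneg_right h3 (mul_pos (Zm_pos (D.erase a) π) (Z_pos T)).le]
    · rwa [erase_eq_of_notMem ha, erase_eq_of_notMem (fun h => ha (h1 h))] at this ⊢

lemma IsP.sup (h : IsP T a π) (h1 : T ⊆ D) (h2 : lst π ∉ D) : IsP D a π :=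
  ⟨h.hd, h.ch, h.nd, fun v hv => ⟨fun h' e => h2 (e ▸ h'), fun h' => h1 ((h.mem v hv).mpr h')⟩⟩

/-- comparison with a smaller domain -/
lemma N_dom {A' : Finset V} (h1 : T ⊆ D) (h0 : ∀ π, 0 ≤ F' π)
    (h : ∀ π, IsP T a π → lst π ∉ A' → F π ≤ 0 ∨ (lst π ∉ D ∧ lst π ∉ A ∧ F π ≤ F' π)) :
    N T A' a F / Z T ≤ N D A a F' / Z D := by
  classical
  unfold N
  rw [sum_div, sum_div, ← sum_filter_add_sum_filter_not (Pa T a) fun π => lst π ∉ D]
  have e : ∀ π, 0 ≤ (if lst π ∈ A then 0 else Zm D π * F' π) / Z D := fun π =>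
    div_nonneg (by split_ifs; exacts [le_rfl, mul_nonneg (Zm_pos _ _).le (h0 π)]) (Z_pos _).le
  have e2 : ∀ π, F π ≤ 0 → Zm T π * F π / Z T ≤ 0 := fun π h =>
    div_nonpos_of_nonpos_of_nonneg (mul_nonpos_of_nonneg_of_nonpos (Zm_pos _ _).le h) (Z_pos _).le
  refine (add_le_of_nonpos_right (sum_nonpos fun π hπ => ?_)).trans ((sum_le_sum fun π hπ =>
    ?_).trans (sum_le_sum_of_subset_of_nonneg (fun π hπ => ?_) fun π _ _ => e π))
  · obtain ⟨h2, h3⟩ := mem_filter.mp hπ
    split_ifs with h4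
    · simp
    · exact e2 π ((h π (mem_P.mp h2) h4).resolve_right fun h => h3 h.1)
  · obtain ⟨h2, h3⟩ := mem_filter.mp hπ
    have hp := mem_P.mp h2
    by_cases h4 : lst π ∈ A'
    · rw [if_pos h4, zero_div]; exact e π
    rw [if_neg h4]
    rcases h π hp h4 with h5 | ⟨-, h5, h6⟩
    · exact (e2 π h5).trans (e π)
    · rw [if_neg h5, mul_div_right_comm, mul_div_right_comm]
      exact (mul_le_mul_of_nonneg_left h6 (div_pos (Zm_pos _ _) (Z_pos _)).le).trans
        (mul_le_mul_of_nonneg_right (Zm_mono π h1 fun v hv hv' =>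
          (hp.mem v hv).mpr fun e => h3 (e ▸ hv')) (h0 π))
  · obtain ⟨h2, h3⟩ := mem_filter.mp hπ
    exact mem_P.mpr ((mem_P.mp h2).sup h1 h3)

end Pool.Agent.P.MP_5fda20_pr.W
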