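import Pool.Agent.P.MP_5fda20_pr.W.Bal

/-! Connection inside a box is more likely in a larger domain. -/

namespace Pool.Agent.P.MP_5fda20_pr.W

open Finset U

variable {B D S : Finset V} {m v x y : V} {f g : V → ℝ} {l r α : List V} {c : List V × List V}

/-- energy form -/
noncomputable def En (D : Finset V) (f g : V → ℝ) : ℝ := ∑ u ∈ D, f u * (4 * g u - ∑ z ∈ nb u, g z)

lemma En_symm (hf : ∀ x, x ∉ D → f x = 0) (hg : ∀ x, x ∉ D → g x = 0) : En D f g = En D g f := by
  simp only [En, mul_sub, sum_sub_distrib, sum_nb_swap D f g hf hg]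
  exact congrArg (· - _) (sum_congr rfl fun _ _ => by ring)

lemma En_nn (hf : ∀ x, x ∉ D → f x = 0) : 0 ≤ En D f f := by
  have a := sum_nb_swap D (fun u => if u ∈ D then 1 else 0) (fun u => f u ^ 2)
    (fun x hx => if_neg hx) fun x hx => by simp [hf x hx]
  have b : ∑ u ∈ D, f u ^ 2 * ∑ z ∈ nb u, (if z ∈ D then 1 else 0 : ℝ) ≤ ∑ u ∈ D, f u ^ 2 * 4 :=
    sum_le_sum fun u _ => mul_le_mul_of_nonneg_left ((sum_le_sum fun z _ => by
      split_ifs <;> norm_num).trans_eq ((sum_nb_const u 1).trans (mul_one 4))) (sq_nonneg _)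
  rw [← a, sum_congr rfl fun u hu => by rw [if_pos hu, one_mul], ← sub_nonneg,
    ← sum_sub_distrib] at b
  refine le_of_mul_le_mul_left (((mul_zero 2).trans_le b).trans ?_) two_pos
  rw [En, mul_sum]
  refine sum_le_sum fun u _ => ?_
  simp only [sum_nb]
  nlinarith [sq_nonneg (f u - f (u.1 + 1, u.2)), sq_nonneg (f u - f (u.1 - 1, u.2)),
    sq_nonneg (f u - f (u.1, u.2 + 1)), sq_nonneg (f u - f (u.1, u.2 - 1))]

lemma En_cs (hf : ∀ x, x ∉ D → f x = 0) (hg : ∀ x, x ∉ D → g x = 0) :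
    En D f g ^ 2 ≤ En D f f * En D g g := by
  have := discrim_le_zero (a := En D f f) (b := -2 * En D f g) (c := En D g g) fun t => by
    refine (En_nn (D := D) (f := fun u => g u - t * f u) fun u hu => by simp [hf u hu, hg u hu]).trans_eq ?_
    rw [show -2 * En D f g * t = -(t * En D f g) - t * En D g f by rw [En_symm hg hf]; ring]
    simp only [En, sum_nb, mul_sum, sum_mul, ← sum_neg_distrib, ← sum_add_distrib, ← sum_sub_distrib]
    exact sum_congr rfl fun _ _ => by ring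
  rw [discrim] at this
  linarith

lemma En_G (hv : v ∈ D) : En D f (fun u => G1 D u v) = f v := by
  rw [En, sum_congr rfl fun u hu => by rw [G1_eq hu, add_sub_cancel_right]]
  simp [dl, hv]

/-- capacity -/
noncomputable def Cap (D S : Finset V) : ℝ := ∑ m ∈ S, ∑ z ∈ nb m, He D S z

lemma ray1 (hS : S ⊆ D) (hv : v ∈ D \ S) :
    G1 (D \ S) v v * Cap (D.erase v) S ≤ G1 D v v * Cap D S := by
  obtain ⟨h1, h2⟩ := mem_sdiff.mp hv
  have hg := G_pos wt_one hv
  have a0 : ∀ u, u ∉ D → 1 - He D S u = 0 := fun u hu => by rw [He_out hu fun e => hu (hS e), sub_self]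
  have a1 : ∀ u, u ∉ D \ S → G1 (D \ S) u v = 0 := fun u hu => G_off hu v
  have a2 : ∀ u, u ∉ D → G1 (D \ S) u v = 0 := fun u hu => a1 u (by simp [hu])
  have a3 : ∀ u ∈ D \ S, 4 * (1 - He D S u) - ∑ z ∈ nb u, (1 - He D S z) = 0 := fun u hu => by
    have := Hm_har _ (tg S) u hu
    simp only [sum_nb, He] at this ⊢
    linarith
  have b0 : ∀ w : V → ℝ, (∀ u ∈ D \ S, 4 * w u - ∑ z ∈ nb u, w z = 0) →
      En D (fun u => G1 (D \ S) u v) w = 0 := fun w hw => sum_eq_zero fun u hu => by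
    by_cases e : u ∈ D \ S
    exacts [by rw [hw u e, mul_zero], mul_eq_zero_of_left (a1 u e) _]
  have b1 := (En_symm a0 a2).trans (b0 _ a3)
  have b2 : ∑ m ∈ S, ∑ z ∈ nb m, G1 (D \ S) z v = 1 - He D S v := by
    rw [En, ← sum_sdiff hS] at b1
    have := En_G (f := fun u => 1 - He D S u) hv
    rw [En] at this
    rw [this, sum_congr rfl fun u hu => by
      rw [He_A hu, a1 u (by simp [hu]), sub_zero, one_mul, mul_zero, zero_sub], sum_neg_distrib] at b1
    linarith
  have b3 : Cap (D.erase v) S = Cap D S + (1 - He D S v) / G1 (D \ S) v v * (1 - He D S v) := by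
    have k : ∀ z, He (D.erase v) S z =
        He D S z + (1 - He D S v) / G1 (D \ S) v v * G1 (D \ S) z v := fun z => by
      have k1 : ∀ u ∈ D.erase v \ S, 4 * (He D S u + (1 - He D S v) / G1 (D \ S) v v *
          G1 (D \ S) u v) = ∑ z ∈ nb u, (He D S z + (1 - He D S v) / G1 (D \ S) v v *
          G1 (D \ S) z v) := fun u hu => by
        simp only [mem_sdiff, mem_erase] at hu
        have hu' := mem_sdiff.mpr ⟨hu.1.2, hu.2⟩
        rw [sum_add_distrib, ← mul_sum, ← G1_har hu' hu.1.1, ← show 4 * He D S u = ∑ z ∈ nb u,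
          He D S z from Hm_har _ (tg S) u hu']
        ring
      have k2 : ∀ u, u ∉ D.erase v \ S → tg S u = He D S u + (1 - He D S v) / G1 (D \ S) v v *
          G1 (D \ S) u v := fun u hu => by
        by_cases e : u = v
        · rw [e, div_mul_cancel₀ _ hg.ne', tg, if_neg h2]; ring
        · have : u ∉ D \ S := by simpa [e] using hu
          rw [a1 u this, He, Hm_off this]; ring
      exact le_antisymm (Hm_le (fun u hu => (k1 u hu).ge) (fun u hu => (k2 u hu).le) z)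
        (le_Hm (fun u hu => (k1 u hu).le) (fun u hu => (k2 u hu).ge) z)
    simp only [Cap, k, sum_add_distrib, ← mul_sum, b2]
  have a4 : ∀ u, u ∉ D → G1 D u v - G1 (D \ S) u v = 0 := fun u hu => by
    rw [a2 u hu, G1, G_off hu, sub_self]
  have sub : ∀ f g g' : V → ℝ, En D f (fun u => g u - g' u) = En D f g - En D f g' := fun f g g' => by
    simp only [En, ← sum_sub_distrib]
    exact sum_congr rfl fun _ _ => by rw [sum_sub_distrib]; ring
  have b4 := En_cs a0 a4
  rw [show En D (fun u => 1 - He D S u) (fun u => 1 - He D S u) = Cap D S by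
      rw [En, ← sum_sdiff hS, sum_eq_zero fun u hu => by rw [a3 u hu, mul_zero], zero_add]
      exact sum_congr rfl fun u hu => by simp only [He_A hu, sum_nb]; ring,
    sub, sub, En_G h1, En_G h1, b1, En_symm a4 a2, b0 _ fun u hu => by
      rw [sum_sub_distrib, mul_sub, G1_eq hu, G1_eq (mem_sdiff.mp hu).1]; ring] at b4
  rw [b3, mul_add, ← mul_assoc, mul_div_cancel₀ _ hg.ne']
  linarith

lemma ray2 (hS : S ⊆ B) (D : Finset V) : B ⊆ D →
    Z (B \ S) * Cap B S / Z B ≤ Z (D \ S) * Cap D S / Z D := by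
  induction D using ind_erase with
  | h D ih =>
    intro h
    rcases eq_or_ssubset_of_subset h with rfl | h'
    · exact le_rfl
    obtain ⟨v, h1, h2⟩ := exists_of_ssubset h'
    have hv := mem_sdiff.mpr ⟨h1, fun e => h2 (hS e)⟩
    refine (ih v h1 (subset_erase.mpr ⟨h, h2⟩)).trans ?_
    rw [erase_sdiff_comm, Z_erase hv, Z_erase h1, div_le_div_iff₀
      (mul_pos (G_pos wt_one h1) (Z_pos _)) (Z_pos _)]
    have := mul_le_mul_of_nonneg_right (ray1 (hS.trans h) hv) (mul_pos (Z_pos (D \ S)) (Z_pos D)).le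
    linarith

/-- the two branches meet inside `B` -/
def Cn (B : Finset V) (c : List V × List V) : Prop :=
  lst c.2 ∈ c.1 ∧ (∀ v ∈ c.2, v ∈ B) ∧ ∀ v ∈ (sw c).2, v ∈ B

/-- a tripod -/
structure Tri (B D : Finset V) (y x : V) (l : List V) (m : V) (r α : List V) : Prop where
  h1 : (l ++ [m]).head? = some y
  c1 : (l ++ [m]).IsChain Adj
  h2 : (α ++ [m]).head? = some x
  c2 : (α ++ [m]).IsChain Adj
  c3 : (m :: r).IsChain Adj
  nd : (α ++ l ++ m :: r).Nodup
  sub : ∀ v ∈ α ++ l ++ [m], v ∈ B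
  mem : ∀ v ∈ m :: r, v ∈ D ↔ v ≠ lst (m :: r)

lemma Tri.dj (h : Tri B D y x l m r α) : α.Nodup ∧ l.Nodup ∧ (m :: r).Nodup ∧ (∀ v ∈ α, v ∉ l) ∧
    ∀ v ∈ m :: r, v ∉ α ∧ v ∉ l := by
  have := h.nd
  simp only [List.nodup_append, List.mem_append] at this
  exact ⟨this.1.1, this.1.2.1, this.2.1, fun v a b => this.1.2.2 v a v b rfl, fun v a =>
    ⟨fun b => this.2.2 v (Or.inl b) v a rfl, fun b => this.2.2 v (Or.inr b) v a rfl⟩⟩

lemma Tri.mA (h : Tri B D y x l m r α) (hB : B ⊆ D) :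
    IsC D y x (l ++ m :: r, α ++ [m]) ∧ Cn B (l ++ m :: r, α ++ [m]) := by
  obtain ⟨a1, a2, a3, a4, a5⟩ := h.dj
  have b := h.sub
  simp only [List.mem_append, List.mem_singleton] at b
  refine ⟨⟨Pst.app ⟨h.h1, h.c1, a2, fun v hv => hB (b v (by tauto))⟩ ⟨rfl, h.c3, a3, fun v hv => ?_⟩
    (a5 _ (lst_mem (by simp))).2, isP_snoc.mpr ⟨h.h2, h.c2, a1, fun v hv => ?_, by simp⟩⟩,
    by simp, fun v hv => b v (by simp only [List.mem_append, List.mem_singleton] at hv; tauto),
    fun v hv => ?_⟩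
  · rw [← h.mem v hv]; simp [(a5 v hv).2]
  · simp only [mem_sdiff, List.mem_toFinset, List.mem_append, not_or]
    exact ⟨hB (b v (by tauto)), a4 v hv, fun e => (a5 v e).1 hv⟩
  · rw [sw_in (a5 m (by simp)).2 (lst_snoc _ _)] at hv
    exact b v (by simp only [List.mem_append, List.mem_singleton] at hv; tauto)

lemma dA (h : IsC D y x c) (h' : Cn B c) :
    ∃ l m r α, c = (l ++ m :: r, α ++ [m]) ∧ Tri B D y x l m r α := by
  rcases h.sw2 with ⟨l, r, e1, -, e2⟩ | ⟨e, -⟩
  swap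
  · exact absurd h'.1 e
  obtain ⟨α, e3⟩ := h.2.snoc
  obtain ⟨-, a1, a2⟩ := h'
  obtain ⟨h1, h2⟩ := h
  rw [e2] at a2
  generalize lst c.2 = m at *
  rw [e3] at h2 a1
  obtain ⟨b1, b2, b3, b4, -⟩ := isP_snoc.mp h2
  rw [e1] at h1 b4
  obtain ⟨c1, c2, c3⟩ := h1.split
  refine ⟨l, m, r, α, Prod.ext e1 e3, c1.hd, c1.ch, b1, b2, c2.ch, ?_, fun v hv => ?_,
    fun v hv => ?_⟩
  · rw [List.append_assoc]
    exact List.nodup_append.mpr ⟨b3, h1.nd, fun u a w b e =>
      (mem_sdiff.mp (b4 u a)).2 (List.mem_toFinset.mpr (e ▸ b))⟩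
  · simp only [List.mem_append] at hv a1 a2
    exact hv.elim (fun e => e.elim (fun e => a1 v (Or.inl e)) fun e => a2 v (Or.inl e))
      fun e => a2 v (Or.inr e)
  · rw [← lst_app l (List.cons_ne_nil m r)]
    exact h1.mem v (List.mem_append_right _ hv)

/-- a path with a root and a tail -/
noncomputable def Xs (B D : Finset V) (y x : V) : Finset (Σ _ : List V, Σ _ : V, List V) :=
  (PP B x y).sigma fun ω => ω.toFinset.sigma fun m =>
    (Pa (D \ ω.toFinset.erase m) m).filter fun τ => lst τ ∉ ω.toFinset.erase m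

lemma lst_rev (l : List V) : l.head? = some y ↔ l ≠ [] ∧ lst l.reverse = y := by
  rcases l with _ | ⟨a, l⟩ <;> simp

lemma ch_rev (h : l.IsChain Adj) : l.reverse.IsChain Adj :=
  List.isChain_reverse.mpr (h.imp fun _ _ => nb_symm)

lemma Tri.mB (h : Tri B D y x l m r α) :
    (⟨α ++ m :: l.reverse, m, m :: r⟩ : Σ _ : List V, Σ _ : V, List V) ∈ Xs B D y x := by
  obtain ⟨a1, a2, a3, a4, a5⟩ := h.dj
  have k : ∀ v ∈ m :: r, v ∉ (α ++ m :: l.reverse).toFinset.erase m := fun v hv => by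
    simp [a5 v hv]
  simp only [Xs, mem_sigma, mem_filter, mem_PP, mem_P]
  refine ⟨⟨(head_glue _ _ _).trans h.h2, chain_glue h.c2 (by simpa using ch_rev h.c1), ?_,
    fun v hv => h.sub v (by simp only [List.mem_append, List.mem_cons, List.mem_reverse] at hv ⊢; tauto),
    by rw [lst_app _ (by simp)]; simpa using ((lst_rev _).mp h.h1).2⟩, by simp,
    ⟨rfl, h.c3, a3, fun v hv => by rw [← h.mem v hv, mem_sdiff, and_iff_left (k v hv)]⟩,
    k _ (lst_mem (by simp))⟩
  refine List.nodup_append.mpr ⟨a1, by simp [a2, (a5 m (by simp)).2], fun u a w b e => ?_⟩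
  subst e
  rcases List.mem_cons.mp b with rfl | b
  exacts [(a5 _ (by simp)).1 a, a4 u a (List.mem_reverse.mp b)]

lemma dB {s : Σ _ : List V, Σ _ : V, List V} (h : s ∈ Xs B D y x) :
    ∃ l m r α, s = ⟨α ++ m :: l.reverse, m, m :: r⟩ ∧ Tri B D y x l m r α := by
  obtain ⟨ω, m, τ⟩ := s
  simp only [Xs, mem_sigma, mem_filter, mem_PP, mem_P, List.mem_toFinset] at h
  obtain ⟨h1, h2, h3, h4⟩ := h
  obtain ⟨α, l, rfl⟩ := List.append_of_mem h2
  obtain ⟨r, rfl⟩ := h3.eq_cons
  obtain ⟨c1, c2⟩ := List.isChain_split.mp h1.ch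
  have n1 := List.nodup_append.mp h1.nd
  have n2 := List.nodup_cons.mp n1.2.1
  have k : ∀ v ∈ m :: r, v ∉ (α ++ m :: l).toFinset.erase m := fun v hv e =>
    (mem_sdiff.mp ((h3.mem v hv).mpr fun e' => h4 (e' ▸ e))).2 e
  refine ⟨l.reverse, m, r, α, by simp, (lst_rev _).mpr ⟨by simp, by
    simpa [lst_app α (List.cons_ne_nil m l)] using h1.en⟩, by simpa using ch_rev c2,
    (head_glue _ _ _).symm.trans h1.hd, c1, h3.ch, ?_, fun v hv => h1.sub v (by
      simp only [List.mem_append, List.mem_cons, List.mem_reverse] at hv ⊢; tauto),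
    fun v hv => by rw [← h3.mem v hv, mem_sdiff, and_iff_left (k v hv)]⟩
  refine List.nodup_append.mpr ⟨List.nodup_append.mpr ⟨n1.1, List.nodup_reverse.mpr n2.2,
    fun u a w b => n1.2.2 u a w (by simp [List.mem_reverse.mp b])⟩, h3.nd, fun u a w b e => ?_⟩
  subst e
  refine k u b ?_
  simp only [List.mem_append, List.mem_reverse] at a
  simp only [mem_erase, List.mem_toFinset, List.mem_append, List.mem_cons]
  exact ⟨by
    rintro rfl
    exact a.elim (fun a => n1.2.2 u a u (by simp) rfl) n2.1, by tauto⟩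

lemma sum_Cn (hB : B ⊆ D) : ∑ c ∈ CC D y x, wt D c * chi (Cn B c) =
    ∑ ω ∈ PP B x y, Z (D \ ω.toFinset) * Cap D ω.toFinset := by
  classical
  have e1 : ∑ ω ∈ PP B x y, Z (D \ ω.toFinset) * Cap D ω.toFinset =
      ∑ s ∈ Xs B D y x, Zm (D \ s.1.toFinset.erase s.2.1) s.2.2 := by
    rw [Xs, sum_sigma]
    refine sum_congr rfl fun ω hω => ?_
    rw [sum_sigma, Cap, mul_sum]
    refine sum_congr rfl fun m hm => ?_
    have := N_in (A := ω.toFinset.erase m) (F := fun _ => 1) (mem_sdiff.mpr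
      ⟨hB ((mem_PP.mp hω).sub m (List.mem_toFinset.mp hm)), notMem_erase m ω.toFinset⟩)
    rw [insert_erase hm, ← sdiff_insert, insert_erase hm] at this
    simp only [N_one] at this
    rw [mul_sum, He, ← this, ← N_one, N, sum_filter]
    exact sum_congr rfl fun τ _ => by split_ifs <;> simp
  have hi : ∀ l m r α, Tri B D y x l m r α → m ∉ l ∧ m ∉ α := fun l m r α h =>
    (h.dj.2.2.2.2 m (by simp)).symm
  rw [e1]
  simp only [chi, mul_ite, mul_one, mul_zero, ← sum_filter]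
  refine sum_nbij' (fun c => ⟨c.2 ++ (c.1.takeWhile (· ≠ lst c.2)).reverse, lst c.2,
    c.1.dropWhile (· ≠ lst c.2)⟩) (fun s => ((s.1.dropWhile (· ≠ s.2.1)).tail.reverse ++ s.2.2,
      s.1.takeWhile (· ≠ s.2.1) ++ [s.2.1])) (fun c hc => ?_) (fun s hs => ?_) (fun c hc => ?_)
    (fun s hs => ?_) fun c hc => ?_
  · obtain ⟨l, m, r, α, rfl, h⟩ := dA (mem_CC.mp (mem_filter.mp hc).1) (mem_filter.mp hc).2
    simpa only [lst_snoc, tw_ne (hi _ _ _ _ h).1, List.append_assoc, List.singleton_append]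
      using h.mB
  · obtain ⟨l, m, r, α, rfl, h⟩ := dB hs
    simpa only [tw_ne (hi _ _ _ _ h).2, List.tail_cons, List.reverse_reverse, mem_filter,
      mem_CC] using h.mA hB
  · obtain ⟨l, m, r, α, rfl, h⟩ := dA (mem_CC.mp (mem_filter.mp hc).1) (mem_filter.mp hc).2
    simp only [lst_snoc, tw_ne (hi _ _ _ _ h).1, List.append_assoc, List.singleton_append,
      tw_ne (hi _ _ _ _ h).2, List.tail_cons, List.reverse_reverse]
  · obtain ⟨l, m, r, α, rfl, h⟩ := dB hs
    simp only [lst_snoc, tw_ne (hi _ _ _ _ h).1, List.append_assoc, List.singleton_append,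
      tw_ne (hi _ _ _ _ h).2, List.tail_cons, List.reverse_reverse]
  · obtain ⟨l, m, r, α, rfl, h⟩ := dA (mem_CC.mp (mem_filter.mp hc).1) (mem_filter.mp hc).2
    simp only [lst_snoc, tw_ne (hi _ _ _ _ h).1]
    refine Zm_congr fun v => ?_
    simp only [List.mem_append, List.mem_cons, mem_sdiff, mem_erase, List.mem_toFinset,
      List.mem_reverse]
    tauto

theorem ray {ρ : ℤ} (hB : B ⊆ D) (h : ∀ v ∈ B, dn v y < ρ) :
    (∑ c ∈ CC D y x, wt D c * chi (Ev y ρ c)) / Z D ≤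
      (∑ c ∈ CC B y x, wt B c * chi (lst c.2 ∉ B)) / Z B := by
  have a1 : ∑ c ∈ CC D y x, wt D c * chi (Ev y ρ c) ≤ Z D - ∑ c ∈ CC D y x, wt D c * chi (Cn B c) := by
    rw [← sum_wt D y x, ← sum_sub_distrib]
    refine sum_le_sum fun c hc => ?_
    have := wt_pos D c
    by_cases e : Cn B c
    · obtain ⟨l, m, r, α, rfl, e'⟩ := dA (mem_CC.mp hc) e
      suffices a : ¬ Ev y ρ (l ++ m :: r, α ++ [m]) by rw [chi_neg a, chi_pos e]; simp
      refine fun a => a.2 ?_
      rw [show l ++ m :: r = l ++ [m] ++ r by simp, (lev_app (fun v hv => (h v (e'.sub v (by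
        simp only [List.mem_append] at hv ⊢; tauto))).ne) r).1]
      simp
    · rw [chi_neg e]
      nlinarith [chi_le (Ev y ρ c)]
  have a2 : Z B - ∑ c ∈ CC B y x, wt B c * chi (Cn B c) ≤
      ∑ c ∈ CC B y x, wt B c * chi (lst c.2 ∉ B) := by
    rw [← sum_wt B y x, ← sum_sub_distrib]
    refine sum_le_sum fun c hc => ?_
    have := wt_pos B c
    rw [mem_CC] at hc
    by_cases e : lst c.2 ∈ B
    · suffices a : Cn B c by rw [chi_pos a]; nlinarith [chi_nonneg (lst c.2 ∉ B)]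
      refine ⟨by_contra fun a => hc.2.out (by simp [e, a]), fun v hv => ?_, fun v hv => ?_⟩
      · by_cases a : v = lst c.2
        exacts [a ▸ e, (mem_sdiff.mp ((hc.2.mem v hv).mpr a)).1]
      · rcases hc.sw2 with ⟨l, r, e1, -, e2⟩ | ⟨-, a, -⟩
        · rcases List.mem_append.mp (e2 ▸ hv) with a | a
          exacts [(e1 ▸ hc.1 : IsP B y (l ++ lst c.2 :: r)).split.1.sub v a,
            List.mem_singleton.mp a ▸ e]
        · exact absurd e a
    · rw [chi_pos e]
      nlinarith [chi_nonneg (Cn B c)]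
  refine (div_le_div_of_nonneg_right a1 (Z_pos _).le).trans
    (le_trans ?_ (div_le_div_of_nonneg_right a2 (Z_pos _).le))
  rw [sub_div, sub_div, div_self (Z_pos _).ne', div_self (Z_pos _).ne', sum_Cn hB,
    sum_Cn subset_rfl, sum_div, sum_div]
  exact sub_le_sub_left (sum_le_sum fun ω hω => ray2 (fun v hv =>
    (mem_PP.mp hω).sub v (List.mem_toFinset.mp hv)) D hB) _

end Pool.Agent.P.MP_5fda20_pr.W
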