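import Pool.Agent.P.MP_5fda20_pr.W.Tra

/-! Resampling along fibres and characters modulo `M`. -/

namespace Pool.Agent.P.MP_5fda20_pr.W

open Finset Complex

variable {α : Type*} {S : Finset α} {w : α → ℝ} {η : ℝ} {M : ℕ}

/-- a partition into fibres on which `w` is nearly proportional to `v` -/
structure Fib (S : Finset α) (w : α → ℝ) (η : ℝ) (fb : α → Finset α) (v : α → ℝ) : Prop where
  self : ∀ c ∈ S, c ∈ fb c
  sub : ∀ c ∈ S, fb c ⊆ S
  eq : ∀ c ∈ S, ∀ d ∈ fb c, fb d = fb c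
  pos : ∀ c ∈ S, 0 < v c
  cmp : ∀ c ∈ S, ∃ l, 0 ≤ l ∧ ∀ d ∈ fb c, l * v d ≤ w d ∧ w d ≤ η * (l * v d)

variable {fb : α → Finset α} {v : α → ℝ}

lemma Fib.den (h : Fib S w η fb v) {c : α} (hc : c ∈ S) : 0 < ∑ d ∈ fb c, v d :=
  sum_pos (fun d hd => h.pos d (h.sub c hc hd)) ⟨c, h.self c hc⟩

lemma Fib.dom (h : Fib S w η fb v) (hη : 0 ≤ η) {g : α → ℝ} (hg : ∀ c ∈ S, 0 ≤ g c) :
    ∑ c ∈ S, w c * g c ≤ η * ∑ c ∈ S, w c * ((∑ d ∈ fb c, v d * g d) / ∑ d ∈ fb c, v d) := by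
  classical
  rw [← sum_fiberwise_of_maps_to (g := fb) fun c hc => mem_image_of_mem fb hc,
    ← sum_fiberwise_of_maps_to (s := S) (g := fb) fun c hc => mem_image_of_mem fb hc, mul_sum]
  refine sum_le_sum fun k hk => ?_
  obtain ⟨c, hc, rfl⟩ := mem_image.mp hk
  rw [show S.filter (fb · = fb c) = fb c from ext fun d => by
    rw [mem_filter]
    exact ⟨fun a => a.2 ▸ h.self d a.1, fun a => ⟨h.sub c hc a, h.eq c hc d a⟩⟩,
    sum_congr (f := fun d => w d * (_ / _)) rfl fun d hd => by rw [h.eq c hc d hd], ← sum_mul]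
  obtain ⟨l, h0, h1⟩ := h.cmp c hc
  have a0 := h.den hc
  have a1 : 0 ≤ ∑ d ∈ fb c, v d * g d := sum_nonneg fun d hd =>
    mul_nonneg (h.pos d (h.sub c hc hd)).le (hg d (h.sub c hc hd))
  refine le_trans ?_ (mul_le_mul_of_nonneg_left (mul_le_mul_of_nonneg_right
    (sum_le_sum fun d hd => (h1 d hd).1) (div_nonneg a1 a0.le)) hη)
  rw [← mul_sum, mul_assoc, mul_div_cancel₀ _ a0.ne', mul_sum, mul_sum]
  exact sum_le_sum fun d hd => (mul_le_mul_of_nonneg_right (h1 d hd).2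
    (hg d (h.sub c hc hd))).trans_eq (by ring)

/-- root of unity -/
noncomputable def zt (M : ℕ) : ℂ := exp (2 * Real.pi * I / M)

lemma zt_ne : zt M ≠ 0 := exp_ne_zero _

lemma zt_eq (z : ℤ) : zt M ^ z = exp ((2 * Real.pi * (z / M) : ℝ) * I) := by
  rw [zt, ← exp_int_mul]; congr 1; push_cast; ring

lemma zt_norm (z : ℤ) : ‖zt M ^ z‖ = 1 := by rw [zt_eq, norm_exp_ofReal_mul_I]

lemma zt_re (hM : 0 < M) {z z' j : ℤ} (e : z = z' + M * j) (h : 2 * |z'| ≤ M) :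
    (zt M ^ z).re ≤ 1 - 8 * (z' / M) ^ 2 := by
  have hp := isPrimitiveRoot_exp M hM.ne'
  have h0 : (0 : ℝ) < M := by exact_mod_cast hM
  rw [e, zpow_add₀ zt_ne, show zt M ^ ((M : ℤ) * j) = 1 from
    (hp.zpow_eq_one_iff_dvd _).mpr (dvd_mul_right _ _), mul_one, zt_eq, exp_ofReal_mul_I_re]
  refine (Real.cos_le_one_sub_mul_cos_sq ?_).trans_eq (by field_simp; ring)
  have : (2 : ℝ) * |(z' : ℝ)| ≤ M := by exact_mod_cast h
  rw [abs_mul, abs_of_pos (by positivity), abs_div, abs_of_pos h0, mul_right_comm, ← mul_div_assoc]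
  exact mul_le_of_le_one_left Real.pi_pos.le ((div_le_one h0).mpr this)

lemma zt_sum (hM : 0 < M) (d : ℤ) :
    ∑ k ∈ range M, zt M ^ ((k : ℤ) * d) = M * chi ((M : ℤ) ∣ d) := by
  have hp := isPrimitiveRoot_exp M hM.ne'
  simp only [mul_comm _ d, zpow_mul, zpow_natCast]
  by_cases h : (M : ℤ) ∣ d
  · rw [chi_pos h, show zt M ^ d = 1 from (hp.zpow_eq_one_iff_dvd _).mpr h]; simp
  · rw [chi_neg h, geom_sum_eq (x := zt M ^ d) (fun e => h ((hp.zpow_eq_one_iff_dvd _).mp e)), ← zpow_natCast,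
      ← zpow_mul, show zt M ^ (d * M) = 1 from (hp.zpow_eq_one_iff_dvd _).mpr (dvd_mul_left _ _)]
    simp

/-- characteristic function of a fibre -/
noncomputable def Xf (M : ℕ) (P : Finset α) (v : α → ℝ) (φ : α → ℤ) (k : ℕ) : ℂ :=
  (∑ d ∈ P, v d * zt M ^ ((k : ℤ) * φ d)) / (∑ d ∈ P, v d : ℝ)

theorem resample {ι : Type*} (J : Finset ι) {fb : ι → α → Finset α} {v : ι → α → ℝ} {E : α → Prop}
    {A : α → ℤ} (hM : 0 < M) (hη : 0 ≤ η) (hw : ∀ c ∈ S, 0 ≤ w c)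
    (hf : ∀ i ∈ J, Fib S w η (fb i) (v i)) (hE : ∀ i ∈ J, ∀ c ∈ S, ∀ d ∈ fb i c, E c → E d)
    (hX : ∀ i ∈ J, ∀ l ∈ J, i ≠ l → ∀ c ∈ S, E c → ∀ d ∈ fb l c, ∀ k,
      Xf M (fb i d) (v i) (fun e => A e - A d) k = Xf M (fb i c) (v i) (fun e => A e - A c) k)
    (a : ℤ) : ∑ c ∈ S, w c * chi (E c ∧ A c = a) ≤ η ^ J.card * (1 / M * ∑ k ∈ range M, ∑ c ∈ S,
      w c * (chi (E c) * ∏ i ∈ J, ‖Xf M (fb i c) (v i) (fun e => A e - A c) k‖)) := by
  classical
  have h0 : (0 : ℝ) < M := by exact_mod_cast hM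
  have key : ∀ J' ⊆ J, ∃ h : α → ℝ, (∀ c ∈ S, 0 ≤ h c) ∧
      ∑ c ∈ S, w c * chi (E c ∧ A c = a) ≤ η ^ J'.card * ∑ c ∈ S, w c * h c ∧
      ∀ c ∈ S, (h c : ℂ) = 1 / M * ∑ k ∈ range M, chi (E c) * (zt M ^ ((k : ℤ) * (A c - a)) *
        ∏ i ∈ J', Xf M (fb i c) (v i) (fun e => A e - A c) k) := by
    intro J'
    induction J' using Finset.induction_on with
    | empty =>
      refine fun _ => ⟨fun c => chi (E c) * chi ((M : ℤ) ∣ A c - a), fun c _ =>
        mul_nonneg (chi_nonneg _) (chi_nonneg _), ?_, fun c _ => ?_⟩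
      · rw [card_empty, pow_zero, one_mul]
        refine sum_le_sum fun c hc => mul_le_mul_of_nonneg_left ?_ (hw c hc)
        dsimp only
        by_cases h : E c ∧ A c = a
        · rw [chi_pos h, chi_pos h.1, chi_pos (by simp [h.2]), one_mul]
        · rw [chi_neg h]; exact mul_nonneg (chi_nonneg _) (chi_nonneg _)
      · simp only [prod_empty, mul_one, ← mul_sum, zt_sum hM]
        have : (M : ℂ) ≠ 0 := by exact_mod_cast hM.ne'
        push_cast
        field_simp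
    | insert l J' hl ih =>
      intro hJ
      obtain ⟨h, h1, h2, h3⟩ := ih ((subset_insert _ _).trans hJ)
      have hlJ := hJ (mem_insert_self _ _)
      have F := hf l hlJ
      refine ⟨fun c => (∑ d ∈ fb l c, v l d * h d) / ∑ d ∈ fb l c, v l d, fun c hc =>
        div_nonneg (sum_nonneg fun d hd => mul_nonneg (F.pos d (F.sub c hc hd)).le
          (h1 d (F.sub c hc hd))) (F.den hc).le, ?_, fun c hc => ?_⟩
      · rw [card_insert_of_notMem hl, pow_succ, mul_assoc]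
        exact h2.trans (mul_le_mul_of_nonneg_left (F.dom hη h1) (pow_nonneg hη _))
      · rw [ofReal_div, ofReal_sum, sum_congr rfl fun d hd => by
          rw [ofReal_mul, h3 d (F.sub c hc hd), mul_left_comm, mul_sum], ← mul_sum, mul_div_assoc,
          sum_comm, sum_div]
        refine congrArg _ (sum_congr rfl fun k _ => ?_)
        by_cases e : E c
        · rw [prod_insert hl, Xf, sum_congr rfl fun d hd => by
            rw [chi_pos (hE l hlJ c hc d hd e), prod_congr rfl fun i hi => hX i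
              (hJ (mem_insert_of_mem hi)) l hlJ (by rintro rfl; exact hl hi) c hc e d hd k,
              show (k : ℤ) * (A d - a) = k * (A c - a) + k * (A d - A c) by ring, zpow_add₀ zt_ne],
            chi_pos e, div_mul_eq_mul_div, ← mul_div_assoc, ← mul_div_assoc, sum_mul, mul_sum,
            mul_sum]
          exact congrArg (· / _) (sum_congr rfl fun d _ => by ring)
        · rw [chi_neg e, sum_eq_zero fun d hd => by
            rw [chi_neg fun e' => e (hE l hlJ d (F.sub c hc hd) c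
              (by rw [F.eq c hc d hd]; exact F.self c hc) e')]; simp]
          simp
  obtain ⟨h, -, h2, h3⟩ := key J subset_rfl
  refine h2.trans (mul_le_mul_of_nonneg_left ?_ (pow_nonneg hη _))
  rw [sum_comm, mul_sum]
  refine sum_le_sum fun c hc => ?_
  rw [← mul_sum, mul_left_comm]
  refine mul_le_mul_of_nonneg_left ((le_abs_self _).trans ?_) (hw c hc)
  rw [← Real.norm_eq_abs, ← norm_real, h3 c hc, norm_mul, norm_div, norm_one, Complex.norm_natCast]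
  refine mul_le_mul_of_nonneg_left ((norm_sum_le _ _).trans (sum_le_sum fun k _ => ?_))
    (by positivity)
  rw [norm_mul, norm_mul, zt_norm, one_mul, norm_prod, norm_real,
    Real.norm_of_nonneg (chi_nonneg _)]

lemma Xf_le {P U U' : Finset α} {φ : α → ℤ} {k : ℕ} {γ κ : ℝ} (hv : ∀ d ∈ P, 0 ≤ v d)
    (h1 : U ⊆ P) (h2 : U' ⊆ P) (hγ : 0 ≤ γ) (hκ : 0 ≤ κ) (h3 : γ * ∑ d ∈ P, v d ≤ ∑ d ∈ U, v d)
    (h4 : γ * ∑ d ∈ P, v d ≤ ∑ d ∈ U', v d) (h5 : κ * γ ^ 2 ≤ 2)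
    (h : ∀ d ∈ U, ∀ e ∈ U', (zt M ^ ((k : ℤ) * (φ d - φ e))).re ≤ 1 - κ) :
    ‖Xf M P v φ k‖ ≤ 1 - κ * γ ^ 2 / 2 := by
  classical
  have h0 := sum_nonneg hv
  rw [Xf, norm_div, norm_real, Real.norm_of_nonneg h0]
  refine div_le_of_le_mul₀ h0 (by linarith) (abs_le_of_sq_le_sq' ?_ (mul_nonneg (by linarith) h0)).2
  have e1 : ‖∑ d ∈ P, v d * zt M ^ ((k : ℤ) * φ d)‖ ^ 2 =
      ∑ d ∈ P, ∑ e ∈ P, v d * v e * (zt M ^ ((k : ℤ) * (φ d - φ e))).re := by
    rw [← normSq_eq_norm_sq, ← ofReal_re (normSq _), ← mul_conj, map_sum, sum_mul_sum, re_sum]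
    refine sum_congr rfl fun d _ => ?_
    rw [re_sum]
    refine sum_congr rfl fun e _ => ?_
    rw [map_mul, conj_ofReal, ← inv_eq_conj (zt_norm _), mul_sub, zpow_sub₀ zt_ne, ← re_ofReal_mul]
    congr 1
    push_cast
    ring
  have e2 : ∀ U ⊆ P, ∑ d ∈ P, v d * (if d ∈ U then 1 else 0) = ∑ d ∈ U, v d := fun U hU => by
    simp only [mul_ite, mul_one, mul_zero, ← sum_filter, filter_mem_eq_inter, inter_eq_right.mpr hU]
  have e3 : ∑ d ∈ P, ∑ e ∈ P, v d * v e * (zt M ^ ((k : ℤ) * (φ d - φ e))).re ≤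
      (∑ d ∈ P, v d) * (∑ d ∈ P, v d) - κ * ((∑ d ∈ U, v d) * ∑ d ∈ U', v d) := by
    rw [← e2 U h1, ← e2 U' h2, sum_mul_sum, sum_mul_sum, mul_sum, ← sum_sub_distrib]
    refine sum_le_sum fun d hd => ?_
    rw [mul_sum, ← sum_sub_distrib]
    refine sum_le_sum fun e he => ?_
    have a := mul_nonneg (hv d hd) (hv e he)
    have b := mul_le_mul_of_nonneg_left ((re_le_norm _).trans_eq
      (zt_norm (M := M) ((k : ℤ) * (φ d - φ e)))) a
    split_ifs with c c'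
    · linarith [mul_le_mul_of_nonneg_left (h d c e c') a]
    all_goals linarith
  have e4 := mul_le_mul_of_nonneg_left (mul_le_mul h3 h4 (mul_nonneg hγ h0)
    ((mul_nonneg hγ h0).trans h3)) hκ
  rw [e1]
  nlinarith [sq_nonneg (κ * γ ^ 2 * ∑ d ∈ P, v d)]

lemma Xf_one {P : Finset α} (φ : α → ℤ) (k : ℕ) (hv : ∀ d ∈ P, 0 ≤ v d) : ‖Xf M P v φ k‖ ≤ 1 := by
  simpa using Xf_le (M := M) (φ := φ) (k := k) (γ := 0) (κ := 0) hv (empty_subset _)
    (empty_subset _) le_rfl le_rfl (by simp) (by simp) (by simp) (by simp)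

end Pool.Agent.P.MP_5fda20_pr.W
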