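import Pool.Agent.P.MP_5fda20_pr.W.Beur

/-! Escape from a slit and the interaction through long loops. -/

namespace Pool.Agent.P.MP_5fda20_pr.W

open Finset U Real

variable {D T : Finset V} {g : V → ℝ}

lemma gap_up (b : ℤ) (m : ℕ) (hD : ∀ v ∈ D, v.1 ≠ v.2 ∨ (b - m ≤ v.1 ∧ v.1 ≤ b)) :
    ∑ i ∈ range (m + 1), G1 D (b - i, b - i) (b, b) ≤ sig m := by
  obtain ⟨u, h1, h2, h3, h4⟩ := gap_sol b m
  set S := ∑ i ∈ range (m + 1), |u (b - i, b - i)| with hS
  have hS0 : 0 ≤ S := sum_nonneg fun _ _ => abs_nonneg _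
  refine h2 ▸ sum_le_sum fun i _ => ?_
  obtain ⟨R₀, hR₀⟩ := (D.image fun v => (v.1 - b).natAbs + (v.2 - b).natAbs).exists_le
  refine le_of_forall_pos_le_add fun δ hδ => ?_
  obtain ⟨N, hN⟩ := exists_nat_gt (3 * S / δ)
  have hN0 : (0 : ℝ) < N := lt_of_le_of_lt (by positivity) hN
  have hsub : D ⊆ Ga b m (m + (R₀ + N + 1)) := fun v hv => mem_Ga.mpr ⟨by
    have := hR₀ _ (mem_image_of_mem _ hv); omega, hD v hv⟩
  refine (G_mo hsub _ _).trans
    (G_le wt_one (b, b) (fun v => u v + δ) (fun x hx => ?_) (fun x hx => ?_) _)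
  · have := (abs_le.mp (h4 _ x (by omega) hx).1).1
    have : 3 * S / ((m + (R₀ + N + 1) : ℕ) - m) ≤ δ := by
      rw [div_lt_iff₀ hδ] at hN
      push_cast
      rw [add_sub_cancel_left, div_le_iff₀ (by positivity)]
      nlinarith [Nat.cast_nonneg (α := ℝ) R₀]
    linarith
  · simp only [one_mul, sum_add_distrib, sum_nb_const]
    linarith [h3 x (mem_Ga.mp hx).2]

lemma slit0 {m : ℕ} {M : ℝ} (hM : 0 ≤ M) (h1 : ∀ v, dn v (0, 0) ≤ m + 1 → g v ≤ M)
    (hs : ∀ v, dn v (0, 0) ≤ m → 4 * g v ≤ ∑ z ∈ nb v, g z)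
    (h0 : ∀ i : ℤ, 0 < i → i ≤ m → g (i, i) ≤ 0) : g (0, 0) ≤ 4 / √(m + 1) * M := by
  obtain ⟨R, hR⟩ : ∃ R : ℕ, R = m + 1 := ⟨_, rfl⟩
  have hR0 : (0 : ℝ) < R := by exact_mod_cast (by omega : 0 < R)
  let w : V → ℝ := fun v => |(v.1 - v.2 : ℝ)| / R + v.1 * v.2 / R ^ 2 +
    4 / R * ∑ i ∈ range (m + 1), G1 (Ga 0 m R) v (0 - i, 0 - i)
  have hG : ∀ v, 0 ≤ 4 / R * ∑ i ∈ range (m + 1), G1 (Ga 0 m R) v (0 - i, 0 - i) := fun v =>
    mul_nonneg (by positivity) (sum_nonneg fun _ _ => G_nn _ _ _)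
  have := har_le' (D := Ga 0 m R) (g := g) (h := fun v => M * w v)
    (fun v hv => hs v (by rw [mem_Ga] at hv; unfold dn; omega)) (fun v hv => ?_)
    (fun x hx z hz hz' => ?_) (v := (0, 0)) (mem_Ga.mpr (by dsimp only; omega))
  · refine this.trans ((mul_le_mul_of_nonneg_left ?_ hM).trans_eq (mul_comm _ _))
    have hw : w (0, 0) ≤ 4 / R * sig m := by
      simp only [w, Int.cast_zero, sub_self, abs_zero, zero_div, mul_zero, zero_add]
      refine mul_le_mul_of_nonneg_left (le_trans (le_of_eq ?_)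
        (gap_up (D := Ga 0 m R) 0 m fun v hv => (mem_Ga.mp hv).2)) (by positivity)
      exact sum_congr rfl fun _ _ => G1_symm _ _ _
    have h2 : sig m ≤ √R := le_sqrt_of_sq_le (by
      rw [hR]; push_cast; linarith [(sig_sq m).2, Nat.cast_nonneg (α := ℝ) m])
    refine hw.trans ((mul_le_mul_of_nonneg_left h2 (by positivity)).trans_eq ?_)
    rw [show (m : ℝ) + 1 = R by rw [hR]; push_cast; rfl, div_mul_eq_mul_div, mul_div_assoc,
      sqrt_div_self', mul_one_div]
  · have a1 : 4 * |(v.1 - v.2 : ℝ)| + 4 * ∑ i ∈ range (m + 1), dl v (0 - i, 0 - i) =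
        ∑ z ∈ nb v, |(z.1 - z.2 : ℝ)| := by
      by_cases hd : v.1 = v.2
      · obtain ⟨x, hx, rfl⟩ : ∃ x : ℕ, x ≤ m ∧ v = ((0 : ℤ) - x, (0 : ℤ) - x) :=
          ⟨(0 - v.1).toNat, by have := mem_Ga.mp hv; omega, Prod.ext
            (by have := mem_Ga.mp hv; dsimp only; omega)
            (by have := mem_Ga.mp hv; dsimp only; omega)⟩
        unfold dl
        rw [sum_congr rfl fun i _ => if_congr (show ((0 : ℤ) - x, (0 : ℤ) - x) =
          ((0 : ℤ) - (i : ℕ), (0 : ℤ) - (i : ℕ)) ↔ x = i by simp only [Prod.mk.injEq]; omega) rfl rfl,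
          sum_ite_eq, if_pos (mem_range.mpr (by omega)), sum_nb]
        push_cast
        ring_nf
        norm_num
      · rw [sum_eq_zero fun i _ => dl_ne fun e => hd (by rw [e]), sum_nb]
        have : 4 * |v.1 - v.2| = |v.1 + 1 - v.2| + |v.1 - 1 - v.2| + |v.1 - (v.2 + 1)| +
            |v.1 - (v.2 - 1)| := by simp only [Int.abs_eq_natAbs]; omega
        rw [mul_zero, add_zero]
        exact_mod_cast this
    have a2 : ∑ z ∈ nb v, (z.1 : ℝ) * z.2 = 4 * (v.1 * v.2) := by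
      rw [sum_nb]; push_cast; ring
    have a3 : 4 * ∑ i ∈ range (m + 1), G1 (Ga 0 m R) v (0 - i, 0 - i) =
        ∑ i ∈ range (m + 1), dl v (0 - i, 0 - i) +
          ∑ z ∈ nb v, ∑ i ∈ range (m + 1), G1 (Ga 0 m R) z (0 - i, 0 - i) := by
      rw [sum_comm, mul_sum, ← sum_add_distrib]
      exact sum_congr rfl fun i _ => G1_eq hv _
    have a4 : ∑ z ∈ nb v, w z = 4 * w v := by
      simp only [w, sum_add_distrib, ← sum_div, ← mul_sum, ← a1, a2]
      linear_combination (-4 / R) * a3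
    rw [← mul_sum, a4, mul_left_comm]
  · have a3 := hG z
    rw [mem_Ga] at hx hz'
    rw [mem_nb] at hz
    by_cases hd : z.1 = z.2
    · refine le_trans ?_ (mul_nonneg hM (add_nonneg (add_nonneg (by positivity) ?_) a3))
      · have := h0 z.1 (by omega) (by omega)
        rwa [show (z.1, z.1) = z from Prod.ext rfl hd] at this
      · rw [hd]
        exact div_nonneg (mul_self_nonneg _) (by positivity)
    · have : |z.1 - z.2| * R + z.1 * z.2 = (R : ℤ) ^ 2 := by
        rcases (by omega : (z.1 = R ∧ z.2 ≤ z.1) ∨ (z.1 = -R ∧ z.1 ≤ z.2) ∨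
          (z.2 = R ∧ z.1 ≤ z.2) ∨ (z.2 = -R ∧ z.2 ≤ z.1)) with h | h | h | h
        · rw [abs_of_nonneg (by omega), h.1]; ring
        · rw [abs_of_nonpos (by omega), h.1]; ring
        · rw [abs_of_nonpos (by omega), h.1]; ring
        · rw [abs_of_nonneg (by omega), h.1]; ring
      have this : |(z.1 - z.2 : ℝ)| * R + z.1 * z.2 = (R : ℝ) ^ 2 := by exact_mod_cast this
      have : |(z.1 - z.2 : ℝ)| / R + z.1 * z.2 / R ^ 2 = 1 := by field_simp; linarith
      refine (h1 z (by unfold dn; omega)).trans (le_mul_of_one_le_right hM ?_)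
      simp only [w]
      linarith

lemma slit {m : ℕ} {M : ℝ} {p : V} {s t : ℤ} (hs : s = 1 ∨ s = -1) (ht : t = 1 ∨ t = -1)
    (hM : 0 ≤ M) (h1 : ∀ v, dn v p ≤ m + 1 → g v ≤ M)
    (h2 : ∀ v, dn v p ≤ m → 4 * g v ≤ ∑ z ∈ nb v, g z)
    (h0 : ∀ i : ℤ, 0 < i → i ≤ m → g (p.1 + s * i, p.2 + t * i) ≤ 0) :
    g p ≤ 4 / √(m + 1) * M := by
  have := slit0 (g := fun v => g (p.1 + s * v.1, p.2 + t * v.2)) hM
    (fun v hv => h1 _ (by unfold dn at *; rcases hs with rfl | rfl <;>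
      rcases ht with rfl | rfl <;> omega)) (fun v hv => by
      refine (h2 _ (by unfold dn at *; rcases hs with rfl | rfl <;>
        rcases ht with rfl | rfl <;> omega)).trans_eq ?_
      rw [sum_nb, sum_nb]
      rcases hs with rfl | rfl <;> rcases ht with rfl | rfl <;> ring_nf) h0
  simpa using this

lemma Zm_loc (I : V → Prop) (σ : List V) : ∀ {T D : Finset V}, T ⊆ D → (∀ v ∈ σ, I v) →
    (∀ v ∈ D, I v → v ∈ T ∧ ∀ z ∈ nb v, z ∈ D → I z) → Zm D σ / Z D ≤ Zm T σ / Z T := by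
  classical
  induction σ with
  | nil => intro T D _ _ _; simp [Zm, (Z_pos _).ne']
  | cons a σ ih =>
    intro T D h1 h2 h3
    have := ih (erase_subset_erase a h1) (fun v hv => h2 v (List.mem_cons_of_mem _ hv))
      fun v hv hv' => ⟨mem_erase.mpr ⟨(mem_erase.mp hv).1, (h3 v (mem_of_mem_erase hv) hv').1⟩,
        fun z hz hz' => (h3 v (mem_of_mem_erase hv) hv').2 z hz (mem_of_mem_erase hz')⟩
    rw [Zm_cons, Zm_cons]
    by_cases ha : a ∈ D
    · have hI := h2 a (by simp)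
      have hT := (h3 a ha hI).1
      rw [Z_erase ha, Z_erase hT, div_le_div_iff₀ (mul_pos (G_pos wt_one ha) (Z_pos _))
        (mul_pos (G_pos wt_one hT) (Z_pos _))] at this
      rw [div_le_div_iff₀ (Z_pos _) (Z_pos _)]
      have h4 := maxp' (D.filter I) (fun v => G1 D v a - G1 T v a) (fun x hx z hz hz' => by
        have : z ∉ D := fun h => hz' (mem_filter.mpr
          ⟨h, (h3 x (mem_filter.mp hx).1 (mem_filter.mp hx).2).2 z hz h⟩)
        simpa [G_off this] using G_nn T z a) (fun v hv => by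
        rw [sum_sub_distrib]
        linarith [G1_eq (mem_filter.mp hv).1 a,
          G1_eq (h3 v (mem_filter.mp hv).1 (mem_filter.mp hv).2).1 a]) (mem_filter.mpr ⟨ha, hI⟩)
      refine le_of_mul_le_mul_left ?_ (G_pos wt_one hT)
      nlinarith [mul_le_mul_of_nonneg_right (sub_nonpos.mp h4)
        (mul_pos (Zm_pos (T.erase a) σ) (Z_pos D)).le]
    · rwa [erase_eq_of_notMem ha, erase_eq_of_notMem (fun h => ha (h1 h))] at this ⊢

/-- the harmonic extension of boundary data with values in the unit interval -/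
lemma Hm_sub {φ : V → ℝ} (h0 : ∀ v, 0 ≤ φ v) {v : V} (h : v ∈ D ∨ φ v = 0) :
    4 * Hm D φ v ≤ ∑ z ∈ nb v, Hm D φ z := by
  by_cases hv : v ∈ D
  · exact (Hm_har D φ v hv).le
  · rw [Hm_off hv, h.resolve_left hv, mul_zero]
    exact sum_nonneg fun z _ => c_le_Hm h0 z

lemma Hm_sup {φ : V → ℝ} (h0 : ∀ v, φ v ≤ 1) {v : V} (h : v ∈ D ∨ φ v = 1) :
    ∑ z ∈ nb v, Hm D φ z ≤ 4 * Hm D φ v := by
  by_cases hv : v ∈ D
  · exact (Hm_har D φ v hv).ge
  · rw [Hm_off hv, h.resolve_left hv, ← sum_nb_const v]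
    exact sum_le_sum fun z _ => Hm_le_c h0 z

/-- a bounded subharmonic function is controlled by the escape probability -/
lemma le_esc {P : V → Prop} {M : ℝ} (hs : ∀ v ∈ T, 4 * g v ≤ ∑ z ∈ nb v, g z)
    (h0 : ∀ v, v ∉ T → g v ≤ M * chi (P v)) (v : V) : g v ≤ M * Hm T (fun v => chi (P v)) v :=
  har_le (h := fun v => M * Hm T (fun v => chi (P v)) v) hs
    (fun v hv => by rw [← mul_sum, ← Hm_har T (fun v => chi (P v)) v hv, mul_left_comm])
    (fun v hv => by rw [Hm_off hv]; exact h0 v hv) v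

lemma G_two {P : V → Prop} {M : ℝ} (hM : ∀ x y, G1 D x y ≤ M) (h1 : T ⊆ D)
    (h2 : ∀ v ∈ D, v ∉ T → P v) (a b : V) : G1 D a b ≤ G1 T a b +
      M * Hm T (fun v => chi (P v)) a * Hm T (fun v => chi (P v)) b := by
  have hM0 : 0 ≤ M := (G_nn _ _ _).trans (hM a b)
  have hb : 0 ≤ Hm T (fun v => chi (P v)) b := c_le_Hm (fun _ => chi_nonneg _) b
  have k : ∀ {z v : V} {C : ℝ}, 0 ≤ C → G1 D v z ≤ C → v ∉ T → G1 D v z ≤ C * chi (P v) := by
    intro z v C hC h hv
    by_cases hv' : v ∈ D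
    · rwa [chi_pos (h2 v hv' hv), mul_one]
    · exact (G_off hv' z).trans_le (mul_nonneg hC (chi_nonneg _))
  have := le_esc (T := T) (g := fun v => G1 D v b - G1 T v b) (P := P)
    (M := M * Hm T (fun v => chi (P v)) b) (fun v hv => by
      rw [sum_sub_distrib]
      linarith [G1_eq hv b, G1_eq (h1 hv) b]) (fun v hv => by
      rw [show G1 T v b = 0 from G_off hv b, sub_zero]
      refine k (mul_nonneg hM0 hb) ?_ hv
      rw [G1_symm]
      exact le_esc (g := fun x => G1 D x v) (fun x hx => G1_sub _ fun e => hv (e ▸ hx))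
        (fun x hx => k hM0 (hM _ _) hx) b) a
  linarith

/-- position of a point on the diamond -/
def idx (c v : V) : ℕ := if c.1 < v.1 ∧ c.2 ≤ v.2 then (v.2 - c.2).toNat else
  if v.1 ≤ c.1 ∧ c.2 < v.2 then (c.1 - v.1).toNat else
  if v.1 < c.1 ∧ v.2 ≤ c.2 then (c.2 - v.2).toNat else (v.1 - c.1).toNat

lemma harm_le (w : ℕ) : ∑ k ∈ range w, 1 / ((k : ℝ) + 1) ≤ 1 + log w := by
  have := harmonic_le_one_add_log w
  simpa [harmonic] using this

theorem ring {K j w : ℕ} {L : ℝ} {n R : ℤ} {c : V} (hB : Beu K) (hL : Lg L n) (hw : 1 ≤ w)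
    (hK : 1 ≤ K) (hR : K ^ j * (2 * w : ℕ) ≤ R) (hRn : R ≤ n) (hD : ∀ u ∈ D, ∀ v ∈ D, dn u v < n)
    (hA : ∀ k : ℤ, 0 < k → k ≤ R → ∃ v, v ∉ D ∧ dn v c = k) {μ : List V}
    (hμ : ∀ v ∈ μ, (v.1 - c.1).natAbs + (v.2 - c.2).natAbs < w) :
    Zm D μ / Z D ≤ exp (L ^ 2 / 4 ^ j) * (Zm (D ∩ Sb c R) μ / Z (D ∩ Sb c R)) := by
  have hwR : 2 * (w : ℤ) ≤ R := le_trans (by
    push_cast; exact le_mul_of_one_le_left (by positivity) (one_le_pow₀ (by omega))) hR
  let Γ := (Sb c w).filter fun v => (v.1 - c.1).natAbs + (v.2 - c.2).natAbs = w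
  have hΓ : ∀ v, v ∈ Γ ↔ (v.1 - c.1).natAbs + (v.2 - c.2).natAbs = w := fun v => by
    simp only [Γ, mem_filter, mem_Sb, dn]; omega
  let δ : ℕ → ℝ := fun k => L / 4 ^ j / 50 * (1 / (k + 1))
  have hδ : ∀ k, 0 ≤ δ k := fun k => by have := hL.pos; positivity
  have key : ∀ Y : Finset V, (∀ g ∈ Y, g ∈ Γ ∧ ∀ g' ∈ Γ, idx c g' < idx c g → g' ∈ Y) →
      Z (D \ Y) / Z ((D ∩ Sb c R) \ Y) ≤ exp (∑ g ∈ Y, δ (idx c g)) * (Z D / Z (D ∩ Sb c R)) := by
    intro Y
    induction Y using Finset.induction_on_max_value (idx c) with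
    | empty => simp
    | insert g Y hg hm ih =>
      intro h
      have h1 := (h g (mem_insert_self _ _)).1
      have ih' := ih fun x hx => ⟨(h x (mem_insert_of_mem hx)).1, fun y hy hy' =>
        (mem_insert.mp ((h x (mem_insert_of_mem hx)).2 y hy hy')).resolve_left (by
          rintro rfl; exact absurd (hm x hx) (not_le.mpr hy'))⟩
      rw [sum_insert hg, exp_add, mul_assoc, sdiff_insert, sdiff_insert]
      refine le_trans ?_ (mul_le_mul_of_nonneg_left ih' (exp_pos _).le)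
      have h2 := (hΓ g).mp h1
      by_cases hD' : g ∈ D
      swap
      · rw [erase_eq_of_notMem fun h => hD' (mem_sdiff.mp h).1,
          erase_eq_of_notMem fun h => hD' (mem_inter.mp (mem_sdiff.mp h).1).1]
        exact le_mul_of_one_le_left (div_pos (Z_pos _) (Z_pos _)).le (one_le_exp (hδ _))
      have h3 : g ∈ (D ∩ Sb c R) \ Y :=
        mem_sdiff.mpr ⟨mem_inter.mpr ⟨hD', mem_Sb.mpr (by unfold dn; omega)⟩, hg⟩
      rw [Z_erase h3, Z_erase (mem_sdiff.mpr ⟨hD', hg⟩), mul_div_mul_comm]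
      refine mul_le_mul_of_nonneg_right ?_ (div_pos (Z_pos _) (Z_pos _)).le
      rw [div_le_iff₀ (G_pos wt_one h3)]
      let e := Hm ((D ∩ Sb c R) \ Y) fun v => chi (R < dn v c)
      have e0 : ∀ v, dn v c ≤ R → v ∉ D ∨ v ∈ Y → e v ≤ 0 := fun v a b => by
        simp only [e]
        rw [Hm_off (by simp only [mem_sdiff, mem_inter]; tauto), chi_neg (not_lt.mpr a)]
      have e1 : ∀ v, dn v c ≤ R → 4 * e v ≤ ∑ z ∈ nb v, e z := fun v hv =>
        Hm_sub (fun _ => chi_nonneg _) (Or.inr (chi_neg (not_lt.mpr hv)))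
      have e2 := (hB j (2 * w) c e (fun v => v ∉ D ∧ dn v c ≤ R) (by omega)
        (Hm_le_c fun _ => chi_le _) fun k a b => by
          obtain ⟨v, p, q⟩ := hA k (by omega) (b.trans hR)
          exact ⟨v, ⟨p, by omega⟩, q⟩).1 (fun v hv => e1 v (by omega))
        fun v hv => e0 v hv.2 (Or.inl hv.1)
      obtain ⟨s, t, hs, ht, h4⟩ : ∃ s t : ℤ, (s = 1 ∨ s = -1) ∧ (t = 1 ∨ t = -1) ∧
          ∀ i : ℤ, 0 < i → i ≤ idx c g → (g.1 + s * i, g.2 + t * i) ∈ Γ ∧
            idx c (g.1 + s * i, g.2 + t * i) < idx c g := by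
        simp only [hΓ, idx]
        split_ifs with a b d
        · exact ⟨1, -1, by simp, by simp, fun i _ _ => by split_ifs <;> omega⟩
        · exact ⟨1, 1, by simp, by simp, fun i _ _ => by split_ifs <;> omega⟩
        · exact ⟨-1, 1, by simp, by simp, fun i _ _ => by split_ifs <;> omega⟩
        · exact ⟨-1, -1, by simp, by simp, fun i _ _ => by split_ifs <;> omega⟩
      have h5 : idx c g < w := by unfold idx; split_ifs <;> omega
      have e3 := slit (g := e) (m := idx c g) (p := g) hs ht (by positivity)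
        (fun v hv => e2 v (by unfold dn at *; omega))
        (fun v hv => e1 v (by unfold dn at *; omega)) fun i a b => by
          obtain ⟨p, q⟩ := h4 i a b
          refine e0 _ (by have := (hΓ _).mp p; unfold dn; omega) (Or.inr ((mem_insert.mp
            ((h g (mem_insert_self _ _)).2 _ p q)).resolve_left fun e => ?_))
          exact q.ne (congrArg _ e)
      have e4 := G_two (D := D \ Y) (T := (D ∩ Sb c R) \ Y) (P := fun v => R < dn v c)
        (M := L / 6000) (fun x y => by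
          by_cases hy : y ∈ D \ Y
          · exact hL.G (fun v hv => hD v (mem_sdiff.mp hv).1 y (mem_sdiff.mp hy).1) x
          · rw [G1_symm]; exact (G_off hy x).trans_le (by have := hL.pos; positivity))
        (sdiff_subset_sdiff inter_subset_left Subset.rfl) (fun v a b => by
          simp only [mem_sdiff, mem_inter, mem_Sb] at a b
          exact not_le.mp fun h => b ⟨⟨a.1, h⟩, a.2⟩) g g
      have e5 : e g * e g ≤ 16 * (1 / 4 ^ j * (1 / (idx c g + 1))) := by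
        refine (mul_self_le_mul_self (c_le_Hm (fun _ => chi_nonneg _) g) e3).trans_eq ?_
        rw [mul_mul_mul_comm, div_mul_div_comm, mul_self_sqrt (by positivity), div_mul_div_comm,
          ← mul_pow]
        ring
      have e6 := mul_le_mul_of_nonneg_left e5 hL.pos.le
      have e7 := mul_le_mul_of_nonneg_left (G_diag wt_one h3) (hδ (idx c g))
      have e8 := mul_le_mul_of_nonneg_right (add_one_le_exp (δ (idx c g)))
        (G_nn ((D ∩ Sb c R) \ Y) g g)
      have e9 : δ (idx c g) = L * (1 / 4 ^ j * (1 / (idx c g + 1))) / 50 := by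
        simp only [δ]; ring
      have := hδ (idx c g)
      simp only [e] at e6
      linarith
  have k1 := key Γ fun g hg => ⟨hg, fun g' h _ => h⟩
  have k2 : ∑ g ∈ Γ, δ (idx c g) ≤ L ^ 2 / 4 ^ j := by
    rw [← sum_fiberwise_of_maps_to (t := range w) (g := idx c) fun g hg => by
      have := (hΓ g).mp hg; rw [mem_range]; unfold idx; split_ifs <;> omega]
    refine (sum_le_sum (g := fun k => 4 * δ k) fun k hk => ?_).trans ?_
    · rw [sum_congr rfl fun g hg => by rw [(mem_filter.mp hg).2], sum_const, nsmul_eq_mul]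
      refine mul_le_mul_of_nonneg_right (Nat.cast_le_ofNat.mpr ((card_le_card
        (t := {(c.1 + w - k, c.2 + k), (c.1 - k, c.2 + w - k), (c.1 - w + k, c.2 - k),
          (c.1 + k, c.2 - w + k)}) fun g hg => ?_).trans card_le_four)) (hδ k)
      have h1 := (hΓ g).mp (mem_filter.mp hg).1
      have h2 := (mem_filter.mp hg).2
      simp only [mem_insert, mem_singleton, Prod.ext_iff]
      unfold idx at h2
      split_ifs at h2 <;> omega
    · simp only [δ, ← mul_sum]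
      have h1 : (w : ℝ) ≤ n := by exact_mod_cast (by omega : (w : ℤ) ≤ n)
      have h2 : (1 : ℝ) ≤ w := by exact_mod_cast hw
      have h3 : log w ≤ log (2 * n ^ 2 + 1) := log_le_log (by linarith) (by nlinarith)
      have h4 : ∑ k ∈ range w, 1 / ((k : ℝ) + 1) ≤ L := by linarith [harm_le w, hL.2, hL.ge]
      have h5 : 0 ≤ L / 4 ^ j := by have := hL.pos; positivity
      rw [show L ^ 2 / 4 ^ j = L / 4 ^ j * L by ring]
      nlinarith [mul_le_mul_of_nonneg_left h4 h5, mul_nonneg h5 hL.pos.le]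
  have k3 := Zm_mono Γ.toList (T := (D ∩ Sb c R) \ μ.toFinset) (D := D \ μ.toFinset)
    (sdiff_subset_sdiff inter_subset_left Subset.rfl) fun v a b => by
      have := (hΓ v).mp (mem_toList.mp a)
      simp only [mem_sdiff, mem_inter, mem_Sb] at b ⊢
      exact ⟨⟨b.1, by unfold dn; omega⟩, b.2⟩
  have k4 := Zm_loc (fun v => (v.1 - c.1).natAbs + (v.2 - c.2).natAbs < w) μ
    (T := (D ∩ Sb c R) \ Γ) (D := D \ Γ) (sdiff_subset_sdiff inter_subset_left Subset.rfl) hμ
    fun v a b => by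
      simp only [mem_sdiff, mem_inter, mem_Sb, hΓ, mem_nb] at a ⊢
      exact ⟨⟨⟨a.1, by unfold dn; omega⟩, a.2⟩, fun z p q => by omega⟩
  simp only [Zm, toList_toFinset] at k3 k4 ⊢
  rw [sdiff_sdiff_comm, sdiff_sdiff_comm (a := D)] at k3
  have k5 := k1.trans (mul_le_mul_of_nonneg_right (exp_le_exp.mpr k2)
    (div_pos (Z_pos _) (Z_pos _)).le)
  rw [div_le_div_iff₀ (Z_pos _) (Z_pos _)] at k3 k4
  rw [← mul_div_assoc, div_le_div_iff₀ (Z_pos _) (Z_pos _)] at k5 ⊢
  refine le_of_mul_le_mul_left ?_ (mul_pos (Z_pos ((D ∩ Sb c R) \ Γ))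
    (Z_pos (((D ∩ Sb c R) \ Γ) \ μ.toFinset)))
  have b1 := mul_le_mul_of_nonneg_right k3 (mul_pos (Z_pos ((D ∩ Sb c R) \ Γ))
    (Z_pos (D ∩ Sb c R))).le
  have b2 := mul_le_mul_of_nonneg_right k4 (mul_pos (Z_pos ((D ∩ Sb c R) \ μ.toFinset))
    (Z_pos (D ∩ Sb c R))).le
  have b3 := mul_le_mul_of_nonneg_right k5 (mul_pos (Z_pos ((D ∩ Sb c R) \ μ.toFinset))
    (Z_pos (((D ∩ Sb c R) \ Γ) \ μ.toFinset))).le
  linarith

end Pool.Agent.P.MP_5fda20_pr.W
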