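import Pool.Agent.P.MP_5fda20_pr.W.Bal
import Pool.Agent.P.MP_5fda20_pr.W.Res

/-! The area swept by a resampled crossing is spread out. -/

namespace Pool.Agent.P.MP_5fda20_pr.W

open Finset U

variable {T Ω : Finset V} {a b c : V} {t n σ : ℤ} {L : ℝ} {μ μ' : List V}

/-- local data of a crossing -/
structure Lo (t n : ℤ) (T Ω : Finset V) (a b : V) : Prop where
  ht : 1 ≤ t
  hn : 2 * t < n
  mem : ∀ v, v ∈ T ↔ v ∈ Ω ∧ Ws t v
  sub : ∀ v, Qs t v → v ∈ T
  ha : a.1 = 64 * t ∧ -(16 * t) ≤ a.2 ∧ a.2 ≤ 16 * t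
  hb : b.1 = 320 * t ∧ -(16 * t) ≤ b.2 ∧ b.2 ≤ 16 * t
  dia : ∀ u ∈ Ω, ∀ v ∈ Ω, dn u v < n

/-- upper or lower tube -/
def Tb (t σ : ℤ) (T : Finset V) : Finset V :=
  T.filter fun v => v.1 ≤ 88 * t ∨ 296 * t ≤ v.1 ∨ 112 * t ≤ σ * v.2

/-- escape from a small box -/
noncomputable def es (Ω : Finset V) (r : ℤ) (c : V) : V → ℝ :=
  Hm (Ω ∩ Sb c (r - 1)) fun v => chi (r ≤ dn v c)

lemma G_bd (hL : Lg L n) (h : ∀ u ∈ Ω, ∀ v ∈ Ω, dn u v < n) (x y : V) : G1 Ω x y ≤ L / 6000 := by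
  by_cases hy : y ∈ Ω
  · exact hL.G (fun v hv => h v hv y hy) x
  · rw [G1_symm, G1, G_off hy]
    linarith [hL.pos]

lemma end_lo (h : Lo t n T Ω a b) (hL : Lg L n) (hσ : σ = 1 ∨ σ = -1) {s : ℤ} (hs : s = 1 ∨ s = -1)
    (hc : c.1 = 192 * t - s * (128 * t) ∧ -(16 * t) ≤ c.2 ∧ c.2 ≤ 16 * t) (w : V) :
    G1 (Tb t σ T) (192 * t, σ * (120 * t)) w * es Ω (16 * t) c c ≤
      6 * L ^ 280 * G1 (Tb t σ T) c w := by
  have ht := h.ht
  have hL0 : 0 < L ^ 280 := pow_pos hL.pos _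
  have hT : ∀ v, Qs t v → (v.1 ≤ 88 * t ∨ 296 * t ≤ v.1 ∨ 112 * t ≤ σ * v.2) →
      ∑ z ∈ nb v, G1 (Tb t σ T) z w ≤ 4 * G1 (Tb t σ T) v w := fun v a b =>
    G1_super _ w (mem_filter.mpr ⟨h.sub v a, b⟩)
  have := masson (T := Ω ∩ Sb c (16 * t - 1)) (c := c) (R := 16 * t) (M := 1)
    (κ := G1 (Tb t σ T) (192 * t, σ * (120 * t)) w / L ^ 280) (f := fun v => G1 (Tb t σ T) v w)
    (g := es Ω (16 * t) c) (by omega) (div_nonneg (G_nn _ _ _) hL0.le) zero_le_one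
    (mem_inter.mpr ⟨((h.mem c).mp (h.sub c (by unfold Qs; rcases hs with rfl | rfl <;> omega))).1,
      mem_Sb.mpr (by rw [dn_self]; omega)⟩)
    (fun v hv => by have := mem_Sb.mp (mem_inter.mp hv).2; omega) (fun _ => G_nn _ _ _)
    (fun v _ => Hm_le_c (fun _ => chi_le _) v) (fun v hv => by
      have := mem_Sb.mp (mem_inter.mp hv).2
      unfold dn at this
      exact G1_super _ w (mem_filter.mpr ⟨(h.mem v).mpr ⟨(mem_inter.mp hv).1, by
        unfold Ws; rcases hs with rfl | rfl <;> omega⟩, by rcases hs with rfl | rfl <;> omega⟩))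
    (fun v hv => (Hm_har _ _ v hv).le) s hs fun z hz hz' => by
      by_cases e : dn z c = 16 * t
      · by_cases e' : 4 * (s * (z.1 - c.1)) ≤ 16 * t
        · exact Or.inr (Or.inr ⟨e, e'⟩)
        refine Or.inl ((div_le_iff₀' hL0).mpr ?_)
        unfold dn at e
        have b1 := harn (a := z) hL ht h.hn (fun v => G_nn (Tb t σ T) v w) 152 (z.1, σ * (120 * t))
          (fun v a b c d => hT v (by
            unfold Qs; rcases hs with rfl | rfl <;> rcases hσ with rfl | rfl <;> omega)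
            (by rcases hs with rfl | rfl <;> omega))
          (by unfold dn; rcases hσ with rfl | rfl <;> omega)
        have b2 := harn (a := (z.1, σ * (120 * t))) hL ht h.hn (fun v => G_nn (Tb t σ T) v w) 128
          (192 * t, σ * (120 * t)) (fun v a b c d => hT v (by
            unfold Qs; rcases hs with rfl | rfl <;> rcases hσ with rfl | rfl <;> omega)
            (by rcases hσ with rfl | rfl <;> omega))
          (by unfold dn; rcases hs with rfl | rfl <;> omega)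
        exact b2.trans ((mul_le_mul_of_nonneg_left b1 (pow_pos hL.pos _).le).trans_eq (by ring))
      · have : z ∉ Ω := fun a => hz (mem_inter.mpr ⟨a, mem_Sb.mpr (by omega)⟩)
        refine Or.inr (Or.inl ⟨by rw [es, Hm_off hz, chi_neg (by omega)], ?_⟩)
        have : ¬ Qs t z := fun a => this ((h.mem z).mp (h.sub z a)).1
        unfold Qs at this
        unfold dn at hz'
        rcases hs with rfl | rfl <;> omega
  rw [div_mul_eq_mul_div, div_le_iff₀ hL0] at this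
  linarith

lemma tube (h : Lo t n T Ω a b) (hL : Lg L n) (hσ : σ = 1 ∨ σ = -1) :
    ∑ μ ∈ PP T a b, Zm Ω μ ≤ L ^ 561 * ∑ μ ∈ PP (Tb t σ T) a b, Zm Ω μ := by
  have ht := h.ht
  have ha := h.ha
  have hb := h.hb
  have hT : T ⊆ Ω := fun v hv => ((h.mem v).mp hv).1
  have e0 : ∀ c v, 0 ≤ es Ω (16 * t) c v := fun c => c_le_Hm fun _ => chi_nonneg _
  have s1 : ∀ z, 16 * t ≤ dn z b → G1 Ω z b ≤ L / 6000 * es Ω (16 * t) b b := fun z hz => by
    rw [G1_symm]
    refine le_esc (g := fun v => G1 Ω v z) (fun v hv => G1_sub _ ?_) (fun v hv => ?_) b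
    · rintro rfl
      have := mem_Sb.mp (mem_inter.mp hv).2
      omega
    · by_cases e : 16 * t ≤ dn v b
      · rw [chi_pos e, mul_one]; exact G_bd hL h.dia _ _
      · rw [chi_neg e, mul_zero, G1, G_off fun a => hv (mem_inter.mpr ⟨a, mem_Sb.mpr (by omega)⟩)]
  have s2 := le_esc (T := Ω ∩ Sb a (16 * t - 1)) (P := fun v => 16 * t ≤ dn v a)
    (M := L / 6000 * es Ω (16 * t) b b) (g := fun v => if dn v b < 16 * t then 0 else G1 Ω v b)
    (fun v hv => by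
      have := mem_Sb.mp (mem_inter.mp hv).2
      have a1 : 16 * t < dn v b := by unfold dn at this ⊢; omega
      rw [if_neg (by omega), sum_congr rfl fun z hz => if_neg (by have := dn_nb hz b; omega)]
      exact G1_sub _ (by rintro rfl; rw [dn_self] at a1; omega))
    (fun v hv => by
      have := mul_nonneg (mul_nonneg (show 0 ≤ L / 6000 by linarith [hL.pos]) (e0 b b))
        (chi_nonneg (16 * t ≤ dn v a))
      split_ifs
      · exact this
      by_cases e : 16 * t ≤ dn v a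
      · rw [chi_pos e, mul_one]; exact s1 v (by omega)
      · rwa [G1, G_off fun a => hv (mem_inter.mpr ⟨a, mem_Sb.mpr (by omega)⟩)]) a
  rw [if_neg (by unfold dn; omega)] at s2
  have s3 := end_lo (c := a) h hL hσ (Or.inl rfl) (by omega) b
  have s4 := end_lo (c := b) h hL hσ (Or.inr rfl) (by omega) (192 * t, σ * (120 * t))
  have s5 := G_diag (D := Tb t σ T) (x := (192 * t, σ * (120 * t))) wt_one (mem_filter.mpr
    ⟨h.sub _ (by unfold Qs; rcases hσ with rfl | rfl <;> omega),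
      by rcases hσ with rfl | rfl <;> omega⟩)
  rw [G1_symm _ b] at s4
  have hL0 : 0 < L ^ 280 := pow_pos hL.pos _
  have s6 := mul_le_mul_of_nonneg_right ((mul_le_mul_of_nonneg_right s5 (e0 b b)).trans s4) (e0 a a)
  have s7 := mul_le_mul_of_nonneg_left s3 (show 0 ≤ 6 * L ^ 280 by positivity)
  have s8 : G1 Ω a b ≤ L ^ 561 * G1 (Tb t σ T) a b := by
    have := mul_nonneg (pow_pos hL.pos 561).le (G_nn (Tb t σ T) a b)
    have := mul_le_mul_of_nonneg_left (show es Ω (16 * t) b b * es Ω (16 * t) a a ≤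
      144 * L ^ 560 * G1 (Tb t σ T) a b by linarith) (show 0 ≤ L / 6000 by linarith [hL.pos])
    refine s2.trans ?_
    change _ * es Ω (16 * t) a a ≤ _
    linarith
  refine (sum_le_sum_of_subset_of_nonneg (fun μ hμ => mem_PP.mpr ((mem_PP.mp hμ).mono hT))
    fun _ _ _ => (Zm_pos _ _).le).trans ?_
  rw [sum_PP]
  refine (mul_le_mul_of_nonneg_left s8 (Z_pos _).le).trans ?_
  rw [mul_left_comm]
  exact mul_le_mul_of_nonneg_left (le_sum_PP ((filter_subset _ _).trans hT) a b)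
    (pow_pos hL.pos _).le

/-- faces of the outer box -/
noncomputable def Rw (t : ℤ) : Finset V := Rt (48 * t) (336 * t - 1) (-(128 * t)) (128 * t - 1)

/-- local area -/
noncomputable def al (t : ℤ) (μ : List V) : ℤ := ∑ F ∈ Rw t, Lp μ F

lemma Lp_off (h : IsQ T a b μ) (h' : IsQ T a b μ') (hT : ∀ v ∈ T, Ws t v) {F : V} (hF : F ∉ Rw t) :
    Lp μ F = Lp μ' F := by
  have k : ∀ μ, IsQ T a b μ → Lp μ F = _ := fun μ h => by
    rw [Lp, ss_tel (fun w => if 128 * t ≤ F.2 ∧ w.1 ≤ F.1 then 1 else 0) h.hd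
      (h.ch.imp_of_mem_imp fun u v hu hv e => ?_), h.en]
    have := hT u (h.sub u hu)
    have := hT v (h.sub v hv)
    rw [Rw, mem_Rt] at hF
    rw [Adj, mem_nb] at e
    unfold Ws at *
    unfold ell
    split_ifs <;> omega
  rw [k μ h, k μ' h']

lemma al_tube (h : Lo t n T Ω a b) (h1 : IsQ (Tb t 1 T) a b μ) (h2 : IsQ (Tb t (-1) T) a b μ')
    (h3 : ∀ F ∈ Rw t, |Lp μ' F - Lp μ F| ≤ 1) :
    19456 * t ^ 2 ≤ al t μ' - al t μ ∧ al t μ' - al t μ ≤ 73728 * t ^ 2 := by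
  have ht := h.ht
  have ha := h.ha
  have hb := h.hb
  have c1 : ((Rw t).card : ℤ) = 73728 * t ^ 2 := by rw [Rw, card_Rt (by omega) (by omega)]; ring
  have c2 : ((Rt (88 * t) (296 * t - 1) (-(112 * t)) (112 * t - 1)).card : ℤ) = 46592 * t ^ 2 := by
    rw [card_Rt (by omega) (by omega)]; ring
  have hs : Rt (88 * t) (296 * t - 1) (-(112 * t)) (112 * t - 1) ⊆ Rw t := fun F hF => by
    rw [Rw, mem_Rt]; rw [mem_Rt] at hF; omega
  rw [al, al, ← sum_sub_distrib]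
  constructor
  · have a1 := card_nsmul_le_sum _ _ (-1) fun F (hF : F ∈ Rw t \ Rt (88 * t) (296 * t - 1)
      (-(112 * t)) (112 * t - 1)) => (abs_le.mp (h3 F (mem_sdiff.mp hF).1)).1
    rw [← sum_sdiff hs, sum_congr (s₁ := Rt _ _ _ _) (g := fun _ => 1) rfl fun F hF => ?_,
      sum_const, nsmul_eq_mul, c2]
    · rw [nsmul_eq_mul, card_sdiff_of_subset hs, Nat.cast_sub (card_le_card hs), c1, c2] at a1
      linarith
    · rw [mem_Rt] at hF
      rw [Lp, Lp, ss_zero μ (h1.ch.imp_of_mem_imp fun u v hu hv e => ?_),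
        ss_tel (fun w => if w.1 ≤ F.1 then 1 else 0) h2.hd
        (h2.ch.imp_of_mem_imp fun u v hu hv e => ?_), h2.en, if_pos (by omega), if_neg (by omega)]
      · rfl
      · have := (mem_filter.mp (h2.sub u hu)).2
        have := (mem_filter.mp (h2.sub v hv)).2
        rw [Adj, mem_nb] at e
        unfold ell
        split_ifs <;> omega
      · have := (mem_filter.mp (h1.sub u hu)).2
        have := (mem_filter.mp (h1.sub v hv)).2
        rw [Adj, mem_nb] at e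
        unfold ell
        split_ifs <;> omega
  · have := sum_le_card_nsmul _ _ 1 fun F hF => (abs_le.mp (h3 F hF)).2
    rwa [nsmul_eq_mul, mul_one, c1] at this

lemma stair (w : V) (d : ℕ) : ∀ u : V, (u.1 - w.1).natAbs + (u.2 - w.2).natAbs = d →
    ∃ μ, μ.length = d ∧ (u :: μ).IsChain Adj ∧ (u :: μ).Nodup ∧ lst (u :: μ) = w ∧ ∀ v ∈ u :: μ,
      (min u.1 w.1 ≤ v.1 ∧ v.1 ≤ max u.1 w.1) ∧ (min u.2 w.2 ≤ v.2 ∧ v.2 ≤ max u.2 w.2) ∧
      (v.1 - w.1).natAbs + (v.2 - w.2).natAbs ≤ d := by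
  induction d with
  | zero => exact fun u h => ⟨[], rfl, by simp, by simp, Prod.ext (by simp [lst]; omega)
      (by simp [lst]; omega), by simp; omega⟩
  | succ d ih =>
    intro u h
    obtain ⟨z, hz, h'⟩ : ∃ z ∈ nb u, (z.1 - w.1).natAbs + (z.2 - w.2).natAbs = d := by
      rcases lt_trichotomy u.1 w.1 with a | a | a
      · exact ⟨(u.1 + 1, u.2), by simp [mem_nb], by dsimp only; omega⟩
      · rcases lt_or_ge u.2 w.2 with b | b
        · exact ⟨(u.1, u.2 + 1), by simp [mem_nb], by dsimp only; omega⟩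
        · exact ⟨(u.1, u.2 - 1), by simp [mem_nb], by dsimp only; omega⟩
      · exact ⟨(u.1 - 1, u.2), by simp [mem_nb], by dsimp only; omega⟩
    obtain ⟨μ, a1, a2, a3, a4, a5⟩ := ih z h'
    refine ⟨z :: μ, by simp [a1], List.isChain_cons_cons.mpr ⟨hz, a2⟩,
      List.nodup_cons.mpr ⟨fun e => by have := a5 u e; omega, a3⟩,
      by rw [lst_cons _ (by simp), a4], fun v hv => ?_⟩
    rcases List.mem_cons.mp hv with rfl | hv
    · omega
    · have := a5 v hv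
      rw [mem_nb] at hz
      omega

lemma Zm_lo (μ : List V) : ∀ Ω, Z Ω ≤ 4 ^ μ.length * Zm Ω μ := by
  induction μ with
  | nil => simp [Zm]
  | cons v μ ih =>
    intro Ω
    rw [Zm_cons, List.length_cons, pow_succ', mul_assoc]
    refine le_trans ?_ (mul_le_mul_of_nonneg_left (ih _) (by norm_num))
    have := Z_pos Ω
    by_cases h : v ∈ Ω
    · rw [Z_erase h]
      nlinarith [G_diag wt_one h]
    · rw [erase_eq_of_notMem h]; linarith

lemma gadget (h : Lo 1 n T Ω a b) : ∃ μ μ', IsQ T a b μ ∧ IsQ T a b μ' ∧ μ.length ≤ 300 ∧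
    μ'.length ≤ 300 ∧ |al 1 μ' - al 1 μ| = 1 := by
  have ha := h.ha
  have hb := h.hb
  obtain ⟨μ, a1, a2, a3, a4, a5⟩ := stair b _ (65, a.2) rfl
  obtain ⟨s, hs⟩ : ∃ s : ℤ, (s = -1 ∧ a.2 ≤ b.2) ∨ (s = 1 ∧ b.2 ≤ a.2) := by
    rcases le_total a.2 b.2 with e | e
    exacts [⟨-1, by omega⟩, ⟨1, by omega⟩]
  dsimp only at a1 a5
  have b1 : a ∉ (65, a.2) :: μ := fun e => by have := a5 a e; omega
  have b2 : ∀ v ∈ (65, a.2) :: μ, v ∈ T := fun v hv =>
    h.sub v (by have := a5 v hv; unfold Qs; omega)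
  have b3 : a ∈ T := h.sub a (by unfold Qs; omega)
  refine ⟨a :: (65, a.2) :: μ, a :: (64, a.2 + s) :: (65, a.2 + s) :: (65, a.2) :: μ,
    ⟨rfl, List.isChain_cons_cons.mpr ⟨mem_nb.mpr (by dsimp only; omega), a2⟩,
      List.nodup_cons.mpr ⟨b1, a3⟩, List.forall_mem_cons.mpr ⟨b3, b2⟩,
      by rw [lst_cons _ (by simp), a4]⟩,
    ⟨rfl, List.isChain_cons_cons.mpr ⟨mem_nb.mpr (by dsimp only; omega),
      List.isChain_cons_cons.mpr ⟨mem_nb.mpr (by dsimp only; omega),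
      List.isChain_cons_cons.mpr ⟨mem_nb.mpr (by dsimp only; omega), a2⟩⟩⟩,
      List.nodup_cons.mpr ⟨fun e => ?_, List.nodup_cons.mpr ⟨fun e => ?_,
        List.nodup_cons.mpr ⟨fun e => by have := a5 _ e; omega, a3⟩⟩⟩,
      List.forall_mem_cons.mpr ⟨b3, List.forall_mem_cons.mpr ⟨h.sub _ (by unfold Qs; omega),
        List.forall_mem_cons.mpr ⟨h.sub _ (by unfold Qs; omega), b2⟩⟩⟩,
      by rw [lst_cons _ (by simp), lst_cons _ (by simp), lst_cons _ (by simp), a4]⟩,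
    by simp only [List.length_cons]; omega, by simp only [List.length_cons]; omega, ?_⟩
  · rw [List.mem_cons, List.mem_cons, Prod.ext_iff, Prod.ext_iff] at e
    rcases e with e | e | e
    exacts [by omega, by omega, b1 e]
  · rw [List.mem_cons, Prod.ext_iff] at e
    rcases e with e | e
    · omega
    · have := a5 _ e; omega
  · rw [al, al, ← sum_sub_distrib, sum_congr (g := fun F => if F = (64, min a.2 (a.2 + s)) then -s
      else 0) rfl fun F _ => ?_, sum_ite_eq', if_pos (by rw [Rw, mem_Rt]; omega)]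
    · rcases hs with ⟨rfl, -⟩ | ⟨rfl, -⟩ <;> rfl
    · simp only [Lp, ss, ell, Prod.ext_iff]
      split_ifs <;> omega

/-- the frequency `k` is seen at scale `t` -/
def Fq (M k : ℕ) (t : ℤ) : Prop := ∃ k' : ℤ, (k' = k ∨ k' = M - k) ∧ 0 ≤ k' ∧
  ((2 * (k' * (73728 * t ^ 2)) ≤ M ∧ M ≤ 8 * (k' * (73728 * t ^ 2))) ∨
    (t = 1 ∧ 2 * k' ≤ M ∧ M ≤ 147456 * k'))

/-- `L` is large -/
def Big (L : ℝ) : Prop := 4 ^ 300 ≤ L

lemma zt_re' {M k : ℕ} {k' δ : ℤ} (hM : 0 < M) (hk : k' = k ∨ k' = M - k) (h0 : 0 ≤ k')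
    (h1 : 2 * (k' * |δ|) ≤ M) (h2 : M ≤ 147456 * (k' * |δ|)) (hL : Big L) :
    (zt M ^ ((k : ℤ) * δ)).re ≤ 1 - 1 / L := by
  obtain ⟨z, j, e, e'⟩ : ∃ z j : ℤ, k * δ = z + M * j ∧ |z| = k' * |δ| := by
    rcases hk with e | e
    · exact ⟨k * δ, 0, by ring, by rw [abs_mul, ← e, abs_of_nonneg h0]⟩
    · exact ⟨-(k' * δ), δ, by rw [e]; ring, by rw [abs_neg, abs_mul, abs_of_nonneg h0]⟩
  refine (zt_re hM e (e' ▸ h1)).trans (sub_le_sub_left ?_ _)
  have h0 : (0 : ℝ) < M := by exact_mod_cast hM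
  have : (M : ℝ) ≤ 147456 * |(z : ℝ)| := by exact_mod_cast e' ▸ h2
  have h3 : 1 / 147456 ≤ |(z : ℝ) / M| := by
    rw [abs_div, abs_of_pos h0, div_le_div_iff₀ (by norm_num) h0]; linarith
  have h4 : (4 : ℝ) ^ 20 ≤ L := le_trans (pow_le_pow_right₀ (by norm_num) (by norm_num)) hL
  rw [← sq_abs]
  refine (one_div_le_one_div_of_le (by norm_num) h4).trans ?_
  nlinarith

theorem spread (h : Lo t n T Ω a b) (hL : Lg L n) (hL' : Big L) {M k : ℕ} (hM : 0 < M)
    (hk : Fq M k t) {φ : List V → ℤ}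
    (h1 : ∀ μ μ', IsQ T a b μ → IsQ T a b μ' → |φ μ - φ μ'| = |al t μ' - al t μ| ∧
      ∀ F ∈ Rw t, |Lp μ' F - Lp μ F| ≤ 1) :
    ‖Xf M (PP T a b) (Zm Ω) φ k‖ ≤ 1 - 1 / L ^ 1124 := by
  obtain ⟨k', a1, a2, a3⟩ := hk
  have L0 := hL.pos
  have L1 := hL.ge
  have key : ∃ U U', U ⊆ PP T a b ∧ U' ⊆ PP T a b ∧
      ∑ μ ∈ PP T a b, Zm Ω μ ≤ L ^ 561 * ∑ μ ∈ U, Zm Ω μ ∧
      ∑ μ ∈ PP T a b, Zm Ω μ ≤ L ^ 561 * ∑ μ ∈ U', Zm Ω μ ∧ ∀ μ ∈ U, ∀ μ' ∈ U',
        2 * (k' * |φ μ - φ μ'|) ≤ M ∧ M ≤ 147456 * (k' * |φ μ - φ μ'|) := by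
    rcases a3 with ⟨b1, b2⟩ | ⟨rfl, b1, b2⟩
    · have s : ∀ σ, PP (Tb t σ T) a b ⊆ PP T a b := fun σ μ hμ =>
        mem_PP.mpr ((mem_PP.mp hμ).mono (filter_subset _ _))
      refine ⟨_, _, s 1, s (-1), tube h hL (Or.inl rfl), tube h hL (Or.inr rfl), fun μ c μ' d => ?_⟩
      obtain ⟨e1, e2⟩ := h1 μ μ' (mem_PP.mp (s _ c)) (mem_PP.mp (s _ d))
      obtain ⟨e3, e4⟩ := al_tube h (mem_PP.mp c) (mem_PP.mp d) e2
      rw [e1, abs_of_nonneg (le_trans (by positivity) e3)]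
      have := mul_nonneg a2 (sq_nonneg t)
      constructor <;> nlinarith [mul_le_mul_of_nonneg_left e3 a2, mul_le_mul_of_nonneg_left e4 a2]
    · obtain ⟨μ, μ', c1, c2, c3, c4, c5⟩ := gadget h
      have s : ∀ μ : List V, μ.length ≤ 300 → ∑ μ ∈ PP T a b, Zm Ω μ ≤
          L ^ 561 * ∑ μ ∈ {μ}, Zm Ω μ := fun μ c => by
        refine (sum_le_sum_of_subset_of_nonneg (fun μ hμ => mem_PP.mpr ((mem_PP.mp hμ).mono
          fun v hv => ((h.mem v).mp hv).1)) fun _ _ _ => (Zm_pos _ _).le).trans ?_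
        rw [sum_PP, sum_singleton]
        refine (mul_le_mul ((Zm_lo μ Ω).trans (mul_le_mul_of_nonneg_right
          ((pow_le_pow_right₀ (by norm_num) c).trans hL') (Zm_pos _ _).le))
          ((G_bd hL h.dia a b).trans (show _ ≤ L by linarith)) (G_nn _ _ _)
          (mul_pos L0 (Zm_pos _ _)).le).trans ?_
        rw [mul_right_comm, ← pow_two]
        exact mul_le_mul_of_nonneg_right (pow_le_pow_right₀ (by linarith) (by norm_num))
          (Zm_pos _ _).le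
      refine ⟨{μ}, {μ'}, by simpa [mem_PP], by simpa [mem_PP], s μ c3, s μ' c4, fun ν c ν' d => ?_⟩
      rw [mem_singleton.mp c, mem_singleton.mp d, (h1 μ μ' c1 c2).1, c5]
      omega
  obtain ⟨U, U', c1, c2, c3, c4, c5⟩ := key
  have p : 0 < L ^ 561 := pow_pos L0 _
  have p1 : 1 / L * (1 / L ^ 561) ^ 2 = L * (1 / L ^ 1124) := by field_simp
  have p2 : 0 < 1 / L ^ 1124 := by positivity
  refine (Xf_le (γ := 1 / L ^ 561) (κ := 1 / L) (fun _ _ => (Zm_pos _ _).le) c1 c2 (by positivity)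
    (by positivity) (by rwa [one_div_mul_eq_div, div_le_iff₀' p])
    (by rwa [one_div_mul_eq_div, div_le_iff₀' p]) ?_ fun μ c μ' d =>
      zt_re' hM a1 a2 (c5 μ c μ' d).1 (c5 μ c μ' d).2 hL').trans (by rw [p1]; nlinarith)
  refine (mul_le_one₀ ((div_le_one L0).mpr (by linarith)) (by positivity) (pow_le_one₀
    (by positivity) ((div_le_one p).mpr (one_le_pow₀ (by linarith))))).trans one_le_two

end Pool.Agent.P.MP_5fda20_pr.W
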