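import Pool.Agent.P.MP_5fda20_pr.W.Fo
import Pool.Agent.P.MP_5fda20_pr.W.Loc

/-! The winding function of a pair of branches. -/

namespace Pool.Agent.P.MP_5fda20_pr.W

open Finset U MP_a28080_pr

variable {D : Finset V} {f : V → V} {a p q x y F : V} {l r : List V} {c : List V × List V}
  {g g' g'' : V → V → ℤ}

/-- sum over the steps of a list -/
def ss (g : V → V → ℤ) : List V → ℤ
  | a :: b :: l => g a b + ss g (b :: l)
  | _ => 0

lemma ss_glue (g : V → V → ℤ) (m : V) (r : List V) :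
    ∀ l, ss g (l ++ m :: r) = ss g (l ++ [m]) + ss g (m :: r)
  | [] => by simp [ss]
  | [a] => by simp [ss]
  | a :: b :: l => by
    have := ss_glue g m r (b :: l)
    simp only [List.cons_append, ss] at this ⊢
    omega

lemma ss_lin (s : ℤ) (P : V → ℤ) : ∀ (l : List V) (a : V), l.head? = some a →
    l.IsChain (fun u v => g u v = g' u v + s * g'' u v + P u - P v) →
    ss g l = ss g' l + s * ss g'' l + P a - P (lst l)
  | [], _, h, _ => by simp at h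
  | [b], a, h, _ => by
    obtain rfl : b = a := by simpa using h
    simp [ss, lst]
  | b :: d :: l, a, h, h' => by
    obtain rfl : b = a := by simpa using h
    obtain ⟨h1, h2⟩ := List.isChain_cons_cons.mp h'
    rw [ss, ss, ss, lst_cons _ (by simp), ss_lin s P (d :: l) d rfl h2, h1]
    ring

lemma ss_zero : ∀ l : List V, l.IsChain (fun u v => g u v = 0) → ss g l = 0
  | [], _ => rfl
  | [_], _ => rfl
  | b :: d :: l, h => by
    obtain ⟨h1, h2⟩ := List.isChain_cons_cons.mp h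
    rw [ss, ss_zero (d :: l) h2, h1, add_zero]

lemma ss_tel (P : V → ℤ) (h : l.head? = some a) (h' : l.IsChain fun u v => g u v = P u - P v) :
    ss g l = P a - P (lst l) := by
  have := ss_lin (g := g) (g' := fun _ _ => 0) (g'' := g) 0 P l a h
    (h'.imp fun u v e => by rw [e]; ring)
  rw [ss_zero (g := fun _ _ => 0) l (h'.imp fun _ _ _ => rfl)] at this
  omega

lemma ss_map (e : V → V) : ∀ l : List V, ss g (l.map e) = ss (fun u v => g (e u) (e v)) l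
  | [] => rfl
  | [_] => rfl
  | b :: d :: l => by
    have := ss_map e (d :: l)
    simp only [List.map_cons, ss] at this ⊢
    rw [this]

/-- crossings of the ray below a face -/
def Lp (l : List V) (F : V) : ℤ := ss (fun u v => ell u v F) l

/-- signed number of passages through an edge -/
def CR (l : List V) (p q : V) : ℤ := ss (fun u v => cr u v p q) l

/-- correction for ends on the bottom side -/
def kp (w F : V) : ℤ := if w.2 ≤ 0 ∧ F.1 < w.1 then 1 else 0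

/-- the winding function -/
def Wn (x y : V) (c : List V × List V) (F : V) : ℤ :=
  ell x y F + Lp (sw c).2 F - Lp c.2 F - kp (lst (sw c).2) F + kp (lst c.2) F

/-- the faces -/
noncomputable def Fc (n : ℤ) : Finset V := Rt 0 (n - 1) 0 (n - 1)

/-- the area on the left -/
noncomputable def Ar (n : ℤ) (x y : V) (c : List V × List V) : ℤ :=
  ∑ F ∈ Fc n, (Wn x y c F - Wn x y c (lf y x))

lemma Lp_jump (h : l.head? = some a) (h' : l.IsChain Adj) (hq : q ∈ nb p) :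
    Lp l (lf p q) - Lp l (lf q p) = CR l p q + (ch p q (lst l) - ch p q a) := by
  have := ss_lin (g := fun u v => ell u v (lf p q)) (g' := fun u v => ell u v (lf q p))
    (g'' := fun u v => cr u v p q) 1 (fun w => -ch p q w) l a h
    (h'.imp fun u v e => by have := ell_jump (Or.inl e) hq; omega)
  unfold Lp CR
  omega

lemma CR_out (h : l.IsChain Adj) (h' : p ∉ l ∨ q ∉ l) : CR l p q = 0 :=
  ss_zero l (h.imp_of_mem_imp fun u v hu hv _ => by
    rw [cr, if_neg, if_neg, sub_zero] <;> rintro ⟨rfl, rfl⟩ <;> tauto)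

lemma CR_fol (h : Fol f l) (h' : ¬ (gr f).Adj p q) (hq : q ∈ nb p) : CR l p q = 0 :=
  ss_zero l (h.imp fun u v e => by
    rw [cr, if_neg, if_neg, sub_zero] <;> rintro ⟨rfl, rfl⟩
    exacts [h' (gr_adj.mpr ⟨(nb_ne hq).symm, Or.inr e⟩), h' (gr_adj.mpr ⟨(nb_ne hq).symm, Or.inl e⟩)])

lemma ch_kp {n : ℤ} {w : V} (hw : w ∉ Dm n 1) (hq : q ∈ nb p) (hp : p ∈ Dm n 1 ∨ q ∈ Dm n 1) :
    ch p q w = kp w (lf p q) - kp w (lf q p) := by
  rw [mem_Dm] at hw
  rw [mem_Dm, mem_Dm] at hp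
  rcases lf_cases hq with ⟨rfl, a, b⟩ | ⟨rfl, a, b⟩ | ⟨rfl, a, b⟩ | ⟨rfl, a, b⟩ <;>
    rw [a, b] <;> simp only [ch, kp] at hp ⊢ <;> split_ifs <;> omega

lemma IsC.sw2 (h : IsC D y x c) : (∃ l r, c.1 = l ++ lst c.2 :: r ∧ lst c.2 ∉ l ∧
    (sw c).2 = l ++ [lst c.2]) ∨ (lst c.2 ∉ c.1 ∧ lst c.2 ∉ D ∧ (sw c).2 = c.1) := by
  obtain ⟨σ, τ⟩ := c
  by_cases hm : lst τ ∈ σ
  · obtain ⟨l, r, rfl⟩ := List.append_of_mem hm
    have hl : lst τ ∉ l := fun h' => (List.nodup_append.mp h.1.nd).2.2 _ h' _ (by simp) rfl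
    exact Or.inl ⟨l, r, rfl, hl, by rw [sw_in hl rfl]⟩
  · exact Or.inr ⟨hm, fun h' => h.2.out (by simp [h', hm]), by rw [sw_out hm]⟩

lemma IsC.pref (h : IsC D y x c) : ∃ r, c.1 = (sw c).2 ++ r := by
  rcases h.sw2 with ⟨l, r, a, -, b⟩ | ⟨-, -, b⟩
  exacts [⟨r, by rw [b, a]; simp⟩, ⟨[], by simp [b]⟩]

lemma Wn_jump {n : ℤ} (h : IsC (Dm n 1) y x c) (hx : x ∈ nb y) (hq : q ∈ nb p)
    (hp : p ∈ Dm n 1 ∨ q ∈ Dm n 1) : Wn x y c (lf p q) - Wn x y c (lf q p) =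
      cr x y p q + CR (sw c).2 p q - CR c.2 p q := by
  have a1 := ell_jump (Or.inl (nb_symm hx)) hq
  have a2 := Lp_jump (sw_spec h).1.2.hd (sw_spec h).1.2.ch hq
  have a3 := Lp_jump h.2.hd h.2.ch hq
  unfold Wn
  rcases h.sw2 with ⟨l, r, -, -, b⟩ | ⟨-, a, b⟩
  · rw [show lst (sw c).2 = lst c.2 by rw [b, lst_snoc]] at a2 ⊢
    omega
  · have a4 := ch_kp a hq hp
    have a5 := ch_kp (b ▸ h.1.out : lst (sw c).2 ∉ Dm n 1) hq hp
    omega

/-- the edge is not used by the branches -/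
def Gd (x y : V) (c : List V × List V) : Prop := lst c.2 ≠ y ∧ ∀ r, c.1 ≠ y :: x :: r

lemma IsP.two (h : IsP D a l) (ha : a ∈ D) : ∃ z r, l = a :: z :: r := by
  obtain ⟨ω, rfl⟩ := h.eq_cons
  rcases ω with _ | ⟨z, r⟩
  exacts [absurd ha h.out, ⟨z, r, rfl⟩]

lemma Gd.adj (hg : Gd x y c) (h : IsC D y x c) (hy : y ∈ D) (hf : f ∈ For D nb) (h1 : Fol f c.1)
    (h2 : Fol f c.2) : ¬ (gr f).Adj x y := by
  rw [gr_adj]
  rintro ⟨hne, e | e⟩
  · have hx : x ∈ D := by_contra fun h' => hne (((mem_For.mp hf).1 x h').symm.trans e)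
    by_cases h3 : x ∈ c.1
    · obtain ⟨s, r, e1⟩ := List.append_of_mem h3
      have a1 := (h.1.mem x h3).mp hx
      have a2 := h.1.hd
      have a3 := h.1.nd
      rw [e1] at h1 a1 a2 a3
      rcases r with _ | ⟨w, r⟩
      · simp at a1
      rcases s with _ | ⟨z, s⟩
      · exact hne (by simpa using a2)
      obtain rfl : z = y := by simpa using a2
      have := (List.isChain_cons_cons.mp (List.isChain_split.mp h1).2).1
      simp [← this, e] at a3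
    · obtain ⟨z, r, e1⟩ := h.2.two (by simp [hx, h3])
      have a1 := h.2.mem z (by simp [e1])
      rw [e1] at h2
      rw [← (List.isChain_cons_cons.mp h2).1, e] at a1
      exact hg.1 (by_contra fun h' => by simpa [h.1.mem_hd] using a1.mpr (Ne.symm h'))
  · obtain ⟨z, r, e1⟩ := h.1.two hy
    rw [e1] at h1
    exact hg.2 r (by rw [e1, ← (List.isChain_cons_cons.mp h1).1, e])

lemma mem_Fc {n : ℤ} : F ∈ Fc n ↔ (0 ≤ F.1 ∧ F.1 ≤ n - 1) ∧ 0 ≤ F.2 ∧ F.2 ≤ n - 1 := mem_Rt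

lemma ex_co' {n : ℕ} (h : F ∈ Fc n) : ∃ s : Fin n × Fin n, co s = F := by
  rw [mem_Fc] at h
  exact ⟨(⟨F.1.toNat, by omega⟩, ⟨F.2.toNat, by omega⟩), Prod.ext (by simp [co]; omega)
    (by simp [co]; omega)⟩

lemma sum_co {n : ℕ} (φ : V → ℤ) : ∑ s : Fin n × Fin n, φ (co s) = ∑ F ∈ Fc n, φ F :=
  sum_nbij co (fun s _ => by rw [mem_Fc, co]; omega) (fun _ _ _ _ e => co_inj e)
    (fun F hF => let ⟨s, e⟩ := ex_co' hF; ⟨s, by simp, e⟩) fun _ _ => rfl

lemma spl {m : ℕ} (h : IsC (Dm (m + 1 : ℕ) 1) y x c) (hy : y ∈ Dm (m + 1 : ℕ) 1) (hx : x ∈ nb y)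
    (hf : f ∈ For (Dm (m + 1 : ℕ) 1) nb) (h1 : Fol f c.1) (h2 : Fol f c.2)
    (hg : ¬ (gr f).Adj x y) : ∃ u v, co u = lf x y ∧ co v = lf y x ∧
      Spl (Pr (m + 1) (gr f)) (fun s => Wn x y c (co s) - Wn x y c (lf y x)) u v := by
  obtain ⟨v, u, e1, e2, e3, e4, e5⟩ := ex_co hy hx
  obtain ⟨r, e⟩ := h.pref
  have h3 : Fol f (sw c).2 := List.IsChain.left_of_append (e ▸ h1 : Fol f ((sw c).2 ++ r))
  refine ⟨u, v, e2, e1, Spl.of_tree (Pr_tree hf) ⟨e3.symm, by rwa [e4, e5]⟩ (fun s t ha hne => ?_)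
    ?_ (by simp [e1])⟩
  · have h' := grid_adj.mp ha.1
    have := Wn_jump h hx (nb_du h') (du_mem ha.1)
    rw [lf_du h', lf_du (nb_symm h'), CR_fol h2 ha.2 (nb_du h'), CR_fol h3 ha.2 (nb_du h'), cr,
      if_neg, if_neg] at this
    · omega
    · rintro ⟨a, b⟩
      refine hne (Sym2.eq_iff.mpr (Or.inr ⟨co_inj ?_, co_inj ?_⟩))
      · rw [e1, a, b, lf_du h']
      · rw [e2, a, b, lf_du (nb_symm h')]
    · rintro ⟨a, b⟩
      refine hne (Sym2.eq_iff.mpr (Or.inl ⟨co_inj ?_, co_inj ?_⟩))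
      · rw [e2, a, b, lf_du h']
      · rw [e1, a, b, lf_du (nb_symm h')]
  · have := Wn_jump h hx (nb_symm hx) (Or.inr hy)
    rw [CR_fol h2 hg (nb_symm hx), CR_fol h3 hg (nb_symm hx), cr, if_pos ⟨rfl, rfl⟩,
      if_neg fun e => nb_ne hx e.1] at this
    simp only [e2]
    omega

lemma two {m : ℕ} (h : IsC (Dm (m + 1 : ℕ) 1) y x c) (hy : y ∈ Dm (m + 1 : ℕ) 1) (hx : x ∈ nb y)
    (hg : Gd x y c) : Wn x y c (lf x y) = Wn x y c (lf y x) + 1 ∧ ∀ F ∈ Fc (m + 1 : ℕ),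
      Wn x y c F = Wn x y c (lf y x) ∨ Wn x y c F = Wn x y c (lf y x) + 1 := by
  obtain ⟨f, hf, h1, h2⟩ := h.ex
  obtain ⟨u, v, e1, -, hs⟩ := spl h hy hx hf h1 h2 (hg.adj h hy hf h1 h2)
  have := hs.lu
  rw [e1] at this
  refine ⟨by omega, fun F hF => ?_⟩
  obtain ⟨s, rfl⟩ := ex_co' hF
  have := hs.val s
  omega

end Pool.Agent.P.MP_5fda20_pr.W
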