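import Pool.Agent.P.MP_5fda20_pr.W.Lst

/-! Transfer, paths between two points, and exchange of the order of two branches. -/

namespace Pool.Agent.P.MP_5fda20_pr.W

open Finset U

variable {D A T : Finset V} {a b q z m : V} {π β γ l r τ σ μ : List V} {F F' : List V → ℝ}

open Classical in
/-- indicator -/
noncomputable def chi (p : Prop) : ℝ := if p then 1 else 0

lemma chi_pos {p : Prop} (h : p) : chi p = 1 := if_pos h
lemma chi_neg {p : Prop} (h : ¬ p) : chi p = 0 := if_neg h
lemma chi_nonneg (p : Prop) : 0 ≤ chi p := by unfold chi; split_ifs <;> norm_num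
lemma chi_le (p : Prop) : chi p ≤ 1 := by unfold chi; split_ifs <;> norm_num
lemma chi_mono {p p' : Prop} (h : p → p') : chi p ≤ chi p' := by
  by_cases hp : p
  · rw [chi_pos hp, chi_pos (h hp)]
  · rw [chi_neg hp]; exact chi_nonneg _

lemma isP_snoc : IsP D a (l ++ [m]) ↔ (l ++ [m]).head? = some a ∧ (l ++ [m]).IsChain Adj ∧
    l.Nodup ∧ (∀ v ∈ l, v ∈ D) ∧ m ∉ D := by
  constructor
  · intro h
    have hn := List.nodup_append.mp h.nd
    refine ⟨h.hd, h.ch, hn.1, fun v hv => (h.mem v (by simp [hv])).mpr ?_, by simpa using h.out⟩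
    rw [lst_snoc]
    exact hn.2.2 v hv m (by simp)
  · rintro ⟨h1, h2, h3, h4, h5⟩
    refine ⟨h1, h2, List.nodup_append.mpr ⟨h3, by simp, fun v hv w hw e => ?_⟩, fun v hv => ?_⟩
    · rw [List.mem_singleton] at hw
      exact h5 (hw ▸ e ▸ h4 v hv)
    · rw [lst_snoc]
      rcases List.mem_append.mp hv with h | h
      · exact ⟨fun h' e => h5 (e ▸ h'), fun _ => h4 v h⟩
      · rw [List.mem_singleton] at h
        simp [h, h5]

lemma IsP.snoc (h : IsP D a π) : ∃ l, π = l ++ [lst π] := by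
  rcases List.eq_nil_or_concat' π with e | ⟨l, m, rfl⟩
  · exact absurd e h.ne
  · exact ⟨l, by simp⟩

/-- a past `β` with tip `q` -/
structure Pst (D : Finset V) (a : V) (β : List V) (q : V) : Prop where
  hd : (β ++ [q]).head? = some a
  ch : (β ++ [q]).IsChain Adj
  nd : β.Nodup
  sub : ∀ v ∈ β, v ∈ D

lemma chain_glue (h : (l ++ [m]).IsChain Adj) (h' : (m :: r).IsChain Adj) :
    (l ++ m :: r).IsChain Adj := List.isChain_split.mpr ⟨h, h'⟩

lemma head_glue (l : List V) (m : V) (r : List V) : (l ++ m :: r).head? = (l ++ [m]).head? := by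
  cases l <;> simp

lemma Pst.app (h : Pst D a β q) (h' : IsP (D \ β.toFinset) q γ) (hl : lst γ ∉ β) :
    IsP D a (β ++ γ) := by
  have hd : ∀ v ∈ γ, v ∉ β := fun v hv hb => by
    have := h'.mem v hv
    simp only [mem_sdiff, List.mem_toFinset, hb, not_true, and_false, false_iff, not_not] at this
    exact hl (this ▸ hb)
  obtain ⟨ω, rfl⟩ := h'.eq_cons
  refine ⟨(head_glue _ _ _).trans h.hd, chain_glue h.ch h'.ch,
    List.nodup_append.mpr ⟨h.nd, h'.nd, fun v hv w hw e => hd w hw (e ▸ hv)⟩, fun v hv => ?_⟩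
  rw [lst_app _ h'.ne]
  rcases List.mem_append.mp hv with hv | hv
  · exact ⟨fun _ e => hl (e ▸ hv), fun _ => h.sub v hv⟩
  · rw [← h'.mem v hv]
    simp [hd v hv]

lemma IsP.split (h : IsP D a (β ++ q :: γ)) :
    Pst D a β q ∧ IsP (D \ β.toFinset) q (q :: γ) ∧ lst (q :: γ) ∉ β := by
  have hn := List.nodup_append.mp h.nd
  have hc := List.isChain_split.mp h.ch
  have hl : lst (β ++ q :: γ) = lst (q :: γ) := lst_app _ (by simp)
  have h3 : lst (q :: γ) ∉ β := fun h' => hn.2.2 _ h' _ (lst_mem (by simp)) rfl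
  refine ⟨⟨(head_glue _ _ _).symm.trans h.hd, hc.1, hn.1, fun v hv => ?_⟩,
    ⟨rfl, hc.2, hn.2.1, fun v hv => ?_⟩, h3⟩
  · exact (h.mem v (by simp [hv])).mpr (hl ▸ fun e => h3 (e ▸ hv))
  · rw [← hl, ← h.mem v (List.mem_append_right _ hv), mem_sdiff, List.mem_toFinset]
    exact and_iff_left fun h' => hn.2.2 _ h' _ hv rfl

/-- transfer at the first visit of a set -/
lemma N_tr (s : V → Prop) (D : Finset V) : ∀ (A : Finset V) (a : V) (F F' : List V → ℝ),
    (∀ β q, Pst D a β q → (∀ v ∈ β, ¬ s v) → s q →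
      N (D \ β.toFinset) (A ∪ β.toFinset) q (fun γ => F (β ++ γ)) ≤
        N (D \ β.toFinset) (A ∪ β.toFinset) q (fun γ => F' (β ++ γ))) →
    (∀ π, IsP D a π → (∀ v ∈ π, ¬ s v) → F π ≤ F' π) → N D A a F ≤ N D A a F' := by
  induction D using ind_erase with
  | h D ih =>
    intro A a F F' h h0
    by_cases hs : s a
    · simpa using h [] a ⟨rfl, by simp, by simp, by simp⟩ (by simp) hs
    by_cases ha : a ∈ D
    swap
    · exact N_mono fun π hπ _ => h0 π hπ (by rw [(isP_out ha).mp hπ]; simpa using hs)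
    rw [N_in ha, N_in ha]
    refine sum_le_sum fun z hz => ?_
    have e : ∀ F : List V → ℝ, N (D.erase a) (insert a A) z (fun ω => F (a :: ω)) =
        N (D.erase a) (insert a A) z (fun ω => if lst ω = a then 0 else F (a :: ω)) := fun F =>
      N_congr fun π _ h2 => (if_neg fun e : lst π = a => h2 (e ▸ mem_insert_self _ _)).symm
    rw [e F, e F']
    refine ih a ha _ z _ _ (fun β q hp h1 h2 => ?_) fun π hπ h1 => ?_
    · have hz' : (β ++ [q]) = z :: (β ++ [q]).tail := (List.cons_head?_tail hp.hd).symm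
      have := h (a :: β) q ⟨rfl, by
          rw [List.cons_append, hz']
          exact List.isChain_cons_cons.mpr ⟨hz, hz' ▸ hp.ch⟩,
        List.nodup_cons.mpr ⟨fun h' => notMem_erase a D (hp.sub a h'), hp.nd⟩,
        fun v hv => by
          rcases List.mem_cons.mp hv with rfl | hv
          exacts [ha, mem_of_mem_erase (hp.sub v hv)]⟩ (by simpa [hs] using h1) h2
      have e1 : D \ (a :: β).toFinset = D.erase a \ β.toFinset := by
        ext v; simp only [mem_sdiff, List.toFinset_cons, mem_insert, mem_erase]; tauto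
      have e2 : A ∪ (a :: β).toFinset = insert a A ∪ β.toFinset := by
        ext v; simp only [mem_union, List.toFinset_cons, mem_insert]; tauto
      have e3 : ∀ F : List V → ℝ, N (D.erase a \ β.toFinset) (insert a A ∪ β.toFinset) q
          (fun γ => if lst (β ++ γ) = a then 0 else F (a :: (β ++ γ))) =
          N (D.erase a \ β.toFinset) (insert a A ∪ β.toFinset) q fun γ => F (a :: β ++ γ) :=
        fun F => N_congr fun π h1 h2 => if_neg fun e => h2 (by
          rw [lst_app _ h1.ne] at e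
          simp [e])
      rwa [e3, e3, ← e1, ← e2]
    · split_ifs with h2
      · exact le_rfl
      · exact h0 _ ((isP_in ha).mpr ⟨z, hz, π, hπ, h2, rfl⟩) (by simpa [hs] using h1)

/-- a self-avoiding path in `D` from `a` to `b` -/
structure IsQ (D : Finset V) (a b : V) (μ : List V) : Prop where
  hd : μ.head? = some a
  ch : μ.IsChain Adj
  nd : μ.Nodup
  sub : ∀ v ∈ μ, v ∈ D
  en : lst μ = b

lemma IsQ.ne (h : IsQ D a b μ) : μ ≠ [] := fun e => by simpa [e] using h.hd

lemma IsQ.mono (h : IsQ T a b μ) (h' : T ⊆ D) : IsQ D a b μ :=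
  ⟨h.hd, h.ch, h.nd, fun v hv => h' (h.sub v hv), h.en⟩

/-- the finite set of paths between two points -/
noncomputable def PP (D : Finset V) (a b : V) : Finset (List V) :=
  (Pa (D.erase b) a).filter fun μ => lst μ = b ∧ b ∈ D

lemma mem_PP : μ ∈ PP D a b ↔ IsQ D a b μ := by
  rw [PP, mem_filter, mem_P]
  constructor
  · rintro ⟨h, rfl, hb⟩
    refine ⟨h.hd, h.ch, h.nd, fun v hv => ?_, rfl⟩
    by_cases e : v = lst μ
    exacts [e ▸ hb, mem_of_mem_erase ((h.mem v hv).mpr e)]
  · intro h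
    refine ⟨⟨h.hd, h.ch, h.nd, fun v hv => ?_⟩, h.en, h.en ▸ h.sub _ (lst_mem h.ne)⟩
    simp [h.sub v hv, h.en]

lemma sum_PP (D : Finset V) (a b : V) : ∑ μ ∈ PP D a b, Zm D μ = Z D * G1 D a b := by
  by_cases hb : b ∈ D
  swap
  · simp [PP, hb, G1_symm D a b, G_off hb]
  have hg := G_pos wt_one hb
  have := N_har (D.erase b) ∅ (fun v => if v = b then 1 else 0) (fun v => G1 D v b / G1 D b b)
    (fun x hx => by
      have e := G1_eq (mem_of_mem_erase hx) b
      rw [dl_ne (mem_erase.mp hx).1, zero_add] at e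
      rw [← sum_div, ← e, mul_div_assoc]) (fun v hv => by
      by_cases e : v = b
      · simp [e, hg.ne']
      · simp [e, G_off fun h' => hv (mem_erase.mpr ⟨e, h'⟩)]) a
  rw [Z_erase hb, mul_comm (G1 D b b), mul_assoc, mul_div_cancel₀ _ hg.ne'] at this
  rw [← this, N, PP, sum_filter]
  refine sum_congr rfl fun μ hμ => ?_
  by_cases e : lst μ = b
  · simp only [e, hb, and_self, if_true, notMem_empty, if_false, mul_one]
    refine Zm_congr fun v => ⟨fun h => ⟨mem_erase.mpr ⟨fun e' => h.2 ?_, h.1⟩, h.2⟩,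
      fun h => ⟨mem_of_mem_erase h.1, h.2⟩⟩
    rw [e', ← e]
    exact lst_mem (mem_P.mp hμ).ne
  · simp [e]

lemma le_sum_PP (h : T ⊆ D) (a b : V) : Z D * G1 T a b ≤ ∑ μ ∈ PP T a b, Zm D μ := by
  have e := sum_PP T a b
  rw [mul_comm, ← div_eq_iff (Z_pos T).ne', sum_div] at e
  rw [← e, mul_comm, ← le_div_iff₀ (Z_pos D), sum_div]
  exact sum_le_sum fun μ hμ => Zm_mono μ h fun v hv _ => (mem_PP.mp hμ).sub v hv

/-- two branches, the first from `z`, the second from `a` -/
def IsC (D : Finset V) (z a : V) (c : List V × List V) : Prop :=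
  IsP D z c.1 ∧ IsP (D \ c.1.toFinset) a c.2

/-- the finite set of pairs of branches -/
noncomputable def CC (D : Finset V) (z a : V) : Finset (List V × List V) :=
  ((Pa D z).sigma fun σ => Pa (D \ σ.toFinset) a).map (Equiv.sigmaEquivProd _ _).toEmbedding

lemma mem_CC {c : List V × List V} : c ∈ CC D z a ↔ IsC D z a c := by
  simp [CC, IsC, mem_map_equiv, mem_P]

/-- weight of a pair -/
noncomputable def wt (D : Finset V) (c : List V × List V) : ℝ := Zm D (c.1 ++ c.2)

lemma wt_pos (D : Finset V) (c : List V × List V) : 0 < wt D c := Zm_pos _ _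

lemma sum_CC (f : List V × List V → ℝ) : ∑ c ∈ CC D z a, wt D c * f c =
    ∑ σ ∈ Pa D z, N (D \ σ.toFinset) ∅ a fun τ => f (σ, τ) := by
  simp [CC, sum_sigma, N, wt, Zm_app]

/-- exchange of the order of two branches -/
def sw (c : List V × List V) : List V × List V :=
  (c.2 ++ (c.1.dropWhile (· ≠ lst c.2)).tail,
    c.1.takeWhile (· ≠ lst c.2) ++ (c.1.dropWhile (· ≠ lst c.2)).take 1)

lemma tw_ne (h : m ∉ l) (r : List V) : (l ++ m :: r).takeWhile (· ≠ m) = l ∧
    (l ++ m :: r).dropWhile (· ≠ m) = m :: r := by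
  have : ∀ v ∈ l, decide (v ≠ m) = true := fun v hv => decide_eq_true fun e => h (e ▸ hv)
  rw [List.takeWhile_append_of_pos this, List.dropWhile_append_of_pos this]
  simp

lemma sw_in (h : m ∉ l) (h' : lst τ = m) : sw (l ++ m :: r, τ) = (τ ++ r, l ++ [m]) := by
  simp only [sw, h', tw_ne h r]
  simp

lemma sw_out (h : lst τ ∉ σ) : sw (σ, τ) = (τ, σ) := by
  have : ∀ v ∈ σ, decide (v ≠ lst τ) = true := fun v hv => decide_eq_true fun e => h (e ▸ hv)
  simp only [sw, List.takeWhile_eq_self_iff.mpr this, List.dropWhile_eq_nil_iff.mpr this]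
  simp

lemma sw_spec {c : List V × List V} (h : IsC D z a c) :
    IsC D a z (sw c) ∧ sw (sw c) = c ∧ wt D (sw c) = wt D c := by
  obtain ⟨σ, τ⟩ := c
  obtain ⟨h1, h2⟩ := h
  obtain ⟨τ', e⟩ := h2.snoc
  dsimp only at h1 h2 e
  generalize lst τ = m at e
  subst e
  obtain ⟨b1, b2, b3, b4, b5⟩ := isP_snoc.mp h2
  simp only [mem_sdiff, List.mem_toFinset] at b4 b5
  by_cases hm : m ∈ σ
  · obtain ⟨l, r, rfl⟩ := List.append_of_mem hm
    obtain ⟨c1, c2, c3⟩ := h1.split
    have hn := List.nodup_append.mp h1.nd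
    have hl : m ∉ l := fun h' => hn.2.2 m h' m (by simp) rfl
    have ht : m ∉ τ' := fun h' => (b4 m h').2 hm
    rw [sw_in hl (lst_snoc _ _), List.append_assoc, List.singleton_append, sw_in ht (lst_snoc _ _)]
    refine ⟨⟨Pst.app ⟨b1, b2, b3, fun v hv => (b4 v hv).1⟩ ⟨rfl, c2.ch, c2.nd, fun v hv => ?_⟩
      fun h' => (b4 _ h').2 (List.mem_append_right _ (lst_mem (by simp))),
      isP_snoc.mpr ⟨c1.hd, c1.ch, c1.nd, fun v hv => ?_, by simp⟩⟩, by simp, Zm_congr fun v => ?_⟩
    · rw [← c2.mem v hv]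
      simp only [mem_sdiff, List.mem_toFinset]
      exact and_congr_right fun _ => ⟨fun _ h' => hn.2.2 v h' v hv rfl,
        fun _ h' => (b4 v h').2 (List.mem_append_right _ hv)⟩
    · simp only [mem_sdiff, List.mem_toFinset, List.mem_append, not_or]
      exact ⟨c1.sub v hv, fun h' => (b4 v h').2 (List.mem_append_left _ hv),
        fun h' => hn.2.2 v hv v h' rfl⟩
    · simp only [List.mem_append, List.mem_cons]
      tauto
  · have h3 : ∀ v ∈ σ, v ∉ τ' ++ [m] := fun v hv h' => by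
      rcases List.mem_append.mp h' with h' | h'
      exacts [(b4 v h').2 hv, hm (List.mem_singleton.mp h' ▸ hv)]
    rw [sw_out (by simpa using hm), sw_out (h3 _ (lst_mem h1.ne))]
    refine ⟨⟨isP_snoc.mpr ⟨b1, b2, b3, fun v hv => (b4 v hv).1, fun h' => b5 ⟨h', hm⟩⟩,
      h1.hd, h1.ch, h1.nd, fun v hv => ?_⟩, rfl, Zm_congr fun v => ?_⟩
    · rw [← h1.mem v hv, mem_sdiff, List.mem_toFinset]
      exact and_iff_left (h3 v hv)
    · simp only [List.mem_append]
      tauto

lemma sum_sw (f : List V × List V → ℝ) :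
    ∑ c ∈ CC D z a, wt D c * f (sw c) = ∑ c ∈ CC D a z, wt D c * f c :=
  sum_nbij' sw sw (fun _ h => mem_CC.mpr (sw_spec (mem_CC.mp h)).1)
    (fun _ h => mem_CC.mpr (sw_spec (mem_CC.mp h)).1) (fun _ h => (sw_spec (mem_CC.mp h)).2.1)
    (fun _ h => (sw_spec (mem_CC.mp h)).2.1) fun _ h => by rw [(sw_spec (mem_CC.mp h)).2.2]

end Pool.Agent.P.MP_5fda20_pr.W
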