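import Pool.Agent.P.MP_5fda20_pr.W.Tra

/-! Concatenation of branches and multiple visits. -/

namespace Pool.Agent.P.MP_5fda20_pr.W

open Finset U

variable {D A T : Finset V} {a b z : V}

lemma G_nn (D : Finset V) (x y : V) : 0 ≤ G1 D x y := G_nonneg wt_one _ _

lemma G_mo (h : T ⊆ D) (x y : V) : G1 T x y ≤ G1 D x y :=
  G_mono wt_one wt_one h (fun _ _ _ _ => le_rfl) _ _

lemma G1_har {x y : V} (hx : x ∈ D) (h : x ≠ y) : 4 * G1 D x y = ∑ z ∈ nb x, G1 D z y := by
  rw [G1_eq hx, dl_ne h, zero_add]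

lemma G1_sub (D : Finset V) {x y : V} (h : x ≠ y) : 4 * G1 D x y ≤ ∑ z ∈ nb x, G1 D z y := by
  by_cases hx : x ∈ D
  · exact (G1_har hx h).le
  · rw [G1, G_off hx, mul_zero]
    exact sum_nonneg fun _ _ => G_nn _ _ _

lemma G1_le_diag (D : Finset V) (x y : V) : G1 D x y ≤ G1 D y y :=
  har_le (D := D.erase y) (g := fun x => G1 D x y) (h := fun _ => G1 D y y)
    (fun _ hv => G1_sub D (mem_erase.mp hv).1) (fun v _ => (sum_nb_const v _).le) (fun v hv => by
      by_cases e : v = y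
      · rw [e]
      · exact (G_off (fun h => hv (mem_erase.mpr ⟨e, h⟩)) y).trans_le (G_nn _ _ _)) x

/-- a superharmonic function dominates the hitting probability -/
lemma hit_le {f : V → ℝ} (hf : ∀ v ∈ T, ∑ z ∈ nb v, f z ≤ 4 * f v)
    (h0 : ∀ v ∈ T, ∀ w ∈ nb v, 0 ≤ f w) (hz : z ∈ T) (ha : a ∈ T) :
    f z * G1 T a z ≤ f a * G1 T z z := by
  by_cases e : a = z
  · rw [e]
  have h1 : 0 ≤ f z := by linarith [hf z hz, sum_nonneg (h0 z hz)]
  refine har_le' (D := T.erase z) (g := fun x => f z * G1 T x z) (h := fun x => f x * G1 T z z)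
    (fun v hv => ?_) (fun v hv => ?_) (fun x hx w hw hw' => ?_) (mem_erase.mpr ⟨e, ha⟩)
  · rw [← mul_sum, ← G1_har (mem_of_mem_erase hv) (mem_erase.mp hv).1]
    exact le_of_eq (by ring)
  · rw [← sum_mul, ← mul_assoc]
    exact mul_le_mul_of_nonneg_right (hf v (mem_of_mem_erase hv)) (G_nn _ _ _)
  · by_cases e : w = z
    · rw [e]
    · rw [G1, G_off fun h => hw' (mem_erase.mpr ⟨e, h⟩), mul_zero]
      exact mul_nonneg (h0 x (mem_of_mem_erase hx) w hw) (G_nn _ _ _)

lemma conc (hT : T ⊆ D) (hz : z ∈ T) {F F' : List V → Prop}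
    (h : ∀ l m r τ, IsP D z (l ++ m :: r) → F' (l ++ m :: r) → τ.head? = some a →
      τ.IsChain Adj → lst τ = m → (∀ v ∈ τ, v ∈ T) → F (τ ++ r)) :
    G1 T a z / G1 T z z * N D A z (fun π => chi (F' π)) ≤ N D A a fun π => chi (F π) := by
  classical
  have hg := G_pos wt_one hz
  have e := sum_sw (D := D) (z := z) (a := a) fun c => if lst c.1 ∈ A then 0 else chi (F c.1)
  rw [sum_CC, sum_CC] at e
  refine le_trans ?_ (e.le.trans (sum_le_sum fun π _ => ?_))
  · rw [N, mul_sum]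
    refine sum_le_sum fun σ hσ => ?_
    have hp := mem_P.mp hσ
    have h0 : ∀ τ, (0 : ℝ) ≤ if lst (sw (σ, τ)).1 ∈ A then 0 else chi (F (sw (σ, τ)).1) :=
      fun τ => by split_ifs; exacts [le_rfl, chi_nonneg _]
    by_cases h1 : lst σ ∈ A
    · rw [if_pos h1, mul_zero]; exact N_nonneg h0
    by_cases h2 : F' σ
    swap
    · rw [if_neg h1, chi_neg h2, mul_zero, mul_zero]; exact N_nonneg h0
    rw [if_neg h1, chi_pos h2, mul_one, Zm, ← le_div_iff₀ (Z_pos _)]
    refine le_trans ?_ (N_dom (A' := ∅) (F := fun τ => chi (lst τ ∈ T))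
      (sdiff_subset_sdiff hT Subset.rfl) h0 fun τ hτ _ => ?_)
    · rw [N_har _ ∅ (fun v => chi (v ∈ T)) _ (Hm_har _ fun v => chi (v ∈ T)) (fun v hv => by
        rw [Hm_off hv]; simp), mul_div_cancel_left₀ _ (Z_pos _).ne']
      refine le_Hm (g := fun v => G1 T v z / G1 T z z) (fun v hv => ?_) (fun v _ => ?_) a
      · rw [← sum_div, ← mul_div_assoc]
        refine div_le_div_of_nonneg_right (G1_sub _ fun e => ?_) hg.le
        exact (mem_sdiff.mp hv).2 (List.mem_toFinset.mpr (e ▸ hp.mem_hd))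
      · by_cases h3 : v ∈ T
        · rw [chi_pos h3, div_le_one hg]; exact G1_le_diag _ _ _
        · rw [chi_neg h3, G1, G_off h3, zero_div]
    · by_cases h3 : lst τ ∈ T
      swap
      · exact Or.inl (chi_neg h3).le
      have h4 : lst τ ∈ σ := by simpa [h3] using hτ.out
      obtain ⟨l, r, rfl⟩ := List.append_of_mem h4
      have hl : lst τ ∉ l := fun h' => (List.nodup_append.mp hp.nd).2.2 _ h' _ (by simp) rfl
      refine Or.inr ⟨by simp, by simp, ?_⟩
      have e1 : lst (τ ++ r) = lst (l ++ lst τ :: r) := by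
        obtain ⟨τ', e⟩ := hτ.snoc
        rw [lst_app l (by simp)]
        conv_lhs => rw [e, List.append_assoc, lst_app τ' (by simp)]
        rfl
      rw [sw_in hl rfl, if_neg (e1 ▸ h1), chi_pos h3, chi_pos]
      refine h l _ r τ hp h2 hτ.hd hτ.ch rfl fun v hv => ?_
      by_cases e : v = lst τ
      exacts [e ▸ h3, (mem_sdiff.mp ((hτ.mem v hv).mpr e)).1]
  · split_ifs with h1
    · simp [N_zero]
    · have := N_smul (D := D \ π.toFinset) (A := ∅) (a := z) (F := fun _ => 1) (chi (F π))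
      rw [mul_one] at this
      rw [this, mul_comm]
      exact mul_le_mul_of_nonneg_right (N_le_Z fun _ => le_rfl) (chi_nonneg _)

/-- a family of supersolutions for multiple visits -/
structure Fam (W : ℕ → V → Prop) (D A : Finset V) (Φ : Finset ℕ → V → ℝ) : Prop where
  sup : ∀ M, ∀ v ∈ D, ∑ z ∈ nb v, Φ M z ≤ 4 * Φ M v
  nn : ∀ M v, 0 ≤ Φ M v
  cp : ∀ M, ∀ j ∈ M, ∀ v, W j v → 2 * Φ (M.erase j) v ≤ Φ M v
  one : ∀ M v, v ∉ D → v ∉ A → 1 ≤ Φ M v

variable {W : ℕ → V → Prop} {Φ : Finset ℕ → V → ℝ}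

lemma Fam.clo (h : Fam W D A Φ) : ∃ Ψ, Fam W D A Ψ ∧ (∀ M v, Ψ M v ≤ Φ M v) ∧
    ∀ M, ∀ j ∈ M, ∀ v, Ψ M v ≤ 2 * Ψ (M.erase j) v := by
  let t : Finset ℕ → Finset ℕ → V → ℝ := fun M M' v => 2 ^ (M \ M').card * Φ M' v
  let Ψ : Finset ℕ → V → ℝ := fun M v => M.powerset.inf' (powerset_nonempty M) fun M' => t M M' v
  have h1 : ∀ M M' v, M' ⊆ M → Ψ M v ≤ t M M' v := fun M M' v h' =>
    inf'_le (fun M' => t M M' v) (mem_powerset.mpr h')
  have h2 : ∀ M v, ∃ M' ⊆ M, Ψ M v = t M M' v := fun M v => by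
    obtain ⟨M', a, b⟩ := exists_mem_eq_inf' (powerset_nonempty M) fun M' => t M M' v
    exact ⟨M', mem_powerset.mp a, b⟩
  have h3 : ∀ M, ∀ j ∈ M, ∀ M' v, j ∉ M' → t M M' v = 2 * t (M.erase j) M' v := by
    intro M j hj M' v hj'
    simp only [t]
    rw [erase_sdiff_comm, ← card_erase_add_one (mem_sdiff.mpr ⟨hj, hj'⟩), pow_succ]
    ring
  refine ⟨Ψ, ⟨fun M v hv => ?_, fun M v => ?_, fun M j hj v hw => ?_, fun M v a b => ?_⟩,
    fun M v => (h1 M M v Subset.rfl).trans_eq (by simp [t]), fun M j hj v => ?_⟩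
  · obtain ⟨M', a, b⟩ := h2 M v
    rw [b]
    refine (sum_le_sum fun z _ => h1 M M' z a).trans ?_
    simp only [t]
    rw [← mul_sum, mul_left_comm]
    exact mul_le_mul_of_nonneg_left (h.sup M' v hv) (by positivity)
  · obtain ⟨M', -, b⟩ := h2 M v
    exact b ▸ mul_nonneg (by positivity) (h.nn _ _)
  · obtain ⟨M', a, b⟩ := h2 M v
    rw [b]
    by_cases hj' : j ∈ M'
    · refine (mul_le_mul_of_nonneg_left (h1 _ _ v (erase_subset_erase j a)) two_pos.le).trans ?_
      have : M.erase j \ M'.erase j = M \ M' := by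
        ext i
        simp only [mem_sdiff, mem_erase]
        by_cases e : i = j <;> simp [e, hj']
      simp only [t]
      rw [this, mul_left_comm]
      exact mul_le_mul_of_nonneg_left (h.cp M' j hj' v hw) (by positivity)
    · rw [h3 M j hj M' v hj']
      exact mul_le_mul_of_nonneg_left (h1 _ _ v (subset_erase.mpr ⟨a, hj'⟩)) two_pos.le
  · obtain ⟨M', -, c⟩ := h2 M v
    exact c ▸ one_le_mul_of_one_le_of_one_le (one_le_pow₀ one_le_two) (h.one _ _ a b)
  · obtain ⟨M', a, b⟩ := h2 (M.erase j) v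
    rw [b, ← h3 M j hj M' v (subset_erase.mp a).2]
    exact h1 _ _ v (subset_erase.mp a).1

lemma Fam.pow (h : Fam W D A Φ) (v : V) (J : Finset ℕ) : ∀ M, J ⊆ M →
    (∀ j ∈ J, W j v) → 2 ^ J.card * Φ (M \ J) v ≤ Φ M v := by
  induction J using Finset.induction_on with
  | empty => simp
  | insert j J hj ih =>
    intro M h1 h2
    refine le_trans ?_ (ih M ((subset_insert _ _).trans h1) fun i hi => h2 i (mem_insert_of_mem hi))
    rw [card_insert_of_notMem hj, pow_succ, mul_assoc, sdiff_insert]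
    exact mul_le_mul_of_nonneg_left (h.cp _ j (mem_sdiff.mpr ⟨h1 (mem_insert_self _ _), hj⟩) v
      (h2 j (mem_insert_self _ _))) (by positivity)

open Classical in
/-- number of visited sets -/
noncomputable def vis (W : ℕ → V → Prop) (M : Finset ℕ) (π : List V) : ℕ :=
  (M.filter fun j => ∃ v ∈ π, W j v).card

open Classical in
lemma vis_cons (M : Finset ℕ) (a : V) (π : List V) : vis W M (a :: π) =
    (M.filter fun j => W j a).card + vis W (M \ M.filter fun j => W j a) π := by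
  rw [vis, vis, ← card_union_of_disjoint (disjoint_left.mpr fun j h1 h2 =>
    (mem_sdiff.mp (mem_filter.mp h2).1).2 h1)]
  congr 1
  ext j
  simp only [mem_filter, mem_union, mem_sdiff, List.mem_cons, exists_eq_or_imp]
  tauto

lemma N_vis (D : Finset V) : ∀ A Φ, Fam W D A Φ → ∀ M a,
    N D A a (fun π => 2 ^ vis W M π) ≤ Z D * Φ M a := by
  classical
  induction D using ind_erase with
  | h D ih =>
    intro A Φ h M a
    have hA : ∀ {J : Finset ℕ}, (0 : ℝ) < 2 ^ J.card := by intro J; positivity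
    by_cases ha : a ∈ D
    swap
    · rw [N_out ha]
      split_ifs with h1
      · exact mul_nonneg (Z_pos _).le (h.nn _ _)
      · refine mul_le_mul_of_nonneg_left (le_trans ?_ (h.pow a (M.filter fun j => W j a) M
          (filter_subset _ _) fun j hj => (mem_filter.mp hj).2)) (Z_pos _).le
        rw [vis_cons, show vis W _ [] = 0 by simp [vis], add_zero]
        exact le_mul_of_one_le_right hA.le (h.one _ _ ha h1)
    obtain ⟨Ψ, h1, h2, h3⟩ := h.clo
    have hg := G_pos wt_one ha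
    have key := ih a ha (insert a A) (fun M x => Ψ M x - Ψ M a / G1 D a a * G1 D x a)
      ⟨fun M x hx => by
        obtain ⟨hxa, hxD⟩ := mem_erase.mp hx
        rw [sum_sub_distrib, ← mul_sum, ← G1_har hxD hxa]
        linarith [h1.sup M x hxD], fun M x => by
        rw [sub_nonneg, div_mul_eq_mul_div, div_le_iff₀ hg]
        by_cases hx : x ∈ D
        · exact hit_le (h1.sup M) (fun _ _ _ _ => h1.nn _ _) ha hx
        · rw [G1, G_off hx, mul_zero]
          exact mul_nonneg (h1.nn _ _) hg.le, fun M j hj x hx => by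
        have := mul_le_mul_of_nonneg_right (h3 M j hj a) (div_nonneg (G_nn D x a) hg.le)
        have := h1.cp M j hj x hx
        simp only [div_mul_eq_mul_div, mul_div_assoc]
        linarith, fun M v hv hv' => by
        rw [mem_insert, not_or] at hv'
        have : v ∉ D := fun h' => hv (mem_erase.mpr ⟨hv'.1, h'⟩)
        simpa [G_off this] using h1.one M v this hv'.2⟩
    rw [N_in ha]
    simp only [vis_cons, pow_add, N_smul]
    refine (sum_le_sum fun z _ => mul_le_mul_of_nonneg_left (key _ z) hA.le).trans ?_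
    rw [← mul_sum, ← mul_sum, sum_sub_distrib, ← mul_sum, Z_erase ha, mul_left_comm,
      mul_comm (G1 D a a), mul_assoc]
    refine mul_le_mul_of_nonneg_left (le_trans ?_ (h.pow a (M.filter fun j => W j a) M
      (filter_subset _ _) fun j hj => (mem_filter.mp hj).2)) (Z_pos _).le
    rw [mul_left_comm]
    refine mul_le_mul_of_nonneg_left (le_trans ?_ (h2 _ a)) hA.le
    have e := G1_eq ha a
    rw [dl_self] at e
    rw [show ∑ z ∈ nb a, G1 D z a = 4 * G1 D a a - 1 by linarith, mul_sub, ← mul_assoc,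
      mul_div_cancel₀ _ hg.ne']
    nlinarith [mul_le_mul_of_nonneg_left (h1.sup (M \ M.filter fun j => W j a) a ha) hg.le]

/-- the explicit family -/
lemma N_vis_le {h : V → ℝ} {ψ : ℕ → V → ℝ} {c ε : ℝ} (M : Finset ℕ)
    (h1 : Har D h) (h2 : ∀ v, v ∉ D → h v = tg A v) (h3 : ∀ v, 0 ≤ h v) (hc : 0 ≤ c)
    (p1 : ∀ j, ∀ v ∈ D, ∑ z ∈ nb v, ψ j z ≤ 4 * ψ j v) (p2 : ∀ j v, 0 ≤ ψ j v)
    (p3 : ∀ j ∈ M, ∀ v, W j v → h v ≤ c ∧ 1 ≤ ψ j v ∧ ∀ i ∈ M, i ≠ j → ψ i v ≤ ε)
    (hε : 0 ≤ ε) (hM : M.card * ε ≤ 1 / 4) (a : V) :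
    N D A a (fun π => 2 ^ vis W M π) ≤ Z D * (h a + 2 * c * ∑ j ∈ M, ψ j a) := by
  classical
  have := N_vis (W := fun j v => j ∈ M ∧ W j v) D A
    (fun K v => h v + 2 * c * ∑ j ∈ K ∩ M, ψ j v) ⟨fun K v hv => by
      rw [sum_add_distrib, ← mul_sum, sum_comm, ← h1 v hv, mul_add, mul_left_comm 4, mul_sum _ _ 4]
      exact add_le_add_right (mul_le_mul_of_nonneg_left (sum_le_sum fun j _ => p1 j v hv)
        (by positivity)) _,
    fun K v => add_nonneg (h3 v) (mul_nonneg (by positivity) (sum_nonneg fun j _ => p2 j v)),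
    fun K j hj v hw => by
      obtain ⟨b1, b2, b3⟩ := p3 j hw.1 v hw.2
      have b4 : ψ j v ≤ ∑ j ∈ K ∩ M, ψ j v :=
        single_le_sum (fun j _ => p2 j v) (mem_inter.mpr ⟨hj, hw.1⟩)
      have b5 : ∑ i ∈ K.erase j ∩ M, ψ i v ≤ 1 / 4 := by
        refine (sum_le_card_nsmul _ _ ε fun i hi => ?_).trans (le_trans ?_ hM)
        · exact b3 i (mem_inter.mp hi).2 (mem_erase.mp (mem_inter.mp hi).1).1
        · rw [nsmul_eq_mul]
          exact mul_le_mul_of_nonneg_right (by exact_mod_cast card_le_card inter_subset_right) hε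
      nlinarith,
    fun K v hv hv' => by
      rw [h2 v hv, tg, if_neg hv']
      exact le_add_of_nonneg_right (mul_nonneg (by positivity) (sum_nonneg fun j _ => p2 j v))⟩ M a
  rw [inter_self] at this
  refine le_trans (le_of_eq (N_congr fun π _ _ => ?_)) this
  unfold vis
  congr 2
  ext j
  simp only [mem_filter]
  exact and_congr_right fun hj => by simp [hj]

end Pool.Agent.P.MP_5fda20_pr.W
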